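import Pool.Agent.Lib.MP_1ad228_ntW.Defs

/-!
JOB A_Mul.  Multiplicativity of the number of pairs with equal `t`-th powers.

PROOF.  `T2_iso`: a ring isomorphism `e` gives the bijection `(a, b) ↦ (e a, e b)` (`Nat.card_congr`, `Equiv.subtypeEquiv`).
`T2_prodR`: `((a, a'), (b, b')) ↦ ((a, b), (a', b'))`, `Prod.ext_iff`, `Nat.card_prod`.
`T2_mul`: `Ideal.quotientMulEquivQuotientProd I J h`.  `T2_prod`: induction on the finset (as `LD_prod` in Lib/MP_1ad228_ntN/LD_Crt.lean; the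
empty product is `1 = ⊤`, `𝓞 K ⧸ ⊤` is trivial, `T2 = 1`; `IsCoprime.prod_right`).
-/

namespace Pool.Agent.Lib.MP_1ad228_ntW

open NumberField Classical Pool.Agent.Lib.MP_1ad228_ntN

theorem T2_iso (t : ℕ) {R S : Type*} [CommRing R] [CommRing S] (e : R ≃+* S) :
    T2 t R = T2 t S := by
  unfold T2
  refine Nat.card_congr (Equiv.subtypeEquiv (e.toEquiv.prodCongr e.toEquiv) ?_)
  intro p
  change p.1 ^ t = p.2 ^ t ↔ (e p.1) ^ t = (e p.2) ^ t
  rw [← map_pow, ← map_pow]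
  exact e.injective.eq_iff.symm

theorem T2_prodR (t : ℕ) (R S : Type*) [CommRing R] [CommRing S] :
    T2 t (R × S) = T2 t R * T2 t S := by
  unfold T2
  rw [← Nat.card_prod]
  refine Nat.card_congr
    { toFun := fun p => (⟨(p.1.1.1, p.1.2.1), ?_⟩, ⟨(p.1.1.2, p.1.2.2), ?_⟩)
      invFun := fun p => ⟨((p.1.1.1, p.2.1.1), (p.1.1.2, p.2.1.2)), ?_⟩
      left_inv := ?_
      right_inv := ?_ }
  · have h := congrArg Prod.fst p.2
    simpa using h
  · have h := congrArg Prod.snd p.2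
    simpa using h
  · have h1 := p.1.2
    have h2 := p.2.2
    exact Prod.ext (by simpa using h1) (by simpa using h2)
  · rintro ⟨⟨⟨a, b⟩, ⟨c, d⟩⟩, h⟩
    rfl
  · rintro ⟨⟨⟨a, b⟩, h⟩, ⟨⟨c, d⟩, h'⟩⟩
    rfl

theorem T2_top (t : ℕ) (R : Type*) [CommRing R] : T2 t (R ⧸ (⊤ : Ideal R)) = 1 := by
  have hss : Subsingleton (R ⧸ (⊤ : Ideal R)) := Ideal.Quotient.subsingleton_iff.2 rfl
  unfold T2
  rw [Nat.card_eq_one_iff_unique]
  refine ⟨inferInstance, ⟨⟨(0, 0), rfl⟩⟩⟩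

variable {K : Type} [Field K] [NumberField K]

theorem T2_mul (t : ℕ) (I J : Ideal (𝓞 K)) (h : IsCoprime I J) :
    T2 t (𝓞 K ⧸ I * J) = T2 t (𝓞 K ⧸ I) * T2 t (𝓞 K ⧸ J) := by
  rw [T2_iso t (Ideal.quotientMulEquivQuotientProd I J h), T2_prodR]

theorem T2_prod (t : ℕ) {ι : Type*} (s : Finset ι) (f : ι → Ideal (𝓞 K))
    (hc : ∀ i ∈ s, ∀ j ∈ s, i ≠ j → IsCoprime (f i) (f j)) :
    T2 t (𝓞 K ⧸ ∏ i ∈ s, f i) = ∏ i ∈ s, T2 t (𝓞 K ⧸ f i) := by
  induction s using Finset.induction_on with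
  | empty =>
    rw [Finset.prod_empty, Finset.prod_empty, Ideal.one_eq_top]
    exact T2_top t (𝓞 K)
  | insert i s hi ih =>
    have h1 := ih (fun j hj k hk => hc j (Finset.mem_insert_of_mem hj) k (Finset.mem_insert_of_mem hk))
    have h2 : IsCoprime (f i) (∏ j ∈ s, f j) := by
      apply IsCoprime.prod_right
      intro j hj
      refine hc i (Finset.mem_insert_self _ _) j (Finset.mem_insert_of_mem hj) ?_
      rintro rfl
      exact hi hj
    rw [Finset.prod_insert hi, Finset.prod_insert hi, T2_mul t _ _ h2, h1]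

end Pool.Agent.Lib.MP_1ad228_ntW
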