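import Pool.Agent.Lib.MP_1ad228_ntW.A_Pow
import Pool.Agent.Lib.MP_1ad228_ntW.A_Mul
import Pool.Agent.Lib.MP_1ad228_ntN.LD_Split
import Pool.Agent.Lib.MP_1ad228_ntN.LD_Del

/-!
JOB A_All.  The bound for the number of pairs with equal `t`-th powers modulo an arbitrary ideal.

PROOF of `T2_le`.  `q0` from `powGood K t ht`.  Let `T0` be the finite set of the nonzero prime ideals `P` with `(t : 𝓞 K) ∈ P` or `absNorm P < q0`
(finite: `t ∈ P` gives `absNorm P ∣ absNorm (span {t}) ≠ 0`, `Ideal.absNorm_dvd_absNorm_of_le`; so all of them have norm `≤ q0 + absNorm (span {t})`;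
`Ideal.finite_setOfPred_absNorm_le`, as in the proof of `locDens` in Lib/MP_1ad228_ntN/LocDens.lean).  `M_P ≥ 1` from `powBad` for `P ∈ T0`, `C = ∏_{P ∈ T0} M_P ≥ 1`.
Let `I ≠ ⊥` and let `T1` be the finite set of the prime ideals `P ≠ ⊥` with `I ≤ P` (finite: `absNorm P ≤ absNorm I`).  `LD_split I hI T1`: `I = (∏ P ∈ T1, P ^ m P) * J`, `J ≠ ⊥`, `¬ J ≤ P` for `P ∈ T1`.
Then `J = ⊤`: otherwise `J ≤ Q`, `Q` maximal (`Ideal.exists_le_maximal`), `I ≤ J ≤ Q` (`Ideal.mul_le_left`), `Q ≠ ⊥`, so `Q ∈ T1`, contradiction.  So `I = ∏ P ∈ T1, P ^ m P`, and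
`T2 = ∏ T2 t (𝓞 K ⧸ P ^ m P)` (`T2_prod`, `LD_cop`) `≤ ∏_{P ∈ T1} M'_P ((absNorm P)^(m P))^(1+a)`, `M'_P = M_P` for `P ∈ T0`, `1` otherwise;
`∏_{P ∈ T1} M'_P ≤ ∏_{P ∈ T0} M_P = C` (`Finset.prod_ite`, `Finset.prod_le_prod_of_subset_of_one_le'` over the reals: write it by hand), and
`∏ ((absNorm P)^(m P))^(1+a) = (absNorm I)^(1+a)` (`Real.finsetProd_rpow`, `map_prod`, `map_pow`).

`TRb_quot`: for `J' : Ideal (𝓞 K ⧸ I)`, `(𝓞 K ⧸ I) ⧸ J' ≃+* 𝓞 K ⧸ J'.comap (Ideal.Quotient.mk I)` (`DoubleQuot`, or the argument of `LD_Del_card` in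
Lib/MP_1ad228_ntN/LD_Del.lean: `RingHom.quotientKerEquivOfSurjective` and `Ideal.quotEquivOfEq`); the comap contains `I`, so it is `≠ ⊥`; `T2_iso`, `T2_le`, `card_quotO`.
-/

namespace Pool.Agent.Lib.MP_1ad228_ntW

open NumberField Classical Pool.Agent.Lib.MP_1ad228_ntN

variable (K : Type) [Field K] [NumberField K]

private theorem A_All_one_le {ι : Type*} (s : Finset ι) (f : ι → ℝ) (h : ∀ i, 1 ≤ f i) :
    1 ≤ ∏ i ∈ s, f i := by
  induction s using Finset.induction_on with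
  | empty => rw [Finset.prod_empty]
  | insert a s ha ih =>
    rw [Finset.prod_insert ha]
    exact one_le_mul_of_one_le_of_one_le (h a) ih

private theorem A_All_prod_le {ι : Type*} (s T : Finset ι) (f : ι → ℝ) (h : ∀ i, 1 ≤ f i) :
    ∏ i ∈ s, (if i ∈ T then f i else 1) ≤ ∏ i ∈ T, f i := by
  have h1 : ∏ i ∈ s, (if i ∈ T then f i else 1) = ∏ i ∈ s.filter (fun i => i ∈ T), f i :=
    (Finset.prod_filter _ _).symm
  have h2 : s.filter (fun i => i ∈ T) ⊆ T := fun i hi => (Finset.mem_filter.1 hi).2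
  rw [h1, ← Finset.prod_sdiff h2]
  have h3 := A_All_one_le (T \ s.filter (fun i => i ∈ T)) f h
  have h4 := A_All_one_le (s.filter (fun i => i ∈ T)) f h
  exact le_mul_of_one_le_left (by linarith) h3

/-- A nonzero ideal is the product of powers of the primes above it. -/
private theorem A_All_fac {K : Type} [Field K] [NumberField K] (I : Ideal (𝓞 K)) (hI : I ≠ ⊥) :
    ∃ (T : Finset (Ideal (𝓞 K))) (m : Ideal (𝓞 K) → ℕ), (∀ P ∈ T, P.IsPrime ∧ P ≠ ⊥) ∧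
      I = ∏ P ∈ T, P ^ m P := by
  have hN0 : Ideal.absNorm I ≠ 0 := by
    intro h
    exact hI (Ideal.absNorm_eq_zero_iff.1 h)
  have hfin := Ideal.finite_setOfPred_absNorm_le (S := 𝓞 K) (Ideal.absNorm I)
  obtain ⟨T, hTdef⟩ : ∃ T : Finset (Ideal (𝓞 K)),
      T = hfin.toFinset.filter (fun P => P.IsPrime ∧ P ≠ ⊥) := ⟨_, rfl⟩
  have hTmem : ∀ P : Ideal (𝓞 K),
      P ∈ T ↔ Ideal.absNorm P ≤ Ideal.absNorm I ∧ P.IsPrime ∧ P ≠ ⊥ := by
    intro P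
    rw [hTdef, Finset.mem_filter, Set.Finite.mem_toFinset]
    rfl
  have hT : ∀ P ∈ T, P.IsPrime ∧ P ≠ ⊥ := fun P hP => ((hTmem P).1 hP).2
  obtain ⟨m, J, h1, h2, h3, _⟩ := LD_split I hI T hT
  have hJ : J = ⊤ := by
    by_contra hne
    obtain ⟨Q, hQ, hle⟩ := Ideal.exists_le_maximal _ hne
    have hQ0 : Q ≠ ⊥ := by
      rintro rfl
      exact h2 (le_bot_iff.1 hle)
    have hIJ : I ≤ J := by
      rw [h1]
      exact Ideal.le_of_dvd (Dvd.intro_left _ rfl)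
    have hd : Ideal.absNorm Q ∣ Ideal.absNorm I :=
      Ideal.absNorm_dvd_absNorm_of_le (hIJ.trans hle)
    exact h3 Q ((hTmem Q).2 ⟨Nat.le_of_dvd (Nat.pos_of_ne_zero hN0) hd, hQ.isPrime, hQ0⟩) hle
  refine ⟨T, m, hT, ?_⟩
  rw [hJ, Ideal.mul_top] at h1
  exact h1

theorem T2_le (t : ℕ) (ht : 2 ≤ t) : ∃ C : ℝ, 1 ≤ C ∧ ∀ I : Ideal (𝓞 K), I ≠ ⊥ →
    (T2 t (𝓞 K ⧸ I) : ℝ) ≤ C * (Ideal.absNorm I : ℝ) ^ (1 + ax t) := by
  obtain ⟨q0, hq0⟩ := powGood K t ht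
  have hM : ∀ P : Ideal (𝓞 K), ∃ M : ℝ, 1 ≤ M ∧ (P.IsPrime → P ≠ ⊥ → ∀ s : ℕ,
      (T2 t (𝓞 K ⧸ P ^ s) : ℝ) ≤ M * ((Ideal.absNorm P : ℝ) ^ s) ^ (1 + ax t)) := by
    intro P
    by_cases hP : P.IsPrime ∧ P ≠ ⊥
    · obtain ⟨M, h1, h2⟩ := powBad t ht P hP.1 hP.2
      exact ⟨M, h1, fun _ _ => h2⟩
    · exact ⟨1, le_refl _, fun h1 h2 => absurd ⟨h1, h2⟩ hP⟩
  choose M hM1 hM2 using hM
  have ht0 : Ideal.span {((t : ℕ) : 𝓞 K)} ≠ ⊥ := by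
    intro h
    rw [Ideal.span_singleton_eq_bot] at h
    have h1 : t = 0 := by exact_mod_cast h
    omega
  have htN : Ideal.absNorm (Ideal.span {((t : ℕ) : 𝓞 K)}) ≠ 0 := by
    intro h
    exact ht0 (Ideal.absNorm_eq_zero_iff.1 h)
  have hB := Ideal.finite_setOfPred_absNorm_le (S := 𝓞 K)
    (q0 + Ideal.absNorm (Ideal.span {((t : ℕ) : 𝓞 K)}))
  obtain ⟨T0, hT0⟩ : ∃ T0 : Finset (Ideal (𝓞 K)), ∀ P : Ideal (𝓞 K),
      Ideal.absNorm P ≤ q0 + Ideal.absNorm (Ideal.span {((t : ℕ) : 𝓞 K)}) → P ∈ T0 := by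
    refine ⟨hB.toFinset, fun P hP => ?_⟩
    rw [Set.Finite.mem_toFinset]
    exact hP
  have hall : ∀ P : Ideal (𝓞 K), P.IsPrime → P ≠ ⊥ → ∀ s : ℕ,
      (T2 t (𝓞 K ⧸ P ^ s) : ℝ) ≤
        (if P ∈ T0 then M P else 1) * ((Ideal.absNorm P : ℝ) ^ s) ^ (1 + ax t) := by
    intro P hP hP0 s
    by_cases h : P ∈ T0
    · rw [if_pos h]
      exact hM2 P hP hP0 s
    · rw [if_neg h, one_mul]
      have hlt : q0 + Ideal.absNorm (Ideal.span {((t : ℕ) : 𝓞 K)}) < Ideal.absNorm P := by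
        by_contra hcon
        exact h (hT0 P (not_lt.1 hcon))
      refine hq0 P hP hP0 ?_ (by omega) s
      intro hmem
      have hle : Ideal.span {((t : ℕ) : 𝓞 K)} ≤ P :=
        (Ideal.span_singleton_le_iff_mem P).2 hmem
      have hd := Nat.le_of_dvd (Nat.pos_of_ne_zero htN) (Ideal.absNorm_dvd_absNorm_of_le hle)
      omega
  refine ⟨∏ P ∈ T0, M P, A_All_one_le T0 M hM1, fun I hI => ?_⟩
  obtain ⟨T, m, hT, hIT⟩ := A_All_fac I hI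
  have h1 : T2 t (𝓞 K ⧸ I) = ∏ P ∈ T, T2 t (𝓞 K ⧸ P ^ m P) := by
    rw [hIT]
    exact T2_prod t T (fun P => P ^ m P) fun P hP Q hQ hPQ =>
      LD_cop (hT P hP).1 (hT P hP).2 (hT Q hQ).1 (hT Q hQ).2 hPQ _ _
  have h2 : (Ideal.absNorm I : ℝ) ^ (1 + ax t) =
      ∏ P ∈ T, ((Ideal.absNorm P : ℝ) ^ m P) ^ (1 + ax t) := by
    have h3 : (Ideal.absNorm I : ℝ) = ∏ P ∈ T, (Ideal.absNorm P : ℝ) ^ m P := by
      rw [hIT, map_prod]
      simp only [map_pow]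
      push_cast
      rfl
    rw [h3, Real.finsetProd_rpow]
    intro P _
    positivity
  rw [h1, h2, Nat.cast_prod]
  calc ∏ P ∈ T, (T2 t (𝓞 K ⧸ P ^ m P) : ℝ)
      ≤ ∏ P ∈ T, ((if P ∈ T0 then M P else 1) *
          ((Ideal.absNorm P : ℝ) ^ m P) ^ (1 + ax t)) := by
        refine Finset.prod_le_prod (fun P _ => Nat.cast_nonneg _) fun P hP => ?_
        exact hall P (hT P hP).1 (hT P hP).2 (m P)
    _ = (∏ P ∈ T, (if P ∈ T0 then M P else 1)) *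
          ∏ P ∈ T, ((Ideal.absNorm P : ℝ) ^ m P) ^ (1 + ax t) := Finset.prod_mul_distrib
    _ ≤ (∏ P ∈ T0, M P) * ∏ P ∈ T, ((Ideal.absNorm P : ℝ) ^ m P) ^ (1 + ax t) := by
        refine mul_le_mul_of_nonneg_right (A_All_prod_le T T0 M hM1) ?_
        exact Finset.prod_nonneg fun P _ => by positivity

private theorem A_All_iso {K : Type} [Field K] [NumberField K] (I : Ideal (𝓞 K))
    (J : Ideal (𝓞 K ⧸ I)) :
    Nonempty (((𝓞 K ⧸ I) ⧸ J) ≃+* (𝓞 K ⧸ J.comap (Ideal.Quotient.mk I))) := by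
  have hsurj : Function.Surjective ((Ideal.Quotient.mk J).comp (Ideal.Quotient.mk I)) := by
    rw [RingHom.coe_comp]
    exact Ideal.Quotient.mk_surjective.comp Ideal.Quotient.mk_surjective
  have hker : RingHom.ker ((Ideal.Quotient.mk J).comp (Ideal.Quotient.mk I)) =
      J.comap (Ideal.Quotient.mk I) := by
    rw [← RingHom.comap_ker, Ideal.mk_ker]
  have e := RingHom.quotientKerEquivOfSurjective hsurj
  exact ⟨e.symm.trans (Ideal.quotEquivOfEq hker)⟩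

theorem TRb_quot (t : ℕ) (ht : 2 ≤ t) : ∃ C : ℝ, 1 ≤ C ∧ ∀ I : Ideal (𝓞 K), I ≠ ⊥ →
    TRb t (𝓞 K ⧸ I) (ax t) C := by
  obtain ⟨C, hC1, hC⟩ := T2_le K t ht
  refine ⟨C, hC1, fun I hI J => ?_⟩
  obtain ⟨e⟩ := A_All_iso I J
  have hbot : J.comap (Ideal.Quotient.mk I) ≠ ⊥ := by
    intro h0
    have hle : I ≤ J.comap (Ideal.Quotient.mk I) := by
      intro x hx
      rw [Ideal.mem_comap, Ideal.Quotient.eq_zero_iff_mem.2 hx]
      exact J.zero_mem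
    rw [h0, le_bot_iff] at hle
    exact hI hle
  rw [T2_iso t e, Nat.card_congr e.toEquiv, card_quotO]
  exact hC _ hbot

end Pool.Agent.Lib.MP_1ad228_ntW
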