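import Pool.Agent.Lib.MP_1ad228_ntW.A_All
import Pool.Agent.Lib.MP_1ad228_ntN.NB_Const

/-!
JOB A_Box.  Pairs of integers of bounded size with `u' ^ t` congruent to `(ν u) ^ t`.

PROOF.  `e = eK K`, `N = absNorm I ≥ 1`, `κ = CK K 0`, `C0` from `T2_le K t ht`.  Let `S` be the filter.  Map `(u, u') ∈ S` to
`(mk I (ν u), mk I u')` in the finite set of the pairs `(α, β)` of `𝓞 K ⧸ I` with `α ^ t = β ^ t` (`Ideal.Quotient.eq`), which has `T2 t (𝓞 K ⧸ I) ≤ C0 N^(1+a)` elements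
(`finite_quot`).  The fibre over `(α, β)`: for two elements `(u, u')`, `(w, w')` of it: `ν (u - w) ∈ I`, so `u - w = ν μ (u - w) - (ν μ - 1)(u - w) ∈ I`, and `u' - w' ∈ I`; all have size `≤ R`
(`mem_OBox`), differences of size `≤ 2 R`; so by `upI 0` (with `ρ v = 2 R`, `pn_const`) the first entries are at most `κ (1 + (2R)^e/N)`, the second entries too, and the fibre has at most
`(κ (1 + (2R)^e/N))^2` elements.  Total `≤ C0 N^(1+a) κ^2 (1 + (2R)^e/N)^2 ≤ C0 κ^2 4^e N^(1+a) (1 + R^e/N)^2`, and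
`N^(1+a) (1 + R^e/N)^2 = N^(a-1) (N + R^e)^2 = N^(a-1) R^(2e) (1 + N/R^e)^2 = PC K a R N` (`Real.rpow_add`, `N^(1+a) = N^(a-1) N^2`).
(`Finset.card_le_mul_card_image_of_maps_to`, as in `alphaCell` of Lib/MP_1ad228_ntN/Alpha.lean.)
-/

namespace Pool.Agent.Lib.MP_1ad228_ntW

open NumberField Classical Pool.Agent.Lib.MP_1ad228_ntN

variable (K : Type) [Field K] [NumberField K]

private theorem A_Box_real (e : ℕ) (a N R κ C0 : ℝ) (hN : 1 ≤ N) (hR : 1 ≤ R) (hC0 : 0 ≤ C0) :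
    C0 * N ^ (1 + a) * (κ * (1 + (2 * R) ^ e / N)) ^ 2 ≤
      C0 * κ ^ 2 * 4 ^ e * (R ^ (2 * e) * N ^ (a - 1) * (1 + N / R ^ e) ^ 2) := by
  have hN0 : 0 < N := by linarith
  have hX : 0 < R ^ e := pow_pos (by linarith) e
  have h2 : (1 : ℝ) ≤ 2 ^ e := one_le_pow₀ (by norm_num)
  have h4 : (4 : ℝ) ^ e = 2 ^ e * 2 ^ e := by
    rw [← mul_pow]
    norm_num
  have h1 : N ^ (1 + a) = N ^ (a - 1) * N ^ 2 := by
    rw [← Real.rpow_natCast N 2, ← Real.rpow_add hN0]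
    congr 1
    push_cast
    ring
  have h3 : 1 + (2 * R) ^ e / N ≤ 2 ^ e * (1 + R ^ e / N) := by
    rw [mul_pow, mul_add, mul_one, mul_div_assoc]
    linarith
  have h30 : 0 ≤ 1 + (2 * R) ^ e / N := by positivity
  have h5 : (1 + (2 * R) ^ e / N) ^ 2 ≤ (2 ^ e * (1 + R ^ e / N)) ^ 2 :=
    pow_le_pow_left₀ h30 h3 2
  have h6 : N ^ 2 * (1 + R ^ e / N) ^ 2 = R ^ (2 * e) * (1 + N / R ^ e) ^ 2 := by
    have h7 : R ^ (2 * e) = (R ^ e) ^ 2 := by
      rw [mul_comm, pow_mul]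
    rw [h7]
    field_simp
    ring
  have hp : 0 ≤ N ^ (a - 1) := Real.rpow_nonneg hN0.le _
  calc C0 * N ^ (1 + a) * (κ * (1 + (2 * R) ^ e / N)) ^ 2
      = C0 * κ ^ 2 * (N ^ (a - 1) * N ^ 2) * (1 + (2 * R) ^ e / N) ^ 2 := by
        rw [h1]
        ring
    _ ≤ C0 * κ ^ 2 * (N ^ (a - 1) * N ^ 2) * (2 ^ e * (1 + R ^ e / N)) ^ 2 := by
        apply mul_le_mul_of_nonneg_left h5
        positivity
    _ = C0 * κ ^ 2 * 4 ^ e * (N ^ (a - 1) * (N ^ 2 * (1 + R ^ e / N) ^ 2)) := by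
        rw [h4]
        ring
    _ = C0 * κ ^ 2 * 4 ^ e * (R ^ (2 * e) * N ^ (a - 1) * (1 + N / R ^ e) ^ 2) := by
        rw [h6]
        ring

theorem cntBox (t : ℕ) (ht : 2 ≤ t) : ∃ C : ℝ, 1 ≤ C ∧ ∀ (R : ℕ), 1 ≤ R →
    ∀ (I : Ideal (𝓞 K)), I ≠ ⊥ → ∀ ν μ : 𝓞 K, ν * μ - 1 ∈ I →
    (((OBox K R ×ˢ OBox K R).filter fun p : 𝓞 K × 𝓞 K => p.2 ^ t - (ν * p.1) ^ t ∈ I).card : ℝ) ≤
      C * PC K (ax t) R (Ideal.absNorm I) := by
  obtain ⟨C0, hC0, hT⟩ := T2_le K t ht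
  have hκ1 : 1 ≤ CK K 0 := CK_one_le K 0
  refine ⟨C0 * CK K 0 ^ 2 * 4 ^ eK K, ?_, ?_⟩
  · have h1 : (1 : ℝ) ≤ CK K 0 ^ 2 := one_le_pow₀ hκ1
    have h2 : (1 : ℝ) ≤ 4 ^ eK K := one_le_pow₀ (by norm_num)
    exact one_le_mul_of_one_le_of_one_le (one_le_mul_of_one_le_of_one_le hC0 h1) h2
  intro R hR I hI ν μ hνμ
  have hR1 : (1 : ℝ) ≤ R := by exact_mod_cast hR
  have hN1 : (1 : ℝ) ≤ Ideal.absNorm I := one_le_absNorm hI
  have hfin : Finite (𝓞 K ⧸ I) := finite_quot hI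
  set S := (OBox K R ×ˢ OBox K R).filter fun p : 𝓞 K × 𝓞 K => p.2 ^ t - (ν * p.1) ^ t ∈ I with hS
  set f : 𝓞 K × 𝓞 K → (𝓞 K ⧸ I) × (𝓞 K ⧸ I) := fun p =>
    (Ideal.Quotient.mk I (ν * p.1), Ideal.Quotient.mk I p.2) with hf
  have hmem : ∀ q ∈ S.image f, q.1 ^ t = q.2 ^ t := by
    intro q hq
    obtain ⟨p, hp, rfl⟩ := Finset.mem_image.1 hq
    have h1 := (Finset.mem_filter.1 hp).2
    simp only [hf]
    rw [← map_pow, ← map_pow]
    symm
    exact Ideal.Quotient.eq.2 h1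
  have himg : (S.image f).card ≤ T2 t (𝓞 K ⧸ I) := by
    rw [T2, ← Nat.card_eq_finsetCard]
    refine Nat.card_le_card_of_injective
      (fun x : (S.image f : Finset _) => (⟨x.1, hmem x.1 x.2⟩ :
        {p : (𝓞 K ⧸ I) × (𝓞 K ⧸ I) // p.1 ^ t = p.2 ^ t})) ?_
    intro x y hxy
    have hv := congrArg Subtype.val hxy
    exact Subtype.ext hv
  -- sets of elements of bounded size in one class
  have hcls : ∀ Z : Finset (𝓞 K), (∀ z ∈ Z, ∀ w ∈ Z, z - w ∈ I) → (∀ z ∈ Z, z ∈ OBox K R) →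
      (Z.card : ℝ) ≤ CK K 0 * (1 + (2 * (R : ℝ)) ^ eK K / Ideal.absNorm I) := by
    intro Z h1 h2
    have h3 := upI 0 Z I hI (fun _ : InfinitePlace K => 2 * (R : ℝ)) (fun v => by positivity)
      (fun z hz w hw => ⟨h1 z hz w hw, fun v => ?_⟩)
    · rw [pn_const] at h3
      exact h3
    · have h4 := mem_OBox.1 (h2 z hz) v
      have h5 := mem_OBox.1 (h2 w hw) v
      have h6 : v ((z - w : 𝓞 K) : K) = v ((z : K) - (w : K)) := by simp
      rw [h6]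
      have h7 := v_sub_le v (z : K) (w : K)
      linarith
  have hfib : ∀ q ∈ S.image f, ((S.filter fun p => f p = q).card : ℝ) ≤
      (CK K 0 * (1 + (2 * (R : ℝ)) ^ eK K / Ideal.absNorm I)) ^ 2 := by
    intro q _
    set F := S.filter fun p => f p = q with hF
    have hFm : ∀ p ∈ F, p.1 ∈ OBox K R ∧ p.2 ∈ OBox K R ∧
        Ideal.Quotient.mk I (ν * p.1) = q.1 ∧ Ideal.Quotient.mk I p.2 = q.2 := by
      intro p hp
      obtain ⟨h1, h2⟩ := Finset.mem_filter.1 hp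
      have h3 := Finset.mem_product.1 (Finset.mem_filter.1 h1).1
      exact ⟨h3.1, h3.2, congrArg Prod.fst h2, congrArg Prod.snd h2⟩
    have hA : ((F.image Prod.fst).card : ℝ) ≤
        CK K 0 * (1 + (2 * (R : ℝ)) ^ eK K / Ideal.absNorm I) := by
      refine hcls _ ?_ ?_
      · intro z hz w hw
        obtain ⟨p, hp, rfl⟩ := Finset.mem_image.1 hz
        obtain ⟨p', hp', rfl⟩ := Finset.mem_image.1 hw
        have h1 : ν * p.1 - ν * p'.1 ∈ I :=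
          Ideal.Quotient.eq.1 ((hFm p hp).2.2.1.trans (hFm p' hp').2.2.1.symm)
        have h2 : p.1 - p'.1 = μ * (ν * p.1 - ν * p'.1) - (p.1 - p'.1) * (ν * μ - 1) := by ring
        rw [h2]
        exact I.sub_mem (I.mul_mem_left _ h1) (I.mul_mem_left _ hνμ)
      · intro z hz
        obtain ⟨p, hp, rfl⟩ := Finset.mem_image.1 hz
        exact (hFm p hp).1
    have hB : ((F.image Prod.snd).card : ℝ) ≤
        CK K 0 * (1 + (2 * (R : ℝ)) ^ eK K / Ideal.absNorm I) := by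
      refine hcls _ ?_ ?_
      · intro z hz w hw
        obtain ⟨p, hp, rfl⟩ := Finset.mem_image.1 hz
        obtain ⟨p', hp', rfl⟩ := Finset.mem_image.1 hw
        exact Ideal.Quotient.eq.1 ((hFm p hp).2.2.2.trans (hFm p' hp').2.2.2.symm)
      · intro z hz
        obtain ⟨p, hp, rfl⟩ := Finset.mem_image.1 hz
        exact (hFm p hp).2.1
    have hsub : F ⊆ F.image Prod.fst ×ˢ F.image Prod.snd := by
      intro p hp
      exact Finset.mem_product.2 ⟨Finset.mem_image_of_mem _ hp, Finset.mem_image_of_mem _ hp⟩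
    have hc : (F.card : ℝ) ≤ ((F.image Prod.fst).card : ℝ) * ((F.image Prod.snd).card : ℝ) := by
      have h1 := Finset.card_le_card hsub
      rw [Finset.card_product] at h1
      exact_mod_cast h1
    refine hc.trans ?_
    rw [pow_two]
    exact mul_le_mul hA hB (Nat.cast_nonneg _) ((Nat.cast_nonneg _).trans hA)
  have hsum : (S.card : ℝ) ≤ (T2 t (𝓞 K ⧸ I) : ℝ) *
      (CK K 0 * (1 + (2 * (R : ℝ)) ^ eK K / Ideal.absNorm I)) ^ 2 := by
    have h1 : (S.card : ℝ) = ∑ q ∈ S.image f, ((S.filter fun p => f p = q).card : ℝ) := by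
      have h2 := Finset.card_eq_sum_card_image f S
      exact_mod_cast h2
    rw [h1]
    refine (Finset.sum_le_sum hfib).trans ?_
    rw [Finset.sum_const, nsmul_eq_mul]
    exact mul_le_mul_of_nonneg_right (by exact_mod_cast himg) (sq_nonneg _)
  refine hsum.trans ?_
  refine (mul_le_mul_of_nonneg_right (hT I hI) (sq_nonneg _)).trans ?_
  exact A_Box_real (eK K) (ax t) (Ideal.absNorm I) R (CK K 0) C0 hN1 hR1 (by linarith)

end Pool.Agent.Lib.MP_1ad228_ntW
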