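import Pool.Agent.Lib.MP_1ad228_ntW.Defs
import Pool.Agent.Lib.MP_1ad228_ntN.LD_Loc

/-!
JOB A_Rec.  Recursion for the number of pairs with equal `t`-th powers modulo `P ^ s`.

PROOF.  `q = absNorm P`, `R_s = 𝓞 K ⧸ P ^ s`; `A, π, j, ρ_m` as in `LD_loc`; every `ρ_m` is surjective (`Ideal.Quotient.mk_surjective` and `ρ_m (j z) = mk z`)
with kernel `π ^ m A`.  Let `s ≥ 1`.  An element `a = ρ_s(α)` of `R_s` is a unit iff `¬ π ∣ α` (`A` is a DVR: `α` is a unit iff `¬ π ∣ α`; if `ρ_s(α)` is a unit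
then `α β - 1 ∈ π^s A`, so `¬ π ∣ α`).  If `a ^ t = b ^ t` then `a` is a unit iff `b` is a unit.  The number of
nonunits of `R_s` is `q ^ (s-1)`: they are `ρ_s(π α)`, the kernel of `R_s → R_1`: `Nat.card R_s = q ^ s` (`card_quotO`), or: the map
`R_{s-1} → R_s`, `ρ_{s-1}(α) ↦ ρ_s(π α)` is a bijection to the nonunits (only the bound `≤` is needed: injective image).
`recS`: the pairs with `a` a nonunit are pairs of nonunits: at most `(q ^ (s-1)) ^ 2`.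
`recT`, `s > t`: for every nonunit `a` of `R_s` choose `a'' ∈ A` with `ρ_s(π a'') = a`.  The map
`(a, b) ↦ (ρ_{s-t}(a''), ρ_{s-t}(b''))` sends the pairs of nonunits with `a ^ t = b ^ t` to the pairs of `R_{s-t}` with equal `t`-th powers:
`ρ_s(π^t (a''^t - b''^t)) = 0`, so `π ^ s ∣ π ^ t (a''^t - b''^t)`, `π ^ (s - t) ∣ a''^t - b''^t`.  The fibre over
`(c, c')`: `a'' ∈ c~ + π ^ (s - t) A`, so `a ∈ ρ_s(π c~) + ρ_s(π ^ (s - t + 1) A)`, and `ρ_s(π ^ (s-t+1) A)` has at most `q ^ (t-1)` elements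
(it is the image of `R_{t-1}` by `ρ_{t-1}(α) ↦ ρ_s(π ^ (s-t+1) α)`), the same for `b`; so the fibre has at most `q ^ (2 (t-1))` elements.
-/

namespace Pool.Agent.Lib.MP_1ad228_ntW

open NumberField Classical Pool.Agent.Lib.MP_1ad228_ntN

section abs

variable {A : Type} [CommRing A] [IsDomain A] [IsDiscreteValuationRing A] {π : A} (hπ : Irreducible π)
  {R : ℕ → Type} [∀ m, CommRing (R m)] (ρ : ∀ m, A →+* R m) (hs : ∀ m, Function.Surjective (ρ m))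
  (hk : ∀ m a, ρ m a = 0 ↔ π ^ m ∣ a)

include hπ in
private theorem A_Rec_unit {a : A} (h : ¬ π ∣ a) : IsUnit a := by
  by_contra hn
  have h1 : a ∈ IsLocalRing.maximalIdeal A := (IsLocalRing.mem_maximalIdeal a).2 hn
  rw [hπ.maximalIdeal_eq, Ideal.mem_span_singleton] at h1
  exact h h1

include hπ hs in
/-- a nonunit is divisible by the uniformizer -/
private theorem A_Rec_non {s : ℕ} (a : R s) (ha : ¬ IsUnit a) : ∃ α : A, ρ s (π * α) = a := by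
  obtain ⟨b, rfl⟩ := hs s a
  by_cases h : π ∣ b
  · obtain ⟨c, rfl⟩ := h
    exact ⟨c, rfl⟩
  · exact absurd ((A_Rec_unit hπ h).map (ρ s)) ha

omit [IsDomain A] [IsDiscreteValuationRing A] in
include hk in
private theorem A_Rec_eq {m : ℕ} {x y : A} : ρ m x = ρ m y ↔ π ^ m ∣ x - y := by
  rw [← hk, map_sub, sub_eq_zero]

private theorem A_Rec_pair {t : ℕ} (ht : 1 ≤ t) {S : Type*} [CommRing S] {a b : S} (h : a ^ t = b ^ t)
    (ha : ¬ IsUnit a) : ¬ IsUnit b := by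
  intro hb
  have h1 : IsUnit (a ^ t) := by
    rw [h]
    exact hb.pow t
  exact ha ((isUnit_pow_iff (by omega)).1 h1)

private theorem A_Rec_split (t : ℕ) (S : Type*) [CommRing S] [Finite S] :
    T2 t S ≤ T2u t S + Nat.card {p : S × S // ¬ IsUnit p.1 ∧ p.1 ^ t = p.2 ^ t} := by
  unfold T2 T2u
  rw [← Nat.card_sum]
  refine Nat.card_le_card_of_injective (fun p => if h : IsUnit p.1.1 then Sum.inl ⟨p.1, h, p.2⟩
    else Sum.inr ⟨p.1, h, p.2⟩) ?_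
  intro p p' h
  simp only at h
  split_ifs at h with h1 h2 h2
  · have h3 := Sum.inl.inj h
    exact Subtype.ext (congrArg (fun z => z.1) h3)
  · have h3 := Sum.inr.inj h
    exact Subtype.ext (congrArg (fun z => z.1) h3)

include hπ hs hk in
/-- the number of pairs of nonunits -/
private theorem A_Rec_N {s t : ℕ} (hs1 : 1 ≤ s) [Finite (R (s - 1))] (ht : 1 ≤ t) :
    Nat.card {p : R s × R s // ¬ IsUnit p.1 ∧ p.1 ^ t = p.2 ^ t} ≤ Nat.card (R (s - 1)) ^ 2 := by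
  choose! α hα using fun a : R s => A_Rec_non hπ ρ hs (s := s) a
  rw [sq, ← Nat.card_prod]
  refine Nat.card_le_card_of_injective (fun p => (ρ (s - 1) (α p.1.1), ρ (s - 1) (α p.1.2))) ?_
  have key : ∀ a b : R s, ¬ IsUnit a → ¬ IsUnit b → ρ (s - 1) (α a) = ρ (s - 1) (α b) → a = b := by
    intro a b ha hb h
    rw [A_Rec_eq ρ hk] at h
    rw [← hα a ha, ← hα b hb, A_Rec_eq ρ hk, ← mul_sub]
    have e : π ^ s = π * π ^ (s - 1) := by rw [← pow_succ']; congr 1; omega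
    rw [e]
    exact mul_dvd_mul_left _ h
  rintro ⟨⟨a, b⟩, ha, hab⟩ ⟨⟨a', b'⟩, ha', hab'⟩ h
  simp only [Prod.mk.injEq] at h
  simp only at ha ha' hab hab'
  have h1 := key a a' ha ha' h.1
  have h2 := key b b' (A_Rec_pair ht hab ha) (A_Rec_pair ht hab' ha') h.2
  exact Subtype.ext (Prod.ext h1 h2)

include hπ hs hk in
private theorem A_Rec_T {s t : ℕ} (hs1 : t < s) [Finite (R (s - t))] [Finite (R (t - 1))] (ht : 1 ≤ t) :
    Nat.card {p : R s × R s // ¬ IsUnit p.1 ∧ p.1 ^ t = p.2 ^ t} ≤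
      Nat.card (R (t - 1)) ^ 2 * T2 t (R (s - t)) := by
  have hπ0 : π ≠ 0 := hπ.ne_zero
  choose! α hα using fun a : R s => A_Rec_non hπ ρ hs (s := s) a
  choose σ hσ using hs (s - t)
  have hε : ∀ a : R s, ∃ ε : A, α a - σ (ρ (s - t) (α a)) = π ^ (s - t) * ε := by
    intro a
    have h1 := hσ (ρ (s - t) (α a))
    exact (A_Rec_eq ρ hk).1 h1.symm
  choose ε hε using hε
  have key : ∀ a b : R s, ¬ IsUnit a → ¬ IsUnit b → ρ (s - t) (α a) = ρ (s - t) (α b) →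
      ρ (t - 1) (ε a) = ρ (t - 1) (ε b) → a = b := by
    intro a b ha hb h h'
    rw [A_Rec_eq ρ hk] at h'
    rw [← hα a ha, ← hα b hb, A_Rec_eq ρ hk, ← mul_sub]
    have e1 : α a - α b = π ^ (s - t) * (ε a - ε b) := by
      have h1 := hε a
      have h2 := hε b
      rw [h] at h1
      linear_combination h1 - h2
    have e : π ^ s = π * (π ^ (s - t) * π ^ (t - 1)) := by
      rw [← pow_add, ← pow_succ']
      congr 1
      omega
    rw [e, e1]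
    exact mul_dvd_mul_left _ (mul_dvd_mul_left _ h')
  have heq : ∀ a b : R s, ¬ IsUnit a → ¬ IsUnit b → a ^ t = b ^ t →
      (ρ (s - t) (α a)) ^ t = (ρ (s - t) (α b)) ^ t := by
    intro a b ha hb h
    rw [← hα a ha, ← hα b hb, ← map_pow, ← map_pow, A_Rec_eq ρ hk, mul_pow, mul_pow, ← mul_sub] at h
    have e : π ^ s = π ^ t * π ^ (s - t) := by
      rw [← pow_add]
      congr 1
      omega
    rw [e] at h
    rw [← map_pow, ← map_pow, A_Rec_eq ρ hk]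
    exact (mul_dvd_mul_iff_left (pow_ne_zero t hπ0)).1 h
  have hc : Nat.card (R (t - 1)) ^ 2 * T2 t (R (s - t)) =
      Nat.card ((R (t - 1) × R (t - 1)) × {p : R (s - t) × R (s - t) // p.1 ^ t = p.2 ^ t}) := by
    rw [Nat.card_prod, Nat.card_prod, sq]
    rfl
  rw [hc]
  refine Nat.card_le_card_of_injective (fun p => ((ρ (t - 1) (ε p.1.1), ρ (t - 1) (ε p.1.2)),
    ⟨(ρ (s - t) (α p.1.1), ρ (s - t) (α p.1.2)),
      heq p.1.1 p.1.2 p.2.1 (A_Rec_pair ht p.2.2 p.2.1) p.2.2⟩)) ?_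
  rintro ⟨⟨a, b⟩, ha, hab⟩ ⟨⟨a', b'⟩, ha', hab'⟩ h
  simp only [Prod.mk.injEq, Subtype.mk.injEq] at h
  simp only at ha ha' hab hab'
  obtain ⟨⟨h1, h2⟩, h3, h4⟩ := h
  exact Subtype.ext (Prod.ext (key a a' ha ha' h3 h1)
    (key b b' (A_Rec_pair ht hab ha) (A_Rec_pair ht hab' ha') h4 h2))

end abs

variable {K : Type} [Field K] [NumberField K]

theorem recS (t s : ℕ) (ht : 1 ≤ t) (hs : 1 ≤ s) (P : Ideal (𝓞 K)) (hP : P.IsPrime) (hP0 : P ≠ ⊥) :
    T2 t (𝓞 K ⧸ P ^ s) ≤ T2u t (𝓞 K ⧸ P ^ s) + Ideal.absNorm P ^ (2 * (s - 1)) := by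
  obtain ⟨A, _, _, _, π, j, ρ, hπ, hj, hρ, hk⟩ := LD_loc P hP hP0
  have hfin : ∀ m, Finite (𝓞 K ⧸ P ^ m) := fun m => finite_quot (pow_ne_zero m hP0)
  have hsur : ∀ m, Function.Surjective (ρ m) := by
    intro m x
    obtain ⟨z, rfl⟩ := Ideal.Quotient.mk_surjective x
    exact ⟨j z, hρ m z⟩
  refine (A_Rec_split t (𝓞 K ⧸ P ^ s)).trans (Nat.add_le_add_left ?_ _)
  refine (A_Rec_N hπ ρ hsur hk hs ht).trans (le_of_eq ?_)
  rw [card_quotO, map_pow, ← pow_mul, mul_comm 2]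

theorem recT (t s : ℕ) (ht : 1 ≤ t) (hs : t < s) (P : Ideal (𝓞 K)) (hP : P.IsPrime)
    (hP0 : P ≠ ⊥) :
    T2 t (𝓞 K ⧸ P ^ s) ≤ T2u t (𝓞 K ⧸ P ^ s) +
      Ideal.absNorm P ^ (2 * (t - 1)) * T2 t (𝓞 K ⧸ P ^ (s - t)) := by
  obtain ⟨A, _, _, _, π, j, ρ, hπ, hj, hρ, hk⟩ := LD_loc P hP hP0
  have hfin : ∀ m, Finite (𝓞 K ⧸ P ^ m) := fun m => finite_quot (pow_ne_zero m hP0)
  have hsur : ∀ m, Function.Surjective (ρ m) := by
    intro m x
    obtain ⟨z, rfl⟩ := Ideal.Quotient.mk_surjective x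
    exact ⟨j z, hρ m z⟩
  refine (A_Rec_split t (𝓞 K ⧸ P ^ s)).trans (Nat.add_le_add_left ?_ _)
  refine (A_Rec_T hπ ρ hsur hk hs ht).trans (le_of_eq ?_)
  rw [card_quotO, map_pow, ← pow_mul, mul_comm 2]

end Pool.Agent.Lib.MP_1ad228_ntW
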