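import Pool.Agent.Lib.MP_1ad228_ntW.A_Unit
import Pool.Agent.Lib.MP_1ad228_ntW.A_Rec

/-!
JOB A_Pow.  The bound modulo prime powers.

PROOF.  `q = absNorm P ≥ 2`, `a = ax t = 1 - 3/(2t) ∈ [1/4, 1)` (`ax_pos`, `ax_lt_one`), `b = 1 + a = 2 - 3/(2 t)`, `G s = (q ^ s) ^ b` (a real power).
Let `M1 ≥ 1` with `T2u t (𝓞 K ⧸ P ^ s) ≤ M1 q ^ s` for all `s` (`unitBad`, or `M1 = t` by `unitGood`), and let `M ≥ 1` with
  `(*)  M1 q^(-a) + q^(-1/2) M ≤ M`.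
Then `T2 t (𝓞 K ⧸ P ^ s) ≤ M * G s` for all `s`, by strong induction on `s`:
`s = 0`: `P ^ 0 = ⊤`, the quotient is trivial, `T2 = 1 ≤ M`.
`1 ≤ s ≤ t` (`recS`): `q ^ s = G s * (q^s)^(-a) ≤ G s * q^(-a)`; and `q ^ (2(s-1)) = (q^s)^b q^(2 s - 2 - s b)`, `2 s - 2 - s b = 3 s/(2t) - 2 ≤ -1/2`, so
 `q ^ (2 (s-1)) ≤ q^(-1/2) G s`.  Total `≤ (M1 q^(-a) + q^(-1/2)) G s ≤ M G s` (`M ≥ 1`).
`s > t` (`recT`): `q ^ (2(t-1)) * G (s - t) = q^(2 t - 2 - t b) G s = q^(-1/2) G s` since `t b = 2 t - 3/2`.  Total `≤ (M1 q^(-a) + q^(-1/2) M) G s ≤ M G s`.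
(work with `Real.rpow`: `Real.rpow_add`, `Real.rpow_natCast`, `Real.rpow_mul`, base `q > 0`; everything is `q ^ (real exponent)`.)
`powBad`: `M = 4 M1`: `M1 q^(-a) ≤ M1`, `q^(-1/2) ≤ 2^(-1/2) ≤ 3/4`, so `(*)` holds: `M1 + 3 M1 = 4 M1`.
`powGood`: `q0` with `t q^(-a) + q^(-1/2) ≤ 1` for `q ≥ q0`: e.g. `t q^(-1/4) ≤ 1/2` (`q ≥ (2t)^4`) and `q^(-1/2) ≤ 1/2` (`q ≥ 4`): `q0 = (2t)^4 + 4`; `M = 1`.
-/

namespace Pool.Agent.Lib.MP_1ad228_ntW

open NumberField Classical Pool.Agent.Lib.MP_1ad228_ntN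

variable {K : Type} [Field K] [NumberField K]

theorem A_Pow_norm {P : Ideal (𝓞 K)} (hP : P.IsPrime) (hP0 : P ≠ ⊥) :
    (2 : ℝ) ≤ (Ideal.absNorm P : ℝ) := by
  have h1 : Ideal.absNorm P ≠ 0 := fun h => hP0 (Ideal.absNorm_eq_zero_iff.1 h)
  have h2 : Ideal.absNorm P ≠ 1 := fun h => hP.ne_top (Ideal.absNorm_eq_one_iff.1 h)
  exact_mod_cast (show 2 ≤ Ideal.absNorm P by omega)

theorem A_Pow_main {t : ℕ} (ht : 2 ≤ t) (P : Ideal (𝓞 K)) (hP : P.IsPrime) (hP0 : P ≠ ⊥)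
    {M1 M : ℝ} (hM1 : 1 ≤ M1) (hM : 1 ≤ M)
    (hu : ∀ s : ℕ, (T2u t (𝓞 K ⧸ P ^ s) : ℝ) ≤ M1 * (Ideal.absNorm P : ℝ) ^ s)
    (hs : M1 * (Ideal.absNorm P : ℝ) ^ (-ax t) + (Ideal.absNorm P : ℝ) ^ (-(1 / 2 : ℝ)) * M ≤ M)
    (s : ℕ) : (T2 t (𝓞 K ⧸ P ^ s) : ℝ) ≤ M * ((Ideal.absNorm P : ℝ) ^ s) ^ (1 + ax t) := by
  have hq := A_Pow_norm hP hP0
  have hq0 : (0 : ℝ) < (Ideal.absNorm P : ℝ) := by linarith
  have hq1 : (1 : ℝ) ≤ (Ideal.absNorm P : ℝ) := by linarith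
  have ha := ax_pos ht
  have ht0 : (0 : ℝ) < t := by exact_mod_cast (show 0 < t by omega)
  have hta : (t : ℝ) * (1 + ax t) = 2 * t - 3 / 2 := by
    unfold ax
    field_simp
    ring
  have hG : ∀ s : ℕ, ((Ideal.absNorm P : ℝ) ^ s) ^ (1 + ax t) =
      (Ideal.absNorm P : ℝ) ^ ((s : ℝ) * (1 + ax t)) := by
    intro s
    rw [← Real.rpow_natCast, ← Real.rpow_mul hq0.le]
  have hU : ∀ s : ℕ, 1 ≤ s → (T2u t (𝓞 K ⧸ P ^ s) : ℝ) ≤
      M1 * (Ideal.absNorm P : ℝ) ^ (-ax t) * (Ideal.absNorm P : ℝ) ^ ((s : ℝ) * (1 + ax t)) := by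
    intro s hs1
    refine (hu s).trans ?_
    rw [mul_assoc, ← Real.rpow_add hq0, ← Real.rpow_natCast]
    refine mul_le_mul_of_nonneg_left ?_ (by linarith)
    apply Real.rpow_le_rpow_of_exponent_le hq1
    have h1 : (1 : ℝ) ≤ s := by exact_mod_cast hs1
    nlinarith
  induction s using Nat.strong_induction_on with
  | _ s ih =>
    rcases Nat.eq_zero_or_pos s with rfl | hs0
    · have h1 : T2 t (𝓞 K ⧸ P ^ 0) ≤ 1 := by
        have h2 : Subsingleton (𝓞 K ⧸ P ^ 0) := by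
          rw [pow_zero, Ideal.one_eq_top]
          exact Ideal.Quotient.subsingleton_iff.2 rfl
        unfold T2
        exact Finite.card_le_one_iff_subsingleton.2 inferInstance
      have h3 : (T2 t (𝓞 K ⧸ P ^ 0) : ℝ) ≤ 1 := by exact_mod_cast h1
      have h4 : ((Ideal.absNorm P : ℝ) ^ 0) ^ (1 + ax t) = 1 := by
        rw [pow_zero, Real.one_rpow]
      rw [h4, mul_one]
      linarith
    · rw [hG]
      have hGp : 0 < (Ideal.absNorm P : ℝ) ^ ((s : ℝ) * (1 + ax t)) := Real.rpow_pos_of_pos hq0 _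
      have hfin : (M1 * (Ideal.absNorm P : ℝ) ^ (-ax t) +
          (Ideal.absNorm P : ℝ) ^ (-(1 / 2 : ℝ)) * M) *
          (Ideal.absNorm P : ℝ) ^ ((s : ℝ) * (1 + ax t)) ≤
          M * (Ideal.absNorm P : ℝ) ^ ((s : ℝ) * (1 + ax t)) :=
        mul_le_mul_of_nonneg_right hs hGp.le
      refine le_trans ?_ hfin
      rw [add_mul]
      rcases Nat.lt_or_ge t s with hst | hst
      · have h1 := recT t s (by omega) hst P hP hP0
        have h2 : (T2 t (𝓞 K ⧸ P ^ s) : ℝ) ≤ (T2u t (𝓞 K ⧸ P ^ s) : ℝ) +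
            (Ideal.absNorm P : ℝ) ^ (2 * (t - 1)) * (T2 t (𝓞 K ⧸ P ^ (s - t)) : ℝ) := by
          exact_mod_cast h1
        refine h2.trans (add_le_add (hU s hs0) ?_)
        have h3 := ih (s - t) (by omega)
        rw [hG] at h3
        refine (mul_le_mul_of_nonneg_left h3 (by positivity)).trans (le_of_eq ?_)
        rw [← Real.rpow_natCast]
        have h4 : ((2 * (t - 1) : ℕ) : ℝ) = 2 * (t : ℝ) - 2 := by
          rw [Nat.cast_mul, Nat.cast_sub (by omega)]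
          push_cast
          ring
        have h5 : ((s - t : ℕ) : ℝ) = (s : ℝ) - t := Nat.cast_sub hst.le
        rw [h4, h5]
        have h6 : (Ideal.absNorm P : ℝ) ^ (2 * (t : ℝ) - 2) *
            (M * (Ideal.absNorm P : ℝ) ^ (((s : ℝ) - t) * (1 + ax t))) =
            M * ((Ideal.absNorm P : ℝ) ^ (2 * (t : ℝ) - 2) *
              (Ideal.absNorm P : ℝ) ^ (((s : ℝ) - t) * (1 + ax t))) := by ring
        have h7 : (Ideal.absNorm P : ℝ) ^ (-(1 / 2 : ℝ)) * M *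
            (Ideal.absNorm P : ℝ) ^ ((s : ℝ) * (1 + ax t)) =
            M * ((Ideal.absNorm P : ℝ) ^ (-(1 / 2 : ℝ)) *
              (Ideal.absNorm P : ℝ) ^ ((s : ℝ) * (1 + ax t))) := by ring
        rw [h6, h7, ← Real.rpow_add hq0, ← Real.rpow_add hq0]
        congr 2
        linear_combination -hta
      · have h1 := recS t s (by omega) hs0 P hP hP0
        have h2 : (T2 t (𝓞 K ⧸ P ^ s) : ℝ) ≤ (T2u t (𝓞 K ⧸ P ^ s) : ℝ) +
            (Ideal.absNorm P : ℝ) ^ (2 * (s - 1)) := by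
          exact_mod_cast h1
        refine h2.trans (add_le_add (hU s hs0) ?_)
        have h4 : ((2 * (s - 1) : ℕ) : ℝ) = 2 * (s : ℝ) - 2 := by
          rw [Nat.cast_mul, Nat.cast_sub hs0]
          push_cast
          ring
        rw [← Real.rpow_natCast, h4]
        have h7 : (Ideal.absNorm P : ℝ) ^ (-(1 / 2 : ℝ)) * M *
            (Ideal.absNorm P : ℝ) ^ ((s : ℝ) * (1 + ax t)) =
            M * ((Ideal.absNorm P : ℝ) ^ (-(1 / 2 : ℝ)) *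
              (Ideal.absNorm P : ℝ) ^ ((s : ℝ) * (1 + ax t))) := by ring
        rw [h7, ← Real.rpow_add hq0]
        have h8 : (Ideal.absNorm P : ℝ) ^ (2 * (s : ℝ) - 2) ≤
            (Ideal.absNorm P : ℝ) ^ (-(1 / 2 : ℝ) + (s : ℝ) * (1 + ax t)) := by
          apply Real.rpow_le_rpow_of_exponent_le hq1
          have h9 : (s : ℝ) ≤ t := by exact_mod_cast hst
          have h10 : 1 + ax t = 2 - 3 / (2 * (t : ℝ)) := by unfold ax; ring
          have h11 : (s : ℝ) * (3 / (2 * (t : ℝ))) ≤ 3 / 2 := by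
            rw [mul_div_assoc', div_le_div_iff₀ (by positivity) (by norm_num)]
            nlinarith
          rw [h10, mul_sub]
          linarith
        refine h8.trans ?_
        exact le_mul_of_one_le_left (Real.rpow_nonneg hq0.le _) hM

theorem powBad (t : ℕ) (ht : 2 ≤ t) (P : Ideal (𝓞 K)) (hP : P.IsPrime) (hP0 : P ≠ ⊥) :
    ∃ M : ℝ, 1 ≤ M ∧ ∀ s : ℕ,
      (T2 t (𝓞 K ⧸ P ^ s) : ℝ) ≤ M * ((Ideal.absNorm P : ℝ) ^ s) ^ (1 + ax t) := by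
  have hq := A_Pow_norm hP hP0
  obtain ⟨M1, hM1, hu⟩ := unitBad t (by omega) P hP hP0
  have hM1' : (1 : ℝ) ≤ M1 := by exact_mod_cast hM1
  refine ⟨4 * M1, by linarith, ?_⟩
  refine A_Pow_main ht P hP hP0 (M1 := M1) (M := 4 * M1) hM1' (by linarith) ?_ ?_
  · intro s
    exact_mod_cast hu s
  · have h1 : (Ideal.absNorm P : ℝ) ^ (-ax t) ≤ 1 :=
      Real.rpow_le_one_of_one_le_of_nonpos (by linarith) (by linarith [ax_pos ht])
    have h2 : (Ideal.absNorm P : ℝ) ^ (-(1 / 2 : ℝ)) ≤ 3 / 4 := by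
      rw [Real.rpow_neg (by linarith), ← Real.sqrt_eq_rpow]
      have h3 : (4 / 3 : ℝ) ≤ Real.sqrt (Ideal.absNorm P : ℝ) := by
        apply Real.le_sqrt_of_sq_le
        linarith
      calc (Real.sqrt (Ideal.absNorm P : ℝ))⁻¹ ≤ (4 / 3 : ℝ)⁻¹ :=
            inv_anti₀ (by norm_num) h3
        _ = 3 / 4 := by norm_num
    have h4 : (M1 : ℝ) * (Ideal.absNorm P : ℝ) ^ (-ax t) ≤ M1 * 1 :=
      mul_le_mul_of_nonneg_left h1 (by linarith)
    have h5 : (Ideal.absNorm P : ℝ) ^ (-(1 / 2 : ℝ)) * (4 * M1) ≤ 3 / 4 * (4 * M1) :=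
      mul_le_mul_of_nonneg_right h2 (by linarith)
    linarith

variable (K) in
theorem powGood (t : ℕ) (ht : 2 ≤ t) : ∃ q0 : ℕ, ∀ P : Ideal (𝓞 K), P.IsPrime → P ≠ ⊥ →
    ((t : ℕ) : 𝓞 K) ∉ P → q0 ≤ Ideal.absNorm P → ∀ s : ℕ,
      (T2 t (𝓞 K ⧸ P ^ s) : ℝ) ≤ ((Ideal.absNorm P : ℝ) ^ s) ^ (1 + ax t) := by
  refine ⟨(2 * t) ^ 4 + 4, fun P hP hP0 hPt hq4 s => ?_⟩
  have hq := A_Pow_norm hP hP0
  have hq0 : (0 : ℝ) < (Ideal.absNorm P : ℝ) := by linarith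
  have hq1 : (1 : ℝ) ≤ (Ideal.absNorm P : ℝ) := by linarith
  have ht0 : (0 : ℝ) < t := by exact_mod_cast (show 0 < t by omega)
  have ht1 : (1 : ℝ) ≤ t := by exact_mod_cast (show 1 ≤ t by omega)
  have hq5 : (2 * (t : ℝ)) ^ 4 + 4 ≤ (Ideal.absNorm P : ℝ) := by exact_mod_cast hq4
  have h := A_Pow_main ht P hP hP0 (M1 := t) (M := 1) ht1 le_rfl (fun s => by
    exact_mod_cast unitGood t (by omega) P hP hP0 hPt s) (by
      have h1 : (Ideal.absNorm P : ℝ) ^ (-ax t) ≤ (Ideal.absNorm P : ℝ) ^ (-(1 / 4 : ℝ)) := by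
        apply Real.rpow_le_rpow_of_exponent_le hq1
        linarith [ax_pos ht]
      have h2 : 2 * (t : ℝ) ≤ (Ideal.absNorm P : ℝ) ^ (1 / 4 : ℝ) := by
        have h3 : ((2 * (t : ℝ)) ^ 4) ^ (1 / 4 : ℝ) ≤ (Ideal.absNorm P : ℝ) ^ (1 / 4 : ℝ) :=
          Real.rpow_le_rpow (by positivity) (by linarith) (by norm_num)
        have h4 : ((2 * (t : ℝ)) ^ 4) ^ (1 / 4 : ℝ) = 2 * (t : ℝ) := by
          have := Real.pow_rpow_inv_natCast (x := 2 * (t : ℝ)) (n := 4) (by positivity)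
            (by norm_num)
          have h4' : (1 / 4 : ℝ) = ((4 : ℕ) : ℝ)⁻¹ := by norm_num
          rw [h4']
          exact this
        linarith
      have h5 : (Ideal.absNorm P : ℝ) ^ (-(1 / 4 : ℝ)) ≤ 1 / (2 * t) := by
        rw [Real.rpow_neg hq0.le, ← one_div]
        exact one_div_le_one_div_of_le (by positivity) h2
      have h6 : (Ideal.absNorm P : ℝ) ^ (-(1 / 2 : ℝ)) ≤ 1 / 2 := by
        rw [Real.rpow_neg hq0.le, ← Real.sqrt_eq_rpow, ← one_div]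
        apply one_div_le_one_div_of_le (by norm_num)
        apply Real.le_sqrt_of_sq_le
        have : (0 : ℝ) ≤ (2 * (t : ℝ)) ^ 4 := by positivity
        linarith
      have h7 : (t : ℝ) * (Ideal.absNorm P : ℝ) ^ (-ax t) ≤ t * (1 / (2 * t)) :=
        mul_le_mul_of_nonneg_left (h1.trans h5) ht0.le
      have h8 : (t : ℝ) * (1 / (2 * t)) = 1 / 2 := by
        field_simp
      linarith) s
  rwa [one_mul] at h

end Pool.Agent.Lib.MP_1ad228_ntW
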