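import Pool.Agent.Lib.MP_1ad228_ntW.Defs
import Pool.Agent.Lib.MP_1ad228_ntN.LD_Loc

/-!
JOB A_Unit.  Pairs of units with equal `t`-th powers modulo a power of a prime ideal.

PROOF.  `q = absNorm P`.  First the number `ρ(s)` of `z` in `𝓞 K ⧸ P ^ s` with `z ^ t = 1`.  If `a` is a unit and
`a ^ t = b ^ t` then `z = b a⁻¹` satisfies `z ^ t = 1` and `(a, b) ↦ (a, z)` is injective, so
`T2u t (𝓞 K ⧸ P ^ s) ≤ q ^ s * ρ(s)` (`card_quotO`, `map_pow`; `finite_quot`).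
Let `A, π, j, ρ_m` be as in `LD_loc` (every `z` of `𝓞 K ⧸ P ^ s` is `ρ_s (j z')`, `z' : 𝓞 K`, `Ideal.Quotient.mk_surjective`).
For `z, z'` in `A` with `z ^ t - 1`, `z' ^ t - 1` divisible by `π ^ s` (`s ≥ 1`, so `z, z'` are units):
`z ^ t - z' ^ t = (z - z') * S`, `S = ∑ z ^ i z' ^ (t - 1 - i)` (`Commute.mul_geom_sum₂`/`mul_geom_sum₂`).
(good case, `(t : 𝓞 K) ∉ P`) if `π ∣ z - z'` then `S ≡ t z ^ (t-1)` modulo `π`, which is a unit (`j t` is a unit), so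
`π ^ s ∣ z - z'`.  So the map `𝓞 K ⧸ P ^ s → 𝓞 K ⧸ P ^ 1` (`Ideal.Quotient.factor`) is injective on the `z` with `z ^ t = 1`, and
in the field `𝓞 K ⧸ P` there are at most `t` such elements (`card_nthRoots`, or the degree of `X ^ t - 1`).
`ρ(s) ≤ t`.  For `s = 0` the ring is trivial, `ρ(0) = 1 ≤ t`.
(general case) `(t : 𝓞 K) ≠ 0`, so there is `D` with `t ∉ P ^ (D + 1)` (`Ideal.iInf_pow_eq_bot`-type lemma, or: `t ∈ P ^ k` for all `k`
gives `q ^ k ∣ absNorm (span {t})`), i.e. `¬ π ^ (D+1) ∣ t` in `A`.  If `z ≡ z'` modulo `π ^ (D+1)` then `S ≡ t z ^ (t-1)`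
modulo `π ^ (D+1)`, so `¬ π ^ (D + 1) ∣ S`, and `π ^ s ∣ (z - z') S` gives `π ^ (s - D) ∣ z - z'`.  So for `s ≥ D + 1` (for
`s ≤ D` use `ρ(s) ≤ q ^ s ≤ q ^ D`): the classes modulo `P ^ (D+1)` are at most `q ^ (D+1)`, in every class all
the `z` lie in one coset of `P ^ (s - D) / P ^ s`, which has `q ^ D` elements.  `ρ(s) ≤ q ^ (2 D + 1)`.  `M = q ^ (2 D + 1)`.
-/

namespace Pool.Agent.Lib.MP_1ad228_ntW

open NumberField Classical Pool.Agent.Lib.MP_1ad228_ntN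

variable {K : Type} [Field K] [NumberField K]

private theorem A_Unit_prime {A : Type*} [CommRing A] [IsDomain A] {π : A} (hπ : Prime π) (D : ℕ) :
    ∀ (s : ℕ) (a b : A), π ^ s ∣ a * b → ¬ π ^ (D + 1) ∣ b → π ^ (s - D) ∣ a := by
  induction D with
  | zero =>
    intro s a b h hb
    rw [zero_add, pow_one] at hb
    rw [Nat.sub_zero]
    exact hπ.pow_dvd_of_dvd_mul_right s hb h
  | succ D ih =>
    intro s a b h hb
    by_cases h1 : π ∣ b
    · obtain ⟨b', rfl⟩ := h1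
      have h2 : ¬ π ^ (D + 1) ∣ b' := by
        intro h3
        apply hb
        rw [pow_succ' π (D + 1)]
        exact mul_dvd_mul_left π h3
      cases s with
      | zero => rw [Nat.zero_sub, pow_zero]; exact one_dvd a
      | succ s =>
        rw [Nat.add_sub_add_right]
        refine ih s a b' ?_ h2
        rw [pow_succ', mul_left_comm] at h
        exact (mul_dvd_mul_iff_left hπ.ne_zero).mp h
    · have h2 := hπ.pow_dvd_of_dvd_mul_right s h1 h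
      exact (pow_dvd_pow π (Nat.sub_le s (D + 1))).trans h2

private theorem A_Unit_key (t : ℕ) (ht : 1 ≤ t) (P : Ideal (𝓞 K)) (hP : P.IsPrime) (hP0 : P ≠ ⊥) (D s : ℕ)
    (hs : D + 1 ≤ s) (hD : ((t : ℕ) : 𝓞 K) ∉ P ^ (D + 1)) (w w' : 𝓞 K) (h1 : w ^ t - 1 ∈ P ^ s)
    (h2 : w' ^ t - 1 ∈ P ^ s) (h3 : w - w' ∈ P ^ (D + 1)) : w - w' ∈ P ^ (s - D) := by
  obtain ⟨A, _, _, _, π, j, ρ, hπ, _, hρ, hρ0⟩ := LD_loc P hP hP0
  have hmem : ∀ (m : ℕ) (z : 𝓞 K), z ∈ P ^ m ↔ π ^ m ∣ j z := by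
    intro m z
    rw [← hρ0 m (j z), hρ, Ideal.Quotient.eq_zero_iff_mem]
  set S : 𝓞 K := ∑ i ∈ Finset.range t, w ^ i * w' ^ (t - 1 - i) with hS
  have hprod : (w - w') * S = w ^ t - w' ^ t := by
    rw [hS, mul_comm]
    exact (Commute.all w w').geom_sum₂_mul t
  have h4 : π ^ s ∣ j (w - w') * j S := by
    rw [← map_mul, hprod, ← hmem]
    have h5 : w ^ t - w' ^ t = (w ^ t - 1) - (w' ^ t - 1) := by ring
    rw [h5]
    exact (P ^ s).sub_mem h1 h2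
  have hwP : w ∉ P := by
    intro hw
    have h5 : w ^ t ∈ P := Ideal.pow_mem_of_mem P hw t ht
    have h6 : w ^ t - 1 ∈ P := Ideal.pow_le_self (by omega) h1
    have h7 : (1 : 𝓞 K) ∈ P := by
      have h8 := P.sub_mem h5 h6
      rwa [sub_sub_cancel] at h8
    exact hP.ne_top ((Ideal.eq_top_iff_one P).mpr h7)
  have hSn : S ∉ P ^ (D + 1) := by
    intro hSm
    have h5 : S - ((t : ℕ) : 𝓞 K) * w ^ (t - 1) ∈ P ^ (D + 1) := by
      have h6 : S - ((t : ℕ) : 𝓞 K) * w ^ (t - 1) =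
          ∑ i ∈ Finset.range t, w ^ i * (w' ^ (t - 1 - i) - w ^ (t - 1 - i)) := by
        have h7 : ((t : ℕ) : 𝓞 K) * w ^ (t - 1) = ∑ i ∈ Finset.range t, w ^ i * w ^ (t - 1 - i) := by
          have h8 : ∀ i ∈ Finset.range t, w ^ i * w ^ (t - 1 - i) = w ^ (t - 1) := by
            intro i hi
            rw [← pow_add]
            congr 1
            have := Finset.mem_range.mp hi
            omega
          rw [Finset.sum_congr rfl h8, Finset.sum_const, Finset.card_range, nsmul_eq_mul]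
        rw [h7, hS, ← Finset.sum_sub_distrib]
        refine Finset.sum_congr rfl fun i _ => ?_
        ring
      rw [h6]
      refine Ideal.sum_mem _ fun i _ => ?_
      refine Ideal.mul_mem_left _ _ ?_
      have h9 : w' - w ∣ w' ^ (t - 1 - i) - w ^ (t - 1 - i) := sub_dvd_pow_sub_pow _ _ _
      refine Ideal.mem_of_dvd _ h9 ?_
      have h10 := (P ^ (D + 1)).neg_mem h3
      rwa [neg_sub] at h10
    have h6 : w ^ (t - 1) * ((t : ℕ) : 𝓞 K) ∈ P ^ (D + 1) := by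
      have h7 := (P ^ (D + 1)).sub_mem hSm h5
      rwa [sub_sub_cancel, mul_comm] at h7
    rcases Ideal.IsPrime.mul_mem_pow P h6 with h7 | h7
    · exact hwP (hP.mem_of_pow_mem _ h7)
    · exact hD h7
  rw [hmem] at hSn
  rw [hmem]
  exact A_Unit_prime hπ.prime D s _ _ h4 hSn

private theorem A_Unit_fac (t : ℕ) (ht : 1 ≤ t) (P : Ideal (𝓞 K)) (hP : P.IsPrime) (hP0 : P ≠ ⊥) (D s : ℕ)
    (hs : D + 1 ≤ s) (hD : ((t : ℕ) : 𝓞 K) ∉ P ^ (D + 1)) (z z' : 𝓞 K ⧸ P ^ s) (h1 : z ^ t = 1)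
    (h2 : z' ^ t = 1)
    (h3 : Ideal.Quotient.factor (Ideal.pow_le_pow_right hs) z = Ideal.Quotient.factor (Ideal.pow_le_pow_right hs) z') :
    Ideal.Quotient.factor (Ideal.pow_le_pow_right (Nat.sub_le s D)) z =
      Ideal.Quotient.factor (Ideal.pow_le_pow_right (Nat.sub_le s D)) z' := by
  obtain ⟨w, rfl⟩ := Ideal.Quotient.mk_surjective z
  obtain ⟨w', rfl⟩ := Ideal.Quotient.mk_surjective z'
  rw [Ideal.Quotient.factor_mk, Ideal.Quotient.factor_mk] at h3 ⊢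
  rw [Ideal.Quotient.eq] at h3 ⊢
  refine A_Unit_key t ht P hP hP0 D s hs hD w w' ?_ ?_ h3
  · rw [← Ideal.Quotient.eq_zero_iff_mem, map_sub, map_pow, h1, map_one, sub_self]
  · rw [← Ideal.Quotient.eq_zero_iff_mem, map_sub, map_pow, h2, map_one, sub_self]

private theorem A_Unit_T2u (t : ℕ) (P : Ideal (𝓞 K)) (hP0 : P ≠ ⊥) (s M : ℕ)
    (h : Nat.card {z : 𝓞 K ⧸ P ^ s // z ^ t = 1} ≤ M) :
    T2u t (𝓞 K ⧸ P ^ s) ≤ M * Ideal.absNorm P ^ s := by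
  have hfin : Finite (𝓞 K ⧸ P ^ s) := finite_quot (pow_ne_zero s hP0)
  have h1 : Nat.card ((𝓞 K ⧸ P ^ s) × {z : 𝓞 K ⧸ P ^ s // z ^ t = 1}) =
      Ideal.absNorm P ^ s * Nat.card {z : 𝓞 K ⧸ P ^ s // z ^ t = 1} := by
    rw [Nat.card_prod, card_quotO, map_pow]
  have h2 : T2u t (𝓞 K ⧸ P ^ s) ≤
      Nat.card ((𝓞 K ⧸ P ^ s) × {z : 𝓞 K ⧸ P ^ s // z ^ t = 1}) := by
    unfold T2u
    refine Nat.card_le_card_of_injective (fun p : {p : (𝓞 K ⧸ P ^ s) × (𝓞 K ⧸ P ^ s) //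
      IsUnit p.1 ∧ p.1 ^ t = p.2 ^ t} => (p.1.1, (⟨p.1.2 * ((p.2.1.unit⁻¹ : (𝓞 K ⧸ P ^ s)ˣ) : 𝓞 K ⧸ P ^ s), ?_⟩ :
        {z : 𝓞 K ⧸ P ^ s // z ^ t = 1}))) ?_
    · have h3 : (p.1.1) * ((p.2.1.unit⁻¹ : (𝓞 K ⧸ P ^ s)ˣ) : 𝓞 K ⧸ P ^ s) = 1 := by
        have h4 := p.2.1.unit.mul_inv
        rwa [IsUnit.unit_spec] at h4
      have h5 := congrArg (fun y => y * ((p.2.1.unit⁻¹ : (𝓞 K ⧸ P ^ s)ˣ) : 𝓞 K ⧸ P ^ s) ^ t) p.2.2
      have h6 : (p.1.1 * ((p.2.1.unit⁻¹ : (𝓞 K ⧸ P ^ s)ˣ) : 𝓞 K ⧸ P ^ s)) ^ t =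
          (p.1.2 * ((p.2.1.unit⁻¹ : (𝓞 K ⧸ P ^ s)ˣ) : 𝓞 K ⧸ P ^ s)) ^ t := by
        rw [mul_pow, mul_pow]
        exact h5
      rw [h3, one_pow] at h6
      exact h6.symm
    · rintro ⟨⟨a, b⟩, ha, hab⟩ ⟨⟨a', b'⟩, ha', hab'⟩ heq
      simp only [Prod.mk.injEq, Subtype.mk.injEq] at heq
      obtain ⟨h3, h4⟩ := heq
      subst h3
      have h5 : b = b' := by
        have h6 := congrArg (fun x => x * a) h4
        simp only [mul_assoc] at h6
        have h7 : ((ha.unit⁻¹ : (𝓞 K ⧸ P ^ s)ˣ) : 𝓞 K ⧸ P ^ s) * a = 1 := by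
          have h8 := ha.unit.inv_mul
          rwa [IsUnit.unit_spec] at h8
        rw [h7, mul_one, mul_one] at h6
        exact h6
      subst h5
      rfl
  calc T2u t (𝓞 K ⧸ P ^ s) ≤ _ := h2
    _ = Ideal.absNorm P ^ s * Nat.card {z : 𝓞 K ⧸ P ^ s // z ^ t = 1} := h1
    _ ≤ Ideal.absNorm P ^ s * M := Nat.mul_le_mul_left _ h
    _ = M * Ideal.absNorm P ^ s := mul_comm _ _

private theorem A_Unit_roots {F : Type*} [CommRing F] [IsDomain F] (t : ℕ) (ht : 1 ≤ t) :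
    Nat.card {x : F // x ^ t = 1} ≤ t := by
  have h1 : {x : F | x ^ t = 1} = ((Polynomial.nthRoots t (1 : F)).toFinset : Set F) := by
    ext x
    rw [Set.mem_setOf_eq, Finset.mem_coe, Multiset.mem_toFinset, Polynomial.mem_nthRoots (by omega)]
  have h2 : Nat.card {x : F // x ^ t = 1} = ({x : F | x ^ t = 1}).ncard := rfl
  rw [h2, h1, Set.ncard_coe_finset]
  exact (Multiset.toFinset_card_le _).trans (Polynomial.card_nthRoots t 1)

private theorem A_Unit_ker (P : Ideal (𝓞 K)) (hP0 : P ≠ ⊥) (D s : ℕ) (hs : D ≤ s) :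
    Nat.card {x : 𝓞 K ⧸ P ^ s // Ideal.Quotient.factor (Ideal.pow_le_pow_right (Nat.sub_le s D) : P ^ s ≤ P ^ (s - D)) x = 0} =
      Ideal.absNorm P ^ D := by
  have hfin : Finite (𝓞 K ⧸ P ^ s) := finite_quot (pow_ne_zero s hP0)
  set f : (𝓞 K ⧸ P ^ s) →+* (𝓞 K ⧸ P ^ (s - D)) :=
    Ideal.Quotient.factor (Ideal.pow_le_pow_right (Nat.sub_le s D)) with hf
  have hsurj : Function.Surjective f.toAddMonoidHom :=
    Ideal.Quotient.factor_surjective (Ideal.pow_le_pow_right (Nat.sub_le s D))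
  have h1 := AddSubgroup.card_mul_index f.toAddMonoidHom.ker
  have h2 : f.toAddMonoidHom.ker.index = Ideal.absNorm P ^ (s - D) := by
    rw [AddSubgroup.index_ker, AddMonoidHom.range_eq_top.mpr hsurj, AddSubgroup.card_top, card_quotO, map_pow]
  have h3 : Nat.card (𝓞 K ⧸ P ^ s) = Ideal.absNorm P ^ D * Ideal.absNorm P ^ (s - D) := by
    rw [card_quotO, map_pow, ← pow_add]
    congr 1
    omega
  rw [h2, h3] at h1
  have h4 : 0 < Ideal.absNorm P ^ (s - D) := by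
    refine pow_pos ?_ _
    exact Nat.pos_of_ne_zero (Ideal.absNorm_ne_zero_iff_mem_nonZeroDivisors.mpr (mem_nonZeroDivisors_of_ne_zero hP0))
  exact Nat.eq_of_mul_eq_mul_right h4 h1

theorem unitGood (t : ℕ) (ht : 1 ≤ t) (P : Ideal (𝓞 K)) (hP : P.IsPrime) (hP0 : P ≠ ⊥)
    (h : ((t : ℕ) : 𝓞 K) ∉ P) (s : ℕ) :
    T2u t (𝓞 K ⧸ P ^ s) ≤ t * Ideal.absNorm P ^ s := by
  refine A_Unit_T2u t P hP0 s t ?_
  have hfin : Finite (𝓞 K ⧸ P ^ s) := finite_quot (pow_ne_zero s hP0)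
  rcases Nat.eq_zero_or_pos s with hs | hs
  · subst hs
    have h1 : Nat.card {z : 𝓞 K ⧸ P ^ 0 // z ^ t = 1} ≤ Nat.card (𝓞 K ⧸ P ^ 0) :=
      Nat.card_le_card_of_injective _ Subtype.val_injective
    have h2 : Nat.card (𝓞 K ⧸ P ^ 0) = 1 := by
      rw [card_quotO, map_pow]
      exact pow_zero _
    rw [h2] at h1
    exact h1.trans ht
  · have hD : ((t : ℕ) : 𝓞 K) ∉ P ^ (0 + 1) := by
      rw [zero_add, pow_one]
      exact h
    have hfin1 : Finite (𝓞 K ⧸ P ^ (0 + 1)) := finite_quot (pow_ne_zero (0 + 1) hP0)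
    have hs1 : 0 + 1 ≤ s := by omega
    have hdom : IsDomain (𝓞 K ⧸ P ^ (0 + 1)) := by
      rw [zero_add, pow_one]
      exact Ideal.Quotient.isDomain P
    refine le_trans (Nat.card_le_card_of_injective (fun z : {z : 𝓞 K ⧸ P ^ s // z ^ t = 1} =>
      (⟨Ideal.Quotient.factor (Ideal.pow_le_pow_right hs1) z.1, ?_⟩ :
        {x : 𝓞 K ⧸ P ^ (0 + 1) // x ^ t = 1})) ?_) (A_Unit_roots t ht)
    · rw [← map_pow, z.2, map_one]
    · rintro ⟨z, hz⟩ ⟨z', hz'⟩ heq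
      have h1 := Subtype.mk.inj heq
      have h2 := A_Unit_fac t ht P hP hP0 0 s hs1 hD z z' hz hz' h1
      obtain ⟨w, rfl⟩ := Ideal.Quotient.mk_surjective z
      obtain ⟨w', rfl⟩ := Ideal.Quotient.mk_surjective z'
      rw [Ideal.Quotient.factor_mk, Ideal.Quotient.factor_mk, Ideal.Quotient.eq] at h2
      rw [Subtype.mk.injEq, Ideal.Quotient.eq]
      exact h2

theorem unitBad (t : ℕ) (ht : 1 ≤ t) (P : Ideal (𝓞 K)) (hP : P.IsPrime) (hP0 : P ≠ ⊥) :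
    ∃ M : ℕ, 1 ≤ M ∧ ∀ s : ℕ, T2u t (𝓞 K ⧸ P ^ s) ≤ M * Ideal.absNorm P ^ s := by
  have ht0 : ((t : ℕ) : 𝓞 K) ≠ 0 := by
    rw [Nat.cast_ne_zero]
    omega
  obtain ⟨D, hD⟩ : ∃ D : ℕ, ((t : ℕ) : 𝓞 K) ∉ P ^ (D + 1) := by
    by_contra hne
    push Not at hne
    have h1 : ((t : ℕ) : 𝓞 K) ∈ ⨅ i : ℕ, P ^ i := by
      rw [Ideal.mem_iInf]
      intro i
      cases i with
      | zero => rw [pow_zero, Ideal.one_eq_top]; exact Submodule.mem_top
      | succ i => exact hne i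
    rw [Ideal.iInf_pow_eq_bot_of_isDomain P hP.ne_top] at h1
    exact ht0 (Ideal.mem_bot.mp h1)
  have hq : 1 ≤ Ideal.absNorm P :=
    Nat.pos_of_ne_zero (Ideal.absNorm_ne_zero_iff_mem_nonZeroDivisors.mpr (mem_nonZeroDivisors_of_ne_zero hP0))
  refine ⟨Ideal.absNorm P ^ (2 * D + 1), Nat.one_le_pow _ _ hq, fun s => A_Unit_T2u t P hP0 s _ ?_⟩
  have hfin : Finite (𝓞 K ⧸ P ^ s) := finite_quot (pow_ne_zero s hP0)
  rcases Nat.lt_or_ge s (D + 1) with hs | hs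
  · have h1 : Nat.card {z : 𝓞 K ⧸ P ^ s // z ^ t = 1} ≤ Nat.card (𝓞 K ⧸ P ^ s) :=
      Nat.card_le_card_of_injective _ Subtype.val_injective
    rw [card_quotO, map_pow] at h1
    exact h1.trans (Nat.pow_le_pow_right hq (by omega))
  · have hfin1 : Finite (𝓞 K ⧸ P ^ (D + 1)) := finite_quot (pow_ne_zero (D + 1) hP0)
    have hft : Fintype (𝓞 K ⧸ P ^ s) := Fintype.ofFinite _
    have hft1 : Fintype (𝓞 K ⧸ P ^ (D + 1)) := Fintype.ofFinite _
    set Z : Finset (𝓞 K ⧸ P ^ s) := Finset.univ.filter (fun z => z ^ t = 1) with hZ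
    have h1 : Nat.card {z : 𝓞 K ⧸ P ^ s // z ^ t = 1} = Z.card := by
      rw [Nat.card_eq_fintype_card, Fintype.card_subtype]
    rw [h1]
    set g : (𝓞 K ⧸ P ^ s) →+* (𝓞 K ⧸ P ^ (D + 1)) :=
      Ideal.Quotient.factor (Ideal.pow_le_pow_right hs) with hg
    have h2 : ∀ a ∈ Z.image g, (Z.filter (fun z => g z = a)).card ≤ Ideal.absNorm P ^ D := by
      intro a ha
      obtain ⟨z0, hz0, rfl⟩ := Finset.mem_image.mp ha
      have hz0' : z0 ^ t = 1 := (Finset.mem_filter.mp hz0).2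
      rw [← A_Unit_ker P hP0 D s (by omega)]
      have h3 : (Z.filter (fun z => g z = g z0)).card =
          Nat.card {z : 𝓞 K ⧸ P ^ s // z ∈ Z.filter (fun z => g z = g z0)} := by
        rw [Nat.card_eq_fintype_card, Fintype.card_coe]
      rw [h3]
      refine Nat.card_le_card_of_injective (fun z : {z : 𝓞 K ⧸ P ^ s // z ∈ Z.filter (fun z => g z = g z0)} =>
        (⟨z.1 - z0, ?_⟩ : {x : 𝓞 K ⧸ P ^ s // Ideal.Quotient.factor
          (Ideal.pow_le_pow_right (Nat.sub_le s D) : P ^ s ≤ P ^ (s - D)) x = 0})) ?_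
      · have h4 := Finset.mem_filter.mp z.2
        have h5 : z.1 ^ t = 1 := (Finset.mem_filter.mp h4.1).2
        rw [map_sub, sub_eq_zero]
        exact A_Unit_fac t ht P hP hP0 D s hs hD z.1 z0 h5 hz0' h4.2
      · rintro ⟨z, hz⟩ ⟨z', hz'⟩ heq
        have h4 := Subtype.mk.inj heq
        exact Subtype.ext (sub_left_injective h4)
    have h3 := Finset.card_le_mul_card_image Z (Ideal.absNorm P ^ D) h2
    have h4 : (Z.image g).card ≤ Ideal.absNorm P ^ (D + 1) := by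
      refine (Finset.card_le_univ _).trans ?_
      rw [← Nat.card_eq_fintype_card, card_quotO, map_pow]
    calc Z.card ≤ Ideal.absNorm P ^ D * (Z.image g).card := h3
      _ ≤ Ideal.absNorm P ^ D * Ideal.absNorm P ^ (D + 1) := Nat.mul_le_mul_left _ h4
      _ = Ideal.absNorm P ^ (2 * D + 1) := by
        rw [← pow_add]
        congr 1
        omega

end Pool.Agent.Lib.MP_1ad228_ntW
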