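import Pool.Agent.Lib.MP_1ad228_ntW.Defs
import Pool.Agent.Lib.MP_1ad228_ntN.NB_Const

/-!
JOB B_Sum.  Sums over ideals with real exponents.

`idTailA`.  `κ = CK K 0`, `X = w + 1 ≥ 1`.  All `I ∈ S` have `absNorm I ≥ X` (natural numbers).  For `j ≥ 0` the `I ∈ S` with `2^j X ≤ absNorm I < 2^(j+1) X` are at most
`κ 2^(j+1) X` (`idCount 0`), and for them `(absNorm I)^(-s) ≤ (2^j X)^(-s)`; so they contribute at most `2 κ (2^j X)^(1-s) = 2 κ X^(1-s) (2^(1-s))^j`.  Sum over `j` (group `S` by `j = Nat.log 2 (absNorm I / (w+1))`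
(natural division: `2^j (w+1) ≤ absNorm I < 2^(j+1) (w+1)`), a finite set of `j`, geometric sum `≤ 1/(1 - 2^(1-s))`): `C = max 1 (2 κ/(1 - 2^(1-s)))`.
`idSumA`.  `0 < a ≤ 1`.  `S` finite set of ideals `I ≠ ⊥` with `absNorm I ≤ X`.  Group by `j = Nat.log 2 (absNorm I)`: `2^j ≤ absNorm I < 2^(j+1)`, at most `κ 2^(j+1)` ideals, each contributing
`(absNorm I)^(a-1) ≤ (2^j)^(a-1)`; so at most `2 κ (2^a)^j`, with `2^j ≤ X`.  `∑_{j ≤ J} (2^a)^j ≤ (2^a)^J * (2^a/(2^a - 1))` where `J` is the largest `j` that occurs, `(2^a)^J = (2^J)^a ≤ X^a`.  `C = max 1 (2 κ 2^a/(2^a - 1))`.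
-/

namespace Pool.Agent.Lib.MP_1ad228_ntW

open NumberField Classical Pool.Agent.Lib.MP_1ad228_ntN

variable (K : Type) [Field K] [NumberField K]

/-- dyadic summation -/
private theorem B_Sum_dy {ι : Type*} (S : Finset ι) (J : ι → ℕ) (M : ℕ) (f : ι → ℝ) (b c : ℕ → ℝ)
    (hJ : ∀ I ∈ S, J I < M) (hf : ∀ I ∈ S, f I ≤ b (J I)) (hb : ∀ j, 0 ≤ b j)
    (hc : ∀ j, ((S.filter (fun I => J I = j)).card : ℝ) ≤ c j) :
    ∑ I ∈ S, f I ≤ ∑ j ∈ Finset.range M, c j * b j := by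
  rw [← Finset.sum_fiberwise_of_maps_to (s := S) (t := Finset.range M) (g := J)
    (fun I hI => Finset.mem_range.mpr (hJ I hI)) f]
  refine Finset.sum_le_sum fun j _ => ?_
  calc ∑ I ∈ S.filter (fun I => J I = j), f I ≤ ∑ I ∈ S.filter (fun I => J I = j), b j := by
        refine Finset.sum_le_sum fun I hI => ?_
        rw [Finset.mem_filter] at hI
        have h := hf I hI.1
        rwa [hI.2] at h
    _ = ((S.filter (fun I => J I = j)).card : ℝ) * b j := by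
        rw [Finset.sum_const, nsmul_eq_mul]
    _ ≤ c j * b j := mul_le_mul_of_nonneg_right (hc j) (hb j)

private theorem B_Sum_geo {r : ℝ} (h0 : 0 ≤ r) (h1 : r < 1) (M : ℕ) :
    ∑ j ∈ Finset.range M, r ^ j ≤ 1 / (1 - r) := by
  have h2 : (∑ j ∈ Finset.range M, r ^ j) * (1 - r) = 1 - r ^ M := by
    have := geom_sum_mul r M
    linarith [this]
  rw [le_div_iff₀ (by linarith), h2]
  linarith [pow_nonneg h0 M]

theorem idTailA (s : ℝ) (hs : 1 < s) : ∃ C : ℝ, 1 ≤ C ∧ ∀ (w : ℕ) (S : Finset (Ideal (𝓞 K))),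
    (∀ I ∈ S, (w : ℝ) < Ideal.absNorm I) →
    ∑ I ∈ S, (Ideal.absNorm I : ℝ) ^ (-s) ≤ C * ((w : ℝ) + 1) ^ (1 - s) := by
  obtain ⟨κ, hκ⟩ : ∃ κ : ℝ, κ = CK K 0 := ⟨_, rfl⟩
  have hcount : ∀ X : ℝ, 1 ≤ X → ∀ S : Finset (Ideal (𝓞 K)),
      (∀ I ∈ S, (Ideal.absNorm I : ℝ) ≤ X) → (S.card : ℝ) ≤ κ * X := by
    intro X hX S hS
    rw [hκ]
    exact idCount 0 hX S hS
  have hκ0 : 0 ≤ κ := by
    have := hcount 1 le_rfl ∅ (fun I hI => absurd hI (Finset.notMem_empty I))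
    rw [Finset.card_empty, Nat.cast_zero, mul_one] at this
    exact this
  have hr0 : (0 : ℝ) < 2 ^ (1 - s) := Real.rpow_pos_of_pos (by norm_num) _
  have hr1 : (2 : ℝ) ^ (1 - s) < 1 := Real.rpow_lt_one_of_one_lt_of_neg (by norm_num) (by linarith)
  refine ⟨max 1 (2 * κ / (1 - 2 ^ (1 - s))), le_max_left _ _, fun w S hS => ?_⟩
  have hw0 : (0 : ℝ) < (w : ℝ) + 1 := by positivity
  have hw1 : (1 : ℝ) ≤ (w : ℝ) + 1 := by linarith [Nat.cast_nonneg (α := ℝ) w]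
  -- the index
  have hN : ∀ I ∈ S, 1 ≤ Ideal.absNorm I / (w + 1) := by
    intro I hI
    have h1 : w < Ideal.absNorm I := by exact_mod_cast hS I hI
    exact (Nat.one_le_div_iff (Nat.succ_pos w)).mpr h1
  have hlow : ∀ I ∈ S, (2 : ℝ) ^ (Nat.log 2 (Ideal.absNorm I / (w + 1))) * ((w : ℝ) + 1) ≤
      Ideal.absNorm I := by
    intro I hI
    have h1 : 2 ^ (Nat.log 2 (Ideal.absNorm I / (w + 1))) ≤ Ideal.absNorm I / (w + 1) :=
      Nat.pow_log_le_self 2 (by have := hN I hI; omega)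
    have h2 : 2 ^ (Nat.log 2 (Ideal.absNorm I / (w + 1))) * (w + 1) ≤ Ideal.absNorm I :=
      (Nat.mul_le_mul_right _ h1).trans (Nat.div_mul_le_self _ _)
    exact_mod_cast h2
  have hup : ∀ I ∈ S, (Ideal.absNorm I : ℝ) ≤
      (2 : ℝ) ^ (Nat.log 2 (Ideal.absNorm I / (w + 1)) + 1) * ((w : ℝ) + 1) := by
    intro I _
    have h1 : Ideal.absNorm I / (w + 1) < 2 ^ (Nat.log 2 (Ideal.absNorm I / (w + 1)) + 1) :=
      Nat.lt_pow_succ_log_self (by norm_num) _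
    have h2 : Ideal.absNorm I < 2 ^ (Nat.log 2 (Ideal.absNorm I / (w + 1)) + 1) * (w + 1) :=
      (Nat.div_lt_iff_lt_mul (Nat.succ_pos w)).mp h1
    exact_mod_cast h2.le
  obtain ⟨M, hM⟩ : ∃ M : ℕ, ∀ I ∈ S, Nat.log 2 (Ideal.absNorm I / (w + 1)) < M := by
    refine ⟨(S.sup fun I => Nat.log 2 (Ideal.absNorm I / (w + 1))) + 1, fun I hI => ?_⟩
    exact Nat.lt_succ_of_le (Finset.le_sup (f := fun I => Nat.log 2 (Ideal.absNorm I / (w + 1))) hI)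
  have hmain := B_Sum_dy S (fun I => Nat.log 2 (Ideal.absNorm I / (w + 1))) M
    (fun I => (Ideal.absNorm I : ℝ) ^ (-s)) (fun j => ((2 : ℝ) ^ j * ((w : ℝ) + 1)) ^ (-s))
    (fun j => κ * ((2 : ℝ) ^ (j + 1) * ((w : ℝ) + 1))) hM
    (fun I hI => Real.rpow_le_rpow_of_nonpos (by positivity) (hlow I hI) (by linarith))
    (fun j => by positivity) (fun j => hcount _ (by
        have : (1 : ℝ) ≤ 2 ^ (j + 1) := one_le_pow₀ (by norm_num)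
        nlinarith) _ (fun I hI => by
        rw [Finset.mem_filter] at hI
        have h := hup I hI.1
        rwa [hI.2] at h))
  refine hmain.trans ?_
  have hterm : ∀ j : ℕ, κ * ((2 : ℝ) ^ (j + 1) * ((w : ℝ) + 1)) *
      ((2 : ℝ) ^ j * ((w : ℝ) + 1)) ^ (-s) = 2 * κ * ((w : ℝ) + 1) ^ (1 - s) *
        ((2 : ℝ) ^ (1 - s)) ^ j := by
    intro j
    have h0 : (0 : ℝ) < 2 ^ j * ((w : ℝ) + 1) := by positivity
    have e1 : ((2 : ℝ) ^ j * ((w : ℝ) + 1)) ^ (1 - s) =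
        ((2 : ℝ) ^ j * ((w : ℝ) + 1)) * ((2 : ℝ) ^ j * ((w : ℝ) + 1)) ^ (-s) := by
      rw [sub_eq_add_neg, Real.rpow_add h0, Real.rpow_one]
    have e2 : ((2 : ℝ) ^ j * ((w : ℝ) + 1)) ^ (1 - s) =
        ((2 : ℝ) ^ (1 - s)) ^ j * ((w : ℝ) + 1) ^ (1 - s) := by
      rw [Real.mul_rpow (by positivity) hw0.le, ← Real.rpow_natCast 2 j, ← Real.rpow_mul (by norm_num),
        mul_comm (j : ℝ) (1 - s), Real.rpow_mul (by norm_num), Real.rpow_natCast]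
    rw [pow_succ]
    linear_combination (-2 * κ) * e1 + 2 * κ * e2
  rw [Finset.sum_congr rfl (fun j _ => hterm j), ← Finset.mul_sum]
  have hg := B_Sum_geo hr0.le hr1 M
  have hX0 : (0 : ℝ) ≤ ((w : ℝ) + 1) ^ (1 - s) := Real.rpow_nonneg hw0.le _
  calc 2 * κ * ((w : ℝ) + 1) ^ (1 - s) * ∑ i ∈ Finset.range M, ((2 : ℝ) ^ (1 - s)) ^ i
      ≤ 2 * κ * ((w : ℝ) + 1) ^ (1 - s) * (1 / (1 - 2 ^ (1 - s))) :=
        mul_le_mul_of_nonneg_left hg (by positivity)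
    _ = (2 * κ / (1 - 2 ^ (1 - s))) * ((w : ℝ) + 1) ^ (1 - s) := by ring
    _ ≤ _ := mul_le_mul_of_nonneg_right (le_max_right _ _) hX0

theorem idSumA (a : ℝ) (ha : 0 < a) (ha1 : a ≤ 1) : ∃ C : ℝ, 1 ≤ C ∧ ∀ X : ℝ, 1 ≤ X →
    ∀ S : Finset (Ideal (𝓞 K)), (∀ I ∈ S, I ≠ ⊥ ∧ (Ideal.absNorm I : ℝ) ≤ X) →
    ∑ I ∈ S, (Ideal.absNorm I : ℝ) ^ (a - 1) ≤ C * X ^ a := by
  obtain ⟨κ, hκ⟩ : ∃ κ : ℝ, κ = CK K 0 := ⟨_, rfl⟩
  have hcount : ∀ X : ℝ, 1 ≤ X → ∀ S : Finset (Ideal (𝓞 K)),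
      (∀ I ∈ S, (Ideal.absNorm I : ℝ) ≤ X) → (S.card : ℝ) ≤ κ * X := by
    intro X hX S hS
    rw [hκ]
    exact idCount 0 hX S hS
  have hκ0 : 0 ≤ κ := by
    have := hcount 1 le_rfl ∅ (fun I hI => absurd hI (Finset.notMem_empty I))
    rw [Finset.card_empty, Nat.cast_zero, mul_one] at this
    exact this
  have hr1 : (1 : ℝ) < 2 ^ a := Real.one_lt_rpow (by norm_num) ha
  refine ⟨max 1 (2 * κ * (2 ^ a / (2 ^ a - 1))), le_max_left _ _, fun X hX S hS => ?_⟩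
  have hX0 : (0 : ℝ) < X := by linarith
  have hN : ∀ I ∈ S, 1 ≤ Ideal.absNorm I := by
    intro I hI
    have h1 : Ideal.absNorm I ≠ 0 := fun h => (hS I hI).1 (Ideal.absNorm_eq_zero_iff.mp h)
    omega
  have hF1 : 1 ≤ ⌊X⌋₊ := Nat.le_floor (by exact_mod_cast hX)
  have hNF : ∀ I ∈ S, Ideal.absNorm I ≤ ⌊X⌋₊ := fun I hI => Nat.le_floor (hS I hI).2
  have hlow : ∀ I ∈ S, (2 : ℝ) ^ (Nat.log 2 (Ideal.absNorm I)) ≤ Ideal.absNorm I := by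
    intro I hI
    have h1 : 2 ^ (Nat.log 2 (Ideal.absNorm I)) ≤ Ideal.absNorm I :=
      Nat.pow_log_le_self 2 (by have := hN I hI; omega)
    exact_mod_cast h1
  have hup : ∀ I ∈ S, (Ideal.absNorm I : ℝ) ≤ (2 : ℝ) ^ (Nat.log 2 (Ideal.absNorm I) + 1) := by
    intro I _
    have h1 : Ideal.absNorm I < 2 ^ (Nat.log 2 (Ideal.absNorm I) + 1) :=
      Nat.lt_pow_succ_log_self (by norm_num) _
    exact_mod_cast h1.le
  have hM : ∀ I ∈ S, Nat.log 2 (Ideal.absNorm I) < Nat.log 2 ⌊X⌋₊ + 1 := fun I hI =>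
    Nat.lt_succ_of_le (Nat.log_mono_right (hNF I hI))
  have hmain := B_Sum_dy S (fun I => Nat.log 2 (Ideal.absNorm I)) (Nat.log 2 ⌊X⌋₊ + 1)
    (fun I => (Ideal.absNorm I : ℝ) ^ (a - 1)) (fun j => ((2 : ℝ) ^ j) ^ (a - 1))
    (fun j => κ * (2 : ℝ) ^ (j + 1)) hM
    (fun I hI => Real.rpow_le_rpow_of_nonpos (by positivity) (hlow I hI) (by linarith))
    (fun j => by positivity) (fun j => hcount _ (one_le_pow₀ (by norm_num)) _ (fun I hI => by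
        rw [Finset.mem_filter] at hI
        have h := hup I hI.1
        rwa [hI.2] at h))
  refine hmain.trans ?_
  have hterm : ∀ j : ℕ, κ * (2 : ℝ) ^ (j + 1) * ((2 : ℝ) ^ j) ^ (a - 1) =
      2 * κ * ((2 : ℝ) ^ a) ^ j := by
    intro j
    have h0 : (0 : ℝ) < 2 ^ j := by positivity
    have e1 : ((2 : ℝ) ^ j) ^ a = ((2 : ℝ) ^ j) ^ (a - 1) * (2 : ℝ) ^ j := by
      have := Real.rpow_add h0 (a - 1) 1
      rw [Real.rpow_one, sub_add_cancel] at this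
      exact this
    have e2 : ((2 : ℝ) ^ j) ^ a = ((2 : ℝ) ^ a) ^ j := by
      rw [← Real.rpow_natCast 2 j, ← Real.rpow_mul (by norm_num),
        mul_comm (j : ℝ) a, Real.rpow_mul (by norm_num), Real.rpow_natCast]
    rw [pow_succ]
    linear_combination (-2 * κ) * e1 + 2 * κ * e2
  rw [Finset.sum_congr rfl (fun j _ => hterm j), ← Finset.mul_sum]
  have hJ : ((2 : ℝ) ^ a) ^ (Nat.log 2 ⌊X⌋₊) ≤ X ^ a := by
    have e2 : ((2 : ℝ) ^ (Nat.log 2 ⌊X⌋₊)) ^ a = ((2 : ℝ) ^ a) ^ (Nat.log 2 ⌊X⌋₊) := by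
      rw [← Real.rpow_natCast 2 (Nat.log 2 ⌊X⌋₊), ← Real.rpow_mul (by norm_num),
        mul_comm ((Nat.log 2 ⌊X⌋₊ : ℕ) : ℝ) a, Real.rpow_mul (by norm_num), Real.rpow_natCast]
    rw [← e2]
    refine Real.rpow_le_rpow (by positivity) ?_ ha.le
    have h1 : 2 ^ (Nat.log 2 ⌊X⌋₊) ≤ ⌊X⌋₊ := Nat.pow_log_le_self 2 (by omega)
    have h2 : ((2 : ℝ) ^ (Nat.log 2 ⌊X⌋₊)) ≤ (⌊X⌋₊ : ℝ) := by exact_mod_cast h1
    exact h2.trans (Nat.floor_le hX0.le)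
  have hg : ∑ j ∈ Finset.range (Nat.log 2 ⌊X⌋₊ + 1), ((2 : ℝ) ^ a) ^ j ≤
      X ^ a * (2 ^ a / (2 ^ a - 1)) := by
    have h2 := geom_sum_mul ((2 : ℝ) ^ a) (Nat.log 2 ⌊X⌋₊ + 1)
    rw [← mul_div_assoc, le_div_iff₀ (by linarith), h2, pow_succ]
    have h3 : (0 : ℝ) < 2 ^ a := by linarith
    nlinarith
  calc 2 * κ * ∑ i ∈ Finset.range (Nat.log 2 ⌊X⌋₊ + 1), ((2 : ℝ) ^ a) ^ i
      ≤ 2 * κ * (X ^ a * (2 ^ a / (2 ^ a - 1))) :=
        mul_le_mul_of_nonneg_left hg (by positivity)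
    _ = (2 * κ * (2 ^ a / (2 ^ a - 1))) * X ^ a := by ring
    _ ≤ _ := mul_le_mul_of_nonneg_right (le_max_right _ _) (Real.rpow_nonneg hX0.le _)

end Pool.Agent.Lib.MP_1ad228_ntW
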