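import Pool.Agent.Lib.MP_1ad228_ntW.CN_X
import Pool.Agent.Lib.MP_1ad228_ntN.CN_Np

/-!
JOB CN_CountT.  Number of good locally prepared pairs `(x, u)`.  (Model: Lib/MP_1ad228_ntN/CN_Count.lean.)

PROOF.  `e = eK K`, `W = WW w`, `I = WI K w`.  `c1` from `cntW`, `c2` from `cntX`, `C1` from `nonPrim K n`.  `c = min c1 c2` (`c1 c2 ≤ ..`), `Nlow = c1 (R/(κ W))^e`.
Let `Z` = the finset of pairs `(z, ζ)`, `z : Vc n (𝓞 K ⧸ I)` unimodular, `ev (tmap mk F) z = ζ^t`: `#Z = smT t I F` (`Nat.card_eq_fintype_card`, as in the model; `finite_quot`).  `lf` = a section of `mk`.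
For `z` let `Xz` = the filter of `cntX` with `x0 = lf ∘ z`, minus the `x` with `x ≠ 0 ∧ ¬ Uni x`, minus the `x` with `¬ HGood H x`: every `x ∈ Xz` is in `GG K B H q o` (`x ≠ 0` because `B ≤ q v (x o)`, `B ≥ 1`), and
`#Xz ≥ c2 (B/W)^(e(n+1)) - C1 ((B/W)^(e(n+1))/(w+1) + B^e) - #{x ∈ VBox K n B | ¬ HGood H x ∧ vmap mk x = z}` (`cntX`, `nonPrim`).
For `(z, ζ) ∈ Z` and `x ∈ Xz` the set `Y x ζ` = the filter of `cntW` with `u0 = lf ζ` has at least `Nlow` elements, and for `u ∈ Y x ζ`: `W ∣ ev F x - u^t` (both are `≡ ζ^t` modulo `I`), so `LV d W κ A o x (ev F x - u^t)`.  The triples `((z, ζ), x, u)` give different pairs `(x, u)` (`mk x = z`, `mk u = ζ`).  So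
`∑_{x ∈ GG} #{u ∈ OBox K R | LV (ev F x - u^t)} ≥ ∑_{(z,ζ) ∈ Z} Nlow #Xz ≥ Nlow (smT (c2 (B/W)^(e(n+1)) - C1 (..)) - ∑_{(z,ζ)} #{¬ HGood, mk x = z})`, and the last sum is at most `W^e #{x ∈ VBox | ¬ HGood H x}` (for every `z` at most `card (𝓞 K ⧸ I) = W^e` values of `ζ`, and every `x` has one `z`; `absNorm_WI`, `card_quotO`).
(If the bracket `c2 (..) - C1 (..)` is negative the inequality still holds as stated, because it is proved term by term with real numbers.)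
-/

namespace Pool.Agent.Lib.MP_1ad228_ntW

open NumberField Classical Pool.Agent.Lib.MP_1ad228_ntN

private theorem CN_CountT_WWpos (w : ℕ) : 1 ≤ WW w := by
  have h : 0 < ∏ p ∈ (Finset.range (w + 1)).filter Nat.Prime, p ^ w := by
    refine Finset.prod_pos fun p hp => ?_
    exact pow_pos (Finset.mem_filter.mp hp).2.pos _
  exact h

/-- Counting by residue classes: the pieces are indexed by the solutions modulo `I`. -/
private theorem CN_CountT_core (K : Type) [Field K] [NumberField K] {n d t : ℕ} (ρ : ℝ)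
    (w B H q κ A R : ℕ) (hB1 : 1 ≤ B) (o : Fin (n + 1)) (F : Ten n d (𝓞 K)) (N L : ℝ) (hN : 0 ≤ N)
    (hW : ∀ x : Vc n (𝓞 K), (∀ v : InfinitePlace K, NearX t v o ρ A B F x) → ∀ u0 : 𝓞 K,
      N ≤ (((OBox K R).filter fun u => ((WW w : ℕ) : 𝓞 K) ∣ u - u0 ∧ ∀ v : InfinitePlace K,
        (κ : ℝ) * v ((ev F x - u ^ t : 𝓞 K) : K) ≤ A * v (x o : K) ^ d).card : ℝ))
    (hX : ∀ x0 : Vc n (𝓞 K), Uni (vmap (Ideal.Quotient.mk (WI K w)) x0) →
      L ≤ ((((VBox K n B).filter fun x => (∀ l, ((WW w : ℕ) : 𝓞 K) ∣ x l - x0 l) ∧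
        (∀ v : InfinitePlace K, (B : ℝ) ≤ q * v (x o : K)) ∧
        ∀ v, NearX t v o ρ A B F x) \
        ((VBox K n B).filter fun x => (∀ l, ((WW w : ℕ) : 𝓞 K) ∣ x l - x0 l) ∧ x ≠ 0 ∧
          ¬ Uni x)).card : ℝ)) :
    N * ((smT t (WI K w) F : ℝ) * L -
        (WW w : ℝ) ^ eK K * (((VBox K n B).filter fun x => ¬ HGood H x).card : ℝ)) ≤
      ∑ x ∈ GG K B H q o,
        (((OBox K R).filter fun u => LV d (WW w) κ A o x (ev F x - u ^ t)).card : ℝ) := by
  have hWp := CN_CountT_WWpos w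
  have hWO : ((WW w : ℕ) : 𝓞 K) ≠ 0 := Nat.cast_ne_zero.2 (by omega)
  have hI : WI K w ≠ ⊥ := by
    unfold WI
    rw [Ne, Ideal.span_singleton_eq_bot]
    exact hWO
  have hfin : Finite (𝓞 K ⧸ WI K w) := Ideal.finiteQuotientOfFreeOfNeBot (WI K w) hI
  have hft : Fintype (𝓞 K ⧸ WI K w) := Fintype.ofFinite _
  have hdvd : ∀ a b : 𝓞 K, Ideal.Quotient.mk (WI K w) a = Ideal.Quotient.mk (WI K w) b ↔
      ((WW w : ℕ) : 𝓞 K) ∣ a - b := by
    intro a b
    rw [Ideal.Quotient.eq, WI, Ideal.mem_span_singleton]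
  have hcardQ : (Fintype.card (𝓞 K ⧸ WI K w) : ℝ) = (WW w : ℝ) ^ eK K := by
    have h1 : Nat.card (𝓞 K ⧸ WI K w) = WW w ^ eK K := by
      rw [card_quotO]
      unfold WI eK
      rw [Ideal.absNorm_span_natCast, RingOfIntegers.rank]
    rw [← Nat.card_eq_fintype_card, h1]
    push_cast
    rfl
  obtain ⟨lf, hlf⟩ : ∃ lf : (𝓞 K ⧸ WI K w) → 𝓞 K, ∀ z, Ideal.Quotient.mk (WI K w) (lf z) = z :=
    ⟨fun z => (Ideal.Quotient.mk_surjective z).choose,
      fun z => (Ideal.Quotient.mk_surjective z).choose_spec⟩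
  obtain ⟨Z, hZ⟩ : ∃ Z : Finset (Vc n (𝓞 K ⧸ WI K w) × (𝓞 K ⧸ WI K w)),
      Z = Finset.univ.filter (fun p => Uni p.1 ∧
        ev (tmap (Ideal.Quotient.mk (WI K w)) F) p.1 = p.2 ^ t) := ⟨_, rfl⟩
  have hsm : smT t (WI K w) F = Z.card := by
    rw [hZ]
    unfold smT smRT
    rw [Nat.card_eq_fintype_card, Fintype.card_subtype]
  have hmemZ : ∀ p, p ∈ Z ↔ Uni p.1 ∧
      ev (tmap (Ideal.Quotient.mk (WI K w)) F) p.1 = p.2 ^ t := by
    intro p
    rw [hZ, Finset.mem_filter]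
    exact ⟨fun h => h.2, fun h => ⟨Finset.mem_univ _, h⟩⟩
  -- the solutions above `x`
  obtain ⟨U, hU⟩ : ∃ U : Vc n (𝓞 K) → Finset (𝓞 K), U = fun x =>
      (OBox K R).filter fun u => LV d (WW w) κ A o x (ev F x - u ^ t) := ⟨_, rfl⟩
  have hmU : ∀ x u, u ∈ U x ↔ u ∈ OBox K R ∧ LV d (WW w) κ A o x (ev F x - u ^ t) := by
    intro x u
    rw [hU]
    exact Finset.mem_filter
  obtain ⟨G, hG⟩ : ∃ G : Finset (Vc n (𝓞 K)), G = (GG K B H q o).filter (fun x =>
      ∀ v : InfinitePlace K, NearX t v o ρ A B F x) := ⟨_, rfl⟩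
  obtain ⟨Hs, hHs⟩ : ∃ Hs : Finset (Vc n (𝓞 K)), Hs = (VBox K n B).filter fun x => ¬ HGood H x :=
    ⟨_, rfl⟩
  have hevmk : ∀ x : Vc n (𝓞 K), ev (tmap (Ideal.Quotient.mk (WI K w)) F)
      (vmap (Ideal.Quotient.mk (WI K w)) x) = Ideal.Quotient.mk (WI K w) (ev F x) :=
    fun x => ev_map _ F x
  -- step 1
  have hs1 : ∀ x ∈ G, N * ((Z.filter fun p => vmap (Ideal.Quotient.mk (WI K w)) x = p.1).card : ℝ) ≤
      ((U x).card : ℝ) := by
    intro x hx
    have hxG : ∀ v : InfinitePlace K, NearX t v o ρ A B F x := by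
      rw [hG, Finset.mem_filter] at hx
      exact hx.2
    have hone : ∀ p ∈ Z.filter (fun p => vmap (Ideal.Quotient.mk (WI K w)) x = p.1),
        N ≤ (((U x).filter fun u => Ideal.Quotient.mk (WI K w) u = p.2).card : ℝ) := by
      intro p hp
      obtain ⟨hpZ, hpx⟩ := Finset.mem_filter.mp hp
      obtain ⟨_, hpe⟩ := (hmemZ p).1 hpZ
      refine (hW x hxG (lf p.2)).trans ?_
      have hsub : ((OBox K R).filter fun u => ((WW w : ℕ) : 𝓞 K) ∣ u - lf p.2 ∧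
          ∀ v : InfinitePlace K, (κ : ℝ) * v ((ev F x - u ^ t : 𝓞 K) : K) ≤ A * v (x o : K) ^ d) ⊆
          (U x).filter fun u => Ideal.Quotient.mk (WI K w) u = p.2 := by
        intro u hu
        obtain ⟨hu1, hu2, hu3⟩ := Finset.mem_filter.mp hu
        have hmk : Ideal.Quotient.mk (WI K w) u = p.2 := by
          rw [(hdvd u (lf p.2)).2 hu2, hlf]
        refine Finset.mem_filter.mpr ⟨(hmU x u).2 ⟨hu1, ?_, hu3⟩, hmk⟩
        have h1 : Ideal.Quotient.mk (WI K w) (ev F x) = Ideal.Quotient.mk (WI K w) (u ^ t) := by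
          rw [← hevmk, hpx, hpe, map_pow, hmk]
        exact (hdvd _ _).1 h1
      exact_mod_cast Finset.card_le_card hsub
    have hdisj : ∀ p ∈ Z.filter (fun p => vmap (Ideal.Quotient.mk (WI K w)) x = p.1),
        ∀ p' ∈ Z.filter (fun p => vmap (Ideal.Quotient.mk (WI K w)) x = p.1), p ≠ p' →
        Disjoint ((U x).filter fun u => Ideal.Quotient.mk (WI K w) u = p.2)
          ((U x).filter fun u => Ideal.Quotient.mk (WI K w) u = p'.2) := by
      intro p hp p' hp' hne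
      rw [Finset.disjoint_left]
      intro u hu hu'
      have h1 := (Finset.mem_filter.mp hu).2
      have h2 := (Finset.mem_filter.mp hu').2
      have h3 := (Finset.mem_filter.mp hp).2
      have h4 := (Finset.mem_filter.mp hp').2
      exact hne (Prod.ext (h3.symm.trans h4) (h1.symm.trans h2))
    have hcard := Finset.card_biUnion hdisj
    have hle : ((Z.filter fun p => vmap (Ideal.Quotient.mk (WI K w)) x = p.1).biUnion
        fun p => (U x).filter fun u => Ideal.Quotient.mk (WI K w) u = p.2) ⊆ U x := by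
      intro u hu
      obtain ⟨p, _, hp⟩ := Finset.mem_biUnion.mp hu
      exact (Finset.mem_filter.mp hp).1
    have hle2 := Finset.card_le_card hle
    rw [hcard] at hle2
    calc N * ((Z.filter fun p => vmap (Ideal.Quotient.mk (WI K w)) x = p.1).card : ℝ)
        = ∑ _p ∈ Z.filter (fun p => vmap (Ideal.Quotient.mk (WI K w)) x = p.1), N := by
          rw [Finset.sum_const, nsmul_eq_mul, mul_comm]
      _ ≤ ∑ p ∈ Z.filter (fun p => vmap (Ideal.Quotient.mk (WI K w)) x = p.1),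
          (((U x).filter fun u => Ideal.Quotient.mk (WI K w) u = p.2).card : ℝ) :=
          Finset.sum_le_sum hone
      _ ≤ ((U x).card : ℝ) := by exact_mod_cast hle2
  -- step 2
  have hs2 : N * ∑ x ∈ G, ((Z.filter fun p => vmap (Ideal.Quotient.mk (WI K w)) x = p.1).card : ℝ) ≤
      ∑ x ∈ GG K B H q o, ((U x).card : ℝ) := by
    rw [Finset.mul_sum]
    refine (Finset.sum_le_sum hs1).trans ?_
    refine Finset.sum_le_sum_of_subset_of_nonneg ?_ fun _ _ _ => Nat.cast_nonneg _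
    rw [hG]
    exact Finset.filter_subset _ _
  -- step 3
  have hs3 : ∑ x ∈ G, ((Z.filter fun p => vmap (Ideal.Quotient.mk (WI K w)) x = p.1).card : ℝ) =
      ∑ p ∈ Z, ((G.filter fun x => vmap (Ideal.Quotient.mk (WI K w)) x = p.1).card : ℝ) := by
    have h := Finset.sum_card_bipartiteAbove_eq_sum_card_bipartiteBelow (s := G) (t := Z)
      (fun (x : Vc n (𝓞 K)) (p : Vc n (𝓞 K ⧸ WI K w) × (𝓞 K ⧸ WI K w)) =>
        vmap (Ideal.Quotient.mk (WI K w)) x = p.1)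
    unfold Finset.bipartiteAbove Finset.bipartiteBelow at h
    exact_mod_cast h
  -- step 4
  have hs4 : ∀ p ∈ Z, L - ((Hs.filter fun x => vmap (Ideal.Quotient.mk (WI K w)) x = p.1).card : ℝ) ≤
      ((G.filter fun x => vmap (Ideal.Quotient.mk (WI K w)) x = p.1).card : ℝ) := by
    intro p hp
    obtain ⟨hpU, _⟩ := (hmemZ p).1 hp
    have h1 := hX (fun l => lf (p.1 l)) (by
      have h2 : vmap (Ideal.Quotient.mk (WI K w)) (fun l => lf (p.1 l)) = p.1 := by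
        funext l
        exact hlf (p.1 l)
      rw [h2]
      exact hpU)
    refine sub_le_iff_le_add.2 (h1.trans ?_)
    have hsub : (((VBox K n B).filter fun x => (∀ l, ((WW w : ℕ) : 𝓞 K) ∣ x l - lf (p.1 l)) ∧
        (∀ v : InfinitePlace K, (B : ℝ) ≤ q * v (x o : K)) ∧
        ∀ v, NearX t v o ρ A B F x) \
        ((VBox K n B).filter fun x => (∀ l, ((WW w : ℕ) : 𝓞 K) ∣ x l - lf (p.1 l)) ∧ x ≠ 0 ∧
          ¬ Uni x)) ⊆
        (G.filter fun x => vmap (Ideal.Quotient.mk (WI K w)) x = p.1) ∪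
          (Hs.filter fun x => vmap (Ideal.Quotient.mk (WI K w)) x = p.1) := by
      intro x hx
      obtain ⟨hxX, hxY⟩ := Finset.mem_sdiff.mp hx
      obtain ⟨hV, hcl, hpo, hnear⟩ := Finset.mem_filter.mp hxX
      have hcx : vmap (Ideal.Quotient.mk (WI K w)) x = p.1 := by
        funext l
        show Ideal.Quotient.mk (WI K w) (x l) = p.1 l
        have h1 := (hdvd (x l) (lf (p.1 l))).2 (hcl l)
        rw [h1, hlf]
      rw [Finset.mem_union]
      by_cases hg : HGood H x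
      · left
        have hx0 : x ≠ 0 := by
          intro h0
          obtain ⟨v⟩ : Nonempty (InfinitePlace K) := inferInstance
          have h2 := hpo v
          have h3 : ((x o : 𝓞 K) : K) = 0 := by
            rw [h0, Pi.zero_apply]
            exact map_zero (algebraMap (𝓞 K) K)
          rw [h3, v_zero, mul_zero] at h2
          have h1 : (1 : ℝ) ≤ B := by exact_mod_cast hB1
          linarith
        have hUx : Uni x := by
          by_contra hUx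
          exact hxY (Finset.mem_filter.mpr ⟨hV, hcl, hx0, hUx⟩)
        refine Finset.mem_filter.mpr ⟨?_, hcx⟩
        rw [hG]
        refine Finset.mem_filter.mpr ⟨?_, hnear⟩
        unfold GG
        exact Finset.mem_filter.mpr ⟨hV, hpo, hUx, hg⟩
      · right
        refine Finset.mem_filter.mpr ⟨?_, hcx⟩
        rw [hHs]
        exact Finset.mem_filter.mpr ⟨hV, hg⟩
    have h5 := (Finset.card_le_card hsub).trans (Finset.card_union_le _ _)
    exact_mod_cast h5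
  -- step 5
  have hs5 : ∑ p ∈ Z, ((Hs.filter fun x => vmap (Ideal.Quotient.mk (WI K w)) x = p.1).card : ℝ) ≤
      (WW w : ℝ) ^ eK K * (Hs.card : ℝ) := by
    have h1 : ∑ p ∈ Z, ((Hs.filter fun x => vmap (Ideal.Quotient.mk (WI K w)) x = p.1).card : ℝ) ≤
        ∑ p : Vc n (𝓞 K ⧸ WI K w) × (𝓞 K ⧸ WI K w),
          ((Hs.filter fun x => vmap (Ideal.Quotient.mk (WI K w)) x = p.1).card : ℝ) :=
      Finset.sum_le_sum_of_subset_of_nonneg (Finset.subset_univ _) fun _ _ _ => Nat.cast_nonneg _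
    have h2 : ∑ p : Vc n (𝓞 K ⧸ WI K w) × (𝓞 K ⧸ WI K w),
          ((Hs.filter fun x => vmap (Ideal.Quotient.mk (WI K w)) x = p.1).card : ℝ) =
        (WW w : ℝ) ^ eK K * ∑ z : Vc n (𝓞 K ⧸ WI K w),
          ((Hs.filter fun x => vmap (Ideal.Quotient.mk (WI K w)) x = z).card : ℝ) := by
      rw [Fintype.sum_prod_type, Finset.mul_sum]
      refine Finset.sum_congr rfl fun z _ => ?_
      show ∑ _y : 𝓞 K ⧸ WI K w,
        ((Hs.filter fun x => vmap (Ideal.Quotient.mk (WI K w)) x = z).card : ℝ) = _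
      rw [Finset.sum_const, nsmul_eq_mul, Finset.card_univ, hcardQ]
    have h3 : Hs.card = ∑ z : Vc n (𝓞 K ⧸ WI K w),
        (Hs.filter fun x => vmap (Ideal.Quotient.mk (WI K w)) x = z).card :=
      Finset.card_eq_sum_card_fiberwise fun x _ => Finset.mem_coe.2 (Finset.mem_univ _)
    have h4 : (Hs.card : ℝ) = ∑ z : Vc n (𝓞 K ⧸ WI K w),
        ((Hs.filter fun x => vmap (Ideal.Quotient.mk (WI K w)) x = z).card : ℝ) := by
      exact_mod_cast h3
    rw [h4]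
    exact h1.trans (le_of_eq h2)
  -- assembly
  have hfinal : (smT t (WI K w) F : ℝ) * L - (WW w : ℝ) ^ eK K * (Hs.card : ℝ) ≤
      ∑ x ∈ G, ((Z.filter fun p => vmap (Ideal.Quotient.mk (WI K w)) x = p.1).card : ℝ) := by
    rw [hs3, hsm]
    have h6 := Finset.sum_le_sum hs4
    rw [Finset.sum_sub_distrib, Finset.sum_const, nsmul_eq_mul] at h6
    linarith
  have h7 := mul_le_mul_of_nonneg_left hfinal hN
  rw [← hHs]
  refine h7.trans (hs2.trans (le_of_eq ?_))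
  rw [hU]

theorem countT (K : Type) [Field K] [NumberField K] (n d t m : ℕ) (hn : 1 ≤ n) (hd : d = t * m)
    (ht : 1 ≤ t) (ρ : ℝ) (hρ : 0 < ρ) (hρ1 : ρ ≤ 1) : ∃ c C : ℝ, 0 < c ∧ c ≤ 1 ∧ 0 ≤ C ∧
    ∀ (o : Fin (n + 1)) (q κ w A B H R : ℕ), 1 ≤ ρ * q → 1 ≤ κ → 1 ≤ w → 1 ≤ A → 1 ≤ B →
    RC n m t d A B R → (κ : ℝ) * WW w ≤ c * R → (WW w : ℝ) ≤ c * B → ∀ F ∈ Box K n d A,
    (∀ v, RobT t v o ρ (scT v A F)) →
    c * ((R : ℝ) / (κ * WW w)) ^ eK K *
      ((smT t (WI K w) F : ℝ) * (c * ((B : ℝ) / WW w) ^ (eK K * (n + 1)) -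
        C * (((B : ℝ) / WW w) ^ (eK K * (n + 1)) / (w + 1) + (B : ℝ) ^ eK K)) -
        (WW w : ℝ) ^ eK K * (((VBox K n B).filter fun x => ¬ HGood H x).card : ℝ)) ≤
      ∑ x ∈ GG K B H q o,
        (((OBox K R).filter fun u => LV d (WW w) κ A o x (ev F x - u ^ t)).card : ℝ) := by
  obtain ⟨c1, hc10, hc11, hcntW⟩ := cntW K n d t m hd ht ρ hρ hρ1
  obtain ⟨c2, hc20, hc21, hcntX⟩ := cntX K n ρ hρ hρ1
  obtain ⟨C, hC1, hnp⟩ := nonPrim (K := K) n hn
  refine ⟨min c1 c2, C, lt_min hc10 hc20, (min_le_left _ _).trans hc11, by linarith, ?_⟩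
  intro o q κ w A B H R hq hκ hw hA hB hRC hκR hWB F hF hrob
  have hWp := CN_CountT_WWpos w
  have hR0 : (0 : ℝ) ≤ R := Nat.cast_nonneg _
  have hB0 : (0 : ℝ) ≤ B := Nat.cast_nonneg _
  have hκR1 : (κ : ℝ) * (WW w : ℝ) ≤ c1 * R :=
    hκR.trans (mul_le_mul_of_nonneg_right (min_le_left _ _) hR0)
  have hWB2 : (WW w : ℝ) ≤ c2 * B := hWB.trans (mul_le_mul_of_nonneg_right (min_le_right _ _) hB0)
  have hr : (0 : ℝ) ≤ ((R : ℝ) / (κ * WW w)) ^ eK K := by positivity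
  have hcore := CN_CountT_core K (t := t) ρ w B H q κ A R hB o F (c1 * ((R : ℝ) / (κ * WW w)) ^ eK K)
    (c2 * ((B : ℝ) / WW w) ^ (eK K * (n + 1)) -
        C * (((B : ℝ) / WW w) ^ (eK K * (n + 1)) / (w + 1) + (B : ℝ) ^ eK K))
    (by positivity)
    (fun x hx u0 => hcntW o κ (WW w) A B R hκ hWp hA hB hRC hκR1 F hF x hx u0)
    (by
      intro x0 hx0
      have h1 := hcntX d t o q (WW w) A B hq hWp hB hWB2 F hrob x0
      have h2 := hnp w B hw hB x0 hx0
      obtain ⟨X, hX⟩ : ∃ X : Finset (Vc n (𝓞 K)), X = (VBox K n B).filter fun x =>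
          (∀ l, ((WW w : ℕ) : 𝓞 K) ∣ x l - x0 l) ∧
            (∀ v : InfinitePlace K, (B : ℝ) ≤ q * v (x o : K)) ∧
            ∀ v, NearX t v o ρ A B F x := ⟨_, rfl⟩
      obtain ⟨Y, hY⟩ : ∃ Y : Finset (Vc n (𝓞 K)), Y = (VBox K n B).filter fun x =>
          (∀ l, ((WW w : ℕ) : 𝓞 K) ∣ x l - x0 l) ∧ x ≠ 0 ∧ ¬ Uni x := ⟨_, rfl⟩
      rw [← hX] at h1
      rw [← hY] at h2
      rw [← hX, ← hY]
      have h3 : (X.card : ℝ) ≤ ((X \ Y).card : ℝ) + (Y.card : ℝ) := by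
        have h4 : X.card ≤ (X \ Y).card + Y.card := by
          have h5 := Finset.le_card_sdiff Y X
          omega
        exact_mod_cast h4
      linarith)
  have hP : (0 : ℝ) ≤ ((B : ℝ) / WW w) ^ (eK K * (n + 1)) := by positivity
  have hS : (0 : ℝ) ≤ (smT t (WI K w) F : ℝ) := Nat.cast_nonneg _
  obtain ⟨X', hX'⟩ : ∃ X' : ℝ, X' = (smT t (WI K w) F : ℝ) *
      (min c1 c2 * ((B : ℝ) / WW w) ^ (eK K * (n + 1)) -
        C * (((B : ℝ) / WW w) ^ (eK K * (n + 1)) / (w + 1) + (B : ℝ) ^ eK K)) -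
      (WW w : ℝ) ^ eK K * (((VBox K n B).filter fun x => ¬ HGood H x).card : ℝ) := ⟨_, rfl⟩
  obtain ⟨X, hX⟩ : ∃ X : ℝ, X = (smT t (WI K w) F : ℝ) *
      (c2 * ((B : ℝ) / WW w) ^ (eK K * (n + 1)) -
        C * (((B : ℝ) / WW w) ^ (eK K * (n + 1)) / (w + 1) + (B : ℝ) ^ eK K)) -
      (WW w : ℝ) ^ eK K * (((VBox K n B).filter fun x => ¬ HGood H x).card : ℝ) := ⟨_, rfl⟩
  have hXX : X' ≤ X := by
    rw [hX, hX']
    refine sub_le_sub_right (mul_le_mul_of_nonneg_left ?_ hS) _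
    refine sub_le_sub_right (mul_le_mul_of_nonneg_right (min_le_right _ _) hP) _
  rw [← hX] at hcore
  rw [← hX']
  have hc0 : (0 : ℝ) < min c1 c2 := lt_min hc10 hc20
  rcases le_or_gt X' 0 with hneg | hpos
  · refine (mul_nonpos_of_nonneg_of_nonpos (by positivity) hneg).trans ?_
    exact Finset.sum_nonneg fun _ _ => Nat.cast_nonneg _
  · refine le_trans ?_ hcore
    have h1 : min c1 c2 * ((R : ℝ) / (κ * WW w)) ^ eK K ≤ c1 * ((R : ℝ) / (κ * WW w)) ^ eK K :=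
      mul_le_mul_of_nonneg_right (min_le_left _ _) hr
    exact mul_le_mul h1 hXX hpos.le (by positivity)

end Pool.Agent.Lib.MP_1ad228_ntW
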