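import Pool.Agent.Lib.MP_1ad228_ntW.CN_CountT
import Pool.Agent.Lib.MP_1ad228_ntN.HG_Bad
import Pool.Agent.Lib.MP_1ad228_ntN.MN_Par

/-!
JOB CN_LowT.  Lower bound for the local prediction.  (Model with proof: `low` in Lib/MP_1ad228_ntN/CN_Low.lean.)

PROOF.  `e = eK K`, `W = WW w`, `c1, C1` from `countT`, `C2` from `badX K n`, `κ0 = CK K n`.  `c = c1^2/(4 κ0)` (or smaller).  Every `x ∈ GG` has `#MS ≤ 2 κ0 (A B^d/(κ W))^e` and `> 0` (`muUp`, `κ W ≤ A B^d`), so (`P` = the right side of `countT`) `Lt ≥ P (κ W)^e/(2 κ0 (A B^d)^e)`, and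
`c1 (R/(κ W))^e (κ W)^e/(2 κ0 (A B^d)^e) = (c1/(2 κ0)) (R/(A B^d))^e`.  So `Lt ≥ (c1/(2κ0)) (R/(A B^d))^e (smT (c1 (B/W)^(e(n+1)) - C1 ((B/W)^(e(n+1))/(w+1) + B^e)) - W^e bad)`.  Note `EB = (B^(n+1))^e (R/(A B^d))^e`.
Given `κ`; `w0 ≥ 1` with `C1/(w+1) ≤ c1/2` for `w ≥ w0`.  Then the bracket is `≥ (B^(n+1))^e [ (c1/2) smT/W^(e(n+1)) - smT C1 B^e/B^(e(n+1)) - W^e bad/B^(e(n+1)) ]`, `smT ≤ W^(e(n+2))` (trivial: number of pairs, `card_VcR`, `card_quotO`, `absNorm_WI`).  For `g ≥ g0` (given `w, η`):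
`C1 W^(e(n+2)) B^e/B^(e(n+1)) ≤ η κ0/c1` (`n ≥ 1`, `B ≥ g`), and `W^e bad/B^(e(n+1)) ≤ η κ0/c1`: `badX` with `L = g^l` as in the model (`bad ≤ C2 (B^(n+1))^e ((Nat.log 2 (g^l) + 2)/g)^e`, `lgSmall`).  So `Lt ≥ EB ((c1^2/(4κ0)) smT/W^(e(n+1)) - η)`.
Hypotheses of `countT`: `κ W ≤ c1 R`, `W ≤ c1 B`: `R ≥ B ≥ g` (`RC` gives `R^t ≥ A B^d ≥ B^t` as `d = t m ≥ t`, `m ≥ 1`), `g ≥ κ W/c1`.
-/

namespace Pool.Agent.Lib.MP_1ad228_ntW

open NumberField Classical Pool.Agent.Lib.MP_1ad228_ntN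

private theorem CN_LowT_alg (s b u z k a T c1 C2 t η bad P rr : ℝ) (hb : 0 < b)
    (hk : 0 < k) (hu : 0 < u) (hz : 0 < z) (ha : 0 < a) (hT : 0 < T) (hc1 : 0 < c1) (hrr : 0 < rr)
    (h1 : c1 * (rr / (k * z)) * (s * (c1 / 2 * (b / u)) - z * bad) ≤ P) (h2 : bad ≤ C2 * b * t)
    (h3 : c1 * z / T * C2 * t ≤ η) :
    b * rr / a * (c1 ^ 2 / (2 * T) * (s / u) - η) ≤ k * z / (T * a) * P := by
  have hf : 0 ≤ b * rr / a := by positivity
  have hf2 : 0 ≤ k * z / (T * a) := by positivity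
  have hf3 : 0 ≤ c1 * rr / (T * a) := by positivity
  calc b * rr / a * (c1 ^ 2 / (2 * T) * (s / u) - η) ≤
        b * rr / a * (c1 ^ 2 / (2 * T) * (s / u) - c1 * z / T * C2 * t) :=
        mul_le_mul_of_nonneg_left (by linarith) hf
    _ = c1 * rr / (T * a) * (s * (c1 / 2 * (b / u)) - z * (C2 * b * t)) := by
        field_simp
    _ ≤ c1 * rr / (T * a) * (s * (c1 / 2 * (b / u)) - z * bad) :=
        mul_le_mul_of_nonneg_left (by
          have := mul_le_mul_of_nonneg_left h2 hz.le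
          linarith) hf3
    _ = k * z / (T * a) * (c1 * (rr / (k * z)) * (s * (c1 / 2 * (b / u)) - z * bad)) := by
        field_simp
    _ ≤ k * z / (T * a) * P := mul_le_mul_of_nonneg_left h1 hf2

private theorem CN_LowT_cls (b u c1 C1 w Be : ℝ) (hb : 0 < b) (hu : 0 < u)
    (hc1 : 0 < c1) (hw : 0 < w) (h1 : 4 * C1 / c1 ≤ w) (h2 : C1 * Be * (4 * u) ≤ c1 * b) :
    c1 / 2 * (b / u) ≤ c1 * (b / u) - C1 * (b / u / w + Be) := by
  have h3 : C1 * (b / u / w) ≤ c1 / 4 * (b / u) := by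
    rw [div_le_iff₀ hc1] at h1
    have h4 : C1 * (b / u / w) = (4 * C1) * (b / (4 * u * w)) := by
      field_simp
    have h5 : c1 / 4 * (b / u) = (w * c1) * (b / (4 * u * w)) := by
      field_simp
    rw [h4, h5]
    exact mul_le_mul_of_nonneg_right h1 (by positivity)
  have h6 : C1 * Be ≤ c1 / 4 * (b / u) := by
    have h7 : c1 / 4 * (b / u) = c1 * b / (4 * u) := by
      field_simp
    rw [h7, le_div_iff₀ (by positivity)]
    exact h2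
  linarith

theorem lowT (K : Type) [Field K] [NumberField K] (n d t m : ℕ) (hn : 2 ≤ n) (hd : d = t * m)
    (ht : 1 ≤ t) (hm : 1 ≤ m) (l : ℕ) (hl : 1 ≤ l) (ρ : ℝ) (hρ : 0 < ρ) (hρ1 : ρ ≤ 1) (q : ℕ)
    (hq : 1 ≤ ρ * q) :
    ∃ c : ℝ, 0 < c ∧ ∀ κ : ℕ, 1 ≤ κ → ∃ w0 : ℕ, ∀ w : ℕ, w0 ≤ w → ∀ η : ℝ, 0 < η →
      ∃ g0 : ℕ, ∀ g : ℕ, g0 ≤ g → ∀ B H : ℕ, B = g ^ (n * l + 1) → H = g ^ (l + 2) →
      ∀ A R : ℕ, 1 ≤ A → RC n m t d A B R → ∀ F ∈ Box K n d A, ∀ o : Fin (n + 1),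
        (∀ v, RobT t v o ρ (scT v A F)) →
        EB K n d B R A * (c * ((smT t (WI K w) F : ℝ) / (WW w : ℝ) ^ (eK K * (n + 1))) - η) ≤
          Lt t R (WW w) κ A B H q o F := by
  obtain ⟨c1, C1, hc1, hc11, hC1, hcnt⟩ := countT K n d t m (by omega) hd ht ρ hρ hρ1
  obtain ⟨C2, hC2, hbad⟩ := badX K n (by omega)
  have hCC := CK_one_le K n
  have hCCp := CK_pos K n
  have he : 1 ≤ eK K := eK_pos
  have hd1 : 1 ≤ d := by rw [hd]; exact Nat.mul_pos ht hm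
  refine ⟨c1 ^ 2 / (2 * (2 * CK K n)), by positivity, ?_⟩
  intro κ hκ
  have hκp : (0 : ℝ) < κ := by exact_mod_cast hκ
  refine ⟨max 1 ⌈4 * C1 / c1⌉₊, ?_⟩
  intro w hw η hη
  have hw1 : 1 ≤ w := (le_max_left _ _).trans hw
  have hw2 : 4 * C1 / c1 ≤ (w : ℝ) :=
    (Nat.le_ceil _).trans (by exact_mod_cast (le_max_right _ _).trans hw)
  have hwp : (0 : ℝ) < w := by exact_mod_cast hw1
  have hWn : 1 ≤ WW w := Pool.Agent.Lib.MP_219881_nt.WWpos w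
  have hWp : (0 : ℝ) < (WW w : ℝ) := by exact_mod_cast hWn
  obtain ⟨g1, hg1, hlg⟩ := lgSmall l (eK K) he
    (c1 * (WW w : ℝ) ^ eK K / (2 * CK K n) * C2) η hη
  refine ⟨max (max ⌈C2⌉₊ ⌈(κ : ℝ) * (WW w : ℝ) / c1⌉₊)
    (max ⌈4 * C1 * ((WW w : ℝ) ^ (n + 1)) ^ eK K / c1⌉₊ g1), ?_⟩
  intro g hg B H hBg hHg A R hA hRC F hF o hS
  have hg2 : C2 ≤ (g : ℝ) :=
    (Nat.le_ceil _).trans (by
      exact_mod_cast le_trans (le_trans (le_max_left _ _) (le_max_left _ _)) hg)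
  have hg3 : (κ : ℝ) * (WW w : ℝ) / c1 ≤ (g : ℝ) :=
    (Nat.le_ceil _).trans (by
      exact_mod_cast le_trans (le_trans (le_max_right _ _) (le_max_left _ _)) hg)
  have hg4 : 4 * C1 * ((WW w : ℝ) ^ (n + 1)) ^ eK K / c1 ≤ (g : ℝ) :=
    (Nat.le_ceil _).trans (by
      exact_mod_cast le_trans (le_trans (le_max_left _ _) (le_max_right _ _)) hg)
  have hg5 : g1 ≤ g := le_trans (le_trans (le_max_right _ _) (le_max_right _ _)) hg
  have hgn : 1 ≤ g := hg1.trans hg5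
  have hlog := hlg g hg5
  have hgp : (0 : ℝ) < g := by exact_mod_cast hgn
  have hgr : (1 : ℝ) ≤ g := by exact_mod_cast hgn
  have hgB : g ≤ B := by
    rw [hBg]
    calc g = g ^ 1 := (pow_one g).symm
      _ ≤ g ^ (n * l + 1) := Nat.pow_le_pow_right hgn (by omega)
  have hB1 : 1 ≤ B := hgn.trans hgB
  have hB1' : (1 : ℝ) ≤ B := by exact_mod_cast hB1
  have hBp : (0 : ℝ) < B := by exact_mod_cast hB1
  have hAp : (0 : ℝ) < A := by exact_mod_cast hA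
  have hA1 : (1 : ℝ) ≤ A := by exact_mod_cast hA
  have hgB' : (g : ℝ) ≤ B := by exact_mod_cast hgB
  have hBR : B ≤ R := by
    have h1 : B ^ t ≤ R ^ t := by
      refine le_trans ?_ hRC.1
      have h2 : B ^ t ≤ B ^ d := Nat.pow_le_pow_right hB1 (by
        rw [hd]; exact Nat.le_mul_of_pos_right t hm)
      have h3 : 1 ≤ (2 * (n + 1) ^ m) ^ t := Nat.one_le_pow _ _ (by positivity)
      calc B ^ t ≤ 1 * (1 * B ^ d) := by simpa using h2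
        _ ≤ (2 * (n + 1) ^ m) ^ t * (A * B ^ d) :=
          Nat.mul_le_mul h3 (Nat.mul_le_mul_right _ hA)
    exact (Nat.pow_le_pow_iff_left (by omega)).mp h1
  have hBR' : (B : ℝ) ≤ R := by exact_mod_cast hBR
  have hRp : (0 : ℝ) < R := lt_of_lt_of_le hBp hBR'
  have hKW : (κ : ℝ) * (WW w : ℝ) ≤ c1 * B := by
    rw [div_le_iff₀ hc1] at hg3
    nlinarith
  have hKWR : (κ : ℝ) * (WW w : ℝ) ≤ c1 * R :=
    hKW.trans (mul_le_mul_of_nonneg_left hBR' hc1.le)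
  have hκ1 : (1 : ℝ) ≤ κ := by exact_mod_cast hκ
  have hWB : (WW w : ℝ) ≤ c1 * B := by
    refine le_trans ?_ hKW
    nlinarith
  have hKWA : κ * WW w ≤ A * B ^ d := by
    have h1 : (κ : ℝ) * (WW w : ℝ) ≤ A * (B : ℝ) ^ d := by
      have h2 : c1 * B ≤ 1 * B := mul_le_mul_of_nonneg_right hc11 hBp.le
      have h5 : (B : ℝ) ≤ (B : ℝ) ^ d := by
        calc (B : ℝ) = (B : ℝ) ^ 1 := (pow_one _).symm
          _ ≤ (B : ℝ) ^ d := pow_le_pow_right₀ hB1' hd1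
      have h6 : (B : ℝ) ^ d ≤ A * (B : ℝ) ^ d := le_mul_of_one_le_left (by positivity) hA1
      linarith
    exact_mod_cast h1
  have hnl : l + 1 ≤ n * l + 1 := by
    have h1 : 1 * l ≤ n * l := Nat.mul_le_mul_right l (by omega)
    omega
  have hbd := hbad B H (g ^ l) (Nat.one_le_pow _ _ hgn)
    (by
      rw [hHg]
      push_cast
      calc C2 * (g : ℝ) ^ l ≤ g * (g : ℝ) ^ l := mul_le_mul_of_nonneg_right hg2 (by positivity)
        _ = (g : ℝ) ^ (l + 1) := by ring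
        _ ≤ (g : ℝ) ^ (l + 2) := pow_le_pow_right₀ hgr (by omega))
    (by
      rw [hBg]
      push_cast
      calc C2 * (g : ℝ) ^ l ≤ g * (g : ℝ) ^ l := mul_le_mul_of_nonneg_right hg2 (by positivity)
        _ = (g : ℝ) ^ (l + 1) := by ring
        _ ≤ (g : ℝ) ^ (n * l + 1) := pow_le_pow_right₀ hgr hnl)
    (by
      rw [hBg, hHg]
      push_cast
      calc C2 * (g : ℝ) ^ (n * l + 1) ≤ g * (g : ℝ) ^ (n * l + 1) :=
            mul_le_mul_of_nonneg_right hg2 (by positivity)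
        _ = (g : ℝ) ^ (l + 2) * ((g : ℝ) ^ l) ^ (n - 1) := by
          rw [← pow_mul, ← pow_add, ← pow_succ']
          congr 1
          obtain ⟨m', rfl⟩ : ∃ m', n = m' + 1 := ⟨n - 1, by omega⟩
          rw [Nat.add_sub_cancel]
          ring)
  have hcount := hcnt o q κ w A B H R hq hκ hw1 hA hB1 hRC hKWR hWB F hF hS
  generalize (smT t (WI K w) F : ℕ) = s at hcount
  have hL0 : ((κ : ℝ) ^ eK K * (WW w : ℝ) ^ eK K / ((2 * CK K n) *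
        ((A : ℝ) * (B : ℝ) ^ d) ^ eK K)) *
      (∑ x ∈ GG K B H q o,
        (((OBox K R).filter fun u => LV d (WW w) κ A o x (ev F x - u ^ t)).card : ℝ)) ≤
        Lt t R (WW w) κ A B H q o F := by
    unfold Lt
    rw [Finset.mul_sum]
    refine Finset.sum_le_sum fun x hx => ?_
    unfold Lx
    refine mul_le_mul_of_nonneg_right ?_ (Nat.cast_nonneg _)
    have hxV : x ∈ VBox K n B := (Finset.mem_filter.mp hx).1
    obtain ⟨h1, h2⟩ := muUp d (WW w) κ A B o hWn hκ hA hB1 hKWA x hxV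
    have e1 : (κ : ℝ) ^ eK K * (WW w : ℝ) ^ eK K / ((2 * CK K n) *
        ((A : ℝ) * (B : ℝ) ^ d) ^ eK K) =
        1 / (2 * CK K n * ((A : ℝ) * (B : ℝ) ^ d / (κ * (WW w : ℝ))) ^ eK K) := by
      rw [div_pow, mul_pow (κ : ℝ)]
      have p1 : (κ : ℝ) ^ eK K ≠ 0 := by positivity
      have p2 : (WW w : ℝ) ^ eK K ≠ 0 := by positivity
      have p3 : ((A : ℝ) * (B : ℝ) ^ d) ^ eK K ≠ 0 := by positivity
      generalize (κ : ℝ) ^ eK K = u1 at p1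
      generalize (WW w : ℝ) ^ eK K = u2 at p2
      generalize ((A : ℝ) * (B : ℝ) ^ d) ^ eK K = u3 at p3
      field_simp
    rw [e1]
    exact one_div_le_one_div_of_le h1 h2
  have hbd' : (((VBox K n B).filter fun x => ¬ HGood H x).card : ℝ) ≤
      C2 * ((B : ℝ) ^ (n + 1)) ^ eK K *
        (((Nat.log 2 (g ^ l) : ℝ) + 2) / g) ^ eK K := by
    refine hbd.trans (le_of_eq ?_)
    have h1 : (B : ℝ) ^ n * ((g ^ l : ℕ) : ℝ) ^ n * g = (B : ℝ) ^ (n + 1) := by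
      rw [hBg]
      push_cast
      rw [← pow_mul, ← pow_mul, ← pow_mul, ← pow_add, ← pow_succ]
      exact congrArg (fun e => (g : ℝ) ^ e) (by ring)
    rw [← h1, mul_pow ((B : ℝ) ^ n * ((g ^ l : ℕ) : ℝ) ^ n) (g : ℝ), div_pow]
    have p1 : (g : ℝ) ^ eK K ≠ 0 := by positivity
    generalize (g : ℝ) ^ eK K = u1 at p1
    field_simp
  refine le_trans ?_ hL0
  generalize (∑ x ∈ GG K B H q o,
        (((OBox K R).filter fun u => LV d (WW w) κ A o x (ev F x - u ^ t)).card : ℝ)) = P at hcount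
  generalize (((VBox K n B).filter fun x => ¬ HGood H x).card : ℝ) = bad at hcount hbd'
  generalize (((Nat.log 2 (g ^ l) : ℝ) + 2) / g) ^ eK K = tt at hlog hbd'
  have hb : (0 : ℝ) < ((B : ℝ) ^ (n + 1)) ^ eK K := by positivity
  have hk : (0 : ℝ) < (κ : ℝ) ^ eK K := by positivity
  have hu : (0 : ℝ) < ((WW w : ℝ) ^ (n + 1)) ^ eK K := by positivity
  have hz : (0 : ℝ) < (WW w : ℝ) ^ eK K := by positivity
  have ha : (0 : ℝ) < ((A : ℝ) * (B : ℝ) ^ d) ^ eK K := by positivity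
  have hrr : (0 : ℝ) < (R : ℝ) ^ eK K := by positivity
  have hT : (0 : ℝ) < 2 * CK K n := by positivity
  have hkey : C1 * (B : ℝ) ^ eK K * (4 * ((WW w : ℝ) ^ (n + 1)) ^ eK K) ≤
      c1 * ((B : ℝ) ^ (n + 1)) ^ eK K := by
    rw [div_le_iff₀ hc1] at hg4
    have h4 : (g : ℝ) ≤ ((B : ℝ) ^ n) ^ eK K := by
      refine hgB'.trans ?_
      rw [← pow_mul]
      calc (B : ℝ) = (B : ℝ) ^ 1 := (pow_one _).symm
        _ ≤ (B : ℝ) ^ (n * eK K) := pow_le_pow_right₀ hB1' (Nat.mul_pos (by omega) he)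
    have h5 : ((B : ℝ) ^ (n + 1)) ^ eK K = ((B : ℝ) ^ n) ^ eK K * (B : ℝ) ^ eK K := by
      rw [← mul_pow, ← pow_succ]
    have h6 : (g : ℝ) * c1 ≤ ((B : ℝ) ^ n) ^ eK K * c1 := mul_le_mul_of_nonneg_right h4 hc1.le
    have h7 : (0 : ℝ) ≤ (B : ℝ) ^ eK K := by positivity
    rw [h5]
    have h8 := mul_le_mul_of_nonneg_right (hg4.trans h6) h7
    linarith
  have hcls := CN_LowT_cls _ _ c1 C1 ((w : ℝ) + 1) ((B : ℝ) ^ eK K) hb hu hc1 (by positivity)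
    (hw2.trans (by linarith)) hkey
  have hs0 : (0 : ℝ) ≤ s := Nat.cast_nonneg _
  have e3 : ((R : ℝ) / ((κ : ℝ) * (WW w : ℝ))) ^ eK K =
      (R : ℝ) ^ eK K / ((κ : ℝ) ^ eK K * (WW w : ℝ) ^ eK K) := by
    rw [div_pow, mul_pow]
  have e4 : ((B : ℝ) / (WW w : ℝ)) ^ (eK K * (n + 1)) =
      ((B : ℝ) ^ (n + 1)) ^ eK K / ((WW w : ℝ) ^ (n + 1)) ^ eK K := by
    rw [div_pow, mul_comm (eK K), pow_mul, pow_mul]
  rw [e3, e4] at hcount
  have e5 : EB K n d B R A = ((B : ℝ) ^ (n + 1)) ^ eK K * (R : ℝ) ^ eK K /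
      ((A : ℝ) * (B : ℝ) ^ d) ^ eK K := by
    unfold EB
    rw [div_pow, mul_pow]
  have e7 : (WW w : ℝ) ^ (eK K * (n + 1)) = ((WW w : ℝ) ^ (n + 1)) ^ eK K := by
    rw [mul_comm, pow_mul]
  rw [e5, e7]
  refine CN_LowT_alg s _ _ _ _ _ _ c1 C2 tt η bad P _ hb hk hu hz ha hT hc1 hrr
    (le_trans ?_ hcount) hbd' hlog
  refine mul_le_mul_of_nonneg_left ?_ (by positivity)
  have h1 := mul_le_mul_of_nonneg_left hcls hs0
  linarith

end Pool.Agent.Lib.MP_1ad228_ntW
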