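import Pool.Agent.Lib.MP_1ad228_ntW.Defs
import Pool.Agent.Lib.MP_1ad228_ntN.CN_Cls

/-!
JOB CN_Root.  Integers `u` near the root of the value.

`rootNear` PROOF.  `b = (n+1)^m ≥ 1`.  `Λ = (A B^d)^(1/t)` (real, `> 0`, `Λ^t = A B^d`: `Real.rpow_natCast`, `Real.rpow_inv_natCast_pow`), `σ = Λ s ∈ KK v` (`KK_mul`, `KK_real`).  `‖s‖^t = ‖ev (scT v A F) y‖ ≤ (n+1)^d = b^t` (entries of absolute value `≤ 1`, `‖y l‖ ≤ 1`), so `‖s‖ ≤ b`
(`pow_le_pow_left₀`/`lt_of_pow_lt_pow_left₀`).  From `RC`: `2 b Λ ≤ R ≤ 4 b Λ` (compare `t`-th powers).  `c0 = ρ^d/(4 b t (b+1)^(t-1))` (`≤ 1`).  Let `‖em v u - σ‖ ≤ c0 R/κ =: η`; `η ≤ c0 4 b Λ/κ = ρ^d Λ/(t (b+1)^(t-1) κ) ≤ Λ`.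
`v u = ‖em v u‖ ≤ b Λ + Λ ≤ 2 b Λ ≤ R`.  `em v (ev F x) = ev (tmap (em v) F) (B y) = B^d A ev (scT v A F) y = A B^d s^t = σ^t` (`ev_em`, `ev_scale`; `scT = tmap/A`), so `‖em v (ev F x - u^t)‖ = ‖σ^t - (em v u)^t‖ ≤ t η ((b+1) Λ)^(t-1)` (`‖α^t - β^t‖ ≤ t ‖α - β‖ M^(t-1)` for
`‖α‖, ‖β‖ ≤ M`, geometric sum) `≤ ρ^d Λ^t/κ = ρ^d A B^d/κ ≤ A v(x o)^d/κ` (`v (x o) = ‖B y o‖ ≥ ρ B`).

`cntW` PROOF.  `c0` from `rootNear`; `c = min (c0/CK K n) (c0^e/CK K n^(e+1))`.  For every place `v` `rootNear` gives `σ v`.  `clsLow n W hW (c0 R/κ) _ σ _ u0` (hypothesis `CK K n W ≤ c0 R/κ` from `κ W ≤ c R`): a finset `S` of `u` with `W ∣ u - u0`, `‖em v u - σ v‖ ≤ c0 R/κ` for all `v`, and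
`(c0 R/(κ W))^e ≤ CK K n^(e+1) S.card`; `S ⊆` the filter.
-/

namespace Pool.Agent.Lib.MP_1ad228_ntW

open NumberField Classical Pool.Agent.Lib.MP_1ad228_ntN

/-- The condition on the vector `x` at the place `v` (`x = B y`, `y` in the robust region). -/
def NearX {K : Type} [Field K] [NumberField K] {n d : ℕ} (t : ℕ) (v : InfinitePlace K)
    (o : Fin (n + 1)) (ρ : ℝ) (A B : ℕ) (F : Ten n d (𝓞 K)) (x : Vc n (𝓞 K)) : Prop :=
  ∃ (y : Vc n ℂ) (s : ℂ), (∀ l, em v (x l) = B * y l) ∧ ρ ≤ ‖y o‖ ∧ (∀ l, ‖y l‖ ≤ 1) ∧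
    s ∈ KK v ∧ ev (scT v A F) y = s ^ t

private theorem CN_Root_pow (t : ℕ) (α β : ℂ) {M : ℝ} (hα : ‖α‖ ≤ M) (hβ : ‖β‖ ≤ M) :
    ‖α ^ t - β ^ t‖ ≤ t * ‖α - β‖ * M ^ (t - 1) := by
  have hM : 0 ≤ M := (norm_nonneg α).trans hα
  have h1 : (∑ i ∈ Finset.range t, α ^ i * β ^ (t - 1 - i)) * (α - β) = α ^ t - β ^ t :=
    (Commute.all α β).geom_sum₂_mul t
  have h2 : ‖∑ i ∈ Finset.range t, α ^ i * β ^ (t - 1 - i)‖ ≤ t * M ^ (t - 1) := by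
    refine (norm_sum_le _ _).trans ?_
    have h3 : ∀ i ∈ Finset.range t, ‖α ^ i * β ^ (t - 1 - i)‖ ≤ M ^ (t - 1) := by
      intro i hi
      have hi' := Finset.mem_range.1 hi
      rw [norm_mul, norm_pow, norm_pow]
      have e : M ^ (t - 1) = M ^ i * M ^ (t - 1 - i) := by
        rw [← pow_add]
        congr 1
        omega
      rw [e]
      exact mul_le_mul (pow_le_pow_left₀ (norm_nonneg _) hα _) (pow_le_pow_left₀ (norm_nonneg _) hβ _)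
        (pow_nonneg (norm_nonneg _) _) (pow_nonneg hM _)
    refine (Finset.sum_le_sum h3).trans (le_of_eq ?_)
    rw [Finset.sum_const, Finset.card_range, nsmul_eq_mul]
  rw [← h1, norm_mul]
  calc ‖∑ i ∈ Finset.range t, α ^ i * β ^ (t - 1 - i)‖ * ‖α - β‖ ≤ (t * M ^ (t - 1)) * ‖α - β‖ :=
        mul_le_mul_of_nonneg_right h2 (norm_nonneg _)
    _ = t * ‖α - β‖ * M ^ (t - 1) := by ring

private theorem CN_Root_ev {n d : ℕ} (a : Ten n d ℂ) (y : Vc n ℂ) (ha : ∀ s, ‖a s‖ ≤ 1) (hy : ∀ l, ‖y l‖ ≤ 1) :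
    ‖ev a y‖ ≤ ((n : ℝ) + 1) ^ d := by
  unfold ev
  refine (norm_sum_le _ _).trans ?_
  have h1 : ∀ s ∈ (Finset.univ : Finset (Fin d → Fin (n + 1))), ‖a s * ∏ k, y (s k)‖ ≤ 1 := by
    intro s _
    rw [norm_mul, norm_prod]
    have h2 : ∏ k, ‖y (s k)‖ ≤ 1 := Finset.prod_le_one (fun _ _ => norm_nonneg _) fun k _ => hy (s k)
    exact mul_le_one₀ (ha s) (Finset.prod_nonneg fun _ _ => norm_nonneg _) h2
  refine (Finset.sum_le_sum h1).trans (le_of_eq ?_)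
  rw [Finset.sum_const, Finset.card_univ, Fintype.card_fun, Fintype.card_fin, Fintype.card_fin, nsmul_eq_mul,
    mul_one]
  push_cast
  rfl

private theorem CN_Root_val {K : Type} [Field K] [NumberField K] {n d : ℕ} (v : InfinitePlace K) {A B : ℕ}
    (hA : 1 ≤ A) (F : Ten n d (𝓞 K)) (x : Vc n (𝓞 K)) (y : Vc n ℂ) (hxy : ∀ l, em v (x l) = B * y l) :
    em v (ev F x) = ((A * B ^ d : ℝ) : ℂ) * ev (scT v A F) y := by
  have hAC : (A : ℂ) ≠ 0 := by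
    have : (A : ℝ) ≠ 0 := by
      have : (0 : ℝ) < A := by exact_mod_cast hA
      exact this.ne'
    exact_mod_cast this
  unfold ev scT
  rw [map_sum, Finset.mul_sum]
  refine Finset.sum_congr rfl fun s _ => ?_
  rw [map_mul, map_prod]
  have e1 : ∏ k, em v (x (s k)) = (B : ℂ) ^ d * ∏ k, y (s k) := by
    rw [Finset.prod_congr rfl fun k _ => hxy (s k), Finset.prod_mul_distrib, Finset.prod_const, Finset.card_univ,
      Fintype.card_fin]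
  rw [e1]
  push_cast
  field_simp

theorem rootNear (n d t m : ℕ) (hd : d = t * m) (ht : 1 ≤ t) (ρ : ℝ) (hρ : 0 < ρ)
    (hρ1 : ρ ≤ 1) : ∃ c0 : ℝ, 0 < c0 ∧ c0 ≤ 1 ∧ ∀ (K : Type) [Field K] [NumberField K]
    (v : InfinitePlace K) (o : Fin (n + 1)) (κ A B R : ℕ), 1 ≤ κ → 1 ≤ A → 1 ≤ B →
    RC n m t d A B R → ∀ F ∈ Box K n d A, ∀ x : Vc n (𝓞 K), NearX t v o ρ A B F x →
    ∃ σ ∈ KK v, ∀ u : 𝓞 K, ‖em v u - σ‖ ≤ c0 * R / κ →
      v (u : K) ≤ R ∧ (κ : ℝ) * v ((ev F x - u ^ t : 𝓞 K) : K) ≤ A * v (x o : K) ^ d := by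
  obtain ⟨b, hb⟩ : ∃ b : ℝ, b = ((n : ℝ) + 1) ^ m := ⟨_, rfl⟩
  have hb1 : 1 ≤ b := by
    rw [hb]
    exact one_le_pow₀ (by linarith [Nat.cast_nonneg (α := ℝ) n])
  have hb0 : 0 < b := by linarith
  have ht0 : (1 : ℝ) ≤ t := by exact_mod_cast ht
  have htne : t ≠ 0 := by omega
  have hbt : 1 ≤ (b + 1) ^ (t - 1) := one_le_pow₀ (by linarith)
  have hρd : 0 < ρ ^ d := pow_pos hρ d
  have hρd1 : ρ ^ d ≤ 1 := pow_le_one₀ hρ.le hρ1
  have hden : 1 ≤ 4 * b * t * (b + 1) ^ (t - 1) := by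
    have h1 : 1 ≤ 4 * b := by linarith
    have h2 : 1 ≤ 4 * b * t := one_le_mul_of_one_le_of_one_le h1 ht0
    exact one_le_mul_of_one_le_of_one_le h2 hbt
  have hden0 : 0 < 4 * b * t * (b + 1) ^ (t - 1) := by linarith
  refine ⟨ρ ^ d / (4 * b * t * (b + 1) ^ (t - 1)), div_pos hρd hden0, ?_, ?_⟩
  · rw [div_le_one hden0]
    linarith
  intro K _ _ v o κ A B R hκ hA hB hRC F hF x hx
  obtain ⟨y, s, hxy, hρy, hy1, hs, hev⟩ := hx
  have hA0 : (0 : ℝ) < A := by exact_mod_cast hA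
  have hB0 : (0 : ℝ) < B := by exact_mod_cast hB
  have hκ0 : (1 : ℝ) ≤ κ := by exact_mod_cast hκ
  have hκ00 : (0 : ℝ) < κ := by linarith
  have hR0 : (0 : ℝ) ≤ R := Nat.cast_nonneg R
  have hAB : (0 : ℝ) < (A : ℝ) * (B : ℝ) ^ d := by positivity
  obtain ⟨Λ, hΛ⟩ : ∃ Λ : ℝ, Λ = ((A : ℝ) * (B : ℝ) ^ d) ^ ((t : ℝ)⁻¹) := ⟨_, rfl⟩
  have hΛ0 : 0 < Λ := by
    rw [hΛ]
    exact Real.rpow_pos_of_pos hAB _
  have hΛt : Λ ^ t = (A : ℝ) * (B : ℝ) ^ d := by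
    rw [hΛ]
    exact Real.rpow_inv_natCast_pow hAB.le htne
  -- the size of `s`
  have hsb : ‖s‖ ≤ b := by
    have h1 : ‖s‖ ^ t ≤ b ^ t := by
      rw [← norm_pow, ← hev]
      refine (CN_Root_ev (scT v A F) y ?_ hy1).trans (le_of_eq ?_)
      · intro r
        unfold scT
        rw [norm_div, norm_em, Complex.norm_natCast, div_le_one hA0]
        exact mem_Box.1 hF r v
      · rw [hb, ← pow_mul, hd, mul_comm]
    exact (pow_le_pow_iff_left₀ (norm_nonneg s) hb0.le htne).1 h1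
  -- the size of `R`
  have hR1 : 2 * b * Λ ≤ R := by
    have h1 : (2 * b * Λ) ^ t ≤ (R : ℝ) ^ t := by
      rw [mul_pow, hΛt, hb]
      exact_mod_cast hRC.1
    exact (pow_le_pow_iff_left₀ (by positivity) hR0 htne).1 h1
  have hR2 : (R : ℝ) ≤ 4 * b * Λ := by
    have h1 : (R : ℝ) ^ t ≤ (4 * b * Λ) ^ t := by
      rw [mul_pow, hΛt, hb]
      exact_mod_cast hRC.2
    exact (pow_le_pow_iff_left₀ hR0 (by positivity) htne).1 h1
  refine ⟨(Λ : ℂ) * s, KK_mul (KK_real v Λ) hs, ?_⟩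
  intro u hu
  have hΛn : ‖(Λ : ℂ)‖ = Λ := by
    rw [Complex.norm_real, Real.norm_eq_abs, abs_of_pos hΛ0]
  have hσ : ‖(Λ : ℂ) * s‖ ≤ b * Λ := by
    rw [norm_mul, hΛn, mul_comm]
    exact mul_le_mul_of_nonneg_right hsb hΛ0.le
  -- the distance
  have hη : κ * ‖em v u - (Λ : ℂ) * s‖ * (t * (b + 1) ^ (t - 1)) ≤ ρ ^ d * Λ := by
    have h1 : κ * ‖em v u - (Λ : ℂ) * s‖ ≤ ρ ^ d / (4 * b * t * (b + 1) ^ (t - 1)) * R := by
      have h2 := mul_le_mul_of_nonneg_left hu hκ00.le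
      refine h2.trans (le_of_eq ?_)
      field_simp
    calc κ * ‖em v u - (Λ : ℂ) * s‖ * (t * (b + 1) ^ (t - 1))
        ≤ (ρ ^ d / (4 * b * t * (b + 1) ^ (t - 1)) * R) * (t * (b + 1) ^ (t - 1)) :=
          mul_le_mul_of_nonneg_right h1 (by positivity)
      _ ≤ (ρ ^ d / (4 * b * t * (b + 1) ^ (t - 1)) * (4 * b * Λ)) * (t * (b + 1) ^ (t - 1)) := by
          refine mul_le_mul_of_nonneg_right ?_ (by positivity)
          exact mul_le_mul_of_nonneg_left hR2 (by positivity)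
      _ = ρ ^ d * Λ := by field_simp
  have hη1 : ‖em v u - (Λ : ℂ) * s‖ ≤ Λ := by
    have h1 : ‖em v u - (Λ : ℂ) * s‖ ≤ κ * ‖em v u - (Λ : ℂ) * s‖ * (t * (b + 1) ^ (t - 1)) := by
      have h2 : 1 ≤ (κ : ℝ) * (t * (b + 1) ^ (t - 1)) :=
        one_le_mul_of_one_le_of_one_le hκ0 (one_le_mul_of_one_le_of_one_le ht0 hbt)
      have h3 := mul_le_mul_of_nonneg_left h2 (norm_nonneg (em v u - (Λ : ℂ) * s))
      rw [mul_one] at h3
      refine h3.trans (le_of_eq ?_)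
      ring
    have h4 : ρ ^ d * Λ ≤ 1 * Λ := mul_le_mul_of_nonneg_right hρd1 hΛ0.le
    linarith
  have hw : ‖em v u‖ ≤ (b + 1) * Λ := by
    have h1 : ‖em v u‖ ≤ ‖em v u - (Λ : ℂ) * s‖ + ‖(Λ : ℂ) * s‖ := by
      have := norm_add_le (em v u - (Λ : ℂ) * s) ((Λ : ℂ) * s)
      rwa [sub_add_cancel] at this
    linarith
  refine ⟨?_, ?_⟩
  · rw [← norm_em]
    have h1 : (b + 1) * Λ ≤ 2 * b * Λ := mul_le_mul_of_nonneg_right (by linarith) hΛ0.le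
    linarith
  · have e1 : em v (ev F x - u ^ t) = ((Λ : ℂ) * s) ^ t - (em v u) ^ t := by
      rw [map_sub, map_pow, CN_Root_val v hA F x y hxy, hev, mul_pow, ← Complex.ofReal_pow, hΛt]
    rw [← norm_em, e1]
    have h1 := CN_Root_pow t ((Λ : ℂ) * s) (em v u) (M := (b + 1) * Λ) (hσ.trans
      (mul_le_mul_of_nonneg_right (by linarith) hΛ0.le)) hw
    have hxo : ρ * B ≤ v (x o : K) := by
      rw [← norm_em, hxy, norm_mul, Complex.norm_natCast, mul_comm]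
      exact mul_le_mul_of_nonneg_left hρy hB0.le
    calc κ * ‖((Λ : ℂ) * s) ^ t - (em v u) ^ t‖
        ≤ κ * (t * ‖(Λ : ℂ) * s - em v u‖ * ((b + 1) * Λ) ^ (t - 1)) :=
          mul_le_mul_of_nonneg_left h1 hκ00.le
      _ = (κ * ‖em v u - (Λ : ℂ) * s‖ * (t * (b + 1) ^ (t - 1))) * Λ ^ (t - 1) := by
          rw [norm_sub_rev, mul_pow]
          ring
      _ ≤ (ρ ^ d * Λ) * Λ ^ (t - 1) := mul_le_mul_of_nonneg_right hη (by positivity)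
      _ = A * (ρ * B) ^ d := by
          have h2 : Λ * Λ ^ (t - 1) = Λ ^ t := by
            rw [← pow_succ']
            congr 1
            omega
          rw [mul_assoc, h2, hΛt, mul_pow]
          ring
      _ ≤ A * v (x o : K) ^ d :=
          mul_le_mul_of_nonneg_left (pow_le_pow_left₀ (by positivity) hxo d) hA0.le

theorem cntW (K : Type) [Field K] [NumberField K] (n d t m : ℕ) (hd : d = t * m) (ht : 1 ≤ t)
    (ρ : ℝ) (hρ : 0 < ρ) (hρ1 : ρ ≤ 1) : ∃ c : ℝ, 0 < c ∧ c ≤ 1 ∧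
    ∀ (o : Fin (n + 1)) (κ W A B R : ℕ), 1 ≤ κ → 1 ≤ W → 1 ≤ A → 1 ≤ B → RC n m t d A B R →
    (κ : ℝ) * W ≤ c * R → ∀ F ∈ Box K n d A, ∀ x : Vc n (𝓞 K), (∀ v, NearX t v o ρ A B F x) →
    ∀ u0 : 𝓞 K, c * ((R : ℝ) / (κ * W)) ^ eK K ≤
      (((OBox K R).filter fun u => ((W : ℕ) : 𝓞 K) ∣ u - u0 ∧ ∀ v : InfinitePlace K,
        (κ : ℝ) * v ((ev F x - u ^ t : 𝓞 K) : K) ≤ A * v (x o : K) ^ d).card : ℝ) := by
  obtain ⟨c0, hc0, hc1, hroot⟩ := rootNear n d t m hd ht ρ hρ hρ1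
  have hCK := CK_pos K n
  have hCK1 := CK_one_le K n
  refine ⟨min (c0 / CK K n) (c0 ^ eK K / CK K n ^ (eK K + 1)), lt_min (by positivity) (by positivity), ?_, ?_⟩
  · refine (min_le_left _ _).trans ?_
    rw [div_le_one hCK]
    linarith
  intro o κ W A B R hκ hW hA hB hRC hκW F hF x hx u0
  have hκ0 : (0 : ℝ) < κ := by exact_mod_cast hκ
  have hW0 : (0 : ℝ) < W := by exact_mod_cast hW
  have hR0 : (0 : ℝ) ≤ R := Nat.cast_nonneg R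
  have hall : ∀ v : InfinitePlace K, ∃ σ ∈ KK v, ∀ u : 𝓞 K, ‖em v u - σ‖ ≤ c0 * R / κ →
      v (u : K) ≤ R ∧ (κ : ℝ) * v ((ev F x - u ^ t : 𝓞 K) : K) ≤ A * v (x o : K) ^ d :=
    fun v => hroot K v o κ A B R hκ hA hB hRC F hF x (hx v)
  choose σ hσ hσ2 using hall
  have h1 : CK K n * W ≤ c0 * R / κ := by
    rw [le_div_iff₀ hκ0]
    have h2 : (κ : ℝ) * W ≤ c0 / CK K n * R := hκW.trans (mul_le_mul_of_nonneg_right (min_le_left _ _) hR0)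
    calc CK K n * W * κ = CK K n * (κ * W) := by ring
      _ ≤ CK K n * (c0 / CK K n * R) := mul_le_mul_of_nonneg_left h2 hCK.le
      _ = c0 * R := by field_simp
  obtain ⟨S, hS1, hS2⟩ := clsLow n W hW (c0 * R / κ) h1 σ hσ u0
  have hsub : S ⊆ (OBox K R).filter fun u => ((W : ℕ) : 𝓞 K) ∣ u - u0 ∧ ∀ v : InfinitePlace K,
        (κ : ℝ) * v ((ev F x - u ^ t : 𝓞 K) : K) ≤ A * v (x o : K) ^ d := by
    intro z hz
    obtain ⟨h3, h4⟩ := hS1 z hz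
    rw [Finset.mem_filter, mem_OBox]
    exact ⟨fun v => (hσ2 v z (h4 v)).1, h3, fun v => (hσ2 v z (h4 v)).2⟩
  have h5 : (S.card : ℝ) ≤ (((OBox K R).filter fun u => ((W : ℕ) : 𝓞 K) ∣ u - u0 ∧ ∀ v : InfinitePlace K,
        (κ : ℝ) * v ((ev F x - u ^ t : 𝓞 K) : K) ≤ A * v (x o : K) ^ d).card : ℝ) := by
    exact_mod_cast Finset.card_le_card hsub
  refine le_trans ?_ h5
  have h6 : (0 : ℝ) ≤ ((R : ℝ) / (κ * W)) ^ eK K := by positivity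
  calc min (c0 / CK K n) (c0 ^ eK K / CK K n ^ (eK K + 1)) * ((R : ℝ) / (κ * W)) ^ eK K
      ≤ (c0 ^ eK K / CK K n ^ (eK K + 1)) * ((R : ℝ) / (κ * W)) ^ eK K :=
        mul_le_mul_of_nonneg_right (min_le_right _ _) h6
    _ = (c0 * R / κ / W) ^ eK K / CK K n ^ (eK K + 1) := by
        rw [div_mul_eq_mul_div, ← mul_pow]
        congr 2
        field_simp
    _ ≤ S.card := by
        rw [div_le_iff₀ (by positivity)]
        exact hS2.trans (le_of_eq (mul_comm _ _))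

end Pool.Agent.Lib.MP_1ad228_ntW
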