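import Pool.Agent.Lib.MP_1ad228_ntW.CN_Root
import Pool.Agent.Lib.MP_1ad228_ntN.CN_Cls

/-!
JOB CN_X.  Many vectors in a residue class in the robust region.

PROOF.  For every `v` let `ξ v` be the centre from `RobT`.  For every `l` `clsLow n W hW (ρ B) _ (fun v => B * ξ v l) _ (x0 l)` (`KK_mul`, `KK_real`; hypothesis `CK K n W ≤ ρ B` from `W ≤ c B`, `c = min (ρ/CK K n) (ρ^(e(n+1))/CK K n^((e+1)(n+1)))`) gives a finset `S l` of `z` with `W ∣ z - x0 l`,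
`‖em v z - B ξ v l‖ ≤ ρ B` and `(ρ B/W)^e ≤ CK K n^(e+1) (S l).card`.  Let `x ∈ Fintype.piFinset S` and `y l = em v (x l)/B` (`KK_div`, `em_mem_KK`): `‖y l - ξ v l‖ ≤ ρ`, so `RobT` gives `ρ ≤ ‖y o‖`, `‖y l‖ ≤ 1`, `s ∈ KK v` with `ev (scT v A F) y = s^t`: `NearX`.  `v (x l) = B ‖y l‖ ≤ B`, and
`B ≤ q v (x o)` because `v (x o) = B ‖y o‖ ≥ ρ B` and `1 ≤ ρ q`.  So `Fintype.piFinset S` is contained in the filter, its cardinality is `∏ (S l).card ≥ ((ρ B/W)^e/CK^(e+1))^(n+1)`.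
-/

namespace Pool.Agent.Lib.MP_1ad228_ntW

open NumberField Classical Pool.Agent.Lib.MP_1ad228_ntN

theorem cntX (K : Type) [Field K] [NumberField K] (n : ℕ) (ρ : ℝ) (hρ : 0 < ρ) (hρ1 : ρ ≤ 1) :
    ∃ c : ℝ, 0 < c ∧ c ≤ 1 ∧ ∀ (d t : ℕ) (o : Fin (n + 1)) (q W A B : ℕ), 1 ≤ ρ * q → 1 ≤ W →
    1 ≤ B → (W : ℝ) ≤ c * B → ∀ F : Ten n d (𝓞 K), (∀ v, RobT t v o ρ (scT v A F)) →
    ∀ x0 : Vc n (𝓞 K), c * ((B : ℝ) / W) ^ (eK K * (n + 1)) ≤
      (((VBox K n B).filter fun x => (∀ l, ((W : ℕ) : 𝓞 K) ∣ x l - x0 l) ∧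
        (∀ v : InfinitePlace K, (B : ℝ) ≤ q * v (x o : K)) ∧
        ∀ v, NearX t v o ρ A B F x).card : ℝ) := by
  have hC1 : 1 ≤ CK K n := CK_one_le K n
  obtain ⟨CC, hCC⟩ : ∃ CC, CC = CK K n := ⟨_, rfl⟩
  rw [← hCC] at hC1
  have hC0 : 0 < CC := by linarith
  refine ⟨min (ρ / CC) (ρ ^ (eK K * (n + 1)) / CC ^ ((eK K + 1) * (n + 1))),
    lt_min (by positivity) (by positivity),
    (min_le_left _ _).trans (by rw [div_le_one hC0]; linarith), ?_⟩
  intro d t o q W A B hq hW hB hWB F hF x0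
  have hW0 : (0 : ℝ) < W := by exact_mod_cast hW
  have hB0 : (0 : ℝ) < B := by exact_mod_cast hB
  have hBC : (B : ℂ) ≠ 0 := by exact_mod_cast hB0.ne'
  choose ξ hξK hξ using hF
  have hWρ : CK K n * W ≤ ρ * B := by
    have h1 : (W : ℝ) ≤ ρ / CC * B :=
      hWB.trans (mul_le_mul_of_nonneg_right (min_le_left _ _) hB0.le)
    have h2 : CC * W ≤ CC * (ρ / CC * B) := mul_le_mul_of_nonneg_left h1 hC0.le
    have h3 : CC * (ρ / CC * B) = ρ * B := by field_simp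
    rw [← hCC]
    linarith
  have hcls := fun l => clsLow n W hW (ρ * B) hWρ (fun v => B * ξ v l)
    (fun v => KK_mul (by exact_mod_cast KK_real v (B : ℝ)) (hξK v l)) (x0 l)
  choose S hS1 hS2 using hcls
  have hsub : Fintype.piFinset S ⊆ (VBox K n B).filter fun x =>
      (∀ l, ((W : ℕ) : 𝓞 K) ∣ x l - x0 l) ∧
        (∀ v : InfinitePlace K, (B : ℝ) ≤ q * v (x o : K)) ∧ ∀ v, NearX t v o ρ A B F x := by
    intro x hx
    have hx' : ∀ l, x l ∈ S l := Fintype.mem_piFinset.1 hx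
    have hy : ∀ v : InfinitePlace K, ρ ≤ ‖em v (x o) / (B : ℂ)‖ ∧
        (∀ l, ‖em v (x l) / (B : ℂ)‖ ≤ 1) ∧ ∃ s ∈ KK v,
          ev (scT v A F) (fun l => em v (x l) / (B : ℂ)) = s ^ t := by
      intro v
      refine hξ v (fun l => em v (x l) / (B : ℂ)) (fun l => ?_) (fun l => ?_)
      · exact KK_div (em_mem_KK v _) (by exact_mod_cast KK_real v (B : ℝ))
      · have h1 := (hS1 l (x l) (hx' l)).2 v
        have h2 : em v (x l) / (B : ℂ) - ξ v l = (em v (x l) - B * ξ v l) / (B : ℂ) := by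
          field_simp
        rw [h2, norm_div, Complex.norm_natCast, div_le_iff₀ hB0]
        exact h1
    have hv : ∀ (v : InfinitePlace K) l, v (x l : K) = B * ‖em v (x l) / (B : ℂ)‖ := by
      intro v l
      rw [norm_div, Complex.norm_natCast, norm_em]
      field_simp
    rw [Finset.mem_filter]
    refine ⟨mem_VBox.2 fun l v => ?_, fun l => (hS1 l (x l) (hx' l)).1, fun v => ?_, fun v => ?_⟩
    · rw [hv]
      exact mul_le_of_le_one_right hB0.le ((hy v).2.1 l)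
    · rw [hv]
      have h1 := (hy v).1
      have hq0 : (0 : ℝ) ≤ q := Nat.cast_nonneg _
      calc (B : ℝ) ≤ (ρ * q) * B := le_mul_of_one_le_left hB0.le hq
        _ = q * (B * ρ) := by ring
        _ ≤ q * (B * ‖em v (x o) / (B : ℂ)‖) :=
            mul_le_mul_of_nonneg_left (mul_le_mul_of_nonneg_left h1 hB0.le) hq0
    · obtain ⟨h1, h2, s, hs, h3⟩ := hy v
      refine ⟨fun l => em v (x l) / (B : ℂ), s, fun l => ?_, h1, h2, hs, h3⟩
      field_simp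
  refine le_trans ?_ (Nat.cast_le.2 (Finset.card_le_card hsub))
  rw [Fintype.card_piFinset]
  push_cast
  obtain ⟨u, hu⟩ : ∃ u : ℝ, u = (ρ * B / W) ^ eK K / CC ^ (eK K + 1) := ⟨_, rfl⟩
  have hu0 : 0 ≤ u := by
    rw [hu]
    positivity
  have h1 : u ^ (n + 1) ≤ ∏ l, ((S l).card : ℝ) := by
    have h2 : u ^ (n + 1) = ∏ _l : Fin (n + 1), u := by
      rw [Finset.prod_const, Finset.card_univ, Fintype.card_fin]
    rw [h2]
    refine Finset.prod_le_prod (fun _ _ => hu0) fun l _ => ?_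
    rw [hu, div_le_iff₀ (by positivity), mul_comm ((S l).card : ℝ), hCC]
    exact hS2 l
  refine le_trans (mul_le_mul_of_nonneg_right (min_le_right _ _) (by positivity)) (le_trans
    (le_of_eq ?_) h1)
  rw [hu, div_pow ((ρ * B / W) ^ eK K), ← pow_mul, ← pow_mul, mul_div_assoc, mul_pow]
  ring

end Pool.Agent.Lib.MP_1ad228_ntW
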