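import Pool.Agent.Lib.MP_1ad228_ntW.Defs

/-!
JOB C_Cong.  The values of a form at two unimodular points are related modulo the minors.

PROOF of `congV`.  `I = Dd x y`.  `lamLem hx I` (with `mn_mem_Dd`) gives `l` with `y j - l * x j ∈ I` for all `j`.  `ν = l ^ m`.  In `𝓞 K ⧸ I`: `mk (ev F y) = ev (tmap mk F) (vmap mk y)` (`ev_tmap`),
`vmap mk y = fun j => mk l * mk (x j)`, `ev_scale`: `= (mk l) ^ d * mk (ev F x)`, `(mk l) ^ d = ((mk l) ^ m) ^ t` as `d = t * m`.  From `hy` there is `u` with `lin u y = 1` (definition of `Uni`), and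
`lin u y - l * lin u x = ∑ u j (y j - l x j) ∈ I`, so `l * lin u x - 1 ∈ I`; `μ = (lin u x) ^ m` (`ν μ - 1 ∈ I`: in the quotient `(mk l * mk (lin u x)) ^ m = 1`).
`congP`: if `ev F x = u ^ t + a`, `ev F y = u' ^ t + b` with `a, b ∈ I'` and `Dd x y ≤ I'` then `u' ^ t - (ν u) ^ t ∈ I'`.
-/

namespace Pool.Agent.Lib.MP_1ad228_ntW

open NumberField Classical Pool.Agent.Lib.MP_1ad228_ntN

variable {K : Type} [Field K] [NumberField K]

theorem congV {n d t m : ℕ} (hd : d = t * m) (x y : Vc n (𝓞 K)) (hx : Uni x) (hy : Uni y) :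
    ∃ ν μ : 𝓞 K, ν * μ - 1 ∈ Dd x y ∧ ∀ F : Ten n d (𝓞 K), ev F y - ν ^ t * ev F x ∈ Dd x y := by
  subst hd
  obtain ⟨l, hl⟩ := lamLem hx (Dd x y) (mn_mem_Dd x y)
  obtain ⟨u, hu⟩ := hy
  have h1 : l * lin u x - 1 ∈ Dd x y := by
    have h2 : l * lin u x - 1 = -(∑ j, u j * (y j - l * x j)) := by
      rw [← hu]
      simp only [Pool.Agent.Lib.MP_219881_nt.lin, mul_sub, Finset.sum_sub_distrib, Finset.mul_sum]
      rw [neg_sub]
      congr 1
      exact Finset.sum_congr rfl fun j _ => by ring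
    rw [h2]
    exact (Ideal.neg_mem_iff _).2 (Ideal.sum_mem _ fun j _ => Ideal.mul_mem_left _ _ (hl j))
  refine ⟨l ^ m, (lin u x) ^ m, ?_, fun F => ?_⟩
  · rw [← Ideal.Quotient.eq_zero_iff_mem] at h1 ⊢
    rw [map_sub, map_mul, map_one, sub_eq_zero] at h1
    rw [map_sub, map_mul, map_pow, map_pow, map_one, ← mul_pow, h1, one_pow, sub_self]
  · rw [← Ideal.Quotient.eq_zero_iff_mem]
    have h3 : vmap (Ideal.Quotient.mk (Dd x y)) y =
        fun i => Ideal.Quotient.mk (Dd x y) l * vmap (Ideal.Quotient.mk (Dd x y)) x i := by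
      funext j
      have h4 := hl j
      rw [← Ideal.Quotient.eq_zero_iff_mem, map_sub, map_mul, sub_eq_zero] at h4
      exact h4
    rw [map_sub, map_mul, ← ev_tmap, ← ev_tmap, h3, Pool.Agent.Lib.MP_1ad228_ntF.ev_scale, map_pow,
      map_pow, ← pow_mul, mul_comm m t, sub_self]

theorem congP {n d t : ℕ} {x y : Vc n (𝓞 K)} {ν : 𝓞 K}
    (h : ∀ F : Ten n d (𝓞 K), ev F y - ν ^ t * ev F x ∈ Dd x y) {I : Ideal (𝓞 K)}
    (hI : Dd x y ≤ I) (F : Ten n d (𝓞 K)) {u u' a b : 𝓞 K} (ha : a ∈ I) (hb : b ∈ I)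
    (h1 : ev F x = u ^ t + a) (h2 : ev F y = u' ^ t + b) : u' ^ t - (ν * u) ^ t ∈ I := by
  have h3 := hI (h F)
  rw [h1, h2] at h3
  have h4 : u' ^ t - (ν * u) ^ t = (u' ^ t + b - ν ^ t * (u ^ t + a)) - b + ν ^ t * a := by ring
  rw [h4]
  exact I.add_mem (I.sub_mem h3 hb) (I.mul_mem_left _ ha)

end Pool.Agent.Lib.MP_1ad228_ntW
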