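import Pool.Agent.Lib.MP_1ad228_ntW.Defs
import Pool.Agent.Lib.MP_1ad228_ntN.Expand
import Pool.Agent.Lib.MP_1ad228_ntN.Psi

/-!
JOB C_Exp.  Expansion of the variance.

`expandT`: `(∑_x a_x)^2 = ∑_x ∑_y a_x a_y` (`Finset.sum_mul_sum`, `sq`) with `a_x = Nx F x - Lx F x` (`Nt`, `Lt` are sums), `Finset.sum_comm`.
`EW_le`: `(N_x - L_x)(N_y - L_y) ≤ N_x N_y + L_x L_y` (all nonnegative: `Lx` is `1/card` times a cardinal), `0 ≤ psi ≤ 1`.
`EW_slices`: with `S4 μ μ' = sl μ μ' - (1/My) ∑_{m'} sl μ (μ' + m') - (1/Mx) ∑_m sl (μ + m) μ' + (1/Mx)(1/My) ∑_m ∑_{m'} sl (μ + m) (μ' + m')`: `EW = ∑_{u,u' ∈ OBox K R} S4 (u^t) (u'^t)`.  PROOF: `Nx F x = ∑_u [ev F x = u^t]`,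
`Lx F x = (1/Mx) ∑_u [LV (ev F x - u^t)] = (1/Mx) ∑_u ∑_{m ∈ MS x} [ev F x = u^t + m]` (`mem_MS`, `1 ≤ κ`; exactly one `m`), multiply out, exchange the sums, `sl d A x y m m' = ∑_F psi [ev F x = m][ev F y = m']` (`Finset.sum_filter`).
-/

namespace Pool.Agent.Lib.MP_1ad228_ntW

open NumberField Classical Pool.Agent.Lib.MP_1ad228_ntN

variable {K : Type} [Field K] [NumberField K]

/-- Indicator of `ev a x = m`. -/
private noncomputable def cexpD {n d : ℕ} (x : Vc n (𝓞 K)) (m : 𝓞 K) (a : Ten n d (𝓞 K)) : ℝ :=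
  if ev a x = m then 1 else 0

private noncomputable def cexpL {n d : ℕ} (o : Fin (n + 1)) (W κ A : ℕ) (x : Vc n (𝓞 K))
    (μ : 𝓞 K) (a : Ten n d (𝓞 K)) : ℝ :=
  (1 / ((MS d W κ A o x).card : ℝ)) * ∑ m ∈ MS d W κ A o x, cexpD x (μ + m) a

private theorem cexp_sl {n : ℕ} (d A : ℕ) (x y : Vc n (𝓞 K)) (m m' : 𝓞 K) :
    sl d A x y m m' = ∑ a ∈ Box K n d (2 * A), psi A a * (cexpD x m a * cexpD y m' a) := by
  unfold sl cexpD
  rw [Finset.sum_filter]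
  refine Finset.sum_congr rfl fun a _ => ?_
  by_cases h1 : ev a x = m
  · by_cases h2 : ev a y = m'
    · rw [if_pos ⟨h1, h2⟩, if_pos h1, if_pos h2]; ring
    · rw [if_neg (fun h => h2 h.2), if_neg h2]; ring
  · rw [if_neg (fun h => h1 h.1), if_neg h1]; ring

private theorem cexp_Nx {n d : ℕ} (t R : ℕ) (F : Ten n d (𝓞 K)) (x : Vc n (𝓞 K)) :
    (Nx t R F x : ℝ) = ∑ u ∈ OBox K R, cexpD x (u ^ t) F := by
  unfold Nx cexpD
  rw [Finset.card_filter, Nat.cast_sum]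
  refine Finset.sum_congr rfl fun u _ => ?_
  by_cases h : ev F x = u ^ t
  · rw [if_pos h, if_pos h, Nat.cast_one]
  · rw [if_neg h, if_neg h, Nat.cast_zero]

private theorem cexp_Lx {n d : ℕ} (t R W κ A : ℕ) (hκ : 1 ≤ κ) (o : Fin (n + 1))
    (F : Ten n d (𝓞 K)) (x : Vc n (𝓞 K)) :
    Lx t R W κ A o F x = ∑ u ∈ OBox K R, cexpL o W κ A x (u ^ t) F := by
  unfold Lx cexpL
  rw [← Finset.mul_sum, Finset.card_filter, Nat.cast_sum]
  congr 1
  refine Finset.sum_congr rfl fun u _ => ?_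
  have h1 : ∀ m : 𝓞 K, cexpD x (u ^ t + m) F = if ev F x - u ^ t = m then 1 else 0 := by
    intro m
    unfold cexpD
    by_cases h : ev F x = u ^ t + m
    · rw [if_pos h, if_pos (by rw [h]; ring)]
    · rw [if_neg h, if_neg (fun h' => h (by rw [← h']; ring))]
  rw [Finset.sum_congr rfl fun m _ => h1 m, Finset.sum_ite_eq]
  by_cases h : LV d W κ A o x (ev F x - u ^ t)
  · rw [if_pos h, if_pos ((mem_MS hκ).2 h), Nat.cast_one]
  · rw [if_neg h, if_neg (fun h' => h ((mem_MS hκ).1 h')), Nat.cast_zero]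

theorem expandT (n d t R W κ A B H q : ℕ) (o : Fin (n + 1)) :
    Qt K n d t R W κ A B H q o = ∑ x ∈ GG K B H q o, ∑ y ∈ GG K B H q o, EW d t R W κ A o x y := by
  have hQ : ∀ F : Ten n d (𝓞 K), psi A F *
      ((Nt t R B H q o F : ℝ) - Lt t R W κ A B H q o F) ^ 2 =
      ∑ x ∈ GG K B H q o, ∑ y ∈ GG K B H q o, psi A F *
        (((Nx t R F x : ℝ) - Lx t R W κ A o F x) * ((Nx t R F y : ℝ) - Lx t R W κ A o F y)) := by
    intro F
    have h1 : (Nt t R B H q o F : ℝ) - Lt t R W κ A B H q o F =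
        ∑ x ∈ GG K B H q o, ((Nx t R F x : ℝ) - Lx t R W κ A o F x) := by
      unfold Nt Lt
      rw [Nat.cast_sum, ← Finset.sum_sub_distrib]
    rw [h1, sq, Finset.sum_mul_sum, Finset.mul_sum]
    refine Finset.sum_congr rfl fun x _ => ?_
    rw [Finset.mul_sum]
  unfold Qt
  rw [Finset.sum_congr rfl fun F _ => hQ F, Finset.sum_comm]
  refine Finset.sum_congr rfl fun x _ => ?_
  rw [Finset.sum_comm]
  rfl

theorem Lx_nonneg {n d : ℕ} (t R W κ A : ℕ) (o : Fin (n + 1)) (F : Ten n d (𝓞 K))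
    (x : Vc n (𝓞 K)) : 0 ≤ Lx t R W κ A o F x := by
  unfold Lx
  exact mul_nonneg (div_nonneg zero_le_one (Nat.cast_nonneg _)) (Nat.cast_nonneg _)

theorem EW_le (n d t R W κ A : ℕ) (o : Fin (n + 1)) (x y : Vc n (𝓞 K)) :
    EW d t R W κ A o x y ≤
      ∑ F ∈ Box K n d (2 * A), (Nx t R F x : ℝ) * (Nx t R F y : ℝ) +
      ∑ F ∈ Box K n d (2 * A), Lx t R W κ A o F x * Lx t R W κ A o F y := by
  unfold EW
  rw [← Finset.sum_add_distrib]
  refine Finset.sum_le_sum fun F _ => ?_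
  have h1 : (0 : ℝ) ≤ (Nx t R F x : ℝ) := Nat.cast_nonneg _
  have h2 : (0 : ℝ) ≤ (Nx t R F y : ℝ) := Nat.cast_nonneg _
  have h3 := Lx_nonneg t R W κ A o F x
  have h4 := Lx_nonneg t R W κ A o F y
  have h5 := psi_nonneg A F
  have h6 := psi_le_one A F
  have h7 : 0 ≤ (Nx t R F x : ℝ) * (Nx t R F y : ℝ) := mul_nonneg h1 h2
  have h8 : 0 ≤ Lx t R W κ A o F x * Lx t R W κ A o F y := mul_nonneg h3 h4
  have h9 : ((Nx t R F x : ℝ) - Lx t R W κ A o F x) * ((Nx t R F y : ℝ) - Lx t R W κ A o F y) ≤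
      (Nx t R F x : ℝ) * (Nx t R F y : ℝ) + Lx t R W κ A o F x * Lx t R W κ A o F y := by
    have h10 : 0 ≤ (Nx t R F x : ℝ) * Lx t R W κ A o F y := mul_nonneg h1 h4
    have h11 : 0 ≤ Lx t R W κ A o F x * (Nx t R F y : ℝ) := mul_nonneg h3 h2
    nlinarith
  calc psi A F * (((Nx t R F x : ℝ) - Lx t R W κ A o F x) *
        ((Nx t R F y : ℝ) - Lx t R W κ A o F y))
      ≤ psi A F * ((Nx t R F x : ℝ) * (Nx t R F y : ℝ) +
          Lx t R W κ A o F x * Lx t R W κ A o F y) := mul_le_mul_of_nonneg_left h9 h5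
    _ ≤ 1 * ((Nx t R F x : ℝ) * (Nx t R F y : ℝ) +
          Lx t R W κ A o F x * Lx t R W κ A o F y) :=
        mul_le_mul_of_nonneg_right h6 (add_nonneg h7 h8)
    _ = _ := one_mul _

/-- The four-term combination of slices. -/
noncomputable def S4 {n : ℕ} (d W κ A : ℕ) (o : Fin (n + 1)) (x y : Vc n (𝓞 K)) (μ μ' : 𝓞 K) :
    ℝ :=
  sl d A x y μ μ'
    - (1 / ((MS d W κ A o y).card : ℝ)) * ∑ m' ∈ MS d W κ A o y, sl d A x y μ (μ' + m')
    - (1 / ((MS d W κ A o x).card : ℝ)) * ∑ m ∈ MS d W κ A o x, sl d A x y (μ + m) μ'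
    + (1 / ((MS d W κ A o x).card : ℝ)) * (1 / ((MS d W κ A o y).card : ℝ)) *
      ∑ m ∈ MS d W κ A o x, ∑ m' ∈ MS d W κ A o y, sl d A x y (μ + m) (μ' + m')

private theorem cexp_S4 {n : ℕ} (d W κ A : ℕ) (o : Fin (n + 1)) (x y : Vc n (𝓞 K))
    (μ μ' : 𝓞 K) :
    S4 d W κ A o x y μ μ' = ∑ a ∈ Box K n d (2 * A), psi A a *
      ((cexpD x μ a - cexpL o W κ A x μ a) * (cexpD y μ' a - cexpL o W κ A y μ' a)) := by
  have e1 : ∑ m' ∈ MS d W κ A o y, sl d A x y μ (μ' + m') =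
      ∑ a ∈ Box K n d (2 * A), psi A a * (cexpD x μ a *
        ∑ m' ∈ MS d W κ A o y, cexpD y (μ' + m') a) := by
    simp only [cexp_sl]
    rw [Finset.sum_comm]
    refine Finset.sum_congr rfl fun a _ => ?_
    rw [← Finset.mul_sum, ← Finset.mul_sum]
  have e2 : ∑ m ∈ MS d W κ A o x, sl d A x y (μ + m) μ' =
      ∑ a ∈ Box K n d (2 * A), psi A a * ((∑ m ∈ MS d W κ A o x, cexpD x (μ + m) a) *
        cexpD y μ' a) := by
    simp only [cexp_sl]
    rw [Finset.sum_comm]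
    refine Finset.sum_congr rfl fun a _ => ?_
    rw [← Finset.mul_sum, ← Finset.sum_mul]
  have e3 : ∑ m ∈ MS d W κ A o x, ∑ m' ∈ MS d W κ A o y, sl d A x y (μ + m) (μ' + m') =
      ∑ a ∈ Box K n d (2 * A), psi A a * ((∑ m ∈ MS d W κ A o x, cexpD x (μ + m) a) *
        ∑ m' ∈ MS d W κ A o y, cexpD y (μ' + m') a) := by
    simp only [cexp_sl]
    calc ∑ m ∈ MS d W κ A o x, ∑ m' ∈ MS d W κ A o y, ∑ a ∈ Box K n d (2 * A),
          psi A a * (cexpD x (μ + m) a * cexpD y (μ' + m') a)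
        = ∑ m ∈ MS d W κ A o x, ∑ a ∈ Box K n d (2 * A), ∑ m' ∈ MS d W κ A o y,
          psi A a * (cexpD x (μ + m) a * cexpD y (μ' + m') a) :=
          Finset.sum_congr rfl fun m _ => Finset.sum_comm
      _ = ∑ a ∈ Box K n d (2 * A), ∑ m ∈ MS d W κ A o x, ∑ m' ∈ MS d W κ A o y,
          psi A a * (cexpD x (μ + m) a * cexpD y (μ' + m') a) := Finset.sum_comm
      _ = _ := by
          refine Finset.sum_congr rfl fun a _ => ?_
          rw [Finset.sum_mul_sum, Finset.mul_sum]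
          refine Finset.sum_congr rfl fun m _ => ?_
          rw [Finset.mul_sum]
  unfold S4
  rw [e1, e2, e3, cexp_sl, Finset.mul_sum, Finset.mul_sum, Finset.mul_sum,
    ← Finset.sum_sub_distrib, ← Finset.sum_sub_distrib, ← Finset.sum_add_distrib]
  refine Finset.sum_congr rfl fun a _ => ?_
  unfold cexpL
  ring

theorem EW_slices (n d t R W κ A : ℕ) (hκ : 1 ≤ κ) (o : Fin (n + 1)) (x y : Vc n (𝓞 K)) :
    EW d t R W κ A o x y =
      ∑ u ∈ OBox K R, ∑ u' ∈ OBox K R, S4 d W κ A o x y (u ^ t) (u' ^ t) := by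
  have hF : ∀ F : Ten n d (𝓞 K), psi A F *
      (((Nx t R F x : ℝ) - Lx t R W κ A o F x) * ((Nx t R F y : ℝ) - Lx t R W κ A o F y)) =
      ∑ u ∈ OBox K R, ∑ u' ∈ OBox K R, psi A F *
        ((cexpD x (u ^ t) F - cexpL o W κ A x (u ^ t) F) *
          (cexpD y (u' ^ t) F - cexpL o W κ A y (u' ^ t) F)) := by
    intro F
    rw [cexp_Nx, cexp_Nx, cexp_Lx t R W κ A hκ, cexp_Lx t R W κ A hκ, ← Finset.sum_sub_distrib,
      ← Finset.sum_sub_distrib, Finset.sum_mul_sum, Finset.mul_sum]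
    refine Finset.sum_congr rfl fun u _ => ?_
    rw [Finset.mul_sum]
  unfold EW
  rw [Finset.sum_congr rfl fun F _ => hF F, Finset.sum_comm]
  refine Finset.sum_congr rfl fun u _ => ?_
  rw [Finset.sum_comm]
  refine Finset.sum_congr rfl fun u' _ => ?_
  exact (cexp_S4 d W κ A o x y _ _).symm

end Pool.Agent.Lib.MP_1ad228_ntW
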