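import Pool.Agent.Lib.MP_1ad228_ntW.Defs
import Pool.Agent.Lib.MP_1ad228_ntN.Slice

/-!
JOB C_Shift.  Lipschitz property of the slices, general base values.  (Model with proof: Lib/MP_1ad228_ntN/Slice.lean, which is the case `μ = μ' = 0`.)

PROOF.  As in the model: `a ↦ a + a0` is a bijection from the tensors with values `(μ, μ')` at `(x, y)` to those with values `(μ + ev a0 x, μ' + ev a0 y)` (`ev_add`); `psi` vanishes outside of `Box (2A)` (`psi_zero`) and
`|psi (a + a0) - psi a| ≤ tn a0/(2A)` (`psi_lip`); only the `a` in `Box K n d (3 * A)` (size `≤ 2A + tn a0 ≤ 3A`) with values `(μ, μ')` contribute, at most `C n2 d x y A` (`cover2` with `M = 3`, `X = A`).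
-/

namespace Pool.Agent.Lib.MP_1ad228_ntW

open NumberField Classical Pool.Agent.Lib.MP_1ad228_ntN

private theorem C_Shift_sh {K : Type} [Field K] [NumberField K] {n : ℕ} (d A : ℕ) (hA : 1 ≤ A) (x y : Vc n (𝓞 K))
    (μ μ' : 𝓞 K) (a0 : Ten n d (𝓞 K)) (h0 : tn a0 ≤ A) :
    sl d A x y (μ + ev a0 x) (μ' + ev a0 y) =
      ∑ b ∈ (Box K n d (3 * A)).filter (fun b => ev b x = μ ∧ ev b y = μ'), psi A (b + a0) := by
  have e1 : ∑ b ∈ (Box K n d (3 * A)).filter (fun b => ev b x = μ ∧ ev b y = μ'), psi A (b + a0) =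
      ∑ b ∈ ((Box K n d (3 * A)).filter (fun b => ev b x = μ ∧ ev b y = μ')).filter (fun b => b + a0 ∈ Box K n d (2 * A)),
      psi A (b + a0) := by
    symm
    refine Finset.sum_subset (Finset.filter_subset _ _) ?_
    intro b hb hnb
    apply psi_zero hA
    intro h
    exact hnb (Finset.mem_filter.mpr ⟨hb, h⟩)
  rw [e1]
  unfold sl
  refine Finset.sum_bij' (fun a _ => a - a0) (fun b _ => b + a0) ?_ ?_ ?_ ?_ ?_
  · intro a ha
    rw [Finset.mem_filter] at ha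
    obtain ⟨ha1, ha2, ha3⟩ := ha
    have htn : tn (a - a0) ≤ 3 * A := by
      rw [mem_Box_iff_tn] at ha1
      have := tn_add a (-a0)
      rw [tn_neg, ← sub_eq_add_neg] at this
      linarith
    refine Finset.mem_filter.mpr ⟨?_, ?_⟩
    · refine Finset.mem_filter.mpr ⟨mem_Box_iff_tn.mpr htn, ?_, ?_⟩
      · rw [ev_sub, ha2, add_sub_cancel_right]
      · rw [ev_sub, ha3, add_sub_cancel_right]
    · rw [sub_add_cancel]; exact ha1
  · intro b hb
    rw [Finset.mem_filter] at hb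
    obtain ⟨hb1, hb2⟩ := hb
    rw [Finset.mem_filter] at hb1
    refine Finset.mem_filter.mpr ⟨hb2, ?_, ?_⟩
    · rw [ev_add, hb1.2.1]
    · rw [ev_add, hb1.2.2]
  · intro a _
    exact sub_add_cancel a a0
  · intro b _
    exact add_sub_cancel_right b a0
  · intro a _
    rw [sub_add_cancel]

private theorem C_Shift_id {K : Type} [Field K] [NumberField K] {n : ℕ} (d A : ℕ) (hA : 1 ≤ A) (x y : Vc n (𝓞 K))
    (μ μ' : 𝓞 K) : sl d A x y μ μ' =
      ∑ b ∈ (Box K n d (3 * A)).filter (fun b => ev b x = μ ∧ ev b y = μ'), psi A b := by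
  unfold sl
  have hA0 : (0 : ℝ) ≤ A := Nat.cast_nonneg A
  refine Finset.sum_subset ?_ ?_
  · intro a ha
    rw [Finset.mem_filter] at ha
    refine Finset.mem_filter.mpr ⟨?_, ha.2⟩
    rw [mem_Box_iff_tn] at ha ⊢
    linarith [ha.1]
  · intro b hb hnb
    apply psi_zero hA
    intro h
    exact hnb (Finset.mem_filter.mpr ⟨h, (Finset.mem_filter.mp hb).2⟩)

variable (K : Type) [Field K] [NumberField K]

theorem shift (n d : ℕ) : ∃ C : ℝ, 1 ≤ C ∧
    ∀ (A : ℕ), 1 ≤ A → ∀ (x y : Vc n (𝓞 K)) (μ μ' : 𝓞 K) (a0 : Ten n d (𝓞 K)), tn a0 ≤ A →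
      |sl d A x y (μ + ev a0 x) (μ' + ev a0 y) - sl d A x y μ μ'| ≤
        tn a0 / (2 * A) * (C * (n2 d x y A : ℝ)) := by
  obtain ⟨C3, hC3, h3⟩ := cover2 (K := K) n d 3 (by norm_num)
  refine ⟨C3, hC3, ?_⟩
  intro A hA x y μ μ' a0 h0
  have hA' : (1 : ℝ) ≤ (A : ℝ) := by exact_mod_cast hA
  have htn := tn_nonneg a0
  rw [C_Shift_sh d A hA x y μ μ' a0 h0, C_Shift_id d A hA x y μ μ', ← Finset.sum_sub_distrib]
  have h4 := h3 x y μ μ' A hA'
  calc |∑ b ∈ (Box K n d (3 * A)).filter (fun b => ev b x = μ ∧ ev b y = μ'), (psi A (b + a0) - psi A b)|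
      ≤ ∑ b ∈ (Box K n d (3 * A)).filter (fun b => ev b x = μ ∧ ev b y = μ'), |psi A (b + a0) - psi A b| :=
        Finset.abs_sum_le_sum_abs _ _
    _ ≤ ∑ _b ∈ (Box K n d (3 * A)).filter (fun b => ev b x = μ ∧ ev b y = μ'), tn a0 / (2 * A) :=
        Finset.sum_le_sum fun b _ => psi_lip hA b a0
    _ = tn a0 / (2 * A) * ((Box K n d (3 * A)).filter (fun b => ev b x = μ ∧ ev b y = μ')).card := by
        rw [Finset.sum_const, nsmul_eq_mul, mul_comm]
    _ ≤ _ := mul_le_mul_of_nonneg_left h4 (by positivity)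

end Pool.Agent.Lib.MP_1ad228_ntW
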