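import Pool.Agent.Lib.MP_1ad228_ntW.C_Exp
import Pool.Agent.Lib.MP_1ad228_ntW.C_Cong
import Pool.Agent.Lib.MP_1ad228_ntW.C_Shift
import Pool.Agent.Lib.MP_1ad228_ntW.A_Box
import Pool.Agent.Lib.MP_1ad228_ntN.Near
import Pool.Agent.Lib.MP_1ad228_ntN.Cover

/-!
JOB C_Good.  Good pairs contribute little.  (Model: Lib/MP_1ad228_ntN/EEgood.lean.)

PROOF.  `κ = k^2 ≥ 1`.  `C1` from `near n d`, `C2` from `shift K n d`, `C3` from `cntBox K t ht`, `C4` from `cover2 n d 2`; `C0 = C1 + C2 + C4`, `C = 16 C0^2 C3`.  `I = Dd x y`, `W ∈ I`.  `ν` from `congV`.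
Let `u, u' ∈ OBox K R`, `μ = u^t`, `μ' = u'^t`.
(a) if `u'^t - (ν u)^t ∉ I`: all slices in `S4` vanish: a tensor `F` with `ev F x = μ + m`, `ev F y = μ' + m'`, `m, m'` multiples of `W` (or `0`), would give `u'^t - (ν u)^t ∈ I` (`congP`); an empty filter has sum `0`.  So `S4 = 0`.
(b) otherwise `|S4| ≤ 4 (C0^2/k) n2 d x y A`: if `k ≥ C1`: for `m ∈ MS x`, `m' ∈ MS y` (also `m = 0` or `m' = 0`, `0 ∈ MS`) `near` gives `a0` with `ev a0 x = m`, `ev a0 y = m'`, `k tn a0 ≤ C1 A`, so `tn a0 ≤ A` and by `shift`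
 `|sl (μ + m) (μ' + m') - sl μ μ'| ≤ (C1/(2k)) C2 n2`; the averages (positive cardinals) differ from `sl μ μ'` by the same bound, `S4` is a signed sum of four, so `|S4| ≤ 3 (C1 C2/(2k)) n2`.  If `k < C1`: every slice is in `[0, C4 n2]`
 (`psi ≤ 1`, `cover2` with `M = 2`), the averages too, so `|S4| ≤ 2 C4 n2 ≤ 2 C4 C1/k n2`.
So `|EW| ≤ ∑_{(u,u') : u'^t - (ν u)^t ∈ I} |S4| ≤ C3 PC K (ax t) R (nD x y) * 4 (C0^2/k) n2` (`EW_slices`, `Finset.abs_sum_le_sum_abs`, `cntBox`).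
-/

namespace Pool.Agent.Lib.MP_1ad228_ntW

open NumberField Classical Pool.Agent.Lib.MP_1ad228_ntN

variable (K : Type) [Field K] [NumberField K]

section aux
variable {K : Type} [Field K] [NumberField K]

private theorem C_Good_avg {ι : Type*} (s : Finset ι) (f : ι → ℝ) (S δ : ℝ) (hs : s.Nonempty)
    (h : ∀ m ∈ s, |f m - S| ≤ δ) : |(1 / (s.card : ℝ)) * ∑ m ∈ s, f m - S| ≤ δ := by
  have hc : (0 : ℝ) < (s.card : ℝ) := by exact_mod_cast hs.card_pos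
  have h1 : (1 / (s.card : ℝ)) * ∑ m ∈ s, f m - S
      = (1 / (s.card : ℝ)) * ∑ m ∈ s, (f m - S) := by
    rw [Finset.sum_sub_distrib, Finset.sum_const, nsmul_eq_mul]
    field_simp
  rw [h1, abs_mul, abs_of_pos (one_div_pos.mpr hc)]
  have h2 : |∑ m ∈ s, (f m - S)| ≤ (s.card : ℝ) * δ := by
    refine (Finset.abs_sum_le_sum_abs _ _).trans ?_
    calc ∑ m ∈ s, |f m - S| ≤ ∑ _m ∈ s, δ := Finset.sum_le_sum h
      _ = (s.card : ℝ) * δ := by rw [Finset.sum_const, nsmul_eq_mul]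
  calc 1 / (s.card : ℝ) * |∑ m ∈ s, (f m - S)| ≤ 1 / (s.card : ℝ) * ((s.card : ℝ) * δ) := by
        gcongr
    _ = δ := by field_simp

private theorem C_Good_zero_mem {n d W κ A : ℕ} {o : Fin (n + 1)} {x : Vc n (𝓞 K)} :
    (0 : 𝓞 K) ∈ MS d W κ A o x := by
  have hh : 0 ≤ hs (x o : K) := hs_nonneg _
  unfold MS
  rw [Finset.mem_filter]
  refine ⟨zero_mem_OBox (by positivity), dvd_zero _, fun v => ?_⟩
  have h1 : v ((0 : 𝓞 K) : K) = 0 := by simp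
  rw [h1, mul_zero]
  exact mul_nonneg (Nat.cast_nonneg _) (pow_nonneg (v_nonneg v _) _)

/-- If all the slices are close to `S` then the four-term combination is small. -/
private theorem C_Good_S4 {n : ℕ} (d W κ A : ℕ) (o : Fin (n + 1)) (x y : Vc n (𝓞 K)) (μ μ' : 𝓞 K)
    (S δ : ℝ) (h : ∀ m ∈ MS d W κ A o x, ∀ m' ∈ MS d W κ A o y,
      |sl d A x y (μ + m) (μ' + m') - S| ≤ δ) : |S4 d W κ A o x y μ μ'| ≤ 4 * δ := by
  have z1 : (0 : 𝓞 K) ∈ MS d W κ A o x := C_Good_zero_mem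
  have z2 : (0 : 𝓞 K) ∈ MS d W κ A o y := C_Good_zero_mem
  have g0 : |sl d A x y μ μ' - S| ≤ δ := by
    have := h 0 z1 0 z2
    rwa [add_zero, add_zero] at this
  have g1 := C_Good_avg (MS d W κ A o y) (fun m' => sl d A x y μ (μ' + m')) S δ ⟨0, z2⟩
    (fun m' hm' => by
      have := h 0 z1 m' hm'
      rwa [add_zero] at this)
  have g2 := C_Good_avg (MS d W κ A o x) (fun m => sl d A x y (μ + m) μ') S δ ⟨0, z1⟩
    (fun m hm => by
      have := h m hm 0 z2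
      rwa [add_zero] at this)
  have g3 := C_Good_avg (MS d W κ A o x) (fun m => (1 / ((MS d W κ A o y).card : ℝ)) *
      ∑ m' ∈ MS d W κ A o y, sl d A x y (μ + m) (μ' + m')) S δ ⟨0, z1⟩
    (fun m hm => C_Good_avg _ _ _ _ ⟨0, z2⟩ fun m' hm' => h m hm m' hm')
  have e3 : (1 / ((MS d W κ A o x).card : ℝ)) * ∑ m ∈ MS d W κ A o x,
      ((1 / ((MS d W κ A o y).card : ℝ)) * ∑ m' ∈ MS d W κ A o y, sl d A x y (μ + m) (μ' + m')) =
      (1 / ((MS d W κ A o x).card : ℝ)) * (1 / ((MS d W κ A o y).card : ℝ)) *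
      ∑ m ∈ MS d W κ A o x, ∑ m' ∈ MS d W κ A o y, sl d A x y (μ + m) (μ' + m') := by
    rw [← Finset.mul_sum, mul_assoc]
  rw [e3] at g3
  unfold S4
  rw [abs_le] at g0 g1 g2 g3 ⊢
  constructor
  · linarith [g0.1, g1.2, g2.2, g3.1]
  · linarith [g0.2, g1.1, g2.1, g3.2]

end aux

theorem goodT (n d t m : ℕ) (hd : d = t * m) (ht : 2 ≤ t) (hm : 1 ≤ m) : ∃ C : ℝ, 1 ≤ C ∧
    ∀ (B H q : ℕ) (o : Fin (n + 1)) (k A W R : ℕ), 1 ≤ B → 1 ≤ k → 1 ≤ A → 1 ≤ R →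
    C * (H : ℝ) ^ 2 * k ≤ A →
    ∀ x ∈ GG K B H q o, ∀ y ∈ GG K B H q o, ¬ Prp x y → ((W : ℕ) : 𝓞 K) ∈ Dd x y →
    (∀ v, (B : ℝ) ^ 2 ≤ k * Del o x y v) →
    |EW d t R W (k ^ 2) A o x y| ≤
      C / (k : ℝ) * ((n2 d x y A : ℝ) * PC K (ax t) R (nD x y)) := by
  have hd2 : 2 ≤ d := by
    rw [hd]
    exact (le_mul_of_one_le_right (by omega) hm).trans' ht
  obtain ⟨C1, hC1, hnear⟩ := near (K := K) n d hd2
  obtain ⟨C2, hC2, hshift⟩ := shift K n d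
  obtain ⟨C3, hC3, hcnt⟩ := cntBox K t ht
  obtain ⟨C4, hC4, hcov⟩ := cover2 (K := K) n d 2 (by norm_num)
  obtain ⟨C0, hC0⟩ : ∃ C0 : ℝ, C0 = C1 + C2 + C4 := ⟨_, rfl⟩
  have hC01 : C1 ≤ C0 := by linarith
  have hC02 : C2 ≤ C0 := by linarith
  have hC04 : C4 ≤ C0 := by linarith
  have hC0p : 1 ≤ C0 := by linarith
  have hbig : C0 ≤ 4 * C0 ^ 2 * C3 := by nlinarith [mul_nonneg (sq_nonneg C0) (sub_nonneg.2 hC3)]
  refine ⟨4 * C0 ^ 2 * C3, hC0p.trans hbig, ?_⟩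
  intro B H q o k A W R hB hk hA1 hR hA x hx y hy hxy hW hΔ
  have hk0 : (0 : ℝ) < (k : ℝ) := by exact_mod_cast hk
  have hA0 : (0 : ℝ) < (A : ℝ) := by exact_mod_cast hA1
  have hA1' : (1 : ℝ) ≤ (A : ℝ) := by exact_mod_cast hA1
  have hn2 : (0 : ℝ) ≤ (n2 d x y A : ℝ) := Nat.cast_nonneg _
  obtain ⟨ν, μ, hνμ, hF⟩ := congV (t := t) (m := m) hd x y (GG_uni hx) (GG_uni hy)
  rw [EW_slices n d t R W (k ^ 2) A (Nat.one_le_pow _ _ hk) o x y, ← Finset.sum_product']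
  -- (a) the slices vanish off the congruence
  have hzero : ∀ p ∈ OBox K R ×ˢ OBox K R, ¬ (p.2 ^ t - (ν * p.1) ^ t ∈ Dd x y) →
      S4 d W (k ^ 2) A o x y (p.1 ^ t) (p.2 ^ t) = 0 := by
    intro p _ hp
    have h1 : ∀ m ∈ MS d W (k ^ 2) A o x, ∀ m' ∈ MS d W (k ^ 2) A o y,
        |sl d A x y (p.1 ^ t + m) (p.2 ^ t + m') - 0| ≤ 0 := by
      intro m hm m' hm'
      have hmW : m ∈ Dd x y := by
        have h2 : ((W : ℕ) : 𝓞 K) ∣ m := (Finset.mem_filter.1 hm).2.1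
        obtain ⟨c, rfl⟩ := h2
        exact Ideal.mul_mem_right _ _ hW
      have hmW' : m' ∈ Dd x y := by
        have h2 : ((W : ℕ) : 𝓞 K) ∣ m' := (Finset.mem_filter.1 hm').2.1
        obtain ⟨c, rfl⟩ := h2
        exact Ideal.mul_mem_right _ _ hW
      have h3 : sl d A x y (p.1 ^ t + m) (p.2 ^ t + m') = 0 := by
        unfold sl
        rw [Finset.filter_eq_empty_iff.2, Finset.sum_empty]
        intro F _ h4
        exact hp (congP hF le_rfl F hmW hmW' h4.1 h4.2)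
      rw [h3, sub_zero, abs_zero]
    have h5 := C_Good_S4 d W (k ^ 2) A o x y (p.1 ^ t) (p.2 ^ t) 0 0 h1
    rw [mul_zero] at h5
    exact abs_eq_zero.1 (le_antisymm h5 (abs_nonneg _))
  -- (b) bound for all the slices
  have hbd : ∀ p ∈ OBox K R ×ˢ OBox K R, |S4 d W (k ^ 2) A o x y (p.1 ^ t) (p.2 ^ t)| ≤
      4 * (C0 ^ 2 / k * (n2 d x y A : ℝ)) := by
    intro p _
    by_cases hk2 : (k : ℝ) ≤ C1
    · have h1 : ∀ m ∈ MS d W (k ^ 2) A o x, ∀ m' ∈ MS d W (k ^ 2) A o y,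
          |sl d A x y (p.1 ^ t + m) (p.2 ^ t + m') - 0| ≤ C4 * (n2 d x y A : ℝ) := by
        intro m _ m' _
        rw [sub_zero, abs_of_nonneg (sl_nonneg d A x y _ _)]
        have h2 : sl d A x y (p.1 ^ t + m) (p.2 ^ t + m') ≤
            ∑ _a ∈ (Box K n d (2 * A)).filter (fun a => ev a x = p.1 ^ t + m ∧
              ev a y = p.2 ^ t + m'), (1 : ℝ) :=
          Finset.sum_le_sum fun a _ => psi_le_one A a
        rw [Finset.sum_const, nsmul_eq_mul, mul_one] at h2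
        exact h2.trans (hcov x y _ _ A hA1')
      refine (C_Good_S4 d W (k ^ 2) A o x y (p.1 ^ t) (p.2 ^ t) 0 _ h1).trans ?_
      have h3 : C4 ≤ C0 ^ 2 / k := by
        rw [le_div_iff₀ hk0]
        nlinarith
      exact mul_le_mul_of_nonneg_left (mul_le_mul_of_nonneg_right h3 hn2) (by norm_num)
    · have hk3 : C1 < k := not_le.1 hk2
      have h1 : ∀ m ∈ MS d W (k ^ 2) A o x, ∀ m' ∈ MS d W (k ^ 2) A o y,
          |sl d A x y (p.1 ^ t + m) (p.2 ^ t + m') - sl d A x y (p.1 ^ t) (p.2 ^ t)| ≤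
            C0 ^ 2 / k * (n2 d x y A : ℝ) := by
        intro m hm m' hm'
        have hAi : C1 * (H : ℝ) ^ 2 * k ≤ A := by
          refine le_trans ?_ hA
          have h1 : 0 ≤ (H : ℝ) ^ 2 * k := by positivity
          have h2 := mul_le_mul_of_nonneg_right (hC01.trans hbig) h1
          linarith
        obtain ⟨a0, h1, h2, h3⟩ := hnear B H q o k A W hB hk hAi x hx y hy hxy hW hΔ m hm m' hm'
        have h4 : tn a0 ≤ A := by
          by_contra hcon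
          push Not at hcon
          have h5 : (k : ℝ) * A < k * tn a0 := mul_lt_mul_of_pos_left hcon hk0
          have h6 : C1 * A < k * A := mul_lt_mul_of_pos_right hk3 hA0
          linarith
        have h5 := hshift A hA1 x y (p.1 ^ t) (p.2 ^ t) a0 h4
        rw [h1, h2] at h5
        refine h5.trans ?_
        have h6 : tn a0 / (2 * (A : ℝ)) ≤ C1 / k := by
          rw [div_le_div_iff₀ (by positivity) hk0]
          have := tn_nonneg a0
          nlinarith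
        have h7 : tn a0 / (2 * (A : ℝ)) * (C2 * (n2 d x y A : ℝ)) ≤
            C1 / k * (C2 * (n2 d x y A : ℝ)) :=
          mul_le_mul_of_nonneg_right h6 (mul_nonneg (by linarith) hn2)
        refine h7.trans ?_
        have h8 : C1 / k * (C2 * (n2 d x y A : ℝ)) = (C1 * C2) / k * (n2 d x y A : ℝ) := by ring
        rw [h8]
        apply mul_le_mul_of_nonneg_right _ hn2
        apply div_le_div_of_nonneg_right _ hk0.le
        nlinarith
      exact C_Good_S4 d W (k ^ 2) A o x y (p.1 ^ t) (p.2 ^ t) _ _ h1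
  have h1 := hcnt R hR (Dd x y) (Dd_ne_bot hxy) ν μ hνμ
  refine (Finset.abs_sum_le_sum_abs _ _).trans ?_
  rw [← Finset.sum_filter_add_sum_filter_not (OBox K R ×ˢ OBox K R)
    (fun p : 𝓞 K × 𝓞 K => p.2 ^ t - (ν * p.1) ^ t ∈ Dd x y)]
  rw [Finset.sum_eq_zero (s := (OBox K R ×ˢ OBox K R).filter
    (fun p : 𝓞 K × 𝓞 K => ¬ (p.2 ^ t - (ν * p.1) ^ t ∈ Dd x y))) (fun p hp => by
      rw [Finset.mem_filter] at hp
      rw [hzero p hp.1 hp.2, abs_zero]), add_zero]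
  have h2 : ∑ p ∈ (OBox K R ×ˢ OBox K R).filter
      (fun p : 𝓞 K × 𝓞 K => p.2 ^ t - (ν * p.1) ^ t ∈ Dd x y),
      |S4 d W (k ^ 2) A o x y (p.1 ^ t) (p.2 ^ t)| ≤
      ((OBox K R ×ˢ OBox K R).filter
      (fun p : 𝓞 K × 𝓞 K => p.2 ^ t - (ν * p.1) ^ t ∈ Dd x y)).card *
        (4 * (C0 ^ 2 / k * (n2 d x y A : ℝ))) := by
    rw [← nsmul_eq_mul]
    exact Finset.sum_le_card_nsmul _ _ _ fun p hp => hbd p (Finset.mem_filter.1 hp).1
  refine h2.trans ((mul_le_mul_of_nonneg_right h1 (by positivity)).trans (le_of_eq ?_))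
  unfold nD
  ring

end Pool.Agent.Lib.MP_1ad228_ntW
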