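import Pool.Agent.Lib.MP_1ad228_ntW.Defs
import Pool.Agent.Lib.MP_1ad228_ntN.CN_Cls
import Pool.Agent.Lib.MP_1ad228_ntN.Expand

/-!
JOB C_Mu.  Lower bound for the number of allowed values; the norms of the sum and of the intersection of an ideal with `(W)`; number of allowed values in a class.

`muLow` PROOF.  `κ0 = CK K n`, `C = κ0^(e+1) * (q^d)^e`, and the hypothesis `C κ W ≤ A B^d` gives `κ0 W ≤ A B^d/(q^d κ) =: ρ`.  `clsLow n W hW ρ _ 0 0`: a finset `S` of `z` with `W ∣ z`, `v z ≤ ρ` for all `v` (`norm_em`),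
`(ρ/W)^e ≤ κ0^(e+1) S.card`.  `S ⊆ MS d W κ A o x` (`mem_MS`): `κ v z ≤ A (B/q)^d ≤ A v(x o)^d` (`GG_pivot`).  `(ρ/W)^e = (A B^d/(κ W))^e/(q^d)^e`.  (`mem_MS` needs `1 ≤ κ`; it is in Lib/MP_1ad228_ntN/Expand.lean, or unfold: `z ∈ OBox K (A * hs (x o)^d)` follows
from the second condition.)

`idlW` PROOF.  `J = Ideal.span {(W : 𝓞 K)} = WJ W`.  `(I ⊓ J) * (I ⊔ J) = I * J` for ideals of the Dedekind domain `𝓞 K` (in Mathlib: `Ideal.sup_mul_inf` or `gcd_mul_lcm` for ideals; `Ideal.absNorm` is multiplicative, `map_mul`), and `absNorm J = W^e` (`absNorm_natCast`).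

`clsMS` PROOF.  Elements of `MS d W κ A o y` are divisible by `W` and have size `v ≤ A B^d/κ` (`v (y o) ≤ B`).  Two elements `m', m''` of the filter: `m' - m'' ∈ I ⊓ J`, size `≤ 2 A B^d/κ`.  `upI n` with `ρ v = 2 A B^d/κ`, `pn_const`:
`card ≤ CK K n (1 + (2 A B^d/κ)^e/absNorm (I ⊓ J))` (`I ⊓ J ≠ ⊥`: it contains `I * J`, or norm nonzero).  `C = CK K n 2^e`.
-/

namespace Pool.Agent.Lib.MP_1ad228_ntW

open NumberField Classical Pool.Agent.Lib.MP_1ad228_ntN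

variable (K : Type) [Field K] [NumberField K]

theorem muLow (n d q : ℕ) (hq : 1 ≤ q) : ∃ C : ℝ, 1 ≤ C ∧ ∀ (B H W κ A : ℕ) (o : Fin (n + 1)),
    1 ≤ B → 1 ≤ W → 1 ≤ κ → C * κ * W ≤ (A : ℝ) * (B : ℝ) ^ d → ∀ x ∈ GG K B H q o,
    ((A : ℝ) * (B : ℝ) ^ d / (κ * W)) ^ eK K ≤ C * ((MS d W κ A o x).card : ℝ) := by
  have hCK1 := CK_one_le K n
  have hq1 : (1 : ℝ) ≤ q := by exact_mod_cast hq
  have hqd : (1 : ℝ) ≤ (q : ℝ) ^ d := one_le_pow₀ hq1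
  refine ⟨CK K n ^ (eK K + 1) * ((q : ℝ) ^ d) ^ (eK K + 1), ?_, ?_⟩
  · calc (1 : ℝ) = 1 * 1 := by ring
      _ ≤ _ := mul_le_mul (one_le_pow₀ hCK1) (one_le_pow₀ hqd) zero_le_one (by positivity)
  intro B H W κ A o hB hW hκ hC x hx
  have hB0 : (0 : ℝ) < B := by exact_mod_cast hB
  have hW0 : (0 : ℝ) < W := by exact_mod_cast hW
  have hκ0 : (0 : ℝ) < κ := by exact_mod_cast hκ
  have hq0 : (0 : ℝ) < q := by linarith
  have hA0 : (0 : ℝ) ≤ A := Nat.cast_nonneg A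
  obtain ⟨ρ, hρ⟩ : ∃ ρ : ℝ, ρ = (A : ℝ) * (B : ℝ) ^ d / ((q : ℝ) ^ d * κ) := ⟨_, rfl⟩
  have h1 : CK K n * W ≤ ρ := by
    rw [hρ, le_div_iff₀ (by positivity)]
    refine le_trans ?_ hC
    have h2 : CK K n ≤ CK K n ^ (eK K + 1) := le_self_pow₀ hCK1 (by omega)
    have h3 : (q : ℝ) ^ d ≤ ((q : ℝ) ^ d) ^ (eK K + 1) := le_self_pow₀ hqd (by omega)
    have h4 : CK K n * (q : ℝ) ^ d ≤ CK K n ^ (eK K + 1) * ((q : ℝ) ^ d) ^ (eK K + 1) :=
      mul_le_mul h2 h3 (by positivity) (by positivity)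
    calc CK K n * W * ((q : ℝ) ^ d * κ) = CK K n * (q : ℝ) ^ d * (κ * W) := by ring
      _ ≤ CK K n ^ (eK K + 1) * ((q : ℝ) ^ d) ^ (eK K + 1) * (κ * W) :=
          mul_le_mul_of_nonneg_right h4 (by positivity)
      _ = _ := by ring
  obtain ⟨S, hS1, hS2⟩ := clsLow (K := K) n W hW ρ h1 (fun _ => 0)
    (fun v _ => rfl) 0
  have hsub : S ⊆ MS d W κ A o x := by
    intro z hz
    obtain ⟨h2, h3⟩ := hS1 z hz
    rw [mem_MS hκ]
    rw [sub_zero] at h2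
    refine ⟨h2, fun v => ?_⟩
    have h4 := h3 v
    rw [sub_zero, norm_em] at h4
    have h5 := GG_pivot hx v
    have h6 : (B : ℝ) / q ≤ v (x o : K) := by
      rw [div_le_iff₀ hq0, mul_comm]
      exact h5
    calc (κ : ℝ) * v (z : K) ≤ κ * ρ := mul_le_mul_of_nonneg_left h4 hκ0.le
      _ = A * ((B : ℝ) / q) ^ d := by
          rw [hρ, div_pow]
          field_simp
      _ ≤ A * (v (x o : K)) ^ d :=
          mul_le_mul_of_nonneg_left (pow_le_pow_left₀ (by positivity) h6 d) hA0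
  have hcard : (S.card : ℝ) ≤ ((MS d W κ A o x).card : ℝ) := by
    exact_mod_cast Finset.card_le_card hsub
  have h7 : (A : ℝ) * (B : ℝ) ^ d / (κ * W) = (q : ℝ) ^ d * (ρ / W) := by
    rw [hρ]
    field_simp
  rw [h7, mul_pow]
  have h8 : ((q : ℝ) ^ d) ^ eK K ≤ ((q : ℝ) ^ d) ^ (eK K + 1) :=
    pow_le_pow_right₀ hqd (Nat.le_succ _)
  have hρ0 : 0 ≤ ρ / W := by
    have : 0 ≤ ρ := by rw [hρ]; positivity
    positivity
  calc ((q : ℝ) ^ d) ^ eK K * (ρ / W) ^ eK K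
      ≤ ((q : ℝ) ^ d) ^ (eK K + 1) * (CK K n ^ (eK K + 1) * ((MS d W κ A o x).card : ℝ)) := by
        apply mul_le_mul h8 _ (by positivity) (by positivity)
        exact hS2.trans (mul_le_mul_of_nonneg_left hcard (by positivity))
    _ = _ := by ring

/-- The principal ideal generated by the natural number `W`. -/
noncomputable def WJ (W : ℕ) : Ideal (𝓞 K) := Ideal.span {((W : ℕ) : 𝓞 K)}

theorem idlW (I : Ideal (𝓞 K)) (W : ℕ) :
    (Ideal.absNorm (I ⊓ WJ K W) : ℝ) * Ideal.absNorm (I ⊔ WJ K W) =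
      Ideal.absNorm I * (W : ℝ) ^ eK K := by
  have h1 : (I ⊔ WJ K W) * (I ⊓ WJ K W) = I * WJ K W := Ideal.sup_mul_inf I (WJ K W)
  have h2 := congrArg Ideal.absNorm h1
  rw [map_mul, map_mul] at h2
  have h3 : (Ideal.absNorm (WJ K W) : ℝ) = (W : ℝ) ^ eK K := absNorm_natCast W
  rw [← h3, mul_comm]
  exact_mod_cast h2

theorem clsMS (n d : ℕ) : ∃ C : ℝ, 1 ≤ C ∧ ∀ (B W κ A : ℕ) (o : Fin (n + 1)), 1 ≤ B → 1 ≤ W →
    1 ≤ κ → 1 ≤ A → ∀ y ∈ VBox K n B, ∀ (I : Ideal (𝓞 K)), I ≠ ⊥ → ∀ c : 𝓞 K,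
    (((MS d W κ A o y).filter fun m' => m' - c ∈ I).card : ℝ) ≤
      C * (1 + ((A : ℝ) * (B : ℝ) ^ d / κ) ^ eK K / Ideal.absNorm (I ⊓ WJ K W)) := by
  have hCK1 := CK_one_le K n
  refine ⟨CK K n * 2 ^ eK K, ?_, ?_⟩
  · calc (1 : ℝ) = 1 * 1 := by ring
      _ ≤ _ := mul_le_mul hCK1 (one_le_pow₀ (by norm_num)) zero_le_one (by linarith)
  intro B W κ A o hB hW hκ hA y hy I hI c
  have hB0 : (0 : ℝ) < B := by exact_mod_cast hB
  have hκ0 : (0 : ℝ) < κ := by exact_mod_cast hκ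
  have hA0 : (0 : ℝ) < A := by exact_mod_cast hA
  have hWO : ((W : ℕ) : 𝓞 K) ≠ 0 := Nat.cast_ne_zero.2 (by omega)
  have hJ : WJ K W ≠ ⊥ := by
    unfold WJ
    rw [Ne, Ideal.span_singleton_eq_bot]
    exact hWO
  have hIJ : I ⊓ WJ K W ≠ ⊥ := by
    intro h0
    have h1 : I * WJ K W ≤ ⊥ := h0 ▸ Ideal.mul_le_inf
    rw [le_bot_iff, Ideal.mul_eq_bot] at h1
    rcases h1 with h1 | h1
    · exact hI h1
    · exact hJ h1
  have hv : ∀ m ∈ MS d W κ A o y, (W : 𝓞 K) ∣ m ∧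
      ∀ v : InfinitePlace K, v (m : K) ≤ (A : ℝ) * (B : ℝ) ^ d / κ := by
    intro m hm
    rw [mem_MS hκ] at hm
    refine ⟨hm.1, fun v => ?_⟩
    rw [le_div_iff₀ hκ0, mul_comm]
    refine (hm.2 v).trans (mul_le_mul_of_nonneg_left ?_ hA0.le)
    exact pow_le_pow_left₀ (v_nonneg v _) (mem_VBox.1 hy o v) d
  have h1 := upI n ((MS d W κ A o y).filter fun m' => m' - c ∈ I) (I ⊓ WJ K W) hIJ
    (fun _ => 2 * ((A : ℝ) * (B : ℝ) ^ d / κ)) (fun _ => by positivity) (by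
      intro z hz w hw
      obtain ⟨hz1, hz2⟩ := Finset.mem_filter.1 hz
      obtain ⟨hw1, hw2⟩ := Finset.mem_filter.1 hw
      obtain ⟨hz3, hz4⟩ := hv z hz1
      obtain ⟨hw3, hw4⟩ := hv w hw1
      refine ⟨Ideal.mem_inf.2 ⟨?_, ?_⟩, fun v => ?_⟩
      · have := I.sub_mem hz2 hw2
        rwa [sub_sub_sub_cancel_right] at this
      · exact Ideal.mem_span_singleton.2 (dvd_sub hz3 hw3)
      · have e : ((z - w : 𝓞 K) : K) = (z : K) - (w : K) := by simp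
        rw [e]
        have h2 := v_sub_le v (z : K) (w : K)
        linarith [hz4 v, hw4 v])
  rw [pn_const, mul_pow, mul_div_assoc] at h1
  refine h1.trans ?_
  have h2 : (1 : ℝ) ≤ 2 ^ eK K := one_le_pow₀ (by norm_num)
  rw [mul_assoc]
  apply mul_le_mul_of_nonneg_left _ (by linarith)
  have h3 : 0 ≤ ((A : ℝ) * (B : ℝ) ^ d / κ) ^ eK K / (Ideal.absNorm (I ⊓ WJ K W) : ℝ) := by
    positivity
  nlinarith

end Pool.Agent.Lib.MP_1ad228_ntW
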