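import Pool.Agent.Lib.MP_1ad228_ntW.C_Cong
import Pool.Agent.Lib.MP_1ad228_ntW.C_Mu
import Pool.Agent.Lib.MP_1ad228_ntW.A_Box
import Pool.Agent.Lib.MP_1ad228_ntN.Cover
import Pool.Agent.Lib.MP_1ad228_ntN.Expand

/-!
JOB C_LL.  The sum of `Lx * Lx` over the tensors, non-proportional points.

PROOF.  `e = eK K`, `I = Dd x y ≠ ⊥`, `N = absNorm I = nD x y ≥ 1`, `I' = I ⊔ WJ K W`, `N' = absNorm I' ≤ N` (`I ≤ I'`: `Ideal.absNorm_dvd_absNorm_of_le`), `N' ≥ 1`.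
`C1` from `cover2 n d 2`, `C2` from `cntBox`, `C3` from `muLow n d q`, `C4` from `clsMS n d`; `C` = a large multiple of the product (`C ≥ C3`, `C ≥ 2^e q^e ..`).  `Mx = #(MS d W κ A o x)`, `My` the same for `y`; both `> 0` (`muLow` or `0 ∈ MS`).
1. `Lx F x * Lx F y = (1/(Mx My)) #{(u,u') ∈ OBox K R ^ 2 | LV x (ev F x - u^t) ∧ LV y (ev F y - u'^t)}`.  Sum over `F ∈ Box K n d (2A)`, exchange: `(1/(Mx My)) ∑_{(u,u')} #{F | ..}`, and for fixed `(u,u')` (put `m = ev F x - u^t ∈ MS x`,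
 `m' = ev F y - u'^t ∈ MS y`, `mem_MS`) `#{F | ..} = ∑_{m ∈ MS x} ∑_{m' ∈ MS y} #{F | ev F x = u^t + m ∧ ev F y = u'^t + m'}`, each term `≤ C1 n2 d x y A` (`cover2`).
2. A nonzero term forces, with `ν` of `congV`: `u'^t + m' - ν^t (u^t + m) ∈ I`; hence (`W ∣ m, m'`) `u'^t - (ν u)^t ∈ I'` (`congP` with `I'`), and, for given `u, u', m`: `m' - c ∈ I` with `c = ν^t (u^t + m) - u'^t`.
 So `∑_m ∑_{m'} ≤ C1 n2 Mx * C4 (1 + (A B^d/κ)^e/absNorm (I ⊓ WJ))` (`clsMS`) for the `(u,u')` with `u'^t - (ν u)^t ∈ I'` and `0` for the others; their number is `≤ C2 PC K a R N'` (`cntBox` for `I'`; `ν μ - 1 ∈ I ≤ I'`).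
3. Total `≤ (1/My) C1 n2 C4 (1 + (A B^d/κ)^e/absNorm (I ⊓ WJ)) C2 PC K a R N'`.  `1/My ≤ C3 (κ W/(A B^d))^e` (`muLow`).  `(κ W/(A B^d))^e (1 + (A B^d/κ)^e/absNorm(I ⊓ WJ)) = (κ W/(A B^d))^e + W^e/absNorm (I ⊓ WJ)`, the second is `N'/N` (`idlW`).
 The first: `κ W ≤ A` (`C ≥ 1`) and `N ≤ pn (Del o x y) ≤ (2 B^2)^e` (`nD_le_pn`, `GG_ne`, `Del_le`, `pn_mono`, `pn_const`), `d ≥ 2`: `(κ W/(A B^d))^e ≤ (1/B^2)^e ≤ 2^e/N ≤ 2^e N'/N`.
4. `PC K a R N' * N'/N ≤ PC K a R N`: `N'^(a-1) (1 + N'/R^e)^2 N'/N = N'^a (1 + N'/R^e)^2/N ≤ N^a (1 + N/R^e)^2/N` (`a = ax t ≥ 0`, `Real.rpow_le_rpow`).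
-/

namespace Pool.Agent.Lib.MP_1ad228_ntW

open NumberField Classical Pool.Agent.Lib.MP_1ad228_ntN

variable (K : Type) [Field K] [NumberField K]

/-- Monotonicity of the count of pairs. -/
private theorem C_LL_pc {a N N' : ℝ} (R : ℕ) (ha : 0 ≤ a) (h1 : 1 ≤ N') (h2 : N' ≤ N)
    (hR : 1 ≤ R) : PC K a R N' * (N' / N) ≤ PC K a R N := by
  have hN' : 0 < N' := by linarith
  have hN : 0 < N := by linarith
  have hR0 : (0 : ℝ) < (R : ℝ) ^ eK K := by
    have : (0 : ℝ) < R := by exact_mod_cast hR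
    positivity
  have e1 : N' ^ (a - 1) * N' = N' ^ a := by
    rw [← Real.rpow_add_one hN'.ne', sub_add_cancel]
  have e2 : N ^ (a - 1) = N ^ a / N := by
    rw [Real.rpow_sub_one hN.ne']
  have h3 : N' ^ a ≤ N ^ a := Real.rpow_le_rpow hN'.le h2 ha
  have h4 : (1 + N' / (R : ℝ) ^ eK K) ^ 2 ≤ (1 + N / (R : ℝ) ^ eK K) ^ 2 := by
    have h5 : N' / (R : ℝ) ^ eK K ≤ N / (R : ℝ) ^ eK K := div_le_div_of_nonneg_right h2 hR0.le
    have h6 : 0 ≤ N' / (R : ℝ) ^ eK K := by positivity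
    exact pow_le_pow_left₀ (by linarith) (by linarith) 2
  unfold PC
  calc (R : ℝ) ^ (2 * eK K) * N' ^ (a - 1) * (1 + N' / (R : ℝ) ^ eK K) ^ 2 * (N' / N) =
        (R : ℝ) ^ (2 * eK K) * ((N' ^ (a - 1) * N') * (1 + N' / (R : ℝ) ^ eK K) ^ 2) / N := by ring
    _ ≤ (R : ℝ) ^ (2 * eK K) * (N ^ a * (1 + N / (R : ℝ) ^ eK K) ^ 2) / N := by
        rw [e1]
        refine div_le_div_of_nonneg_right (mul_le_mul_of_nonneg_left ?_ (by positivity)) hN.le
        exact mul_le_mul h3 h4 (by positivity) (Real.rpow_nonneg hN.le _)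
    _ = (R : ℝ) ^ (2 * eK K) * N ^ (a - 1) * (1 + N / (R : ℝ) ^ eK K) ^ 2 := by
        rw [e2]
        ring

variable {K}

/-- The sum of the products of the local models as a sum over pairs. -/
private theorem C_LL_sum {n d t R W κ A : ℕ} {o : Fin (n + 1)} (x y : Vc n (𝓞 K))
    (T : Finset (Ten n d (𝓞 K))) :
    ∑ F ∈ T, Lx t R W κ A o F x * Lx t R W κ A o F y =
      (1 / ((MS d W κ A o x).card : ℝ)) * (1 / ((MS d W κ A o y).card : ℝ)) *
      ∑ p ∈ OBox K R ×ˢ OBox K R, ((T.filter fun F => LV d W κ A o x (ev F x - p.1 ^ t) ∧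
        LV d W κ A o y (ev F y - p.2 ^ t)).card : ℝ) := by
  have h1 : ∀ F : Ten n d (𝓞 K), Lx t R W κ A o F x * Lx t R W κ A o F y =
      (1 / ((MS d W κ A o x).card : ℝ)) * (1 / ((MS d W κ A o y).card : ℝ)) *
      ∑ p ∈ OBox K R ×ˢ OBox K R, (if LV d W κ A o x (ev F x - p.1 ^ t) ∧
        LV d W κ A o y (ev F y - p.2 ^ t) then (1 : ℝ) else 0) := by
    intro F
    unfold Lx
    rw [mul_mul_mul_comm]
    congr 1
    rw [← Nat.cast_mul, ← Finset.card_product, ← Finset.filter_product, Finset.card_filter]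
    push_cast
    rfl
  rw [Finset.sum_congr rfl fun F _ => h1 F, ← Finset.mul_sum, Finset.sum_comm]
  congr 1
  refine Finset.sum_congr rfl fun p _ => ?_
  rw [Finset.card_filter]
  push_cast
  rfl

/-- The bound for one pair. -/
private theorem C_LL_pair {n d t W κ A : ℕ} {o : Fin (n + 1)} (hκ : 1 ≤ κ) {x y : Vc n (𝓞 K)}
    {ν : 𝓞 K} (hν : ∀ F : Ten n d (𝓞 K), ev F y - ν ^ t * ev F x ∈ Dd x y)
    (T : Finset (Ten n d (𝓞 K))) {E Q : ℝ} (hE : 0 ≤ E) (hQ : 0 ≤ Q)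
    (h1 : ∀ m m' : 𝓞 K, ((T.filter fun F => ev F x = m ∧ ev F y = m').card : ℝ) ≤ E)
    (h2 : ∀ c : 𝓞 K, (((MS d W κ A o y).filter fun m' => m' - c ∈ Dd x y).card : ℝ) ≤ Q)
    (u u' : 𝓞 K) :
    ((T.filter fun F => LV d W κ A o x (ev F x - u ^ t) ∧
        LV d W κ A o y (ev F y - u' ^ t)).card : ℝ) ≤
      if u' ^ t - (ν * u) ^ t ∈ Dd x y ⊔ WJ K W then ((MS d W κ A o x).card : ℝ) * (E * Q) else 0 := by
  have hmaps : ∀ F ∈ T.filter fun F => LV d W κ A o x (ev F x - u ^ t) ∧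
      LV d W κ A o y (ev F y - u' ^ t), (ev F x - u ^ t, ev F y - u' ^ t) ∈
      MS d W κ A o x ×ˢ MS d W κ A o y := by
    intro F hF
    rw [Finset.mem_filter] at hF
    rw [Finset.mem_product, mem_MS hκ, mem_MS hκ]
    exact hF.2
  rw [Finset.card_eq_sum_card_fiberwise hmaps]
  push_cast
  rw [Finset.sum_product]
  -- the terms
  have key : ∀ m ∈ MS d W κ A o x, ∀ m' ∈ MS d W κ A o y,
      (((T.filter fun F => LV d W κ A o x (ev F x - u ^ t) ∧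
        LV d W κ A o y (ev F y - u' ^ t)).filter fun F =>
        (ev F x - u ^ t, ev F y - u' ^ t) = (m, m')).card : ℝ) ≤
      if u' ^ t - (ν * u) ^ t ∈ Dd x y ⊔ WJ K W then
        (if m' - (ν ^ t * (u ^ t + m) - u' ^ t) ∈ Dd x y then E else 0) else 0 := by
    intro m hm m' hm'
    rw [mem_MS hκ] at hm hm'
    have hWm : m ∈ Dd x y ⊔ WJ K W := by
      refine Ideal.mem_sup_right ?_
      rw [WJ, Ideal.mem_span_singleton]
      exact hm.1
    have hWm' : m' ∈ Dd x y ⊔ WJ K W := by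
      refine Ideal.mem_sup_right ?_
      rw [WJ, Ideal.mem_span_singleton]
      exact hm'.1
    rcases ((T.filter fun F => LV d W κ A o x (ev F x - u ^ t) ∧
        LV d W κ A o y (ev F y - u' ^ t)).filter fun F =>
        (ev F x - u ^ t, ev F y - u' ^ t) = (m, m')).eq_empty_or_nonempty with h | ⟨F, hF⟩
    · rw [h, Finset.card_empty, Nat.cast_zero]
      split_ifs <;> first | exact hE | exact le_rfl
    · rw [Finset.mem_filter] at hF
      have e1 : ev F x = u ^ t + m := by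
        have h3 := congrArg Prod.fst hF.2
        change ev F x - u ^ t = m at h3
        rw [← h3]
        ring
      have e2 : ev F y = u' ^ t + m' := by
        have h3 := congrArg Prod.snd hF.2
        change ev F y - u' ^ t = m' at h3
        rw [← h3]
        ring
      have h4 := congP hν (le_sup_left : Dd x y ≤ Dd x y ⊔ WJ K W) F hWm hWm' e1 e2
      have h5 : m' - (ν ^ t * (u ^ t + m) - u' ^ t) ∈ Dd x y := by
        have h6 := hν F
        rw [e1, e2] at h6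
        have e : m' - (ν ^ t * (u ^ t + m) - u' ^ t) = u' ^ t + m' - ν ^ t * (u ^ t + m) := by ring
        rw [e]
        exact h6
      rw [if_pos h4, if_pos h5]
      refine le_trans (Nat.cast_le.2 (Finset.card_le_card ?_)) (h1 (u ^ t + m) (u' ^ t + m'))
      intro G hG
      rw [Finset.mem_filter, Finset.mem_filter] at hG
      rw [Finset.mem_filter]
      refine ⟨hG.1.1, ?_, ?_⟩
      · have h3 := congrArg Prod.fst hG.2
        change ev G x - u ^ t = m at h3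
        rw [← h3]
        ring
      · have h3 := congrArg Prod.snd hG.2
        change ev G y - u' ^ t = m' at h3
        rw [← h3]
        ring
  refine (Finset.sum_le_sum fun m hm => Finset.sum_le_sum fun m' hm' => key m hm m' hm').trans ?_
  split_ifs with h
  · calc ∑ m ∈ MS d W κ A o x, ∑ m' ∈ MS d W κ A o y,
          (if m' - (ν ^ t * (u ^ t + m) - u' ^ t) ∈ Dd x y then E else 0) ≤
        ∑ _m ∈ MS d W κ A o x, E * Q := by
          refine Finset.sum_le_sum fun m _ => ?_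
          rw [← Finset.sum_filter, Finset.sum_const, nsmul_eq_mul, mul_comm]
          exact mul_le_mul_of_nonneg_left (h2 _) hE
      _ = ((MS d W κ A o x).card : ℝ) * (E * Q) := by
          rw [Finset.sum_const, nsmul_eq_mul]
  · simp

/-- The last estimate. -/
private theorem C_LL_fin {e : ℕ} {al W N N' NW ρ : ℝ} (hal : 0 < al) (hW : 0 < W) (hN' : 1 ≤ N')
    (hNN : N' ≤ N) (hNW : 0 < NW) (hid : NW * N' = N * W ^ e) (hρ : ρ = al * W ^ e)
    (hle : N ≤ 2 ^ e * al) : (1 + ρ / NW) / al ≤ (2 ^ e + 1) * (N' / N) := by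
  have hN : 0 < N := by linarith
  have h1 : (1 + ρ / NW) / al = 1 / al + W ^ e / NW := by
    rw [hρ]
    field_simp
  have h2 : W ^ e / NW = N' / N := by
    rw [div_eq_div_iff hNW.ne' hN.ne']
    linarith
  have h3 : 1 / al ≤ 2 ^ e * (N' / N) := by
    rw [div_le_iff₀ hal]
    have h4 : 2 ^ e * (N' / N) * al = (2 ^ e * al) * N' / N := by ring
    rw [h4, le_div_iff₀ hN, one_mul]
    have h5 : 0 < (2 : ℝ) ^ e * al := by positivity
    nlinarith
  rw [h1, h2]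
  linarith

variable (K)

theorem llT (n d t m q : ℕ) (hd : d = t * m) (ht : 2 ≤ t) (hm : 1 ≤ m) (hq : 1 ≤ q) :
    ∃ C : ℝ, 1 ≤ C ∧ ∀ (B H W κ A R : ℕ) (o : Fin (n + 1)), 1 ≤ B → 1 ≤ W → 1 ≤ κ → 1 ≤ R →
    C * κ * W ≤ A → ∀ x ∈ GG K B H q o, ∀ y ∈ GG K B H q o, ¬ Prp x y →
    ∑ F ∈ Box K n d (2 * A), Lx t R W κ A o F x * Lx t R W κ A o F y ≤
      C * ((n2 d x y A : ℝ) * PC K (ax t) R (nD x y)) := by
  obtain ⟨C1, hC1, h1⟩ := cover2 (K := K) n d 2 (by norm_num)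
  obtain ⟨C2, hC2, h2⟩ := cntBox K t ht
  obtain ⟨C3, hC3, h3⟩ := muLow K n d q hq
  obtain ⟨C4, hC4, h4⟩ := clsMS K n d
  have hd2 : 2 ≤ d := by
    rw [hd]
    calc 2 = 2 * 1 := rfl
      _ ≤ t * m := Nat.mul_le_mul ht hm
  have h12 : 1 ≤ C1 * C2 := one_le_mul_of_one_le_of_one_le hC1 hC2
  have h124 : 1 ≤ C1 * C2 * C4 := one_le_mul_of_one_le_of_one_le h12 hC4
  have h2e : (1 : ℝ) ≤ 2 ^ eK K + 1 := by
    have : (0 : ℝ) ≤ 2 ^ eK K := by positivity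
    linarith
  have h1245 : 1 ≤ C1 * C2 * C4 * (2 ^ eK K + 1) := one_le_mul_of_one_le_of_one_le h124 h2e
  have hC : C3 ≤ C1 * C2 * C4 * (2 ^ eK K + 1) * C3 := by nlinarith
  refine ⟨C1 * C2 * C4 * (2 ^ eK K + 1) * C3, hC3.trans hC, ?_⟩
  intro B H W κ A R o hB hW hκ hR hA x hx y hy hxy
  obtain ⟨C, hCe⟩ : ∃ C, C = C1 * C2 * C4 * (2 ^ eK K + 1) * C3 := ⟨_, rfl⟩
  rw [← hCe] at hA hC ⊢
  -- real versions
  have rB : (1 : ℝ) ≤ B := by exact_mod_cast hB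
  have rW : (1 : ℝ) ≤ W := by exact_mod_cast hW
  have rκ : (1 : ℝ) ≤ κ := by exact_mod_cast hκ
  have hC1' : 1 ≤ C := hC3.trans hC
  have hκW : (1 : ℝ) ≤ κ * W := one_le_mul_of_one_le_of_one_le rκ rW
  have hκA : (κ : ℝ) * W ≤ A := by
    refine le_trans ?_ hA
    rw [mul_assoc]
    nlinarith
  have rA : (1 : ℝ) ≤ A := hκW.trans hκA
  have nA : 1 ≤ A := by exact_mod_cast rA
  have hBd : (1 : ℝ) ≤ (B : ℝ) ^ d := one_le_pow₀ rB
  have hCA : C3 * κ * W ≤ (A : ℝ) * (B : ℝ) ^ d := by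
    have h5 : C3 * κ * W ≤ C * κ * W := by
      rw [mul_assoc, mul_assoc]
      exact mul_le_mul_of_nonneg_right hC (by positivity)
    have h6 : (A : ℝ) ≤ A * (B : ℝ) ^ d := by nlinarith
    linarith
  -- the ideals
  have hI : Dd x y ≠ ⊥ := Dd_ne_bot hxy
  have hI' : Dd x y ⊔ WJ K W ≠ ⊥ := fun h => hI (by
    rw [eq_bot_iff, ← h]
    exact le_sup_left)
  have hN1 : 1 ≤ nD x y := one_le_nD hxy
  have hN'1 : (1 : ℝ) ≤ Ideal.absNorm (Dd x y ⊔ WJ K W) := one_le_absNorm hI'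
  have hNN : (Ideal.absNorm (Dd x y ⊔ WJ K W) : ℝ) ≤ nD x y := by
    have h5 := Ideal.absNorm_dvd_absNorm_of_le (le_sup_left : Dd x y ≤ Dd x y ⊔ WJ K W)
    have h6 : Ideal.absNorm (Dd x y) ≠ 0 := by
      rwa [Ne, Ideal.absNorm_eq_zero_iff]
    unfold nD
    exact_mod_cast Nat.le_of_dvd (Nat.pos_of_ne_zero h6) h5
  have hid := idlW K (Dd x y) W
  have hNW : (0 : ℝ) < Ideal.absNorm (Dd x y ⊓ WJ K W) := by
    rcases (Nat.cast_nonneg (α := ℝ) (Ideal.absNorm (Dd x y ⊓ WJ K W))).lt_or_eq with h5 | h5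
    · exact h5
    · exfalso
      rw [← h5, zero_mul] at hid
      have h6 : (0 : ℝ) < Ideal.absNorm (Dd x y) * (W : ℝ) ^ eK K := by
        have h7 : (1 : ℝ) ≤ Ideal.absNorm (Dd x y) := hN1
        positivity
      linarith
  -- the constants
  obtain ⟨ν, μ, hνμ, hν⟩ := congV hd x y (GG_uni hx) (GG_uni hy)
  obtain ⟨al, hal⟩ : ∃ al, al = ((A : ℝ) * (B : ℝ) ^ d / (κ * W)) ^ eK K := ⟨_, rfl⟩
  have hal0 : 0 < al := by
    rw [hal]
    positivity
  obtain ⟨ρ, hρ⟩ : ∃ ρ, ρ = ((A : ℝ) * (B : ℝ) ^ d / κ) ^ eK K := ⟨_, rfl⟩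
  have hρal : ρ = al * (W : ℝ) ^ eK K := by
    rw [hρ, hal, ← mul_pow]
    congr 1
    field_simp
  have hmu := h3 B H W κ A o hB hW hκ hCA y hy
  rw [← hal] at hmu
  have hMy : (0 : ℝ) < (MS d W κ A o y).card := by
    rcases (Nat.cast_nonneg (α := ℝ) (MS d W κ A o y).card).lt_or_eq with h5 | h5
    · exact h5
    · rw [← h5, mul_zero] at hmu
      linarith
  have hMx : (0 : ℝ) < (MS d W κ A o x).card := by
    have hmu' := h3 B H W κ A o hB hW hκ hCA x hx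
    rw [← hal] at hmu'
    rcases (Nat.cast_nonneg (α := ℝ) (MS d W κ A o x).card).lt_or_eq with h5 | h5
    · exact h5
    · rw [← h5, mul_zero] at hmu'
      linarith
  -- the bound for one pair
  have hE : (0 : ℝ) ≤ C1 * n2 d x y A := by
    have : (0 : ℝ) ≤ n2 d x y A := Nat.cast_nonneg _
    exact mul_nonneg (by linarith) this
  have hQ : (0 : ℝ) ≤ C4 * (1 + ρ / Ideal.absNorm (Dd x y ⊓ WJ K W)) := by
    have : 0 ≤ ρ / Ideal.absNorm (Dd x y ⊓ WJ K W) := by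
      rw [hρal]
      positivity
    exact mul_nonneg (by linarith) (by linarith)
  have hp := fun p : 𝓞 K × 𝓞 K => C_LL_pair (K := K) (o := o) (W := W) (A := A) hκ hν
    (Box K n d (2 * A)) hE hQ (fun m m' => h1 x y m m' A rA) (fun c => by
      have h5 := h4 B W κ A o hB hW hκ nA y (Finset.mem_filter.1 hy).1 (Dd x y) hI c
      rw [← hρ] at h5
      exact h5) p.1 p.2
  rw [C_LL_sum]
  have hsum : ∑ p ∈ OBox K R ×ˢ OBox K R, (((Box K n d (2 * A)).filter fun F =>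
      LV d W κ A o x (ev F x - p.1 ^ t) ∧ LV d W κ A o y (ev F y - p.2 ^ t)).card : ℝ) ≤
      C2 * PC K (ax t) R (Ideal.absNorm (Dd x y ⊔ WJ K W)) *
        (((MS d W κ A o x).card : ℝ) * ((C1 * n2 d x y A) *
          (C4 * (1 + ρ / Ideal.absNorm (Dd x y ⊓ WJ K W))))) := by
    refine (Finset.sum_le_sum fun p _ => hp p).trans ?_
    rw [← Finset.sum_filter, Finset.sum_const, nsmul_eq_mul]
    refine mul_le_mul_of_nonneg_right ?_ (by positivity)
    exact h2 R hR (Dd x y ⊔ WJ K W) hI' ν μ (Ideal.mem_sup_left hνμ)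
  have hle : nD x y ≤ 2 ^ eK K * al := by
    have h5 := nD_le_pn (GG_ne hB hx) hxy
    have h6 : pn (Del o x y) ≤ (2 * (B : ℝ) ^ 2) ^ eK K := by
      rw [← pn_const (K := K)]
      exact pn_mono (fun v => Del_nonneg o x y v) fun v => Del_le hx hy v
    have h7 : (2 * (B : ℝ) ^ 2) ^ eK K ≤ 2 ^ eK K * al := by
      rw [mul_pow, hal]
      refine mul_le_mul_of_nonneg_left ?_ (by positivity)
      refine pow_le_pow_left₀ (by positivity) ?_ _
      rw [le_div_iff₀ (by linarith)]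
      calc (B : ℝ) ^ 2 * (κ * W) ≤ (B : ℝ) ^ d * A :=
            mul_le_mul (pow_le_pow_right₀ rB hd2) hκA (by positivity) (by positivity)
        _ = A * (B : ℝ) ^ d := mul_comm _ _
    linarith
  have hfin := C_LL_fin hal0 (by linarith : (0 : ℝ) < W) hN'1 hNN hNW hid hρal hle
  have hpc := C_LL_pc K (a := ax t) (N := nD x y) R (by have := ax_pos ht; linarith) hN'1 hNN hR
  have hPC0 : 0 ≤ PC K (ax t) R (Ideal.absNorm (Dd x y ⊔ WJ K W)) := by
    unfold PC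
    positivity
  have hn2 : (0 : ℝ) ≤ n2 d x y A := Nat.cast_nonneg _
  -- assembly
  obtain ⟨Mx, hMxe⟩ : ∃ Mx : ℝ, Mx = (MS d W κ A o x).card := ⟨_, rfl⟩
  obtain ⟨My, hMye⟩ : ∃ My : ℝ, My = (MS d W κ A o y).card := ⟨_, rfl⟩
  obtain ⟨P', hP'⟩ : ∃ P' : ℝ, P' = PC K (ax t) R (Ideal.absNorm (Dd x y ⊔ WJ K W)) := ⟨_, rfl⟩
  obtain ⟨b, hb⟩ : ∃ b : ℝ, b = 1 + ρ / Ideal.absNorm (Dd x y ⊓ WJ K W) := ⟨_, rfl⟩
  rw [← hMxe, ← hMye]
  rw [← hMxe, ← hP', ← hb] at hsum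
  rw [← hMxe] at hMx
  rw [← hMye] at hMy hmu
  rw [← hP'] at hpc hPC0
  rw [← hb] at hfin hQ
  have hb0 : 0 ≤ b := by
    by_contra hneg
    push Not at hneg
    nlinarith
  have hinv : 1 / My ≤ C3 / al := by
    rw [div_le_div_iff₀ hMy hal0]
    linarith
  have hN0 : 0 < nD x y := by linarith
  calc (1 / Mx) * (1 / My) * _ ≤ (1 / Mx) * (1 / My) *
        (C2 * P' * (Mx * ((C1 * n2 d x y A) * (C4 * b)))) :=
        mul_le_mul_of_nonneg_left hsum (by positivity)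
    _ = (1 / My) * (C1 * C2 * C4 * n2 d x y A * P' * b) := by
        field_simp
    _ ≤ (C3 / al) * (C1 * C2 * C4 * n2 d x y A * P' * b) :=
        mul_le_mul_of_nonneg_right hinv (by positivity)
    _ = C1 * C2 * C4 * C3 * n2 d x y A * P' * (b / al) := by ring
    _ ≤ C1 * C2 * C4 * C3 * n2 d x y A * P' *
        ((2 ^ eK K + 1) * (Ideal.absNorm (Dd x y ⊔ WJ K W) / nD x y)) :=
        mul_le_mul_of_nonneg_left hfin (by positivity)
    _ = C1 * C2 * C4 * (2 ^ eK K + 1) * C3 * n2 d x y A *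
        (P' * (Ideal.absNorm (Dd x y ⊔ WJ K W) / nD x y)) := by ring
    _ ≤ C1 * C2 * C4 * (2 ^ eK K + 1) * C3 * n2 d x y A * PC K (ax t) R (nD x y) :=
        mul_le_mul_of_nonneg_left hpc (by positivity)
    _ = C * ((n2 d x y A : ℝ) * PC K (ax t) R (nD x y)) := by
        rw [hCe]
        ring

end Pool.Agent.Lib.MP_1ad228_ntW
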