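import Pool.Agent.Lib.MP_1ad228_ntW.C_Cong
import Pool.Agent.Lib.MP_1ad228_ntW.A_Box
import Pool.Agent.Lib.MP_1ad228_ntN.Cover

/-!
JOB C_NN.  The sum of `Nx * Nx` over the tensors, non-proportional points.

PROOF.  `C1` from `cover2 n d 2`, `C2` from `cntBox K t ht`, `C = C1 C2`.  `Nx F x * Nx F y` is the number of pairs `(u, u') ∈ OBox K R ×ˢ OBox K R` with `ev F x = u^t`, `ev F y = u'^t` (`Finset.card_product`, `Finset.filter_product`), so
(`Finset.sum_comm` after writing cardinals as sums of `if`) the sum is `∑_{(u,u')} #{F ∈ Box K n d (2 A) | ev F x = u^t ∧ ev F y = u'^t}`.  Each term is `≤ C1 n2 d x y A` (`cover2`, `X = A`), and it is zero unless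
`u'^t - (ν u)^t ∈ Dd x y` (`congV`, `congP` with `a = b = 0`).  So the sum is `≤ C1 n2 * #{(u,u') | u'^t - (ν u)^t ∈ Dd x y} ≤ C1 n2 C2 PC K (ax t) R (absNorm (Dd x y))` (`cntBox`, `Dd_ne_bot`), `nD x y = absNorm (Dd x y)`.
-/

namespace Pool.Agent.Lib.MP_1ad228_ntW

open NumberField Classical Pool.Agent.Lib.MP_1ad228_ntN

variable (K : Type) [Field K] [NumberField K]

theorem nnT (n d t m : ℕ) (hd : d = t * m) (ht : 2 ≤ t) : ∃ C : ℝ, 1 ≤ C ∧
    ∀ (A R : ℕ), 1 ≤ A → 1 ≤ R → ∀ x y : Vc n (𝓞 K), Uni x → Uni y → ¬ Prp x y →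
    ∑ F ∈ Box K n d (2 * A), (Nx t R F x : ℝ) * (Nx t R F y : ℝ) ≤
      C * ((n2 d x y A : ℝ) * PC K (ax t) R (nD x y)) := by
  obtain ⟨C1, hC1, h1⟩ := cover2 (K := K) n d 2 (by norm_num)
  obtain ⟨C2, hC2, h2⟩ := cntBox K t ht
  refine ⟨C1 * C2, one_le_mul_of_one_le_of_one_le hC1 hC2, ?_⟩
  intro A R hA hR x y hx hy hp
  obtain ⟨ν, μ, hνμ, hV⟩ := congV (t := t) (m := m) hd x y hx hy
  have hD : Dd x y ≠ ⊥ := Dd_ne_bot hp
  have h3 := h2 R hR (Dd x y) hD ν μ hνμ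
  have hA' : (1 : ℝ) ≤ (A : ℝ) := by exact_mod_cast hA
  have e1 : ∀ F ∈ Box K n d (2 * A), (Nx t R F x : ℝ) * (Nx t R F y : ℝ) =
      ∑ p ∈ OBox K R ×ˢ OBox K R,
        if (ev F x = p.1 ^ t ∧ ev F y = p.2 ^ t) then (1 : ℝ) else 0 := by
    intro F _
    unfold Nx
    rw [← Nat.cast_mul, ← Finset.card_product, ← Finset.filter_product, Finset.card_filter]
    push_cast
    rfl
  have e2 : ∀ p ∈ OBox K R ×ˢ OBox K R, (∑ F ∈ Box K n d (2 * A),
      if (ev F x = p.1 ^ t ∧ ev F y = p.2 ^ t) then (1 : ℝ) else 0) ≤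
      if (p.2 ^ t - (ν * p.1) ^ t ∈ Dd x y) then C1 * (n2 d x y A : ℝ) else 0 := by
    intro p _
    split_ifs with hc
    · have h4 := h1 x y (p.1 ^ t) (p.2 ^ t) A hA'
      refine le_trans (le_of_eq ?_) h4
      rw [Finset.card_filter]
      push_cast
      rfl
    · refine le_of_eq (Finset.sum_eq_zero fun F _ => ?_)
      rw [if_neg]
      rintro ⟨ha, hb⟩
      refine hc (congP hV le_rfl F (Ideal.zero_mem _) (Ideal.zero_mem _) ?_ ?_)
      · rw [ha, add_zero]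
      · rw [hb, add_zero]
  rw [Finset.sum_congr rfl e1, Finset.sum_comm]
  refine (Finset.sum_le_sum e2).trans ?_
  rw [← Finset.sum_filter, Finset.sum_const, nsmul_eq_mul]
  have hn : (0 : ℝ) ≤ C1 * (n2 d x y A : ℝ) := mul_nonneg (by linarith) (Nat.cast_nonneg _)
  refine (mul_le_mul_of_nonneg_right h3 hn).trans (le_of_eq ?_)
  unfold nD
  ring

end Pool.Agent.Lib.MP_1ad228_ntW
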