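import Pool.Agent.Lib.MP_1ad228_ntW.C_Mu
import Pool.Agent.Lib.MP_1ad228_ntN.Cover
import Pool.Agent.Lib.MP_1ad228_ntN.Expand

/-!
JOB C_Prp.  Bounds for all pairs (used for proportional points).

`nxLe`: in the domain `𝓞 K` the equation `u ^ t = c` has at most `t` solutions (`t ≥ 1`): they are roots of `X ^ t - C c` (`Polynomial.card_roots'`, `Polynomial.X_pow_sub_C_ne_zero`, `natDegree_X_pow_sub_C`; or `card_nthRoots`).
`prpNN` PROOF.  `Nx F y ≤ t`, so the sum is `≤ t ∑_F Nx F x = t ∑_{u ∈ OBox K R} #{F ∈ Box K n d (2A) | ev F x = u^t} ≤ t #(OBox K R) C1 n1 d x A` (`cover1 n d 2`, `X = A`), `#(OBox K R) ≤ CK K n R^e` (`OBox_up`).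
`prpLL` PROOF.  `Lx F y ≤ #(OBox K R)/#(MS y) ≤ CK K n R^e C3 (κ W/(A B^d))^e ≤ CK K n C3` (`muLow`, and `κ W R ≤ A B^d`).  `∑_F Lx F x = (1/#MS x) ∑_u ∑_{m ∈ MS x} #{F ∈ Box (2A) | ev F x = u^t + m} ≤ #(OBox K R) C1 n1 d x A`
(`ev F x - u^t = m`, `mem_MS`; `cover1`).
-/

namespace Pool.Agent.Lib.MP_1ad228_ntW

open NumberField Classical Pool.Agent.Lib.MP_1ad228_ntN

variable (K : Type) [Field K] [NumberField K]

theorem nxLe (n d t R : ℕ) (ht : 1 ≤ t) (F : Ten n d (𝓞 K)) (x : Vc n (𝓞 K)) :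
    Nx t R F x ≤ t := by
  have hsub : ((OBox K R).filter fun u => ev F x = u ^ t) ⊆
      (Polynomial.nthRoots t (ev F x)).toFinset := by
    intro u hu
    rw [Multiset.mem_toFinset, Polynomial.mem_nthRoots ht]
    exact (Finset.mem_filter.1 hu).2.symm
  exact (Finset.card_le_card hsub).trans
    ((Multiset.toFinset_card_le _).trans (Polynomial.card_nthRoots t (ev F x)))

/-- The sum of `Nx` over the box. -/
private theorem C_Prp_sumN (n d t R A : ℕ) (C1 : ℝ) (x : Vc n (𝓞 K))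
    (hC1 : ∀ m : 𝓞 K, (((Box K n d (2 * A)).filter fun a => ev a x = m).card : ℝ) ≤
      C1 * n1 d x A) :
    ∑ F ∈ Box K n d (2 * A), (Nx t R F x : ℝ) ≤
      ((OBox K R).card : ℝ) * (C1 * n1 d x A) := by
  have h1 : ∀ F ∈ Box K n d (2 * A), (Nx t R F x : ℝ) =
      ∑ u ∈ OBox K R, if ev F x = u ^ t then (1 : ℝ) else 0 := by
    intro F _
    unfold Nx
    rw [Finset.card_filter]
    push_cast
    rfl
  rw [Finset.sum_congr rfl h1, Finset.sum_comm]
  have h2 : ∀ u ∈ OBox K R, (∑ F ∈ Box K n d (2 * A), if ev F x = u ^ t then (1 : ℝ) else 0) ≤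
      C1 * n1 d x A := by
    intro u _
    refine le_trans (le_of_eq ?_) (hC1 (u ^ t))
    rw [Finset.card_filter]
    push_cast
    rfl
  refine (Finset.sum_le_sum h2).trans ?_
  rw [Finset.sum_const, nsmul_eq_mul]

theorem prpNN (n d t : ℕ) (ht : 1 ≤ t) : ∃ C : ℝ, 1 ≤ C ∧ ∀ (A R : ℕ), 1 ≤ A → 1 ≤ R →
    ∀ x y : Vc n (𝓞 K), ∑ F ∈ Box K n d (2 * A), (Nx t R F x : ℝ) * (Nx t R F y : ℝ) ≤
      C * ((R : ℝ) ^ eK K * (n1 d x A : ℝ)) := by
  obtain ⟨C1, hC1, hcov⟩ := cover1 (K := K) n d 2 one_le_two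
  have hκ1 : 1 ≤ CK K n := CK_one_le K n
  have ht1 : (1 : ℝ) ≤ t := by exact_mod_cast ht
  refine ⟨t * CK K n * C1,
    one_le_mul_of_one_le_of_one_le (one_le_mul_of_one_le_of_one_le ht1 hκ1) hC1, ?_⟩
  intro A R hA hR x y
  have hA1 : (1 : ℝ) ≤ A := by exact_mod_cast hA
  have hR1 : (1 : ℝ) ≤ R := by exact_mod_cast hR
  have h1 : ∑ F ∈ Box K n d (2 * A), (Nx t R F x : ℝ) * (Nx t R F y : ℝ) ≤
      t * ∑ F ∈ Box K n d (2 * A), (Nx t R F x : ℝ) := by
    rw [Finset.mul_sum]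
    refine Finset.sum_le_sum fun F _ => ?_
    rw [mul_comm]
    refine mul_le_mul_of_nonneg_right ?_ (Nat.cast_nonneg _)
    exact_mod_cast nxLe K n d t R ht F y
  have h2 := C_Prp_sumN K n d t R A C1 x (fun m => hcov x m A hA1)
  have h3 := OBox_up (K := K) n hR1
  have h4 : (0 : ℝ) ≤ C1 * n1 d x A := by positivity
  calc ∑ F ∈ Box K n d (2 * A), (Nx t R F x : ℝ) * (Nx t R F y : ℝ)
      ≤ t * ∑ F ∈ Box K n d (2 * A), (Nx t R F x : ℝ) := h1
    _ ≤ t * (((OBox K R).card : ℝ) * (C1 * n1 d x A)) :=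
        mul_le_mul_of_nonneg_left h2 (by linarith)
    _ ≤ t * ((CK K n * (R : ℝ) ^ eK K) * (C1 * n1 d x A)) :=
        mul_le_mul_of_nonneg_left (mul_le_mul_of_nonneg_right h3 h4) (by linarith)
    _ = t * CK K n * C1 * ((R : ℝ) ^ eK K * (n1 d x A : ℝ)) := by ring

theorem prpLL (n d t q : ℕ) (ht : 1 ≤ t) (hq : 1 ≤ q) : ∃ C : ℝ, 1 ≤ C ∧
    ∀ (B H W κ A R : ℕ) (o : Fin (n + 1)), 1 ≤ B → 1 ≤ W → 1 ≤ κ → 1 ≤ R → 1 ≤ A →
    C * κ * W ≤ (A : ℝ) * (B : ℝ) ^ d → (κ : ℝ) * W * R ≤ (A : ℝ) * (B : ℝ) ^ d →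
    ∀ x ∈ GG K B H q o, ∀ y ∈ GG K B H q o,
    ∑ F ∈ Box K n d (2 * A), Lx t R W κ A o F x * Lx t R W κ A o F y ≤
      C * ((R : ℝ) ^ eK K * (n1 d x A : ℝ)) := by
  obtain ⟨C1, hC1, hcov⟩ := cover1 (K := K) n d 2 one_le_two
  obtain ⟨C3, hC3, hmu⟩ := muLow K n d q hq
  have hκ1 : 1 ≤ CK K n := CK_one_le K n
  have hCC : 1 ≤ CK K n * CK K n * C1 :=
    one_le_mul_of_one_le_of_one_le (one_le_mul_of_one_le_of_one_le hκ1 hκ1) hC1
  refine ⟨C3 * (CK K n * CK K n * C1), one_le_mul_of_one_le_of_one_le hC3 hCC, ?_⟩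
  intro B H W κ A R o hB hW hκ hR hA hbig hWR x hx y hy
  have hA1 : (1 : ℝ) ≤ A := by exact_mod_cast hA
  have hR1 : (1 : ℝ) ≤ R := by exact_mod_cast hR
  have hW1 : (1 : ℝ) ≤ W := by exact_mod_cast hW
  have hk1 : (1 : ℝ) ≤ κ := by exact_mod_cast hκ
  have hkW : (0 : ℝ) < κ * W := by positivity
  have hbig3 : C3 * κ * W ≤ (A : ℝ) * (B : ℝ) ^ d := by
    refine le_trans ?_ hbig
    have h1 : C3 * (κ * W) * 1 ≤ C3 * (κ * W) * (CK K n * CK K n * C1) :=
      mul_le_mul_of_nonneg_left hCC (by positivity)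
    calc C3 * κ * W = C3 * (κ * W) * 1 := by ring
      _ ≤ C3 * (κ * W) * (CK K n * CK K n * C1) := h1
      _ = C3 * (CK K n * CK K n * C1) * κ * W := by ring
  have hRd : (R : ℝ) ≤ (A : ℝ) * (B : ℝ) ^ d / (κ * W) := by
    rw [le_div_iff₀ hkW]
    linarith
  have hRe : ∀ z ∈ GG K B H q o, (R : ℝ) ^ eK K ≤ C3 * ((MS d W κ A o z).card : ℝ) := by
    intro z hz
    exact (pow_le_pow_left₀ (by linarith) hRd _).trans (hmu B H W κ A o hB hW hκ hbig3 z hz)
  have hRpos : (0 : ℝ) < (R : ℝ) ^ eK K := by positivity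
  have hMpos : ∀ z ∈ GG K B H q o, (0 : ℝ) < ((MS d W κ A o z).card : ℝ) := by
    intro z hz
    have h1 := hRe z hz
    by_contra hcon
    have h2 : C3 * ((MS d W κ A o z).card : ℝ) ≤ C3 * 0 :=
      mul_le_mul_of_nonneg_left (not_lt.1 hcon) (by linarith)
    linarith
  have hOB := OBox_up (K := K) n hR1
  -- bound for one factor
  have hy1 : ∀ F : Ten n d (𝓞 K), Lx t R W κ A o F y ≤ CK K n * C3 := by
    intro F
    unfold Lx
    have h1 : (((OBox K R).filter fun u => LV d W κ A o y (ev F y - u ^ t)).card : ℝ) ≤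
        CK K n * (R : ℝ) ^ eK K := by
      refine le_trans ?_ hOB
      exact_mod_cast Finset.card_filter_le _ _
    have h2 := hRe y hy
    have h3 := hMpos y hy
    rw [one_div, inv_mul_le_iff₀ h3]
    calc (((OBox K R).filter fun u => LV d W κ A o y (ev F y - u ^ t)).card : ℝ)
        ≤ CK K n * (R : ℝ) ^ eK K := h1
      _ ≤ CK K n * (C3 * ((MS d W κ A o y).card : ℝ)) :=
          mul_le_mul_of_nonneg_left h2 (by linarith)
      _ = ((MS d W κ A o y).card : ℝ) * (CK K n * C3) := by ring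
  have hx0 : ∀ F : Ten n d (𝓞 K), 0 ≤ Lx t R W κ A o F x := by
    intro F
    unfold Lx
    positivity
  -- the sum of one factor
  have hcov' : ∀ m : 𝓞 K, (((Box K n d (2 * A)).filter fun a => ev a x = m).card : ℝ) ≤
      C1 * n1 d x A := fun m => hcov x m A hA1
  have hone : ∀ u ∈ OBox K R, (((Box K n d (2 * A)).filter fun F =>
      LV d W κ A o x (ev F x - u ^ t)).card : ℝ) ≤
      ((MS d W κ A o x).card : ℝ) * (C1 * n1 d x A) := by
    intro u _
    have h1 : ((Box K n d (2 * A)).filter fun F => LV d W κ A o x (ev F x - u ^ t)) ⊆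
        (MS d W κ A o x).biUnion fun m => (Box K n d (2 * A)).filter fun a =>
          ev a x = u ^ t + m := by
      intro F hF
      obtain ⟨hF1, hF2⟩ := Finset.mem_filter.1 hF
      rw [Finset.mem_biUnion]
      refine ⟨ev F x - u ^ t, (mem_MS hκ).2 hF2, ?_⟩
      rw [Finset.mem_filter]
      exact ⟨hF1, by ring⟩
    have h2 := (Finset.card_le_card h1).trans Finset.card_biUnion_le
    have h3 : (((Box K n d (2 * A)).filter fun F => LV d W κ A o x (ev F x - u ^ t)).card : ℝ) ≤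
        ∑ m ∈ MS d W κ A o x, (((Box K n d (2 * A)).filter fun a =>
          ev a x = u ^ t + m).card : ℝ) := by
      exact_mod_cast h2
    refine h3.trans ((Finset.sum_le_sum fun m _ => hcov' (u ^ t + m)).trans ?_)
    rw [Finset.sum_const, nsmul_eq_mul]
  have hsum : ∑ F ∈ Box K n d (2 * A), Lx t R W κ A o F x ≤
      ((OBox K R).card : ℝ) * (C1 * n1 d x A) := by
    unfold Lx
    rw [← Finset.mul_sum, one_div, inv_mul_le_iff₀ (hMpos x hx)]
    have h1 : ∀ F ∈ Box K n d (2 * A),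
        (((OBox K R).filter fun u => LV d W κ A o x (ev F x - u ^ t)).card : ℝ) =
        ∑ u ∈ OBox K R, if LV d W κ A o x (ev F x - u ^ t) then (1 : ℝ) else 0 := by
      intro F _
      rw [Finset.card_filter]
      push_cast
      rfl
    rw [Finset.sum_congr rfl h1, Finset.sum_comm]
    have h2 : ∀ u ∈ OBox K R, (∑ F ∈ Box K n d (2 * A),
        if LV d W κ A o x (ev F x - u ^ t) then (1 : ℝ) else 0) ≤
        ((MS d W κ A o x).card : ℝ) * (C1 * n1 d x A) := by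
      intro u hu
      refine le_trans (le_of_eq ?_) (hone u hu)
      rw [Finset.card_filter]
      push_cast
      rfl
    refine (Finset.sum_le_sum h2).trans (le_of_eq ?_)
    rw [Finset.sum_const, nsmul_eq_mul]
    ring
  have h4 : (0 : ℝ) ≤ C1 * n1 d x A := by positivity
  calc ∑ F ∈ Box K n d (2 * A), Lx t R W κ A o F x * Lx t R W κ A o F y
      ≤ ∑ F ∈ Box K n d (2 * A), Lx t R W κ A o F x * (CK K n * C3) :=
        Finset.sum_le_sum fun F _ => mul_le_mul_of_nonneg_left (hy1 F) (hx0 F)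
    _ = (CK K n * C3) * ∑ F ∈ Box K n d (2 * A), Lx t R W κ A o F x := by
        rw [← Finset.sum_mul, mul_comm]
    _ ≤ (CK K n * C3) * (((OBox K R).card : ℝ) * (C1 * n1 d x A)) :=
        mul_le_mul_of_nonneg_left hsum (by positivity)
    _ ≤ (CK K n * C3) * ((CK K n * (R : ℝ) ^ eK K) * (C1 * n1 d x A)) :=
        mul_le_mul_of_nonneg_left (mul_le_mul_of_nonneg_right hOB h4) (by positivity)
    _ = C3 * (CK K n * CK K n * C1) * ((R : ℝ) ^ eK K * (n1 d x A : ℝ)) := by ring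

end Pool.Agent.Lib.MP_1ad228_ntW
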