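import Pool.Agent.Lib.MP_1ad228_ntW.D_Cell
import Pool.Agent.Lib.MP_1ad228_ntW.B_Sum

/-!
JOB D_Alpha.  Pair sum over the close points.  (Model with proof: `alpha` in Lib/MP_1ad228_ntN/Alpha.lean.)

PROOF.  `Y` = the set of the sum, `e = eK K`.  For `y ∈ Y`: `nD ≥ 1`, `nD ≤ C1 (H B)^e` (`ndBd`), so `(1 + nD/R^e)^2 ≤ (1 + C1 (H B/R)^e)^2 ≤ C1^2 (1 + (H B/R)^e)^2`.  Group `Y` by `(I, j) = (Dd x y, jv (Del o x y))` in
`T = (Y.image fun y => Dd x y) ×ˢ JJ K (2 * B^2)` (`mem_JJ`, exactly as in the model), `Finset.sum_fiberwise_of_maps_to`.  In the cell `(I, j)`: `om = N^a (1 + N/R^e)^2 / pn(Del)`, `N = absNorm I`, so by `cellT` the cell contributes at most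
`C1^2 (1 + (H B/R)^e)^2 N^a C2 (H^n/B)^e/N = C1^2 C2 (1 + (H B/R)^e)^2 (H^n/B)^e N^(a-1)`.  Sum over `j`: `#JJ ≤ CK K n (3 (log2 B + 2))^e` (`JJ_up` and `al_log` of the model (private there, copy it)).  Sum over `I`: `idSumA K a` with
`X = C1 (H B)^e`: `∑ N^(a-1) ≤ C3 (C1 (H B)^e)^a ≤ C3 C1 ((H B)^a)^e` (`C1 ≥ 1`, `a ≤ 1`; `((H B)^e)^a = ((H B)^a)^e`: `Real.rpow_natCast`, `Real.rpow_mul`, or `Real.rpow_pow_comm`).
Total `≤ C (log2 B + 2)^e (H^n/B)^e ((H B)^a)^e (1 + (HB/R)^e)^2 = C (B^(n+1)/B^2)^e alE K n a B H R`, as `B^(n+1)/B^2 * (1/B^n) = 1/B`.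
-/

namespace Pool.Agent.Lib.MP_1ad228_ntW

open NumberField Classical Pool.Agent.Lib.MP_1ad228_ntN

variable (K : Type) [Field K] [NumberField K]

private theorem D_Alpha_log (B : ℕ) (hB : 1 ≤ B) :
    ((Nat.log 2 (2 * B ^ 2) : ℕ) : ℝ) + 2 ≤ 3 * ((Nat.log 2 B : ℝ) + 2) := by
  have h1 : B < 2 ^ (Nat.log 2 B + 1) := Nat.lt_pow_succ_log_self (by norm_num) B
  have h2 : 2 * B ^ 2 < 2 ^ (2 * Nat.log 2 B + 3) := by
    have h3 : B ^ 2 < (2 ^ (Nat.log 2 B + 1)) ^ 2 := Nat.pow_lt_pow_left h1 (by norm_num)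
    calc 2 * B ^ 2 < 2 * (2 ^ (Nat.log 2 B + 1)) ^ 2 := by omega
      _ = 2 ^ (2 * Nat.log 2 B + 3) := by ring
  have h3 : Nat.log 2 (2 * B ^ 2) < 2 * Nat.log 2 B + 3 := Nat.log_lt_of_lt_pow (by positivity) h2
  have h4 : Nat.log 2 (2 * B ^ 2) + 2 ≤ 3 * (Nat.log 2 B + 2) := by omega
  exact_mod_cast h4

theorem alphaT (n q : ℕ) (hn : 1 ≤ n) (hq : 1 ≤ q) (a : ℝ) (ha : 0 < a) (ha1 : a ≤ 1) :
    ∃ C : ℝ, 1 ≤ C ∧ ∀ (B H R : ℕ) (o : Fin (n + 1)), 1 ≤ B → 1 ≤ H → 1 ≤ R →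
    ∀ x ∈ GG K B H q o,
    ∑ y ∈ (GG K B H q o).filter (fun y => ¬ Prp x y ∧
      pn (Del o x y) ≤ nD x y * (B : ℝ) ^ eK K), om a R o x y ≤
      C * (((B : ℝ) ^ (n + 1) / (B : ℝ) ^ 2) ^ eK K * alE K n a B H R) := by
  obtain ⟨C1, hC1, hnd⟩ := ndBd K n q hq
  obtain ⟨C2, hC2, hcell⟩ := cellT K n q hn hq
  obtain ⟨C3, hC3, hsumA⟩ := idSumA K a ha ha1
  set κ : ℝ := CK K n with hκ
  have hκ1 : 1 ≤ κ := CK_one_le K n
  refine ⟨C1 ^ 2 * C2 * (κ * 3 ^ eK K) * (C3 * C1), ?_, ?_⟩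
  · have h1 : (1 : ℝ) ≤ C1 ^ 2 := one_le_pow₀ hC1
    have h2 : (1 : ℝ) ≤ 3 ^ eK K := one_le_pow₀ (by norm_num)
    exact one_le_mul_of_one_le_of_one_le (one_le_mul_of_one_le_of_one_le
      (one_le_mul_of_one_le_of_one_le h1 hC2) (one_le_mul_of_one_le_of_one_le hκ1 h2))
      (one_le_mul_of_one_le_of_one_le hC3 hC1)
  intro B H R o hB hH hR x hx
  set Y := (GG K B H q o).filter (fun y => ¬ Prp x y ∧ pn (Del o x y) ≤ nD x y * (B : ℝ) ^ eK K)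
    with hY
  have hB0 : (0 : ℝ) < B := by exact_mod_cast hB
  have hB1 : (1 : ℝ) ≤ B := by exact_mod_cast hB
  have hH1 : (1 : ℝ) ≤ H := by exact_mod_cast hH
  have hR0 : (0 : ℝ) < R := by exact_mod_cast hR
  have hHB1 : (1 : ℝ) ≤ (H : ℝ) * B := one_le_mul_of_one_le_of_one_le hH1 hB1
  have hxo := GG_ne hB hx
  set G : ℝ := (1 + ((H : ℝ) * B / R) ^ eK K) ^ 2 with hG
  have hG0 : 0 ≤ G := by positivity
  -- the pairs
  set T : Finset (Ideal (𝓞 K) × (InfinitePlace K → ℤ)) :=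
    (Y.image fun y => Dd x y) ×ˢ (JJ K (2 * B ^ 2)) with hT
  have hmaps : ∀ y ∈ Y, (Dd x y, jv (Del o x y)) ∈ T := by
    intro y hy
    obtain ⟨hyG, hp, hd⟩ := Finset.mem_filter.1 hy
    refine Finset.mem_product.2 ⟨Finset.mem_image_of_mem _ hy, ?_⟩
    have hR : 1 ≤ 2 * B ^ 2 := Nat.succ_le_of_lt (by positivity)
    refine mem_JJ hR (Del_pos hxo hp) (fun v => ?_)
      (one_le_pn_Del hxo hp)
    have := Del_le hx hyG v
    push_cast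
    exact this
  -- the ideals
  have hid : ∀ I ∈ Y.image (fun y => Dd x y), I ≠ ⊥ ∧ (Ideal.absNorm I : ℝ) ≤ C1 * ((H : ℝ) * B) ^ eK K := by
    intro I hI
    obtain ⟨y, hy, rfl⟩ := Finset.mem_image.1 hI
    obtain ⟨hyG, hp, hd⟩ := Finset.mem_filter.1 hy
    exact ⟨Dd_ne_bot hp, (hnd B H o hB hH x hx y hyG hp).2⟩
  -- one cell
  have hone : ∀ b ∈ T, ∑ y ∈ Y.filter (fun y => (Dd x y, jv (Del o x y)) = b), om a R o x y ≤
      C1 ^ 2 * C2 * (G * ((H : ℝ) ^ n / B) ^ eK K) * (Ideal.absNorm b.1 : ℝ) ^ (a - 1) := by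
    intro b hb
    obtain ⟨hb1, -⟩ := Finset.mem_product.1 hb
    obtain ⟨hbne, hbN⟩ := hid b.1 hb1
    have hN1 : (1 : ℝ) ≤ Ideal.absNorm b.1 := one_le_absNorm hbne
    set N : ℝ := (Ideal.absNorm b.1 : ℝ) with hN
    have hN0 : 0 < N := by linarith
    have hfac : (1 + N / (R : ℝ) ^ eK K) ^ 2 ≤ C1 ^ 2 * G := by
      rw [hG, ← mul_pow]
      refine pow_le_pow_left₀ (by positivity) ?_ 2
      have h1 : N / (R : ℝ) ^ eK K ≤ C1 * ((H : ℝ) * B / R) ^ eK K := by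
        rw [div_le_iff₀ (by positivity), mul_assoc, ← mul_pow, div_mul_cancel₀ _ hR0.ne']
        exact hbN
      have h2 : (1 : ℝ) ≤ C1 := hC1
      rw [mul_add, mul_one]
      linarith
    have h1 : ∑ y ∈ Y.filter (fun y => (Dd x y, jv (Del o x y)) = b), om a R o x y =
        N ^ a * (1 + N / (R : ℝ) ^ eK K) ^ 2 *
          ∑ y ∈ Y.filter (fun y => (Dd x y, jv (Del o x y)) = b), 1 / pn (Del o x y) := by
      rw [Finset.mul_sum]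
      refine Finset.sum_congr rfl fun y hy => ?_
      have hy2 := (Finset.mem_filter.1 hy).2
      have h3 : nD x y = N := by
        rw [nD, hN, ← congrArg Prod.fst hy2]
      unfold om
      rw [h3, mul_one_div]
    have h2 : ∑ y ∈ Y.filter (fun y => (Dd x y, jv (Del o x y)) = b), 1 / pn (Del o x y) ≤
        C2 * ((H : ℝ) ^ n / B) ^ eK K / N := by
      refine le_trans ?_ (hcell B H o hB hH x hx b.1 b.2)
      refine Finset.sum_le_sum_of_subset_of_nonneg ?_ ?_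
      · intro y hy
        obtain ⟨hy1, hy2⟩ := Finset.mem_filter.1 hy
        obtain ⟨hyG, hp⟩ := Finset.mem_filter.1 hy1
        exact Finset.mem_filter.2 ⟨hyG, hp, congrArg Prod.fst hy2, congrArg Prod.snd hy2⟩
      · intro y hy _
        obtain ⟨_, ⟨hp, _⟩, _⟩ := Finset.mem_filter.1 hy
        have := one_le_pn_Del hxo hp
        positivity
    rw [h1]
    have hNa : 0 ≤ N ^ a := Real.rpow_nonneg hN0.le a
    calc N ^ a * (1 + N / (R : ℝ) ^ eK K) ^ 2 *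
          ∑ y ∈ Y.filter (fun y => (Dd x y, jv (Del o x y)) = b), 1 / pn (Del o x y)
        ≤ N ^ a * (1 + N / (R : ℝ) ^ eK K) ^ 2 * (C2 * ((H : ℝ) ^ n / B) ^ eK K / N) :=
          mul_le_mul_of_nonneg_left h2 (by positivity)
      _ ≤ N ^ a * (C1 ^ 2 * G) * (C2 * ((H : ℝ) ^ n / B) ^ eK K / N) :=
          mul_le_mul_of_nonneg_right (mul_le_mul_of_nonneg_left hfac hNa) (by positivity)
      _ = C1 ^ 2 * C2 * (G * ((H : ℝ) ^ n / B) ^ eK K) * (N ^ a / N) := by ring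
      _ = C1 ^ 2 * C2 * (G * ((H : ℝ) ^ n / B) ^ eK K) * N ^ (a - 1) := by
          rw [Real.rpow_sub_one hN0.ne']
  have hJ : ((JJ K (2 * B ^ 2)).card : ℝ) ≤ κ * (3 * ((Nat.log 2 B : ℝ) + 2)) ^ eK K := by
    refine (JJ_up K n (2 * B ^ 2)).trans ?_
    exact mul_le_mul_of_nonneg_left (pow_le_pow_left₀ (by positivity) (D_Alpha_log B hB) _)
      (by linarith)
  have hI : ∑ I ∈ Y.image (fun y => Dd x y), (Ideal.absNorm I : ℝ) ^ (a - 1) ≤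
      C3 * (C1 * (((H : ℝ) * B) ^ a) ^ eK K) := by
    have hX1 : 1 ≤ C1 * ((H : ℝ) * B) ^ eK K :=
      one_le_mul_of_one_le_of_one_le hC1 (one_le_pow₀ hHB1)
    refine (hsumA _ hX1 _ hid).trans (mul_le_mul_of_nonneg_left ?_ (by linarith))
    rw [Real.mul_rpow (by linarith) (by positivity), ← Real.rpow_pow_comm (by positivity)]
    refine mul_le_mul_of_nonneg_right ?_ (by positivity)
    calc C1 ^ a ≤ C1 ^ (1 : ℝ) := Real.rpow_le_rpow_of_exponent_le hC1 ha1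
      _ = C1 := Real.rpow_one C1
  have hTs : ∑ b ∈ T, (Ideal.absNorm b.1 : ℝ) ^ (a - 1) ≤
      (κ * (3 * ((Nat.log 2 B : ℝ) + 2)) ^ eK K) * (C3 * (C1 * (((H : ℝ) * B) ^ a) ^ eK K)) := by
    rw [hT, Finset.sum_product]
    have h1 : ∀ I ∈ Y.image (fun y => Dd x y), ∑ _j ∈ JJ K (2 * B ^ 2), (Ideal.absNorm I : ℝ) ^ (a - 1) =
        ((JJ K (2 * B ^ 2)).card : ℝ) * (Ideal.absNorm I : ℝ) ^ (a - 1) := by
      intro I _
      rw [Finset.sum_const, nsmul_eq_mul]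
    rw [Finset.sum_congr rfl h1, ← Finset.mul_sum]
    refine mul_le_mul hJ hI ?_ (by positivity)
    exact Finset.sum_nonneg fun I _ => Real.rpow_nonneg (Nat.cast_nonneg _) _
  rw [← Finset.sum_fiberwise_of_maps_to hmaps]
  calc ∑ b ∈ T, ∑ y ∈ Y.filter (fun y => (Dd x y, jv (Del o x y)) = b), om a R o x y
      ≤ ∑ b ∈ T, C1 ^ 2 * C2 * (G * ((H : ℝ) ^ n / B) ^ eK K) * (Ideal.absNorm b.1 : ℝ) ^ (a - 1) :=
        Finset.sum_le_sum hone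
    _ = C1 ^ 2 * C2 * (G * ((H : ℝ) ^ n / B) ^ eK K) * ∑ b ∈ T, (Ideal.absNorm b.1 : ℝ) ^ (a - 1) := by
        rw [← Finset.mul_sum]
    _ ≤ C1 ^ 2 * C2 * (G * ((H : ℝ) ^ n / B) ^ eK K) *
        ((κ * (3 * ((Nat.log 2 B : ℝ) + 2)) ^ eK K) * (C3 * (C1 * (((H : ℝ) * B) ^ a) ^ eK K))) :=
        mul_le_mul_of_nonneg_left hTs (by positivity)
    _ = C1 ^ 2 * C2 * (κ * 3 ^ eK K) * (C3 * C1) *
        (((B : ℝ) ^ (n + 1) / (B : ℝ) ^ 2) ^ eK K * alE K n a B H R) := by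
        have h1 : ((B : ℝ) ^ (n + 1) / (B : ℝ) ^ 2) ^ eK K *
            ((H : ℝ) ^ n * ((H : ℝ) * B) ^ a / (B : ℝ) ^ n) ^ eK K =
            ((H : ℝ) ^ n / B) ^ eK K * (((H : ℝ) * B) ^ a) ^ eK K := by
          rw [← mul_pow, ← mul_pow]
          congr 1
          rw [pow_succ (B : ℝ) n]
          field_simp
        unfold alE
        rw [mul_pow (3 : ℝ), ← hG]
        have h2 : ((B : ℝ) ^ (n + 1) / (B : ℝ) ^ 2) ^ eK K * (((Nat.log 2 B : ℝ) + 2) ^ eK K *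
            ((H : ℝ) ^ n * ((H : ℝ) * B) ^ a / (B : ℝ) ^ n) ^ eK K * G) =
            ((Nat.log 2 B : ℝ) + 2) ^ eK K * (((H : ℝ) ^ n / B) ^ eK K * (((H : ℝ) * B) ^ a) ^ eK K) * G := by
          rw [← h1]
          ring
        rw [h2]
        ring

end Pool.Agent.Lib.MP_1ad228_ntW
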