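import Pool.Agent.Lib.MP_1ad228_ntW.B_Sum
import Pool.Agent.Lib.MP_1ad228_ntN.Beta

/-!
JOB D_Beta.  Pair sum over the far points.  (Model with proof: `beta` in Lib/MP_1ad228_ntN/Beta.lean.)

PROOF.  `Y` = the set of the sum, `e = eK K`.  Exactly the model: group by `(I, j)`, `N = absNorm I`, `P = pn (2^j)`; `N ≤ (2B)^e`; by `cntY` the group has at most `C0 (B/B^n)^e (2^e P/N)^n` elements; each term is `≤ N^a (1 + N/R^e)^2/P`, and
`N/R^e ≤ (2B)^e/R^e ≤ 2^e` (`B ≤ R`), so `(1 + N/R^e)^2 ≤ 4^(e+1)`.  So the group contributes at most `C0 2^(en) 4^(e+1) (B/B^n)^e P^(n-1) N^(a-n)`, and `N^(a-n) ≤ N^(a-2)` (`n ≥ 2`, `N ≥ 1`).  Sum over `I`: `idTailA K (2 - a)` (`2 - a > 1`):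
`∑ N^(-(2-a)) ≤ C (w+1)^(1-(2-a)) = C (w+1)^(a-1)`.  Sum over `j`: `geoPn` with exponent `n - 1 ≥ 1`.
-/

namespace Pool.Agent.Lib.MP_1ad228_ntW

open NumberField Classical Pool.Agent.Lib.MP_1ad228_ntN
open Pool.Agent.Lib.MP_219881_nt (mn)

variable (K : Type) [Field K] [NumberField K]

private theorem db_alg (n : ℕ) (hn : 2 ≤ n) (C0 E Bq P N Q Na Nt : ℝ) (hC0 : 0 ≤ C0) (hE : 0 ≤ E)
    (hBq : 0 ≤ Bq) (hP : 0 < P) (hN : 1 ≤ N) (hQ : 0 ≤ Q) (h : Na ≤ Nt * N ^ n) :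
    C0 * Bq * (E * P / N) ^ n * (Na * Q / P) ≤ C0 * E ^ n * Q * Bq * (Nt * P ^ (n - 1)) := by
  obtain ⟨m, rfl⟩ : ∃ m, n = m + 1 := ⟨n - 1, by omega⟩
  have hN0 : 0 < N := by linarith
  have e1 : C0 * Bq * (E * P / N) ^ (m + 1) * (Na * Q / P) =
      C0 * E ^ (m + 1) * Q * Bq * (P ^ m * (Na / N ^ (m + 1))) := by
    rw [div_pow, mul_pow, pow_succ P m]
    have p1 : N ^ (m + 1) ≠ 0 := by positivity
    generalize N ^ (m + 1) = u1 at p1
    generalize P ^ m = u2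
    generalize E ^ (m + 1) = u3
    field_simp
  rw [e1, Nat.add_sub_cancel, mul_comm Nt]
  refine mul_le_mul_of_nonneg_left ?_ (by positivity)
  refine mul_le_mul_of_nonneg_left ?_ (by positivity)
  rw [div_le_iff₀ (by positivity)]
  exact h

private theorem db_pow (n : ℕ) (hn : 2 ≤ n) (a N : ℝ) (hN : 1 ≤ N) :
    N ^ a ≤ N ^ (-(2 - a)) * N ^ n := by
  have hN0 : 0 < N := by linarith
  have h1 : N ^ (-(2 - a)) * N ^ n = N ^ (-(2 - a) + (n : ℝ)) := by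
    rw [Real.rpow_add hN0, Real.rpow_natCast]
  rw [h1]
  refine Real.rpow_le_rpow_of_exponent_le hN ?_
  have h2 : (2 : ℝ) ≤ n := by exact_mod_cast hn
  linarith

theorem betaT (n q : ℕ) (hn : 2 ≤ n) (hq : 1 ≤ q) (a : ℝ) (ha : 0 < a) (ha1 : a < 1) :
    ∃ C : ℝ, 1 ≤ C ∧ ∀ (B H w R : ℕ) (Z : InfinitePlace K → ℝ) (o : Fin (n + 1)), 1 ≤ B →
    B ≤ R → (∀ v, 0 ≤ Z v) → ∀ x ∈ GG K B H q o,
    ∑ y ∈ (GG K B H q o).filter (fun y => ¬ Prp x y ∧
        nD x y * (B : ℝ) ^ eK K < pn (Del o x y) ∧ (w : ℝ) < nD x y ∧ ∀ v, Del o x y v ≤ Z v),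
      om a R o x y ≤
        C * (pn Z ^ (n - 1) * ((B : ℝ) / (B : ℝ) ^ n) ^ eK K * ((w : ℝ) + 1) ^ (a - 1)) := by
  obtain ⟨C0, hC0, hcnt⟩ := cntY (K := K) n q hq
  obtain ⟨C1, hC1, htail⟩ := idTailA K (2 - a) (by linarith)
  have hC00 : 0 ≤ C0 := by linarith
  have h2e : (1 : ℝ) ≤ 2 ^ eK K := one_le_pow₀ (by norm_num)
  have h4e : (1 : ℝ) ≤ 4 ^ (eK K + 1) := one_le_pow₀ (by norm_num)
  refine ⟨C0 * (2 ^ eK K) ^ n * 4 ^ (eK K + 1) * (C1 * 2 ^ eK K), ?_, ?_⟩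
  · exact one_le_mul_of_one_le_of_one_le
      (one_le_mul_of_one_le_of_one_le
        (one_le_mul_of_one_le_of_one_le hC0 (one_le_pow₀ h2e)) h4e)
      (one_le_mul_of_one_le_of_one_le hC1 h2e)
  intro B H w R Z o hB hBR hZ x hx
  have hB0 : (0 : ℝ) < B := by exact_mod_cast hB
  have hBR' : (B : ℝ) ≤ R := by exact_mod_cast hBR
  have hR0 : (0 : ℝ) < R := by linarith
  have hxo := GG_ne hB hx
  set Y := (GG K B H q o).filter (fun y => ¬ Prp x y ∧
        nD x y * (B : ℝ) ^ eK K < pn (Del o x y) ∧ (w : ℝ) < nD x y ∧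
        ∀ v, Del o x y v ≤ Z v) with hY
  have hYmem : ∀ y, y ∈ Y ↔ y ∈ GG K B H q o ∧ ¬ Prp x y ∧
        nD x y * (B : ℝ) ^ eK K < pn (Del o x y) ∧ (w : ℝ) < nD x y ∧
        ∀ v, Del o x y v ≤ Z v := fun y => by rw [hY, Finset.mem_filter]
  set Bq : ℝ := ((B : ℝ) / (B : ℝ) ^ n) ^ eK K with hBq
  have hBq0 : 0 ≤ Bq := by positivity
  set K0 : ℝ := C0 * (2 ^ eK K) ^ n * 4 ^ (eK K + 1) * Bq with hK0
  have hK0pos : 0 ≤ K0 := by positivity
  let SI : Finset (Ideal (𝓞 K)) := Y.image fun y => Dd x y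
  let SJ : InfinitePlace K → Finset ℤ := fun v => Y.image fun y => jv (Del o x y) v
  have hmaps : ∀ y ∈ Y, (fun y => (Dd x y, jv (Del o x y))) y ∈ SI ×ˢ Fintype.piFinset SJ := by
    intro y hy
    rw [Finset.mem_product, Fintype.mem_piFinset]
    exact ⟨Finset.mem_image_of_mem _ hy,
      fun v => Finset.mem_image_of_mem (fun y => jv (Del o x y) v) hy⟩
  rw [← Finset.sum_fiberwise_of_maps_to hmaps]
  have hfib : ∀ p ∈ SI ×ˢ Fintype.piFinset SJ,
      ∑ y ∈ Y.filter (fun y => (Dd x y, jv (Del o x y)) = p), om a R o x y ≤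
      K0 * ((Ideal.absNorm p.1 : ℝ) ^ (-(2 - a)) * pn (fun v => (2 : ℝ) ^ p.2 v) ^ (n - 1)) := by
    rintro ⟨I, j⟩ _
    simp only
    rcases (Y.filter (fun y => (Dd x y, jv (Del o x y)) = (I, j))).eq_empty_or_nonempty
      with he | ⟨y0, hy0⟩
    · rw [he, Finset.sum_empty]
      have : 0 ≤ pn (fun v => (2 : ℝ) ^ j v) := pn_nonneg fun v => by positivity
      have h0 : (0 : ℝ) ≤ (Ideal.absNorm I : ℝ) ^ (-(2 - a)) :=
        Real.rpow_nonneg (Nat.cast_nonneg _) _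
      positivity
    · have hP0 : 0 < pn (fun v => (2 : ℝ) ^ j v) := pn_pos fun v => by positivity
      have hfacts : ∀ y ∈ Y.filter (fun y => (Dd x y, jv (Del o x y)) = (I, j)),
          y ∈ GG K B H q o ∧ ¬ Prp x y ∧ Dd x y = I ∧
            (Ideal.absNorm I : ℝ) * (B : ℝ) ^ eK K < pn (Del o x y) ∧
            (∀ v, (2 : ℝ) ^ j v ≤ Del o x y v) ∧ ∀ v, Del o x y v ≤ 2 * (2 : ℝ) ^ j v := by
        intro y hy
        rw [Finset.mem_filter, Prod.mk.injEq] at hy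
        obtain ⟨hyY, hyD, hyL⟩ := hy
        obtain ⟨hyG, hyx, h1, h2, h3⟩ := (hYmem y).mp hyY
        refine ⟨hyG, hyx, hyD, ?_, ?_, ?_⟩
        · rw [← hyD]
          exact h1
        · intro v
          rw [← hyL]
          exact jv_le (Del_pos hxo hyx v)
        · intro v
          rw [← hyL]
          exact (lt_jv v).le
      obtain ⟨g1, g2, g3, g4, g5, g6⟩ := hfacts y0 hy0
      have hI : I ≠ ⊥ := by
        rw [← g3]
        exact Dd_ne_bot g2
      have hN1 : (1 : ℝ) ≤ Ideal.absNorm I := one_le_absNorm hI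
      have hN0 : (0 : ℝ) < Ideal.absNorm I := by linarith
      have hpd : pn (fun v => 2 * (2 : ℝ) ^ j v) = 2 ^ eK K * pn (fun v => (2 : ℝ) ^ j v) :=
        pn_const_mul _ _
      have hDpn : pn (Del o x y0) ≤ pn (fun v => 2 * (2 : ℝ) ^ j v) :=
        pn_mono (fun v => Del_nonneg o x y0 v) g6
      have hDB : pn (Del o x y0) ≤ (2 * (B : ℝ)) ^ eK K * (B : ℝ) ^ eK K := by
        have h1 : pn (Del o x y0) ≤ pn (fun _ : InfinitePlace K => 2 * (B : ℝ) ^ 2) :=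
          pn_mono (fun v => Del_nonneg o x y0 v) fun v => Del_le hx g1 v
        rw [pn_const] at h1
        refine h1.trans (le_of_eq ?_)
        rw [← mul_pow]
        congr 1
        ring
      have hNB : (Ideal.absNorm I : ℝ) ≤ (2 * B) ^ eK K := by
        have h1 : (Ideal.absNorm I : ℝ) * (B : ℝ) ^ eK K < (2 * (B : ℝ)) ^ eK K * (B : ℝ) ^ eK K :=
          lt_of_lt_of_le g4 hDB
        exact (lt_of_mul_lt_mul_right h1 (by positivity)).le
      have hcard := hcnt B H o hB x hx I (fun v => 2 * (2 : ℝ) ^ j v) hI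
        (fun v => by positivity) hNB (g4.le.trans hDpn)
      have hsub : Y.filter (fun y => (Dd x y, jv (Del o x y)) = (I, j)) ⊆
          (VBox K n B).filter fun y => (∀ i j, mn x y i j ∈ I) ∧
            ∀ v, Del o x y v ≤ 2 * (2 : ℝ) ^ j v := by
        intro y hy
        obtain ⟨k1, k2, k3, k4, k5, k6⟩ := hfacts y hy
        rw [Finset.mem_filter]
        refine ⟨(Finset.mem_filter.1 k1).1, ?_, k6⟩
        intro i j'
        rw [← k3]
        exact mn_mem_Dd x y i j'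
      have hcard2 : ((Y.filter (fun y => (Dd x y, jv (Del o x y)) = (I, j))).card : ℝ) ≤
          C0 * Bq * (2 ^ eK K * pn (fun v => (2 : ℝ) ^ j v) / Ideal.absNorm I) ^ n := by
        refine (Nat.cast_le.mpr (Finset.card_le_card hsub)).trans (hcard.trans (le_of_eq ?_))
        rw [hpd]
      -- the factor with `R`
      have hNR : (Ideal.absNorm I : ℝ) / (R : ℝ) ^ eK K ≤ 2 ^ eK K := by
        rw [div_le_iff₀ (by positivity), ← mul_pow]
        exact hNB.trans (pow_le_pow_left₀ (by positivity) (by linarith) _)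
      have hfac : (1 + (Ideal.absNorm I : ℝ) / (R : ℝ) ^ eK K) ^ 2 ≤ 4 ^ (eK K + 1) := by
        have h1 : 1 + (Ideal.absNorm I : ℝ) / (R : ℝ) ^ eK K ≤ 2 ^ (eK K + 1) := by
          rw [pow_succ]
          linarith
        have h2 : (0 : ℝ) ≤ 1 + (Ideal.absNorm I : ℝ) / (R : ℝ) ^ eK K := by positivity
        refine (pow_le_pow_left₀ h2 h1 2).trans (le_of_eq ?_)
        rw [← pow_mul, mul_comm, pow_mul]
        norm_num
      have hNa : (0 : ℝ) ≤ (Ideal.absNorm I : ℝ) ^ a := Real.rpow_nonneg hN0.le _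
      have hterm : ∀ y ∈ Y.filter (fun y => (Dd x y, jv (Del o x y)) = (I, j)),
          om a R o x y ≤
            (Ideal.absNorm I : ℝ) ^ a * 4 ^ (eK K + 1) / pn (fun v => (2 : ℝ) ^ j v) := by
        intro y hy
        obtain ⟨k1, k2, k3, k4, k5, k6⟩ := hfacts y hy
        unfold om nD
        rw [k3]
        have k7 : pn (fun v => (2 : ℝ) ^ j v) ≤ pn (Del o x y) :=
          pn_mono (fun v => by positivity) k5
        refine (div_le_div_of_nonneg_left (by positivity) hP0 k7).trans ?_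
        refine div_le_div_of_nonneg_right ?_ hP0.le
        exact mul_le_mul_of_nonneg_left hfac hNa
      refine (Finset.sum_le_card_nsmul _ _ _ hterm).trans ?_
      rw [nsmul_eq_mul]
      refine (mul_le_mul_of_nonneg_right hcard2 (by positivity)).trans ?_
      exact db_alg n hn C0 (2 ^ eK K) Bq _ _ _ _ _ hC00 (by positivity) hBq0 hP0 hN1 (by positivity)
        (db_pow n hn a _ hN1)
  refine (Finset.sum_le_sum hfib).trans ?_
  rw [← Finset.mul_sum, Finset.sum_product]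
  have e5 : ∑ I ∈ SI, ∑ j ∈ Fintype.piFinset SJ,
      (Ideal.absNorm I : ℝ) ^ (-(2 - a)) * pn (fun v => (2 : ℝ) ^ j v) ^ (n - 1) =
      (∑ I ∈ SI, (Ideal.absNorm I : ℝ) ^ (-(2 - a))) *
        ∑ j ∈ Fintype.piFinset SJ, pn (fun v => (2 : ℝ) ^ j v) ^ (n - 1) := by
    rw [Finset.sum_mul]
    refine Finset.sum_congr rfl fun I _ => ?_
    rw [Finset.mul_sum]
  rw [e5]
  have h10 : ∑ I ∈ SI, (Ideal.absNorm I : ℝ) ^ (-(2 - a)) ≤ C1 * ((w : ℝ) + 1) ^ (a - 1) := by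
    have h1 := htail w SI fun I hI => by
      obtain ⟨y, hy, rfl⟩ := Finset.mem_image.1 hI
      exact ((hYmem y).1 hy).2.2.2.1
    have h2 : (1 : ℝ) - (2 - a) = a - 1 := by ring
    rwa [h2] at h1
  have h11 : ∑ j ∈ Fintype.piFinset SJ, pn (fun v => (2 : ℝ) ^ j v) ^ (n - 1) ≤
      2 ^ eK K * pn Z ^ (n - 1) := by
    refine geoPn SJ Z (n - 1) (by omega) hZ fun v j hj => ?_
    obtain ⟨y, hy, rfl⟩ := Finset.mem_image.1 hj
    obtain ⟨hyG, hyx, h1, h2, h3⟩ := (hYmem y).mp hy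
    exact (jv_le (Del_pos hxo hyx v)).trans (h3 v)
  have h15 : 0 ≤ ∑ j ∈ Fintype.piFinset SJ, pn (fun v => (2 : ℝ) ^ j v) ^ (n - 1) :=
    Finset.sum_nonneg fun j _ => pow_nonneg (pn_nonneg fun v => by positivity) _
  have hC10 : 0 ≤ C1 := by linarith
  have h17 : (0 : ℝ) ≤ ((w : ℝ) + 1) ^ (a - 1) := Real.rpow_nonneg (by positivity) _
  have h16 := mul_le_mul h10 h11 h15 (by positivity)
  refine (mul_le_mul_of_nonneg_left h16 hK0pos).trans (le_of_eq ?_)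
  rw [hK0]
  ring

end Pool.Agent.Lib.MP_1ad228_ntW
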