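import Pool.Agent.Lib.MP_1ad228_ntW.Defs
import Pool.Agent.Lib.MP_1ad228_ntN.AlphaPt
import Pool.Agent.Lib.MP_1ad228_ntN.NB_Const

/-!
JOB D_Cell.  Refined count of the close points in one cell.  (Model with proof: `alphaCell` and `alpha` in Lib/MP_1ad228_ntN/Alpha.lean.)

Set `T = (n+1) H q` (real number, `≥ 1`), `e = eK K`, `κ = CK K n`, `f` = the short vectors of `x` (`GG_good`), `U_s(y) = lin (f s) y`.

`ndBd` (as `hnD` in `alpha`): for `¬ Prp x y`: some `U_s(y) ≠ 0` (`apNe`), it lies in `Dd x y` (`apDvd`), `v(U_s) ≤ (T/B) Del_v` (`apBd`), so `nD ≤ pn(v(U_s)) ≤ (T/B)^e pn(Del)` (`absNorm_le_pn`, `pn_mono`, `pn_const_mul`).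
 And `pn(Del) ≤ (2 B^2)^e` (`Del_le`), so `nD ≤ (2 T B)^e`.  `C = (2 (n+1) q)^e`.

`cellT`: the cell is the set `Z` of the `y` of the statement (`Dd x y = I`, `jv (Del) = j`, `pn Del ≤ nD B^e`); `P = pn (fun v => 2^(j v))`, `N = absNorm I`.  If `Z` is empty the sum is `0`.  Otherwise (`y0 ∈ Z`): `I ≠ ⊥`, `P ≤ pn(Del y0) ≤ N B^e`
 (`pn_two_zpow_le`), and `pn(Del y0) ≤ 2^e P` (`lt_jv`), `N ≤ (T/B)^e pn (Del y0) ≤ (2 T/B)^e P`.  For every `s` the values `U_s(y)`, `y ∈ Z`: differences in `I`, of size `≤ (4 T/B) 2^(j v)` (as in `alphaCell`), so by `upI` at most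
 `κ (1 + (4T/B)^e P/N)`; since `1 ≤ (2T/B)^e P/N` this is `≤ 2 κ (4T/B)^e P/N`.  As in `alphaCell` `#Z ≤ κ (2q)^e (2 κ (4T/B)^e P/N)^n` (`apFib`).  Each `y` contributes `1/pn(Del) ≤ 1/P`.  So the sum is at most
 `κ (2q)^e (2κ)^n (4T/B)^(en) P^(n-1)/N^n ≤ κ (2q)^e (2κ)^n (4T/B)^(en) (N B^e)^(n-1)/N^n = κ (2q)^e (2κ)^n (4T)^(en) /(B^e N)`.  `(4T)^(en) = (4 (n+1) q)^(en) (H^n)^e`.
-/

namespace Pool.Agent.Lib.MP_1ad228_ntW

open NumberField Classical Pool.Agent.Lib.MP_1ad228_ntN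

variable (K : Type) [Field K] [NumberField K]

variable {K} in
/-- The linear forms at one point. -/
private theorem D_Cell_pt {n B H q : ℕ} {o : Fin (n + 1)} (hB : 1 ≤ B) {x y : Vc n (𝓞 K)}
    (hx : x ∈ GG K B H q o) (f : Vc n (𝓞 K)) (h0 : Pool.Agent.Lib.MP_219881_nt.lin f x = 0)
    (hb : ∀ i, ∀ v : InfinitePlace K, v (f i : K) ≤ (H : ℝ)) (v : InfinitePlace K) :
    v ((Pool.Agent.Lib.MP_219881_nt.lin f y : 𝓞 K) : K) ≤ (((n + 1) * H * q : ℕ) : ℝ) / B * Del o x y v := by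
  have hB0 : (0 : ℝ) < B := by exact_mod_cast hB
  have h1 := apBd B H q o hB x y hx f h0 hb v
  have h2 : (((n + 1) * H * q : ℕ) : ℝ) / B * Del o x y v =
      ((n + 1) * H * q * Del o x y v) / B := by
    push_cast
    ring
  rw [h2, le_div_iff₀ hB0, mul_comm]
  exact h1

variable {K} in
private theorem D_Cell_nD {n B H q : ℕ} {o : Fin (n + 1)} (hB : 1 ≤ B) {x y : Vc n (𝓞 K)}
    (hx : x ∈ GG K B H q o) (hp : ¬ Prp x y) :
    nD x y ≤ ((((n + 1) * H * q : ℕ) : ℝ) / B) ^ eK K * pn (Del o x y) := by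
  obtain ⟨f, hf, h0, hb⟩ := GG_good hx
  obtain ⟨s, hs⟩ := apNe B H q o hB x y hx hp f hf h0
  have h1 : nD x y ≤ pn (fun v : InfinitePlace K => v ((Pool.Agent.Lib.MP_219881_nt.lin (f s) y : 𝓞 K) : K)) :=
    absNorm_le_pn (apDvd x y (GG_uni hx) (f s) (h0 s)) hs
  refine h1.trans ?_
  rw [← pn_const_mul]
  exact pn_mono (fun v => v_nonneg v _) fun v => D_Cell_pt hB hx (f s) (h0 s) (hb s) v

theorem ndBd (n q : ℕ) (hq : 1 ≤ q) : ∃ C : ℝ, 1 ≤ C ∧ ∀ (B H : ℕ) (o : Fin (n + 1)),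
    1 ≤ B → 1 ≤ H → ∀ x ∈ GG K B H q o, ∀ y ∈ GG K B H q o, ¬ Prp x y →
    nD x y ≤ C * ((H : ℝ) / B) ^ eK K * pn (Del o x y) ∧ nD x y ≤ C * ((H : ℝ) * B) ^ eK K := by
  have hq1 : (1 : ℝ) ≤ q := by exact_mod_cast hq
  have hn1 : (1 : ℝ) ≤ (n + 1 : ℕ) := by exact_mod_cast Nat.succ_le_succ (Nat.zero_le n)
  have hc : (1 : ℝ) ≤ ((n + 1 : ℕ) * q : ℝ) := one_le_mul_of_one_le_of_one_le hn1 hq1
  refine ⟨(2 * ((n + 1 : ℕ) * q : ℝ)) ^ eK K, one_le_pow₀ (by linarith), ?_⟩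
  intro B H o hB hH x hx y hy hp
  have hB0 : (0 : ℝ) < B := by exact_mod_cast hB
  have hH1 : (1 : ℝ) ≤ H := by exact_mod_cast hH
  have h1 := D_Cell_nD hB hx hp
  have hxo := GG_ne hB hx
  have hP1 := one_le_pn_Del hxo hp
  have ht : (((n + 1) * H * q : ℕ) : ℝ) = ((n + 1 : ℕ) * q : ℝ) * H := by
    push_cast
    ring
  constructor
  · refine h1.trans (mul_le_mul_of_nonneg_right ?_ (by linarith))
    rw [← mul_pow]
    refine pow_le_pow_left₀ (by positivity) ?_ _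
    rw [ht, mul_div_assoc]
    exact mul_le_mul_of_nonneg_right (by linarith) (by positivity)
  · have h2 : pn (Del o x y) ≤ (2 * (B : ℝ) ^ 2) ^ eK K := by
      rw [← pn_const]
      exact pn_mono (fun v => (Del_pos hxo hp v).le) fun v => Del_le hx hy v
    refine h1.trans ((mul_le_mul_of_nonneg_left h2 (by positivity)).trans (le_of_eq ?_))
    rw [← mul_pow, ← mul_pow, ht]
    congr 1
    field_simp

theorem cellT (n q : ℕ) (hn : 1 ≤ n) (hq : 1 ≤ q) : ∃ C : ℝ, 1 ≤ C ∧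
    ∀ (B H : ℕ) (o : Fin (n + 1)), 1 ≤ B → 1 ≤ H → ∀ x ∈ GG K B H q o,
    ∀ (I : Ideal (𝓞 K)) (j : InfinitePlace K → ℤ),
    ∑ y ∈ (GG K B H q o).filter (fun y => (¬ Prp x y ∧
      pn (Del o x y) ≤ nD x y * (B : ℝ) ^ eK K) ∧ Dd x y = I ∧ jv (Del o x y) = j),
      1 / pn (Del o x y) ≤ C * ((H : ℝ) ^ n / B) ^ eK K / Ideal.absNorm I := by
  set κ : ℝ := CK K n with hκ
  have hκ1 : 1 ≤ κ := CK_one_le K n
  have hq1 : (1 : ℝ) ≤ q := by exact_mod_cast hq
  have hc1 : (1 : ℝ) ≤ (4 * ((n + 1 : ℕ) * q : ℝ)) ^ eK K := by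
    refine one_le_pow₀ ?_
    have : (1 : ℝ) ≤ (n + 1 : ℕ) := by exact_mod_cast Nat.succ_le_succ (Nat.zero_le n)
    nlinarith
  refine ⟨κ * (2 * (q : ℝ)) ^ eK K * (2 * κ * (4 * ((n + 1 : ℕ) * q : ℝ)) ^ eK K) ^ n, ?_, ?_⟩
  · have h1 : (1 : ℝ) ≤ (2 * (q : ℝ)) ^ eK K := one_le_pow₀ (by linarith)
    have h2 : (1 : ℝ) ≤ (2 * κ * (4 * ((n + 1 : ℕ) * q : ℝ)) ^ eK K) ^ n :=
      one_le_pow₀ (one_le_mul_of_one_le_of_one_le (by linarith) hc1)
    exact one_le_mul_of_one_le_of_one_le (one_le_mul_of_one_le_of_one_le hκ1 h1) h2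
  intro B H o hB hH x hx I j
  set Z := (GG K B H q o).filter fun y =>
    (¬ Prp x y ∧ pn (Del o x y) ≤ nD x y * (B : ℝ) ^ eK K) ∧ Dd x y = I ∧ jv (Del o x y) = j
    with hZ
  have hB0 : (0 : ℝ) < B := by exact_mod_cast hB
  have hH1 : (1 : ℝ) ≤ H := by exact_mod_cast hH
  rcases Z.eq_empty_or_nonempty with hem | ⟨y0, hy0⟩
  · rw [hem, Finset.sum_empty]
    positivity
  obtain ⟨f, hf, h0, hb⟩ := GG_good hx
  set t : ℝ := (((n + 1) * H * q : ℕ) : ℝ) with ht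
  have htpos : 0 < t := by
    rw [ht]
    exact_mod_cast Nat.mul_pos (Nat.mul_pos (Nat.succ_pos n) hH) hq
  have ht1 : 1 ≤ t := by
    rw [ht]
    exact_mod_cast Nat.mul_pos (Nat.mul_pos (Nat.succ_pos n) hH) hq
  have ht2 : 4 * t = 4 * ((n + 1 : ℕ) * q : ℝ) * H := by
    rw [ht]
    push_cast
    ring
  have hxo := GG_ne hB hx
  obtain ⟨-, ⟨hp0, hd0⟩, hI0, hj0⟩ := Finset.mem_filter.1 hy0
  have hIne : I ≠ ⊥ := by
    rw [← hI0]
    exact Dd_ne_bot hp0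
  have hN0 : (0 : ℝ) < Ideal.absNorm I := lt_of_lt_of_le one_pos (one_le_absNorm hIne)
  set N : ℝ := (Ideal.absNorm I : ℝ) with hN
  set P : ℝ := pn (fun v : InfinitePlace K => (2 : ℝ) ^ j v) with hP
  have hP0 : 0 < P := pn_pos fun v => by positivity
  have hPle : ∀ y ∈ Z, P ≤ pn (Del o x y) := by
    intro y hy
    obtain ⟨-, ⟨hp, -⟩, -, hj⟩ := Finset.mem_filter.1 hy
    have h4 := pn_two_zpow_le (D := Del o x y) (Del_pos hxo hp)
    rw [hj] at h4
    exact h4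
  -- `P ≤ N B ^ e`
  have hPN : P ≤ N * (B : ℝ) ^ eK K := by
    refine (hPle y0 hy0).trans (hd0.trans (le_of_eq ?_))
    rw [nD, hI0]
  -- `N ≤ (2 t / B) ^ e P`
  have hNP : N ≤ (4 * t / B) ^ eK K * P := by
    have h1 := D_Cell_nD hB hx hp0
    have h2 : pn (Del o x y0) ≤ pn (fun v : InfinitePlace K => 2 * (2 : ℝ) ^ j v) := by
      refine pn_mono (fun v => (Del_pos hxo hp0 v).le) fun v => ?_
      have h6 := lt_jv (D := Del o x y0) v
      rw [hj0] at h6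
      exact h6.le
    rw [pn_const_mul] at h2
    have h3 : nD x y0 = N := by rw [nD, hI0]
    rw [h3] at h1
    calc N ≤ (t / B) ^ eK K * pn (Del o x y0) := h1
      _ ≤ (t / B) ^ eK K * (2 ^ eK K * P) := mul_le_mul_of_nonneg_left h2 (by positivity)
      _ = (2 * t / B) ^ eK K * P := by
          rw [← mul_assoc, ← mul_pow]
          congr 2
          ring
      _ ≤ (4 * t / B) ^ eK K * P := by
          refine mul_le_mul_of_nonneg_right (pow_le_pow_left₀ (by positivity) ?_ _) hP0.le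
          exact div_le_div_of_nonneg_right (by linarith) hB0.le
  -- the values of one linear form
  have hval : ∀ s, ((Z.image fun y => Pool.Agent.Lib.MP_219881_nt.lin (f s) y).card : ℝ) ≤
      2 * κ * (4 * t / B) ^ eK K * (P / N) := by
    intro s
    have h1 := upI n (Z.image fun y => Pool.Agent.Lib.MP_219881_nt.lin (f s) y) I hIne
      (fun v => 4 * t / B * (2 : ℝ) ^ j v) (fun v => by positivity) (fun z hz w hw => ?_)
    · rw [pn_const_mul] at h1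
      refine h1.trans ?_
      have h6 : 1 ≤ (4 * t / B) ^ eK K * P / N := by
        rw [le_div_iff₀ hN0, one_mul]
        exact hNP
      have h7 : 2 * κ * (4 * t / B) ^ eK K * (P / N) = κ * (2 * ((4 * t / B) ^ eK K * P / N)) := by ring
      rw [h7]
      exact mul_le_mul_of_nonneg_left (by linarith) (by linarith)
    · obtain ⟨y, hy, rfl⟩ := Finset.mem_image.1 hz
      obtain ⟨y', hy', rfl⟩ := Finset.mem_image.1 hw
      obtain ⟨hyG, ⟨hp, -⟩, hI, hj⟩ := Finset.mem_filter.1 hy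
      obtain ⟨hyG', ⟨hp', -⟩, hI', hj'⟩ := Finset.mem_filter.1 hy'
      have h2 := apDvd x y (GG_uni hx) (f s) (h0 s)
      have h3 := apDvd x y' (GG_uni hx) (f s) (h0 s)
      rw [hI] at h2
      rw [hI'] at h3
      refine ⟨I.sub_mem h2 h3, fun v => ?_⟩
      have h4 := D_Cell_pt (y := y) hB hx (f s) (h0 s) (hb s) v
      have h5 := D_Cell_pt (y := y') hB hx (f s) (h0 s) (hb s) v
      have h6 := lt_jv (D := Del o x y) v
      have h7 := lt_jv (D := Del o x y') v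
      rw [hj] at h6
      rw [hj'] at h7
      have h8 : v ((Pool.Agent.Lib.MP_219881_nt.lin (f s) y - Pool.Agent.Lib.MP_219881_nt.lin (f s) y' : 𝓞 K) : K) =
          v (((Pool.Agent.Lib.MP_219881_nt.lin (f s) y : 𝓞 K) : K) - ((Pool.Agent.Lib.MP_219881_nt.lin (f s) y' : 𝓞 K) : K)) := by
        simp
      rw [h8]
      have htB : 0 < t / B := by positivity
      have h9 : t / B * Del o x y v ≤ t / B * (2 * (2 : ℝ) ^ j v) :=
        mul_le_mul_of_nonneg_left h6.le htB.le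
      have h10 : t / B * Del o x y' v ≤ t / B * (2 * (2 : ℝ) ^ j v) :=
        mul_le_mul_of_nonneg_left h7.le htB.le
      calc v (((Pool.Agent.Lib.MP_219881_nt.lin (f s) y : 𝓞 K) : K) - ((Pool.Agent.Lib.MP_219881_nt.lin (f s) y' : 𝓞 K) : K))
          ≤ v ((Pool.Agent.Lib.MP_219881_nt.lin (f s) y : 𝓞 K) : K) + v ((Pool.Agent.Lib.MP_219881_nt.lin (f s) y' : 𝓞 K) : K) := v_sub_le v _ _
        _ ≤ t / B * (2 * (2 : ℝ) ^ j v) + t / B * (2 * (2 : ℝ) ^ j v) :=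
            add_le_add (h4.trans h9) (h5.trans h10)
        _ = 4 * t / B * (2 : ℝ) ^ j v := by ring
  -- the fibres
  have hcard : Z.card ≤ (OBox K (2 * q)).card *
      (Fintype.piFinset fun s => Z.image fun y => Pool.Agent.Lib.MP_219881_nt.lin (f s) y).card := by
    refine Finset.card_le_mul_card_image_of_maps_to (f := fun y s => Pool.Agent.Lib.MP_219881_nt.lin (f s) y) ?_ _ ?_
    · intro y hy
      exact Fintype.mem_piFinset.2 fun s => Finset.mem_image_of_mem _ hy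
    · intro b _
      rcases (Z.filter fun y => (fun s => Pool.Agent.Lib.MP_219881_nt.lin (f s) y) = b).eq_empty_or_nonempty with hem | ⟨y', hy'⟩
      · rw [hem]
        exact Nat.zero_le _
      · obtain ⟨hy'Z, hy'b⟩ := Finset.mem_filter.1 hy'
        have hsub : (Z.filter fun y => (fun s => Pool.Agent.Lib.MP_219881_nt.lin (f s) y) = b) ⊆
            (OBox K (2 * q)).image fun c => fun l => y' l + c * x l := by
          intro y hy
          obtain ⟨hyZ, hyb⟩ := Finset.mem_filter.1 hy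
          have he : ∀ s, Pool.Agent.Lib.MP_219881_nt.lin (f s) y = Pool.Agent.Lib.MP_219881_nt.lin (f s) y' := fun s => congrFun (hyb.trans hy'b.symm) s
          obtain ⟨c, hc, hcy⟩ := apFib B H q o hB x y y' hx (Finset.mem_filter.1 hyZ).1
            (Finset.mem_filter.1 hy'Z).1 f hf h0 he
          refine Finset.mem_image.2 ⟨c, hc, ?_⟩
          funext l
          rw [← hcy l]
          ring
        exact (Finset.card_le_card hsub).trans Finset.card_image_le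
  set R : ℝ := 2 * κ * (4 * t / B) ^ eK K * (P / N) with hR
  have hR0 : 0 ≤ R := by positivity
  have hpi : ((Fintype.piFinset fun s => Z.image fun y => Pool.Agent.Lib.MP_219881_nt.lin (f s) y).card : ℝ) ≤ R ^ n := by
    rw [Fintype.card_piFinset, Nat.cast_prod]
    calc ∏ s : Fin n, ((Z.image fun y => Pool.Agent.Lib.MP_219881_nt.lin (f s) y).card : ℝ)
        ≤ ∏ _s : Fin n, R :=
          Finset.prod_le_prod (fun s _ => Nat.cast_nonneg _) fun s _ => hval s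
      _ = R ^ n := by
          rw [Finset.prod_const, Finset.card_univ, Fintype.card_fin]
  have hO : ((OBox K (2 * q)).card : ℝ) ≤ κ * (2 * (q : ℝ)) ^ eK K :=
    OBox_up K n (by linarith)
  have hZc : (Z.card : ℝ) ≤ (κ * (2 * (q : ℝ)) ^ eK K) * R ^ n := by
    calc (Z.card : ℝ) ≤ ((OBox K (2 * q)).card : ℝ) *
          ((Fintype.piFinset fun s => Z.image fun y => Pool.Agent.Lib.MP_219881_nt.lin (f s) y).card : ℝ) := by
          exact_mod_cast hcard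
      _ ≤ (κ * (2 * (q : ℝ)) ^ eK K) * R ^ n :=
          mul_le_mul hO hpi (Nat.cast_nonneg _) (by positivity)
  -- the sum
  have hsum : ∑ y ∈ Z, 1 / pn (Del o x y) ≤ (Z.card : ℝ) * (1 / P) := by
    calc ∑ y ∈ Z, 1 / pn (Del o x y) ≤ ∑ _y ∈ Z, 1 / P :=
          Finset.sum_le_sum fun y hy => one_div_le_one_div_of_le hP0 (hPle y hy)
      _ = (Z.card : ℝ) * (1 / P) := by rw [Finset.sum_const, nsmul_eq_mul]
  have hRP : R ^ n * (1 / P) ≤ (2 * κ) ^ n * ((4 * t) ^ eK K) ^ n / ((B : ℝ) ^ eK K * N) := by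
    obtain ⟨m, rfl⟩ : ∃ m, n = m + 1 := ⟨n - 1, by omega⟩
    set a : ℝ := (4 * t / B) ^ eK K with ha
    have ha0 : 0 < a := by positivity
    have haB : a * (B : ℝ) ^ eK K = (4 * t) ^ eK K := by
      rw [ha, ← mul_pow, div_mul_cancel₀ _ hB0.ne']
    have hRle : R ≤ 2 * κ * a * (B : ℝ) ^ eK K := by
      have h1 : P / N ≤ (B : ℝ) ^ eK K := by
        rw [div_le_iff₀ hN0, mul_comm]
        exact hPN
      exact mul_le_mul_of_nonneg_left h1 (by positivity)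
    have hBe : (0 : ℝ) < (B : ℝ) ^ eK K := by positivity
    calc R ^ (m + 1) * (1 / P) = R ^ m * (2 * κ * a / N) := by
          rw [pow_succ, hR]
          field_simp
      _ ≤ (2 * κ * a * (B : ℝ) ^ eK K) ^ m * (2 * κ * a / N) :=
          mul_le_mul_of_nonneg_right (pow_le_pow_left₀ hR0 hRle m) (by positivity)
      _ = (2 * κ) ^ (m + 1) * (a * (B : ℝ) ^ eK K) ^ (m + 1) / ((B : ℝ) ^ eK K * N) := by
          have e1 : (2 * κ * a * (B : ℝ) ^ eK K) ^ m = (2 * κ) ^ m * (a * (B : ℝ) ^ eK K) ^ m := by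
            rw [← mul_pow]
            congr 1
            ring
          rw [e1, pow_succ (2 * κ), pow_succ (a * (B : ℝ) ^ eK K)]
          field_simp
      _ = (2 * κ) ^ (m + 1) * ((4 * t) ^ eK K) ^ (m + 1) / ((B : ℝ) ^ eK K * N) := by rw [haB]
  calc ∑ y ∈ Z, 1 / pn (Del o x y) ≤ (Z.card : ℝ) * (1 / P) := hsum
    _ ≤ (κ * (2 * (q : ℝ)) ^ eK K) * R ^ n * (1 / P) :=
        mul_le_mul_of_nonneg_right hZc (by positivity)
    _ = (κ * (2 * (q : ℝ)) ^ eK K) * (R ^ n * (1 / P)) := by ring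
    _ ≤ (κ * (2 * (q : ℝ)) ^ eK K) * ((2 * κ) ^ n * ((4 * t) ^ eK K) ^ n / ((B : ℝ) ^ eK K * N)) :=
        mul_le_mul_of_nonneg_left hRP (by positivity)
    _ = κ * (2 * (q : ℝ)) ^ eK K * (2 * κ * (4 * ((n + 1 : ℕ) * q : ℝ)) ^ eK K) ^ n *
        ((H : ℝ) ^ n / B) ^ eK K / N := by
        rw [ht2, mul_pow (4 * ((n + 1 : ℕ) * q : ℝ)), mul_pow ((4 * ((n + 1 : ℕ) * q : ℝ)) ^ eK K),
          mul_pow (2 * κ), div_pow, ← pow_mul (H : ℝ) (eK K) n, ← pow_mul (H : ℝ) n (eK K), mul_comm n (eK K)]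
        field_simp

end Pool.Agent.Lib.MP_1ad228_ntW
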