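import Pool.Agent.Lib.MP_1ad228_ntW.D_Alpha
import Pool.Agent.Lib.MP_1ad228_ntW.D_Beta

/-!
JOB D_Ps.  Pair sums (assembly of `alphaT` and `betaT`).  (Model with proof: Lib/MP_1ad228_ntN/PairSum.lean, `psAll` and `psBad`, with `r = 1` in the powers of `B` and `n - r` replaced by `n - 1`.)

PROOF.  As in the model.  `psAllT`: the `y` with `¬ Prp x y` are in `{pn Del ≤ nD B^e}` (`alphaT`) or in `{nD B^e < pn Del, 0 < nD, Del_v ≤ 2 B^2}` (`betaT` with `w = 0`, `Z_v = 2 B^2`, `(0+1)^(a-1) = 1`):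
`pn(Z)^(n-1) (B/B^n)^e = ((2B^2)^(n-1) B/B^n)^e = (2^(n-1) B^(n-1))^e`, and `B^(n+1)/B^2 = B^(n-1)`.
`psBadT`: union of `{pn Del ≤ nD B^e}` (`alphaT`); `{nD B^e < pn Del, W ∉ Dd x y}`, where `w < nD` (as in the model), `betaT` with `w`, `Z_v = 2 B^2`; and for every place `v0` `{nD B^e < pn Del, k Del_(v0) < B^2}`, `betaT` with `w = 0`, `Z_(v0) = B^2/k`
(in the model `Z_v = (if v = v0 then 1/k else 1) * (2 B^2)`).
-/

namespace Pool.Agent.Lib.MP_1ad228_ntW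

open NumberField Classical Pool.Agent.Lib.MP_1ad228_ntN

set_option linter.unusedSectionVars false

variable (K : Type) [Field K] [NumberField K]

private theorem D_Ps_split2 {α : Type*} (G : Finset α) (f : α → ℝ) (p p1 p2 : α → Prop)
    [DecidablePred p] [DecidablePred p1] [DecidablePred p2]
    (hf : ∀ y ∈ G, 0 ≤ f y) (h : ∀ y ∈ G, p y → p1 y ∨ p2 y) :
    ∑ y ∈ G.filter p, f y ≤ ∑ y ∈ G.filter p1, f y + ∑ y ∈ G.filter p2, f y := by
  rw [Finset.sum_filter, Finset.sum_filter, Finset.sum_filter, ← Finset.sum_add_distrib]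
  refine Finset.sum_le_sum fun y hy => ?_
  have h0 := hf y hy
  by_cases hp : p y
  · rw [if_pos hp]
    rcases h y hy hp with h1 | h2
    · rw [if_pos h1]
      by_cases h2 : p2 y
      · rw [if_pos h2]; linarith
      · rw [if_neg h2]; linarith
    · rw [if_pos h2]
      by_cases h1 : p1 y
      · rw [if_pos h1]; linarith
      · rw [if_neg h1]; linarith
  · rw [if_neg hp]
    by_cases h1 : p1 y
    · rw [if_pos h1]
      by_cases h2 : p2 y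
      · rw [if_pos h2]; linarith
      · rw [if_neg h2]; linarith
    · rw [if_neg h1]
      by_cases h2 : p2 y
      · rw [if_pos h2]; linarith
      · rw [if_neg h2]; linarith

private theorem D_Ps_splitE {α ι : Type*} [Fintype ι] (G : Finset α) (f : α → ℝ) (p : α → Prop)
    (p1 : ι → α → Prop) [DecidablePred p] [∀ v, DecidablePred (p1 v)]
    (hf : ∀ y ∈ G, 0 ≤ f y) (h : ∀ y ∈ G, p y → ∃ v, p1 v y) :
    ∑ y ∈ G.filter p, f y ≤ ∑ v, ∑ y ∈ G.filter (p1 v), f y := by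
  simp only [Finset.sum_filter]
  rw [Finset.sum_comm]
  refine Finset.sum_le_sum fun y hy => ?_
  have h0 := hf y hy
  have h1 : ∀ v ∈ (Finset.univ : Finset ι), 0 ≤ (if p1 v y then f y else 0) := fun v _ => by
    split_ifs
    · exact h0
    · exact le_rfl
  by_cases hp : p y
  · rw [if_pos hp]
    obtain ⟨v, hv⟩ := h y hy hp
    have h2 := Finset.single_le_sum h1 (Finset.mem_univ v)
    rwa [if_pos hv] at h2
  · rw [if_neg hp]
    exact Finset.sum_nonneg h1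

private theorem D_Ps_nonneg {n : ℕ} (a : ℝ) (R : ℕ) (o : Fin (n + 1)) (x y : Vc n (𝓞 K)) :
    0 ≤ om a R o x y := by
  unfold om
  have h1 : 0 ≤ nD x y := Nat.cast_nonneg _
  have h2 : 0 ≤ pn (Del o x y) := pn_nonneg fun v => Del_nonneg o x y v
  have h3 : 0 ≤ nD x y ^ a := Real.rpow_nonneg h1 a
  exact div_nonneg (mul_nonneg h3 (sq_nonneg _)) h2

private theorem D_Ps_full (n : ℕ) (hn : 2 ≤ n) (B : ℕ) (hB : 1 ≤ B) (e : ℕ) :
    ((2 * (B : ℝ) ^ 2) ^ e) ^ (n - 1) * ((B : ℝ) / (B : ℝ) ^ n) ^ e ≤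
      (2 ^ n) ^ e * ((B : ℝ) ^ (n + 1) / (B : ℝ) ^ 2) ^ e := by
  obtain ⟨m, rfl⟩ := Nat.exists_eq_add_of_le hn
  have hB0 : (0 : ℝ) < (B : ℝ) := by exact_mod_cast hB
  have e0 : 2 + m - 1 = 1 + m := by omega
  have e1 : (2 * (B : ℝ) ^ 2) ^ (1 + m) * ((B : ℝ) / (B : ℝ) ^ (2 + m)) =
      2 ^ (1 + m) * ((B : ℝ) ^ (2 + m + 1) / (B : ℝ) ^ 2) := by
    rw [mul_div_assoc', mul_div_assoc', div_eq_div_iff (by positivity) (by positivity), mul_pow]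
    ring
  have e2 : (2 * (B : ℝ) ^ 2) ^ (1 + m) * ((B : ℝ) / (B : ℝ) ^ (2 + m)) ≤
      2 ^ (2 + m) * ((B : ℝ) ^ (2 + m + 1) / (B : ℝ) ^ 2) := by
    rw [e1]
    refine mul_le_mul_of_nonneg_right ?_ (by positivity)
    exact pow_le_pow_right₀ (by norm_num) (by omega)
  rw [e0, ← pow_mul, mul_comm e (1 + m), pow_mul, ← mul_pow, ← mul_pow]
  exact pow_le_pow_left₀ (by positivity) e2 e

private theorem D_Ps_c_nonneg (v0 : InfinitePlace K) {k : ℕ} (hk : (1 : ℝ) ≤ k) (v : InfinitePlace K) :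
    0 ≤ (if v = v0 then 1 / (k : ℝ) else 1) := by
  split_ifs
  · positivity
  · exact zero_le_one

private theorem D_Ps_pn_c (v0 : InfinitePlace K) {k : ℕ} (hk : (1 : ℝ) ≤ k) :
    pn (fun v => if v = v0 then 1 / (k : ℝ) else 1) ≤ 1 / (k : ℝ) := by
  have h1 : pn (fun v => if v = v0 then 1 / (k : ℝ) else 1) = (1 / (k : ℝ)) ^ v0.mult := by
    unfold pn
    rw [Finset.prod_eq_single v0]
    · simp only [if_true]
    · intro b _ hb
      simp only [if_neg hb, one_pow]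
    · intro h
      exact absurd (Finset.mem_univ v0) h
  rw [h1]
  refine pow_le_of_le_one (by positivity) ?_ (InfinitePlace.mult_pos).ne'
  rw [div_le_one (by linarith)]
  exact hk

private theorem D_Ps_alE_nonneg (n : ℕ) (a : ℝ) (B H R : ℕ) : 0 ≤ alE K n a B H R := by
  unfold alE
  have h1 : (0 : ℝ) ≤ ((H : ℝ) * B) ^ a := Real.rpow_nonneg (by positivity) a
  positivity

theorem psAllT (n q : ℕ) (hn : 2 ≤ n) (hq : 1 ≤ q) (a : ℝ) (ha : 0 < a) (ha1 : a < 1) :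
    ∃ C : ℝ, 1 ≤ C ∧ ∀ (B H R : ℕ) (o : Fin (n + 1)), 1 ≤ B → 1 ≤ H → B ≤ R →
    ∀ x ∈ GG K B H q o,
    ∑ y ∈ (GG K B H q o).filter (fun y => ¬ Prp x y), om a R o x y ≤
      C * (((B : ℝ) ^ (n + 1) / (B : ℝ) ^ 2) ^ eK K * (1 + alE K n a B H R)) := by
  obtain ⟨Ca, hCa, hal⟩ := alphaT K n q (by omega) hq a ha ha1.le
  obtain ⟨Cb, hCb, hb⟩ := betaT K n q hn hq a ha ha1
  have hCb0 : (0 : ℝ) < Cb := by linarith
  have hM : (0 : ℝ) ≤ Cb * (2 ^ n) ^ eK K := by positivity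
  refine ⟨Ca + Cb * (2 ^ n) ^ eK K, by linarith, ?_⟩
  intro B H R o hB hH hR x hx
  have h1 := D_Ps_split2 (GG K B H q o) (fun y => om a R o x y)
    (fun y => ¬ Prp x y)
    (fun y => ¬ Prp x y ∧ pn (Del o x y) ≤ nD x y * (B : ℝ) ^ eK K)
    (fun y => ¬ Prp x y ∧ nD x y * (B : ℝ) ^ eK K < pn (Del o x y) ∧ ((0 : ℕ) : ℝ) < nD x y ∧
      ∀ v, Del o x y v ≤ 2 * (B : ℝ) ^ 2)
    (fun y _ => D_Ps_nonneg K a R o x y) (by
      intro y hy hne
      by_cases h : pn (Del o x y) ≤ nD x y * (B : ℝ) ^ eK K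
      · exact Or.inl ⟨hne, h⟩
      · refine Or.inr ⟨hne, not_le.mp h, ?_, fun v => Del_le hx hy v⟩
        rw [Nat.cast_zero]
        linarith [one_le_nD hne])
  have h2 := hal B H R o hB hH (hB.trans hR) x hx
  have h3 := hb B H 0 R (fun _ => 2 * (B : ℝ) ^ 2) o hB hR (fun v => by positivity) x hx
  have h4 := D_Ps_full n hn B hB (eK K)
  have e0 : (((0 : ℕ) : ℝ) + 1) ^ (a - 1) = 1 := by
    rw [Nat.cast_zero, zero_add, Real.one_rpow]
  rw [e0, mul_one, pn_const] at h3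
  have hP : 0 ≤ ((B : ℝ) ^ (n + 1) / (B : ℝ) ^ 2) ^ eK K := by positivity
  have hE := D_Ps_alE_nonneg K n a B H R
  have h5 := mul_le_mul_of_nonneg_left h4 hCb0.le
  refine (h1.trans (add_le_add h2 (h3.trans h5))).trans ?_
  generalize alE K n a B H R = E at hE ⊢
  generalize ((B : ℝ) ^ (n + 1) / (B : ℝ) ^ 2) ^ eK K = P at hP ⊢
  have h6 : 0 ≤ Ca * P := mul_nonneg (by linarith) hP
  have h7 : 0 ≤ Cb * (2 ^ n) ^ eK K * (P * E) := mul_nonneg hM (mul_nonneg hP hE)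
  have h8 : (Ca + Cb * (2 ^ n) ^ eK K) * (P * (1 + E)) =
      Ca * (P * E) + Cb * ((2 ^ n) ^ eK K * P) + (Ca * P + Cb * (2 ^ n) ^ eK K * (P * E)) := by ring
  rw [h8]
  linarith

theorem psBadT (n q : ℕ) (hn : 2 ≤ n) (hq : 1 ≤ q) (a : ℝ) (ha : 0 < a) (ha1 : a < 1) :
    ∃ C : ℝ, 1 ≤ C ∧ ∀ (B H R k w W : ℕ) (o : Fin (n + 1)), 1 ≤ B → 1 ≤ H → B ≤ R → 1 ≤ k →
    (∀ m, 1 ≤ m → m ≤ w → m ∣ W) → ∀ x ∈ GG K B H q o,
    ∑ y ∈ (GG K B H q o).filter (fun y => ¬ Prp x y ∧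
        ¬ (((W : ℕ) : 𝓞 K) ∈ Dd x y ∧ ∀ v, (B : ℝ) ^ 2 ≤ k * Del o x y v)), om a R o x y ≤
      C * (((B : ℝ) ^ (n + 1) / (B : ℝ) ^ 2) ^ eK K *
        (1 / (k : ℝ) + ((w : ℝ) + 1) ^ (a - 1) + alE K n a B H R)) := by
  obtain ⟨Ca, hCa, hal⟩ := alphaT K n q (by omega) hq a ha ha1.le
  obtain ⟨Cb, hCb, hb⟩ := betaT K n q hn hq a ha ha1
  have hCb0 : (0 : ℝ) < Cb := by linarith
  have hM : (0 : ℝ) ≤ Cb * (2 ^ n) ^ eK K := by positivity
  have hM2 : (0 : ℝ) ≤ (eK K : ℝ) * (Cb * (2 ^ n) ^ eK K) := mul_nonneg (Nat.cast_nonneg _) hM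
  refine ⟨Ca + Cb * (2 ^ n) ^ eK K + (eK K : ℝ) * (Cb * (2 ^ n) ^ eK K), by linarith, ?_⟩
  intro B H R k w W o hB hH hR hk hW x hx
  have hk1 : (1 : ℝ) ≤ (k : ℝ) := by exact_mod_cast hk
  have hk0 : (0 : ℝ) < (k : ℝ) := by linarith
  have hB0 : (0 : ℝ) < (B : ℝ) := by exact_mod_cast hB
  have h1 := D_Ps_split2 (GG K B H q o) (fun y => om a R o x y)
    (fun y => ¬ Prp x y ∧
        ¬ (((W : ℕ) : 𝓞 K) ∈ Dd x y ∧ ∀ v, (B : ℝ) ^ 2 ≤ k * Del o x y v))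
    (fun y => ¬ Prp x y ∧ pn (Del o x y) ≤ nD x y * (B : ℝ) ^ eK K)
    (fun y => (¬ Prp x y ∧ nD x y * (B : ℝ) ^ eK K < pn (Del o x y) ∧ (w : ℝ) < nD x y ∧
      ∀ v, Del o x y v ≤ 2 * (B : ℝ) ^ 2) ∨
      ∃ v0 : InfinitePlace K, ¬ Prp x y ∧ nD x y * (B : ℝ) ^ eK K < pn (Del o x y) ∧
        ((0 : ℕ) : ℝ) < nD x y ∧ ∀ v, Del o x y v ≤ (if v = v0 then 1 / (k : ℝ) else 1) * (2 * (B : ℝ) ^ 2))
    (fun y _ => D_Ps_nonneg K a R o x y) (by
      intro y hy hne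
      obtain ⟨hne, hno⟩ := hne
      by_cases h : pn (Del o x y) ≤ nD x y * (B : ℝ) ^ eK K
      · exact Or.inl ⟨hne, h⟩
      · refine Or.inr ?_
        by_cases hdW : ((W : ℕ) : 𝓞 K) ∈ Dd x y
        · have h5 : ∃ v0, ¬ (B : ℝ) ^ 2 ≤ k * Del o x y v0 := by
            by_contra hcon
            push Not at hcon
            exact hno ⟨hdW, hcon⟩
          obtain ⟨v0, hv0⟩ := h5
          refine Or.inr ⟨v0, hne, not_le.mp h, ?_, fun v => ?_⟩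
          · rw [Nat.cast_zero]
            linarith [one_le_nD hne]
          · by_cases hv : v = v0
            · rw [if_pos hv, hv, one_div, ← div_eq_inv_mul, le_div_iff₀ hk0]
              have h6 := not_le.mp hv0
              have h7 : (0 : ℝ) ≤ (B : ℝ) ^ 2 := by positivity
              linarith [mul_comm (k : ℝ) (Del o x y v0)]
            · rw [if_neg hv, one_mul]
              exact Del_le hx hy v
        · refine Or.inl ⟨hne, not_le.mp h, ?_, fun v => Del_le hx hy v⟩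
          by_contra hcon
          have h8 : Ideal.absNorm (Dd x y) ≤ w := by
            have h9 : (Ideal.absNorm (Dd x y) : ℝ) ≤ w := not_lt.mp hcon
            exact_mod_cast h9
          have h9 : 1 ≤ Ideal.absNorm (Dd x y) := by
            have h10 : (1 : ℝ) ≤ (Ideal.absNorm (Dd x y) : ℝ) := one_le_nD hne
            exact_mod_cast h10
          obtain ⟨c, hc⟩ := hW _ h9 h8
          apply hdW
          rw [hc, Nat.cast_mul]
          exact Ideal.mul_mem_right _ _ (Ideal.absNorm_mem (Dd x y)))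
  have h1' := D_Ps_split2 (GG K B H q o) (fun y => om a R o x y)
    (fun y => (¬ Prp x y ∧ nD x y * (B : ℝ) ^ eK K < pn (Del o x y) ∧ (w : ℝ) < nD x y ∧
      ∀ v, Del o x y v ≤ 2 * (B : ℝ) ^ 2) ∨
      ∃ v0 : InfinitePlace K, ¬ Prp x y ∧ nD x y * (B : ℝ) ^ eK K < pn (Del o x y) ∧
        ((0 : ℕ) : ℝ) < nD x y ∧ ∀ v, Del o x y v ≤ (if v = v0 then 1 / (k : ℝ) else 1) * (2 * (B : ℝ) ^ 2))
    (fun y => ¬ Prp x y ∧ nD x y * (B : ℝ) ^ eK K < pn (Del o x y) ∧ (w : ℝ) < nD x y ∧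
      ∀ v, Del o x y v ≤ 2 * (B : ℝ) ^ 2)
    (fun y => ∃ v0 : InfinitePlace K, ¬ Prp x y ∧ nD x y * (B : ℝ) ^ eK K < pn (Del o x y) ∧
        ((0 : ℕ) : ℝ) < nD x y ∧ ∀ v, Del o x y v ≤ (if v = v0 then 1 / (k : ℝ) else 1) * (2 * (B : ℝ) ^ 2))
    (fun y _ => D_Ps_nonneg K a R o x y) (fun y _ h => h)
  have h1'' := D_Ps_splitE (GG K B H q o) (fun y => om a R o x y)
    (fun y => ∃ v0 : InfinitePlace K, ¬ Prp x y ∧ nD x y * (B : ℝ) ^ eK K < pn (Del o x y) ∧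
        ((0 : ℕ) : ℝ) < nD x y ∧ ∀ v, Del o x y v ≤ (if v = v0 then 1 / (k : ℝ) else 1) * (2 * (B : ℝ) ^ 2))
    (fun (v0 : InfinitePlace K) y => ¬ Prp x y ∧ nD x y * (B : ℝ) ^ eK K < pn (Del o x y) ∧
        ((0 : ℕ) : ℝ) < nD x y ∧ ∀ v, Del o x y v ≤ (if v = v0 then 1 / (k : ℝ) else 1) * (2 * (B : ℝ) ^ 2))
    (fun y _ => D_Ps_nonneg K a R o x y) (fun y _ h => h)
  have h2 := hal B H R o hB hH (hB.trans hR) x hx
  have h3 := hb B H w R (fun _ => 2 * (B : ℝ) ^ 2) o hB hR (fun v => by positivity) x hx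
  rw [pn_const] at h3
  have hP : 0 ≤ ((B : ℝ) ^ (n + 1) / (B : ℝ) ^ 2) ^ eK K := by positivity
  have hE := D_Ps_alE_nonneg K n a B H R
  have hw0 : (0 : ℝ) < (w : ℝ) + 1 := by positivity
  have hw1 : 0 ≤ ((w : ℝ) + 1) ^ (a - 1) := Real.rpow_nonneg hw0.le _
  have f3 := D_Ps_full n hn B hB (eK K)
  have g3 := mul_le_mul_of_nonneg_left (mul_le_mul_of_nonneg_right f3 hw1) hCb0.le
  have h4 : ∀ v0 ∈ (Finset.univ : Finset (InfinitePlace K)), ∑ y ∈ (GG K B H q o).filter (fun y =>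
        ¬ Prp x y ∧ nD x y * (B : ℝ) ^ eK K < pn (Del o x y) ∧ ((0 : ℕ) : ℝ) < nD x y ∧
        ∀ v, Del o x y v ≤ (if v = v0 then 1 / (k : ℝ) else 1) * (2 * (B : ℝ) ^ 2)),
      om a R o x y ≤
      Cb * ((2 ^ n) ^ eK K * ((B : ℝ) ^ (n + 1) / (B : ℝ) ^ 2) ^ eK K * (1 / (k : ℝ))) := by
    intro v0 _
    have e0 : (((0 : ℕ) : ℝ) + 1) ^ (a - 1) = 1 := by
      rw [Nat.cast_zero, zero_add, Real.one_rpow]
    have h5 := hb B H 0 R (fun v => (if v = v0 then 1 / (k : ℝ) else 1) * (2 * (B : ℝ) ^ 2)) o hB hR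
      (fun v => mul_nonneg (D_Ps_c_nonneg K v0 hk1 v) (by positivity)) x hx
    rw [e0, mul_one, pn_mul, pn_const] at h5
    refine h5.trans (mul_le_mul_of_nonneg_left ?_ hCb0.le)
    have h6 := D_Ps_pn_c K v0 hk1
    have h7 : 0 ≤ pn (fun v => if v = v0 then 1 / (k : ℝ) else 1) :=
      pn_nonneg (D_Ps_c_nonneg K v0 hk1)
    have h8 : 1 / (k : ℝ) ≤ 1 := by
      rw [div_le_one hk0]
      exact hk1
    have h9 : pn (fun v => if v = v0 then 1 / (k : ℝ) else 1) ^ (n - 1) ≤ 1 / (k : ℝ) :=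
      (pow_le_of_le_one h7 (h6.trans h8) (by omega)).trans h6
    rw [mul_pow, mul_assoc, mul_comm _ (1 / (k : ℝ))]
    exact mul_le_mul h9 f3 (by positivity) (by positivity)
  have h5 := Finset.sum_le_card_nsmul _ _ _ h4
  rw [nsmul_eq_mul, Finset.card_univ] at h5
  have h6 : (Fintype.card (InfinitePlace K) : ℝ) ≤ (eK K : ℝ) := by exact_mod_cast card_places_le (K := K)
  have h7 := h5.trans (mul_le_mul_of_nonneg_right h6 (by positivity))
  have h8 := h1.trans (add_le_add h2 (h1'.trans (add_le_add (h3.trans g3) (h1''.trans h7))))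
  refine h8.trans ?_
  generalize alE K n a B H R = E at hE ⊢
  generalize ((B : ℝ) ^ (n + 1) / (B : ℝ) ^ 2) ^ eK K = P at hP ⊢
  generalize ((w : ℝ) + 1) ^ (a - 1) = V at hw1 ⊢
  have hk2 : 0 ≤ 1 / (k : ℝ) := by positivity
  have p1 : 0 ≤ P * (1 / (k : ℝ)) := mul_nonneg hP hk2
  have p2 : 0 ≤ P * V := mul_nonneg hP hw1
  have p3 : 0 ≤ P * E := mul_nonneg hP hE
  generalize (eK K : ℝ) = e at hM2 ⊢
  generalize ((2 : ℝ) ^ n) ^ eK K = M at hM hM2 ⊢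
  have hexp : (Ca + Cb * M + e * (Cb * M)) * (P * (1 / (k : ℝ) + V + E)) =
      Ca * (P * E) + (Cb * (M * P * V) + e * (Cb * (M * P * (1 / (k : ℝ))))) +
      (Ca * (P * (1 / (k : ℝ))) + Ca * (P * V) +
        Cb * M * (P * (1 / (k : ℝ))) + e * (Cb * M) * (P * V) +
        Cb * M * (P * E) + e * (Cb * M) * (P * E)) := by ring
  rw [hexp]
  have hCa0 : 0 ≤ Ca := by linarith
  have q1 : 0 ≤ Ca * (P * (1 / (k : ℝ))) := mul_nonneg hCa0 p1
  have q2 : 0 ≤ Ca * (P * V) := mul_nonneg hCa0 p2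
  have q3 : 0 ≤ Cb * M * (P * (1 / (k : ℝ))) := mul_nonneg hM p1
  have q4 : 0 ≤ e * (Cb * M) * (P * V) := mul_nonneg hM2 p2
  have q5 : 0 ≤ Cb * M * (P * E) := mul_nonneg hM p3
  have q6 : 0 ≤ e * (Cb * M) * (P * E) := mul_nonneg hM2 p3
  linarith

end Pool.Agent.Lib.MP_1ad228_ntW
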