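import Pool.Agent.Lib.MP_1ad228_ntN.GGf
import Pool.Agent.Lib.MP_1ad228_ntN.LD_Base

/-!
MP_1ad228_nt, cyclic covers `u ^ t = F(x)`, `F` a form of degree `d = t m` in `n + 1` variables over a number
field.  Definitions.  Paper: team-store MP_1ad228_ntW_PAPER.md
-/

namespace Pool.Agent.Lib.MP_1ad228_ntW

open NumberField Classical Pool.Agent.Lib.MP_1ad228_ntN

section ring

/-- Number of pairs with equal `t`-th powers in a ring. -/
noncomputable def T2 (t : ℕ) (R : Type*) [CommRing R] : ℕ :=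
  Nat.card {p : R × R // p.1 ^ t = p.2 ^ t}

/-- Number of pairs with equal `t`-th powers whose first entry is a unit. -/
noncomputable def T2u (t : ℕ) (R : Type*) [CommRing R] : ℕ :=
  Nat.card {p : R × R // IsUnit p.1 ∧ p.1 ^ t = p.2 ^ t}

/-- The exponent `1 - 3 / (2 t)`. -/
noncomputable def ax (t : ℕ) : ℝ := 1 - 3 / (2 * (t : ℝ))

theorem ax_pos {t : ℕ} (ht : 2 ≤ t) : 1 / 4 ≤ ax t := by
  have h : (2 : ℝ) ≤ t := by exact_mod_cast ht
  have h1 : 3 / (2 * (t : ℝ)) ≤ 3 / 4 := by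
    rw [div_le_div_iff₀ (by linarith) (by norm_num)]
    linarith
  unfold ax
  linarith

theorem ax_lt_one {t : ℕ} (ht : 1 ≤ t) : ax t < 1 := by
  have h : (1 : ℝ) ≤ t := by exact_mod_cast ht
  have h1 : 0 < 3 / (2 * (t : ℝ)) := by positivity
  unfold ax
  linarith

/-- Sums over proper ideals, with exponent `2 - a`. -/
def IdA (R : Type*) [CommRing R] (a δ : ℝ) : Prop :=
  ∀ T : Finset (Ideal R), ⊤ ∉ T → ∑ J ∈ T, (Nat.card (R ⧸ J) : ℝ) ^ (a - 2) ≤ δ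

/-- The bound for the numbers of pairs with equal `t`-th powers in the quotients. -/
def TRb (t : ℕ) (R : Type*) [CommRing R] (a C : ℝ) : Prop :=
  ∀ J : Ideal R, (T2 t (R ⧸ J) : ℝ) ≤ C * (Nat.card (R ⧸ J) : ℝ) ^ (1 + a)

variable {n d : ℕ} {R : Type*} [CommRing R]

/-- Number of solutions `(x, u)`, `x` unimodular, of `F(x) = u ^ t` in a finite ring. -/
noncomputable def smRT (t : ℕ) (F : Ten n d R) : ℕ :=
  Nat.card {p : Vc n R × R // Uni p.1 ∧ ev F p.1 = p.2 ^ t}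

/-- The diagonal tensor, with value `∑ x i ^ d` (for `d ≥ 1`). -/
def dg (n d : ℕ) (R : Type*) [CommRing R] : Ten n d R := fun s =>
  if ∃ i, s = fun _ => i then 1 else 0

/-- A tensor as a tuple with one entry. -/
def sg (F : Ten n d R) : Tup n (fun _ : Fin 1 => d) R := fun _ => F

end ring

section defs
variable {K : Type} [Field K] [NumberField K] {n d : ℕ}

/-- Number of `u` of size at most `R` with `F(x) = u ^ t`. -/
noncomputable def Nx (t R : ℕ) (F : Ten n d (𝓞 K)) (x : Vc n (𝓞 K)) : ℕ :=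
  ((OBox K R).filter fun u => ev F x = u ^ t).card

/-- The local model of `Nx`. -/
noncomputable def Lx (t R W κ A : ℕ) (o : Fin (n + 1)) (F : Ten n d (𝓞 K)) (x : Vc n (𝓞 K)) : ℝ :=
  (1 / ((MS d W κ A o x).card : ℝ)) *
    (((OBox K R).filter fun u => LV d W κ A o x (ev F x - u ^ t)).card : ℝ)

/-- Number of pairs `(x, u)`, `x` a test point, with `F(x) = u ^ t`. -/
noncomputable def Nt (t R B H q : ℕ) (o : Fin (n + 1)) (F : Ten n d (𝓞 K)) : ℕ :=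
  ∑ x ∈ GG K B H q o, Nx t R F x

/-- Local prediction. -/
noncomputable def Lt (t R W κ A B H q : ℕ) (o : Fin (n + 1)) (F : Ten n d (𝓞 K)) : ℝ :=
  ∑ x ∈ GG K B H q o, Lx t R W κ A o F x

variable (K) in
/-- The weighted variance. -/
noncomputable def Qt (n d t R W κ A B H q : ℕ) (o : Fin (n + 1)) : ℝ :=
  ∑ F ∈ Box K n d (2 * A), psi A F * ((Nt t R B H q o F : ℝ) - Lt t R W κ A B H q o F) ^ 2

/-- Contribution of a pair of points to the variance. -/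
noncomputable def EW {n : ℕ} (d t R W κ A : ℕ) (o : Fin (n + 1)) (x y : Vc n (𝓞 K)) : ℝ :=
  ∑ F ∈ Box K n d (2 * A), psi A F *
    (((Nx t R F x : ℝ) - Lx t R W κ A o F x) * ((Nx t R F y : ℝ) - Lx t R W κ A o F y))

variable (K) in
/-- Bound for the number of pairs `(u, u')` of size at most `R` with `u' ^ t` congruent to
`(ν u) ^ t` modulo an ideal of norm `N`. -/
noncomputable def PC (a : ℝ) (R : ℕ) (N : ℝ) : ℝ :=
  (R : ℝ) ^ (2 * eK K) * N ^ (a - 1) * (1 + N / (R : ℝ) ^ eK K) ^ 2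

/-- Weight of a pair of points. -/
noncomputable def om {n : ℕ} (a : ℝ) (R : ℕ) (o : Fin (n + 1)) (x y : Vc n (𝓞 K)) : ℝ :=
  nD x y ^ a * (1 + nD x y / (R : ℝ) ^ eK K) ^ 2 / pn (Del o x y)

variable (K) in
/-- Error term from close pairs. -/
noncomputable def alE (n : ℕ) (a : ℝ) (B H R : ℕ) : ℝ :=
  ((Nat.log 2 B : ℝ) + 2) ^ eK K * ((H : ℝ) ^ n * ((H : ℝ) * B) ^ a / (B : ℝ) ^ n) ^ eK K *
    (1 + ((H : ℝ) * B / R) ^ eK K) ^ 2

variable (K) in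
/-- Expected number of solutions. -/
noncomputable def EB (n d B R A : ℕ) : ℝ :=
  ((B : ℝ) ^ (n + 1) * R / ((A : ℝ) * (B : ℝ) ^ d)) ^ eK K

/-- Number of solutions `(x, u)`, `x` unimodular, of `F(x) = u ^ t` modulo the ideal `I`. -/
noncomputable def smT (t : ℕ) (I : Ideal (𝓞 K)) (F : Ten n d (𝓞 K)) : ℕ :=
  smRT t (tmap (Ideal.Quotient.mk I) F)

/-- Solubility modulo all powers of all prime ideals. -/
def PSolT (t : ℕ) (F : Ten n d (𝓞 K)) : Prop :=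
  ∀ P : Ideal (𝓞 K), P.IsPrime → P ≠ ⊥ → ∀ k : ℕ, ∃ (x : Vc n (𝓞 K)) (u : 𝓞 K),
    (∃ i, x i ∉ P) ∧ ev F x - u ^ t ∈ P ^ k

/-- Solubility in the completion at the infinite place `v`. -/
def RSolT (t : ℕ) (v : InfinitePlace K) (F : Ten n d (𝓞 K)) : Prop :=
  ∃ (x : Vc n ℂ) (u : ℂ), (∀ l, x l ∈ KK v) ∧ u ∈ KK v ∧ x ≠ 0 ∧ ev (tmap (em v) F) x = u ^ t

/-- Robust solubility at the infinite place `v`. -/
def RobT (t : ℕ) (v : InfinitePlace K) (o : Fin (n + 1)) (ρ : ℝ) (α : Ten n d ℂ) : Prop :=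
  ∃ ξ : Vc n ℂ, (∀ l, ξ l ∈ KK v) ∧ ∀ y : Vc n ℂ, (∀ l, y l ∈ KK v) → (∀ l, ‖y l - ξ l‖ ≤ ρ) →
    ρ ≤ ‖y o‖ ∧ (∀ l, ‖y l‖ ≤ 1) ∧ ∃ s ∈ KK v, ev α y = s ^ t

/-- The tensor `F / A` at the infinite place `v`. -/
noncomputable def scT (v : InfinitePlace K) (A : ℕ) (F : Ten n d (𝓞 K)) : Ten n d ℂ :=
  fun s => em v (F s) / (A : ℂ)

/-- The size of the coordinate `u`: `R ^ t` is of the order of `A B ^ d`. -/
def RC (n m t d A B R : ℕ) : Prop :=
  (2 * (n + 1) ^ m) ^ t * (A * B ^ d) ≤ R ^ t ∧ R ^ t ≤ (4 * (n + 1) ^ m) ^ t * (A * B ^ d)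

end defs

section main
variable (K : Type) [Field K] [NumberField K]

/-- Almost all everywhere locally soluble tensors have a small solution. -/
def MainT (n t m : ℕ) : Prop :=
  ∀ ε : ℝ, 0 < ε → ∃ M A0 : ℕ, ∀ A : ℕ, A0 ≤ A →
    (((Box K n (t * m) A).filter fun F => (∀ v, RSolT t v F) ∧ PSolT t F ∧
        ¬ ∃ (x : Vc n (𝓞 K)) (u : 𝓞 K), x ≠ 0 ∧
          (∀ i, ∀ v : InfinitePlace K,
            (v (x i : K)) ^ (t * (n + 1 - (t - 1) * m)) ≤ (M : ℝ) * (A : ℝ) ^ (t - 1)) ∧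
          ev F x = u ^ t).card : ℝ) ≤ ε * (A : ℝ) ^ (eK K * (n + 1) ^ (t * m))

/-- A positive proportion of the tensors has an integral solution. -/
def PosT (n t m : ℕ) : Prop :=
  ∃ δ : ℝ, 0 < δ ∧ ∃ A0 : ℕ, ∀ A : ℕ, A0 ≤ A → δ * (A : ℝ) ^ (eK K * (n + 1) ^ (t * m)) ≤
    (((Box K n (t * m) A).filter fun F => ∃ (x : Vc n (𝓞 K)) (u : 𝓞 K), x ≠ 0 ∧
      ev F x = u ^ t).card : ℝ)

end main

end Pool.Agent.Lib.MP_1ad228_ntW
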