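import Pool.Agent.Lib.MP_1ad228_ntW.D_Ps
import Pool.Agent.Lib.MP_1ad228_ntW.C_NN
import Pool.Agent.Lib.MP_1ad228_ntW.C_LL
import Pool.Agent.Lib.MP_1ad228_ntW.C_Prp
import Pool.Agent.Lib.MP_1ad228_ntW.C_Good
import Pool.Agent.Lib.MP_1ad228_ntN.N1
import Pool.Agent.Lib.MP_1ad228_ntN.N2

/-!
JOB E_Var.  The variance and the second moment (assembly).  (Model with proof: Lib/MP_1ad228_ntN/VarTot.lean, PairTot.lean.)

`n2PC`.  `e = eK K`, `a = ax t`.  `N2 n d q`: `n2 ≤ C A^(e V) ((B^2/(A B^d)^2))^e * (nD/pn Del)`, and `(nD/pn Del) PC K a R nD = R^(2e) om a R o x y` (`nD ≥ 1 > 0`, `nD^(a-1) nD = nD^a`: `Real.rpow_add_one` / `Real.rpow_sub_one`).  So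
`n2 * PC ≤ C A^(eV) ((B R)^2/(A B^d)^2)^e om`.

`varTotT` PROOF.  `κ = k^2`.  `expandT`: `Qt = ∑_x ∑_y EW x y`.  Split the inner sum into `Prp x y`, good `y` (`¬ Prp`, `W ∈ Dd x y` and `B^2 ≤ k Del_v` for all `v`), bad `y` (the others).  `Z = A^(eV) ((B R)^2/(A B^d)^2)^e`.
`Prp`: `EW_le`, `prpNN`, `prpLL`, `N1 n d q` (`n1 ≤ C A^(eV)/(A B^d)^e`), `card_Prp`: `≤ C A^(eV) R^e/(A B^d)^e`.
good: `goodT` and `n2PC`: `|EW| ≤ (C/k) Z om`; `psAllT`: `≤ (C/k) Z (B^(n+1)/B^2)^e (1 + alE)`, `1/k ≤ 1` in front of `alE` (`alE ≥ 0`).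
bad: `EW_le`, `nnT`, `llT`, `n2PC`: `EW ≤ C Z om`; `psBadT`.
Sum over `x`: multiply by `card_GG_le`: `#GG ≤ CK K n^(n+1) B^(e(n+1))`.  With `E = EB K n d B R A = (B^(n+1) R/(A B^d))^e`: `B^(e(n+1)) R^e/(A B^d)^e = E` and `B^(e(n+1)) ((B R)^2/(A B^d)^2)^e (B^(n+1)/B^2)^e = E^2`.
(hypotheses: `N2` needs `C ≤ A`, `C H^2 ≤ A`, `N1` needs `C H ≤ A`, `1 ≤ A`: from `C H^2 k ≤ A`; `llT` needs `C k^2 W ≤ A`; `prpLL` needs `C k^2 W ≤ A B^d` (`B ≥ 1`) and `k^2 W R ≤ A B^d`; natural number casts `((k^2 : ℕ) : ℝ) = k^2`.)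

`pairTotT` PROOF.  `Box K n d A ⊆ Box K n d (2 * A)` (`Box_mono`), all terms `≥ 0`; `Prp`: `prpNN`, `N1`, `card_Prp`; `¬ Prp`: `nnT`, `n2PC`, `psAllT`.
-/

namespace Pool.Agent.Lib.MP_1ad228_ntW

open NumberField Classical Pool.Agent.Lib.MP_1ad228_ntN

variable (K : Type) [Field K] [NumberField K]

private theorem E_Var_row {ι : Type*} (S : Finset ι) (f w : ι → ℝ) (p g : ι → Prop)
    (a b c CQ SA SB : ℝ) (ha : 0 ≤ a) (hb : 0 ≤ b) (hc : 0 ≤ c) (hw : ∀ y ∈ S, 0 ≤ w y)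
    (h1 : ∀ y ∈ S, p y → f y ≤ a) (h2 : ∀ y ∈ S, ¬ p y → g y → f y ≤ b * w y)
    (h3 : ∀ y ∈ S, ¬ p y → ¬ g y → f y ≤ c * w y)
    (hQ : ((S.filter fun y => p y).card : ℝ) ≤ CQ)
    (hA : ∑ y ∈ S.filter (fun y => ¬ p y), w y ≤ SA)
    (hB : ∑ y ∈ S.filter (fun y => ¬ p y ∧ ¬ g y), w y ≤ SB) :
    ∑ y ∈ S, f y ≤ CQ * a + b * SA + c * SB := by
  rw [← Finset.sum_filter_add_sum_filter_not S (fun y => p y) f]
  have k1 : ∑ y ∈ S.filter (fun y => p y), f y ≤ CQ * a := by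
    refine (Finset.sum_le_card_nsmul _ _ a fun y hy => ?_).trans ?_
    · exact h1 y (Finset.mem_filter.1 hy).1 (Finset.mem_filter.1 hy).2
    · rw [nsmul_eq_mul]
      exact mul_le_mul_of_nonneg_right hQ ha
  have k2 : ∑ y ∈ S.filter (fun y => ¬ p y), f y ≤
      b * ∑ y ∈ S.filter (fun y => ¬ p y), w y +
        c * ∑ y ∈ S.filter (fun y => ¬ p y ∧ ¬ g y), w y := by
    have e1 : ∑ y ∈ S.filter (fun y => ¬ p y ∧ ¬ g y), w y =
        ∑ y ∈ S.filter (fun y => ¬ p y), (if ¬ g y then w y else 0) := by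
      rw [← Finset.filter_filter, Finset.sum_filter]
    rw [e1, Finset.mul_sum, Finset.mul_sum, ← Finset.sum_add_distrib]
    refine Finset.sum_le_sum fun y hy => ?_
    obtain ⟨hyS, hyp⟩ := Finset.mem_filter.1 hy
    by_cases hg : g y
    · rw [if_neg (not_not.2 hg), mul_zero, add_zero]
      exact h2 y hyS hyp hg
    · rw [if_pos hg]
      have h4 := h3 y hyS hyp hg
      have h5 := mul_nonneg hb (hw y hyS)
      linarith
  have k3 := mul_le_mul_of_nonneg_left hA hb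
  have k4 := mul_le_mul_of_nonneg_left hB hc
  linarith

private theorem E_Var_alg {k s al E X T Z U A0 CKn CQ CE CF C1 C2 Ca Cb Cg : ℝ} (hk : 1 ≤ k)
    (hs : 1 / k ≤ s) (hal : 0 ≤ al) (hA0 : 0 ≤ A0) (hCKn : 0 ≤ CKn) (hCQ : 0 ≤ CQ)
    (hCE : 0 ≤ CE) (hCF : 0 ≤ CF) (hC1 : 0 ≤ C1) (hC2 : 0 ≤ C2) (hCa : 0 ≤ Ca) (hCb : 0 ≤ Cb)
    (hCg : 0 ≤ Cg) (hE : 0 ≤ E) (e1 : X * T = E) (e2 : X * (Z * U) = E ^ 2) :
    CKn * X * (CQ * (CE * (C1 * (A0 * T))) + Cg / k * (C2 * (A0 * Z)) * (Ca * (U * (1 + al)))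
      + CF * (C2 * (A0 * Z)) * (Cb * (U * (s + al)))) ≤
      CKn * (CQ * CE * C1 + Cg * C2 * Ca + CF * C2 * Cb) * A0 * (E + E ^ 2 * (s + al)) := by
  have hk0 : 0 < k := by linarith
  have hk1 : 1 / k ≤ 1 := by rw [div_le_one hk0]; exact hk
  have hk2 : 0 ≤ 1 / k := by positivity
  have e4 : CKn * X * (CQ * (CE * (C1 * (A0 * T))) + Cg / k * (C2 * (A0 * Z)) * (Ca * (U * (1 + al)))
      + CF * (C2 * (A0 * Z)) * (Cb * (U * (s + al)))) =
      CKn * A0 * (CQ * CE * C1 * (X * T) + Cg * C2 * Ca * (1 / k * ((X * (Z * U)) * (1 + al)))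
        + CF * C2 * Cb * ((X * (Z * U)) * (s + al))) := by
    ring
  rw [e4, e1, e2]
  have hs0 : 0 ≤ s := hk2.trans hs
  have f0 : 0 ≤ E ^ 2 * (s + al) := by positivity
  have f1 : E ≤ E + E ^ 2 * (s + al) := by linarith
  have f2 : 1 / k * (E ^ 2 * (1 + al)) ≤ E + E ^ 2 * (s + al) := by
    have g2 : 1 / k * al ≤ 1 * al := mul_le_mul_of_nonneg_right hk1 hal
    have g3 : E ^ 2 * (1 / k + 1 / k * al) ≤ E ^ 2 * (s + al) :=
      mul_le_mul_of_nonneg_left (by linarith) (sq_nonneg _)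
    have g1 : 1 / k * (E ^ 2 * (1 + al)) = E ^ 2 * (1 / k + 1 / k * al) := by ring
    rw [g1]
    linarith
  have f3 : E ^ 2 * (s + al) ≤ E + E ^ 2 * (s + al) := by linarith
  have m1 := mul_le_mul_of_nonneg_left f1 (show 0 ≤ CQ * CE * C1 by positivity)
  have m2 := mul_le_mul_of_nonneg_left f2 (show 0 ≤ Cg * C2 * Ca by positivity)
  have m3 := mul_le_mul_of_nonneg_left f3 (show 0 ≤ CF * C2 * Cb by positivity)
  calc CKn * A0 * (CQ * CE * C1 * E + Cg * C2 * Ca * (1 / k * (E ^ 2 * (1 + al)))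
        + CF * C2 * Cb * (E ^ 2 * (s + al)))
      ≤ CKn * A0 * (CQ * CE * C1 * (E + E ^ 2 * (s + al)) + Cg * C2 * Ca * (E + E ^ 2 * (s + al))
        + CF * C2 * Cb * (E + E ^ 2 * (s + al))) :=
        mul_le_mul_of_nonneg_left (by linarith) (mul_nonneg hCKn hA0)
    _ = _ := by ring

private theorem E_Var_id (B R P : ℝ) (hB : 0 < B) (e N : ℕ) :
    B ^ (e * N) * (R ^ e / P ^ e) = (B ^ N * R / P) ^ e ∧
    B ^ (e * N) * (((B * R) ^ 2 / P ^ 2) ^ e * (B ^ N / B ^ 2) ^ e) = ((B ^ N * R / P) ^ e) ^ 2 := by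
  have h1 : B ^ (e * N) = (B ^ N) ^ e := by rw [mul_comm, pow_mul]
  constructor
  · rw [h1, ← div_pow, ← mul_pow]
    congr 1
    ring
  · rw [h1, ← mul_pow, ← mul_pow, ← pow_mul, mul_comm e 2, pow_mul]
    congr 1
    have hB2 : B ^ 2 ≠ 0 := by positivity
    generalize B ^ N = X
    rw [div_pow, mul_pow, mul_pow]
    field_simp

private theorem E_Var_om {n R : ℕ} {o : Fin (n + 1)} (a : ℝ) {K : Type} [Field K] [NumberField K]
    (x y : Vc n (𝓞 K)) : 0 ≤ om a R o x y := by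
  have h1 : 0 ≤ pn (Del o x y) := pn_nonneg fun v => Del_nonneg o x y v
  have h2 : 0 ≤ nD x y := Nat.cast_nonneg _
  unfold om
  positivity

theorem n2PC (n d q : ℕ) (a : ℝ) (hd : 2 ≤ d) (hq : 1 ≤ q) : ∃ C : ℝ, 1 ≤ C ∧
    ∀ (B H A R : ℕ) (o : Fin (n + 1)), 1 ≤ B → 1 ≤ R → C ≤ A → C * (H : ℝ) ^ 2 ≤ A →
    ∀ x ∈ GG K B H q o, ∀ y ∈ GG K B H q o, ¬ Prp x y →
    (n2 d x y A : ℝ) * PC K a R (nD x y) ≤ C * ((A : ℝ) ^ (eK K * (n + 1) ^ d) *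
      (((B : ℝ) * R) ^ 2 / ((A : ℝ) * (B : ℝ) ^ d) ^ 2) ^ eK K * om a R o x y) := by
  obtain ⟨C, hC, h⟩ := N2 (K := K) n d q hd hq
  refine ⟨C, hC, fun B H A R o hB hR hCA hCH x hx y hy hxy => ?_⟩
  have h1 := h B H A o hB hCA hCH x hx y hy hxy
  have hD := one_le_nD hxy
  have hD0 : 0 < nD x y := by linarith
  have hR0 : (0 : ℝ) < R := by exact_mod_cast hR
  have hPC : 0 ≤ PC K a R (nD x y) := by
    unfold PC
    positivity
  have hpow : nD x y * nD x y ^ (a - 1) = nD x y ^ a := by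
    rw [Real.rpow_sub_one hD0.ne']
    field_simp
  refine (mul_le_mul_of_nonneg_right h1 hPC).trans (le_of_eq ?_)
  unfold PC om
  rw [← hpow]
  have e1 : (((B : ℝ) * R) ^ 2 / ((A : ℝ) * (B : ℝ) ^ d) ^ 2) ^ eK K =
      ((B : ℝ) ^ 2 / ((A : ℝ) * (B : ℝ) ^ d) ^ 2) ^ eK K * (R : ℝ) ^ (2 * eK K) := by
    rw [pow_mul, ← mul_pow]
    congr 1
    ring
  rw [e1]
  ring

theorem varTotT (n d t m q : ℕ) (hn : 2 ≤ n) (hd : d = t * m) (ht : 2 ≤ t) (hm : 1 ≤ m)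
    (hq : 1 ≤ q) : ∃ C : ℝ, 1 ≤ C ∧ ∀ (o : Fin (n + 1)) (k w B H A W R : ℕ), 1 ≤ k → 1 ≤ B →
    1 ≤ H → 1 ≤ W → B ≤ R → (∀ m, 1 ≤ m → m ≤ w → m ∣ W) → C * (H : ℝ) ^ 2 * k ≤ A →
    C * (k : ℝ) ^ 2 * W ≤ A → (k : ℝ) ^ 2 * W * R ≤ (A : ℝ) * (B : ℝ) ^ d →
    Qt K n d t R W (k ^ 2) A B H q o ≤ C * (A : ℝ) ^ (eK K * (n + 1) ^ d) *
      (EB K n d B R A + EB K n d B R A ^ 2 *
        (1 / (k : ℝ) + ((w : ℝ) + 1) ^ (ax t - 1) + alE K n (ax t) B H R)) := by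
  have ht1 : 1 ≤ t := by omega
  have hd2 : 2 ≤ d := by
    rw [hd]
    exact le_trans ht (Nat.le_mul_of_pos_right t hm)
  have ha0 : 0 < ax t := lt_of_lt_of_le (by norm_num) (ax_pos ht)
  have ha1 : ax t < 1 := ax_lt_one ht1
  obtain ⟨CN, hCN, hNN⟩ := prpNN K n d t ht1
  obtain ⟨CL, hCL, hLL⟩ := prpLL K n d t q ht1 hq
  obtain ⟨C1, hC1, hN1⟩ := N1 (K := K) n d q hq
  obtain ⟨C2, hC2, hN2⟩ := n2PC K n d q (ax t) hd2 hq
  obtain ⟨C3, hC3, hnn⟩ := nnT K n d t m hd ht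
  obtain ⟨C4, hC4, hll⟩ := llT K n d t m q hd ht hm hq
  obtain ⟨Cg, hCg, hgd⟩ := goodT K n d t m hd ht hm
  obtain ⟨Ca, hCa, hSa⟩ := psAllT K n q hn hq (ax t) ha0 ha1
  obtain ⟨Cb, hCb, hSb⟩ := psBadT K n q hn hq (ax t) ha0 ha1
  have hCK := CK_one_le K n
  have hCK0 : 0 ≤ CK K n := by linarith
  obtain ⟨M, hM⟩ : ∃ M, M = CK K n ^ (n + 1) * (CK K n * (q : ℝ) ^ eK K * (CN + CL) * C1 +
      Cg * C2 * Ca + (C3 + C4) * C2 * Cb) := ⟨_, rfl⟩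
  have hM0 : 0 ≤ M := by
    rw [hM]
    have : 0 ≤ CN + CL := by linarith
    have : 0 ≤ C3 + C4 := by linarith
    positivity
  refine ⟨M + CL + C1 + C2 + C4 + Cg, by linarith, ?_⟩
  intro o k w B H A W R hk hB hH hW1 hBR hW hA1 hA2 hA3
  have hk1 : (1 : ℝ) ≤ k := by exact_mod_cast hk
  have hH1 : (1 : ℝ) ≤ H := by exact_mod_cast hH
  have hW1' : (1 : ℝ) ≤ W := by exact_mod_cast hW1
  have hB1 : (1 : ℝ) ≤ B := by exact_mod_cast hB
  have hB0 : (0 : ℝ) < B := by linarith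
  have hR : 1 ≤ R := hB.trans hBR
  have hH2 : (1 : ℝ) ≤ (H : ℝ) ^ 2 := one_le_pow₀ hH1
  have hHk : (1 : ℝ) ≤ (H : ℝ) ^ 2 * k := one_le_mul_of_one_le_of_one_le hH2 hk1
  have hkW : (1 : ℝ) ≤ (k : ℝ) ^ 2 * W := one_le_mul_of_one_le_of_one_le (one_le_pow₀ hk1) hW1'
  have hle : ∀ c : ℝ, c ≤ M + CL + C1 + C2 + C4 + Cg → c * ((H : ℝ) ^ 2 * k) ≤ A := by
    intro c hc
    refine le_trans (mul_le_mul_of_nonneg_right hc (by linarith)) ?_
    rw [← mul_assoc]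
    exact hA1
  have hle2 : ∀ c : ℝ, c ≤ M + CL + C1 + C2 + C4 + Cg → c * ((k : ℝ) ^ 2 * W) ≤ A := by
    intro c hc
    refine le_trans (mul_le_mul_of_nonneg_right hc (by linarith)) ?_
    rw [← mul_assoc]
    exact hA2
  have hg := hle Cg (by linarith)
  have h1 := hle C1 (by linarith)
  have h2 := hle C2 (by linarith)
  have hA1R : (1 : ℝ) ≤ A := by
    refine le_trans ?_ hg
    exact one_le_mul_of_one_le_of_one_le hCg hHk
  have hA1N : 1 ≤ A := by exact_mod_cast hA1R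
  have hA0 : (0 : ℝ) < A := by linarith
  have hgA : Cg * (H : ℝ) ^ 2 * k ≤ A := by rw [mul_assoc]; exact hg
  have hHH : (H : ℝ) ≤ (H : ℝ) ^ 2 * k := by
    have h3 : (H : ℝ) ≤ (H : ℝ) ^ 2 := by
      rw [sq]
      exact le_mul_of_one_le_left (by linarith) hH1
    exact h3.trans (le_mul_of_one_le_right (by linarith) hk1)
  have h1A : C1 * (H : ℝ) ≤ A := le_trans (mul_le_mul_of_nonneg_left hHH (by linarith)) h1
  have h2A : C2 ≤ A := le_trans (le_mul_of_one_le_right (by linarith) hHk) h2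
  have h2B : C2 * (H : ℝ) ^ 2 ≤ A := by
    refine le_trans (mul_le_mul_of_nonneg_left ?_ (by linarith)) h2
    exact le_mul_of_one_le_right (by linarith) hk1
  have hcast : ((k ^ 2 : ℕ) : ℝ) = (k : ℝ) ^ 2 := by push_cast; rfl
  have hκ : 1 ≤ k ^ 2 := Nat.one_le_pow _ _ hk
  have hBd : (1 : ℝ) ≤ (B : ℝ) ^ d := one_le_pow₀ hB1
  have h4A : C4 * ((k ^ 2 : ℕ) : ℝ) * W ≤ A := by
    rw [hcast, mul_assoc]
    exact hle2 C4 (by linarith)
  have hLA : CL * ((k ^ 2 : ℕ) : ℝ) * W ≤ (A : ℝ) * (B : ℝ) ^ d := by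
    rw [hcast, mul_assoc]
    exact (hle2 CL (by linarith)).trans (le_mul_of_one_le_right hA0.le hBd)
  have hLB : ((k ^ 2 : ℕ) : ℝ) * W * R ≤ (A : ℝ) * (B : ℝ) ^ d := by
    rw [hcast]
    exact hA3
  rw [expandT]
  obtain ⟨A0, hA0'⟩ : ∃ A0, A0 = (A : ℝ) ^ (eK K * (n + 1) ^ d) := ⟨_, rfl⟩
  have hA00 : 0 ≤ A0 := by rw [hA0']; positivity
  obtain ⟨P1, hP1⟩ : ∃ P1, P1 = (A : ℝ) * (B : ℝ) ^ d := ⟨_, rfl⟩
  have hP10 : 0 < P1 := by rw [hP1]; positivity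
  obtain ⟨T, hT⟩ : ∃ T, T = (R : ℝ) ^ eK K / P1 ^ eK K := ⟨_, rfl⟩
  obtain ⟨Z, hZ⟩ : ∃ Z, Z = (((B : ℝ) * R) ^ 2 / P1 ^ 2) ^ eK K := ⟨_, rfl⟩
  obtain ⟨U, hU⟩ : ∃ U, U = ((B : ℝ) ^ (n + 1) / (B : ℝ) ^ 2) ^ eK K := ⟨_, rfl⟩
  have hT0 : 0 ≤ T := by rw [hT]; positivity
  have hZ0 : 0 ≤ Z := by rw [hZ]; positivity
  have hU0 : 0 ≤ U := by rw [hU]; positivity
  have hal : 0 ≤ alE K n (ax t) B H R := by
    unfold alE
    positivity
  have hrow : ∀ x ∈ GG K B H q o, ∑ y ∈ GG K B H q o, EW d t R W (k ^ 2) A o x y ≤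
      (CK K n * (q : ℝ) ^ eK K) * ((CN + CL) * (C1 * (A0 * T))) +
        Cg / k * (C2 * (A0 * Z)) * (Ca * (U * (1 + alE K n (ax t) B H R))) +
        (C3 + C4) * (C2 * (A0 * Z)) * (Cb * (U * (1 / (k : ℝ) + ((w : ℝ) + 1) ^ (ax t - 1) +
          alE K n (ax t) B H R))) := by
    intro x hx
    have hNx : (n1 d x A : ℝ) ≤ C1 * A0 / P1 ^ eK K := by
      rw [hA0', hP1]
      exact hN1 B H A o hB hA1N h1A x hx
    have hNx2 : (R : ℝ) ^ eK K * (n1 d x A : ℝ) ≤ C1 * (A0 * T) := by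
      refine (mul_le_mul_of_nonneg_left hNx (by positivity)).trans (le_of_eq ?_)
      rw [hT]
      ring
    have hN2' : ∀ y ∈ GG K B H q o, ¬ Prp x y → (n2 d x y A : ℝ) * PC K (ax t) R (nD x y) ≤
        C2 * (A0 * Z) * om (ax t) R o x y := by
      intro y hy hxy
      refine (hN2 B H A R o hB hR h2A h2B x hx y hy hxy).trans (le_of_eq ?_)
      rw [← hA0', ← hP1, ← hZ]
      ring
    refine E_Var_row (GG K B H q o) (fun y => EW d t R W (k ^ 2) A o x y)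
      (fun y => om (ax t) R o x y) (fun y => Prp x y)
      (fun y => ((W : ℕ) : 𝓞 K) ∈ Dd x y ∧ ∀ v, (B : ℝ) ^ 2 ≤ k * Del o x y v) _ _ _ _ _ _ ?_ ?_ ?_
      (fun y _ => E_Var_om (ax t) x y) ?_ ?_ ?_ (card_Prp hB hx) ?_ ?_
    · have : 0 ≤ CN + CL := by linarith
      positivity
    · positivity
    · have : 0 ≤ C3 + C4 := by linarith
      positivity
    · intro y hy hxy
      refine (EW_le n d t R W (k ^ 2) A o x y).trans ?_
      have g1 := hNN A R hA1N hR x y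
      have g2 := hLL B H W (k ^ 2) A R o hB hW1 hκ hR hA1N hLA hLB x hx y hy
      have g3 : CN * ((R : ℝ) ^ eK K * (n1 d x A : ℝ)) ≤ CN * (C1 * (A0 * T)) :=
        mul_le_mul_of_nonneg_left hNx2 (by linarith)
      have g4 : CL * ((R : ℝ) ^ eK K * (n1 d x A : ℝ)) ≤ CL * (C1 * (A0 * T)) :=
        mul_le_mul_of_nonneg_left hNx2 (by linarith)
      linarith
    · intro y hy hxy hgood
      refine (le_abs_self _).trans ((hgd B H q o k A W R hB hk hA1N hR hgA x hx y hy hxy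
        hgood.1 hgood.2).trans ?_)
      rw [mul_assoc]
      exact mul_le_mul_of_nonneg_left (hN2' y hy hxy) (by positivity)
    · intro y hy hxy _
      refine (EW_le n d t R W (k ^ 2) A o x y).trans ?_
      have g1 := hnn A R hA1N hR x y (GG_uni hx) (GG_uni hy) hxy
      have g2 := hll B H W (k ^ 2) A R o hB hW1 hκ hR h4A x hx y hy hxy
      have g3 := mul_le_mul_of_nonneg_left (hN2' y hy hxy) (show 0 ≤ C3 by linarith)
      have g4 := mul_le_mul_of_nonneg_left (hN2' y hy hxy) (show 0 ≤ C4 by linarith)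
      linarith
    · rw [hU]
      exact hSa B H R o hB hH hBR x hx
    · rw [hU]
      refine le_trans (le_of_eq ?_) (hSb B H R k w W o hB hH hBR hk hW x hx)
      refine Finset.sum_congr ?_ fun _ _ => rfl
      ext y
      simp only [Finset.mem_filter]
  refine (Finset.sum_le_card_nsmul _ _ _ hrow).trans ?_
  rw [nsmul_eq_mul]
  obtain ⟨i1, i2⟩ := E_Var_id (B : ℝ) R P1 hB0 (eK K) (n + 1)
  have hcard := card_GG_le K n H q o hB
  have hw0 : 0 ≤ ((w : ℝ) + 1) ^ (ax t - 1) := by positivity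
  have hs : 1 / (k : ℝ) ≤ 1 / (k : ℝ) + ((w : ℝ) + 1) ^ (ax t - 1) := by linarith
  refine (mul_le_mul_of_nonneg_right hcard ?_).trans ?_
  · have t1 : 0 ≤ CN + CL := by linarith
    have t2 : 0 ≤ C3 + C4 := by linarith
    positivity
  · have hEB : EB K n d B R A = ((B : ℝ) ^ (n + 1) * R / P1) ^ eK K := by
      rw [hP1]
      rfl
    have hE0 : 0 ≤ EB K n d B R A := by
      rw [hEB]
      positivity
    have hfin := E_Var_alg (k := (k : ℝ)) (s := 1 / (k : ℝ) + ((w : ℝ) + 1) ^ (ax t - 1))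
      (al := alE K n (ax t) B H R) (E := EB K n d B R A) (X := (B : ℝ) ^ (eK K * (n + 1)))
      (T := T) (Z := Z) (U := U) (A0 := A0) (CKn := CK K n ^ (n + 1))
      (CQ := CK K n * (q : ℝ) ^ eK K) (CE := CN + CL) (CF := C3 + C4) (C1 := C1) (C2 := C2)
      (Ca := Ca) (Cb := Cb) (Cg := Cg) hk1 hs hal hA00 (by positivity) (by positivity)
      (by linarith) (by linarith) (by linarith) (by linarith) (by linarith) (by linarith)
      (by linarith) hE0 (by rw [hT, i1, hEB]) (by rw [hZ, hU, i2, hEB])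
    rw [← hM] at hfin
    refine hfin.trans ?_
    rw [← hA0']
    refine mul_le_mul_of_nonneg_right (mul_le_mul_of_nonneg_right (by linarith) hA00) ?_
    have : 0 ≤ 1 / (k : ℝ) := by positivity
    positivity

theorem pairTotT (n d t m q : ℕ) (hn : 2 ≤ n) (hd : d = t * m) (ht : 2 ≤ t) (hm : 1 ≤ m)
    (hq : 1 ≤ q) : ∃ C : ℝ, 1 ≤ C ∧ ∀ (o : Fin (n + 1)) (B H A R : ℕ), 1 ≤ B → 1 ≤ H →
    B ≤ R → C * (H : ℝ) ^ 2 ≤ A →
    ∑ x ∈ GG K B H q o, ∑ y ∈ GG K B H q o,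
      ∑ F ∈ Box K n d A, (Nx t R F x : ℝ) * (Nx t R F y : ℝ) ≤
      C * (A : ℝ) ^ (eK K * (n + 1) ^ d) *
        (EB K n d B R A + EB K n d B R A ^ 2 * (1 + alE K n (ax t) B H R)) := by
  have ht1 : 1 ≤ t := by omega
  have hd2 : 2 ≤ d := by
    rw [hd]
    exact le_trans ht (Nat.le_mul_of_pos_right t hm)
  have ha0 : 0 < ax t := lt_of_lt_of_le (by norm_num) (ax_pos ht)
  have ha1 : ax t < 1 := ax_lt_one ht1
  obtain ⟨CN, hCN, hNN⟩ := prpNN K n d t ht1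
  obtain ⟨C1, hC1, hN1⟩ := N1 (K := K) n d q hq
  obtain ⟨C2, hC2, hN2⟩ := n2PC K n d q (ax t) hd2 hq
  obtain ⟨C3, hC3, hnn⟩ := nnT K n d t m hd ht
  obtain ⟨Ca, hCa, hSa⟩ := psAllT K n q hn hq (ax t) ha0 ha1
  have hCK := CK_one_le K n
  have hCK0 : 0 ≤ CK K n := by linarith
  obtain ⟨M, hM⟩ : ∃ M, M = CK K n ^ (n + 1) * (CK K n * (q : ℝ) ^ eK K * CN * C1 +
      C3 * C2 * Ca + 0 * C2 * 0) := ⟨_, rfl⟩
  have hM0 : 0 ≤ M := by
    rw [hM]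
    positivity
  refine ⟨M + C1 + C2, by linarith, ?_⟩
  intro o B H A R hB hH hBR hA
  have hH1 : (1 : ℝ) ≤ H := by exact_mod_cast hH
  have hB1 : (1 : ℝ) ≤ B := by exact_mod_cast hB
  have hB0 : (0 : ℝ) < B := by linarith
  have hR : 1 ≤ R := hB.trans hBR
  have hH2 : (1 : ℝ) ≤ (H : ℝ) ^ 2 := one_le_pow₀ hH1
  have hle : ∀ c : ℝ, c ≤ M + C1 + C2 → c * (H : ℝ) ^ 2 ≤ A := fun c hc =>
    le_trans (mul_le_mul_of_nonneg_right hc (by linarith)) hA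
  have h1 := hle C1 (by linarith)
  have h2 := hle C2 (by linarith)
  have h2A : C2 ≤ A := le_trans (le_mul_of_one_le_right (by linarith) hH2) h2
  have hA1R : (1 : ℝ) ≤ A := hC2.trans h2A
  have hA1N : 1 ≤ A := by exact_mod_cast hA1R
  have hA0 : (0 : ℝ) < A := by linarith
  have hHH : (H : ℝ) ≤ (H : ℝ) ^ 2 := by
    rw [sq]
    exact le_mul_of_one_le_left (by linarith) hH1
  have h1A : C1 * (H : ℝ) ≤ A := le_trans (mul_le_mul_of_nonneg_left hHH (by linarith)) h1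
  obtain ⟨A0, hA0'⟩ : ∃ A0, A0 = (A : ℝ) ^ (eK K * (n + 1) ^ d) := ⟨_, rfl⟩
  have hA00 : 0 ≤ A0 := by rw [hA0']; positivity
  obtain ⟨P1, hP1⟩ : ∃ P1, P1 = (A : ℝ) * (B : ℝ) ^ d := ⟨_, rfl⟩
  have hP10 : 0 < P1 := by rw [hP1]; positivity
  obtain ⟨T, hT⟩ : ∃ T, T = (R : ℝ) ^ eK K / P1 ^ eK K := ⟨_, rfl⟩
  obtain ⟨Z, hZ⟩ : ∃ Z, Z = (((B : ℝ) * R) ^ 2 / P1 ^ 2) ^ eK K := ⟨_, rfl⟩
  obtain ⟨U, hU⟩ : ∃ U, U = ((B : ℝ) ^ (n + 1) / (B : ℝ) ^ 2) ^ eK K := ⟨_, rfl⟩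
  have hT0 : 0 ≤ T := by rw [hT]; positivity
  have hZ0 : 0 ≤ Z := by rw [hZ]; positivity
  have hU0 : 0 ≤ U := by rw [hU]; positivity
  have hal : 0 ≤ alE K n (ax t) B H R := by
    unfold alE
    positivity
  have hbox : ∀ x y : Vc n (𝓞 K), ∑ F ∈ Box K n d A, (Nx t R F x : ℝ) * (Nx t R F y : ℝ) ≤
      ∑ F ∈ Box K n d (2 * A), (Nx t R F x : ℝ) * (Nx t R F y : ℝ) := fun x y =>
    Finset.sum_le_sum_of_subset_of_nonneg (Box_mono (by linarith)) fun _ _ _ => by positivity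
  have hrow : ∀ x ∈ GG K B H q o, ∑ y ∈ GG K B H q o,
      ∑ F ∈ Box K n d A, (Nx t R F x : ℝ) * (Nx t R F y : ℝ) ≤
      (CK K n * (q : ℝ) ^ eK K) * (CN * (C1 * (A0 * T))) +
        C3 / 1 * (C2 * (A0 * Z)) * (Ca * (U * (1 + alE K n (ax t) B H R))) +
        0 * (C2 * (A0 * Z)) * (0 * (U * (1 + alE K n (ax t) B H R))) := by
    intro x hx
    have hNx : (n1 d x A : ℝ) ≤ C1 * A0 / P1 ^ eK K := by
      rw [hA0', hP1]
      exact hN1 B H A o hB hA1N h1A x hx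
    have hNx2 : (R : ℝ) ^ eK K * (n1 d x A : ℝ) ≤ C1 * (A0 * T) := by
      refine (mul_le_mul_of_nonneg_left hNx (by positivity)).trans (le_of_eq ?_)
      rw [hT]
      ring
    have hN2' : ∀ y ∈ GG K B H q o, ¬ Prp x y → (n2 d x y A : ℝ) * PC K (ax t) R (nD x y) ≤
        C2 * (A0 * Z) * om (ax t) R o x y := by
      intro y hy hxy
      refine (hN2 B H A R o hB hR h2A h2 x hx y hy hxy).trans (le_of_eq ?_)
      rw [← hA0', ← hP1, ← hZ]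
      ring
    refine E_Var_row (GG K B H q o)
      (fun y => ∑ F ∈ Box K n d A, (Nx t R F x : ℝ) * (Nx t R F y : ℝ))
      (fun y => om (ax t) R o x y) (fun y => Prp x y) (fun y => True) _ _ _ _ _ _ ?_ ?_ ?_
      (fun y _ => E_Var_om (ax t) x y) ?_ ?_ ?_ (card_Prp hB hx) ?_ ?_
    · positivity
    · positivity
    · positivity
    · intro y hy hxy
      refine ((hbox x y).trans (hNN A R hA1N hR x y)).trans ?_
      exact mul_le_mul_of_nonneg_left hNx2 (by linarith)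
    · intro y hy hxy _
      refine ((hbox x y).trans (hnn A R hA1N hR x y (GG_uni hx) (GG_uni hy) hxy)).trans ?_
      rw [div_one, mul_assoc]
      exact mul_le_mul_of_nonneg_left (hN2' y hy hxy) (by linarith)
    · intro y hy hxy h
      exact absurd trivial h
    · rw [hU]
      exact hSa B H R o hB hH hBR x hx
    · rw [zero_mul]
      refine le_of_eq (Finset.sum_eq_zero fun y hy => ?_)
      simp only [Finset.mem_filter, not_true_eq_false, and_false] at hy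
  refine (Finset.sum_le_card_nsmul _ _ _ hrow).trans ?_
  rw [nsmul_eq_mul]
  obtain ⟨i1, i2⟩ := E_Var_id (B : ℝ) R P1 hB0 (eK K) (n + 1)
  have hcard := card_GG_le K n H q o hB
  refine (mul_le_mul_of_nonneg_right hcard ?_).trans ?_
  · positivity
  · have hEB : EB K n d B R A = ((B : ℝ) ^ (n + 1) * R / P1) ^ eK K := by
      rw [hP1]
      rfl
    have hE0 : 0 ≤ EB K n d B R A := by
      rw [hEB]
      positivity
    have hfin := E_Var_alg (k := (1 : ℝ)) (s := (1 : ℝ))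
      (al := alE K n (ax t) B H R) (E := EB K n d B R A) (X := (B : ℝ) ^ (eK K * (n + 1)))
      (T := T) (Z := Z) (U := U) (A0 := A0) (CKn := CK K n ^ (n + 1))
      (CQ := CK K n * (q : ℝ) ^ eK K) (CE := CN) (CF := 0) (C1 := C1) (C2 := C2)
      (Ca := Ca) (Cb := 0) (Cg := C3) le_rfl (by norm_num) hal hA00 (by positivity) (by positivity)
      (by linarith) le_rfl (by linarith) (by linarith) (by linarith) le_rfl
      (by linarith) hE0 (by rw [hT, i1, hEB]) (by rw [hZ, hU, i2, hEB])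
    rw [← hM] at hfin
    refine hfin.trans ?_
    rw [← hA0']
    refine mul_le_mul_of_nonneg_right (mul_le_mul_of_nonneg_right (by linarith) hA00) ?_
    positivity

end Pool.Agent.Lib.MP_1ad228_ntW
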