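import Pool.Agent.Lib.MP_1ad228_ntW.Defs
import Pool.Agent.Lib.MP_1ad228_ntN.LD_Equi
import Pool.Agent.Lib.MP_1ad228_ntN.LD_Exc

/-!
JOB LD_EquiS.  Tensors in a box in residue classes, exceptional tensors: the case of one tensor of `LD_equi`, `LD_exc`.

`boxSg`: `F ↦ sg F` is a bijection from `Box K n d X` to `TBox K n (fun _ : Fin 1 => d) X` (inverse `F ↦ F 0`; `mem_TBox`, `Fin 1` is a subsingleton), so `card ((Box ..).filter p) = card ((TBox ..).filter fun F => p (F 0))`.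
`equiS`: `LD_equi K n (fun _ : Fin 1 => d)` with the predicate `fun G => p (G 0)`; `VV n (fun _ : Fin 1 => d) = (n+1)^d` (`VV` is a sum over `Fin 1`); `Nat.card {G : Tup n (fun _ => d) R // p (G 0)} = Nat.card {G : Ten n d R // p G}`.
`excS`: `LD_exc n (fun _ : Fin 1 => d)`.
-/

namespace Pool.Agent.Lib.MP_1ad228_ntW

open NumberField Classical Pool.Agent.Lib.MP_1ad228_ntN

theorem boxSg (K : Type) [Field K] [NumberField K] (n d : ℕ) (X : ℝ)
    (p : Tup n (fun _ : Fin 1 => d) (𝓞 K) → Prop) :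
    ((Box K n d X).filter fun F => p (sg F)).card =
      ((TBox K n (fun _ : Fin 1 => d) X).filter p).card := by
  refine Finset.card_bij (fun F _ => sg F) ?_ ?_ ?_
  · intro F hF
    rw [Finset.mem_filter] at hF ⊢
    refine ⟨?_, hF.2⟩
    rw [mem_TBox]
    intro i
    exact hF.1
  · intro F _ F' _ h
    exact congrFun h 0
  · intro F hF
    rw [Finset.mem_filter, mem_TBox] at hF
    have h1 : sg (F 0) = F := by
      funext i
      rw [Subsingleton.elim i 0]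
      rfl
    refine ⟨F 0, ?_, h1⟩
    rw [Finset.mem_filter, h1]
    exact ⟨hF.1 0, hF.2⟩

theorem equiS (K : Type) [Field K] [NumberField K] (n d : ℕ) :
    ∃ C : ℝ, 0 < C ∧ ∀ I : Ideal (𝓞 K), I ≠ ⊥ → ∃ A0 : ℕ, ∀ A : ℕ, A0 ≤ A →
      ∀ p : Ten n d (𝓞 K ⧸ I) → Prop,
        (((Box K n d A).filter fun F => p (tmap (Ideal.Quotient.mk I) F)).card : ℝ) ≤
          C * ((Nat.card {G : Ten n d (𝓞 K ⧸ I) // p G} : ℝ) /
            (Ideal.absNorm I : ℝ) ^ (n + 1) ^ d) * (A : ℝ) ^ (eK K * (n + 1) ^ d) := by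
  obtain ⟨C, hC, hE⟩ := LD_equi K n (fun _ : Fin 1 => d)
  refine ⟨C, hC, fun I hI => ?_⟩
  obtain ⟨A0, hA0⟩ := hE I hI
  refine ⟨A0, fun A hA p => ?_⟩
  have hV : VV n (fun _ : Fin 1 => d) = (n + 1) ^ d := by
    unfold Pool.Agent.Lib.MP_1ad228_ntF.VV
    simp
  have h1 := hA0 A hA (fun G => p (G 0))
  rw [hV] at h1
  have h2 := boxSg K n d (A : ℝ) (fun F => p (red I F 0))
  have h3 : ((Box K n d (A : ℝ)).filter fun F => p (tmap (Ideal.Quotient.mk I) F)) =
      ((Box K n d (A : ℝ)).filter fun F => p (red I (sg F) 0)) := rfl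
  rw [h3, h2]
  refine h1.trans (le_of_eq ?_)
  have h4 : Nat.card {G : Tup n (fun _ : Fin 1 => d) (𝓞 K ⧸ I) // p (G 0)} =
      Nat.card {G : Ten n d (𝓞 K ⧸ I) // p G} := by
    refine Nat.card_congr (Equiv.subtypeEquiv (Equiv.funUnique (Fin 1) (Ten n d (𝓞 K ⧸ I))) ?_)
    intro G
    exact Iff.rfl
  rw [h4]

theorem excS (n d : ℕ) (hd : 1 ≤ d) (R : Type) [CommRing R] [Finite R] :
    Nat.card {F : Ten n d R // ExcR (sg F)} * Nat.card R ≤ (n + 1) * Nat.card R ^ (n + 1) ^ d := by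
  have hV : VV n (fun _ : Fin 1 => d) = (n + 1) ^ d := by
    unfold Pool.Agent.Lib.MP_1ad228_ntF.VV
    simp
  have h1 := LD_exc n (fun _ : Fin 1 => d) (fun _ => hd) R
  rw [hV, one_mul] at h1
  have h4 : Nat.card {G : Tup n (fun _ : Fin 1 => d) R // ExcR G} =
      Nat.card {G : Ten n d R // ExcR (sg G)} := by
    refine Nat.card_congr (Equiv.subtypeEquiv (Equiv.funUnique (Fin 1) (Ten n d R)) ?_)
    intro G
    have h2 : sg (G 0) = G := by
      funext i
      rw [Subsingleton.elim i 0]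
      rfl
    have h3 : (Equiv.funUnique (Fin 1) (Ten n d R)) G = G 0 := rfl
    rw [h3, h2]
  rw [← h4]
  exact h1

end Pool.Agent.Lib.MP_1ad228_ntW
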