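import Pool.Agent.Lib.MP_1ad228_ntW.FM_LocT
import Pool.Agent.Lib.MP_1ad228_ntW.LD_EquiS
import Pool.Agent.Lib.MP_1ad228_ntN.FM_Fin

/-!
JOB FM_FinT.  The transfer of the theorems on tensors to forms.  (Model with proof: Lib/MP_1ad228_ntN/FM_Fin.lean, there for tuples.)

`xfer1`, `fib1`: the case `r = 1` of `xferT`, `fibT` (`LoT n (fun _ : Fin 1 => d) = Lo n d`; a set `S` of polynomials corresponds to the set `{f : Fin 1 → _ | f 0 ∈ S}` with the same `ncard` (`Set.ncard_congr` or `Set.ncard_image_of_injective`), a finset `T` of tensors to its image under `sg`; `polyT (sg F) 0 = poly F` by `rfl`), or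
copy the proofs.
`smGood`: `NonSmP K n (fun _ : Fin 1 => d)` gives the same bound for tensors (`boxSg`).
`formsBadT`, `formsGoodT`: as `formsBad`, `formsGood` with `Ten` instead of tuples, `UpT` replaced by `Up`, `LoT` by `Lo`, `Lo_add_Up`, `C = (n+1)^d + 1`, and `M * C^(t-1)` instead of `M * C^r`.
`final1T`, `final2T`: as `final1`, `final2` (with `card_Forms`).
-/

namespace Pool.Agent.Lib.MP_1ad228_ntW

open NumberField Classical Pool.Agent.Lib.MP_1ad228_ntN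

variable (K : Type) [Field K] [NumberField K]

variable {K} in
theorem xfer1 {n d : ℕ} {A B : ℝ} (hA : 0 ≤ A) (hB : ((n : ℝ) + 1) ^ d * A + A ≤ B)
    (S : Set (MvPolynomial (Fin (n + 1)) (𝓞 K))) (hS : ∀ f ∈ S, f ∈ Forms K n d A)
    (T : Finset (Ten n d (𝓞 K))) (hT : ∀ F ∈ Box K n d B, poly F ∈ S → F ∈ T) :
    S.ncard * (OBox K A).card ^ Lo n d ≤ T.card := by
  have hSf : S.Finite := (Forms_finite n d hA).subset hS
  have hBB : (OBox K A).card ^ Lo n d = (BB K n d A).card := (card_BB n d A).symm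
  rw [Set.ncard_eq_toFinset_card S hSf, hBB, ← Finset.card_product]
  refine Finset.card_le_card_of_injOn (fun x => (mkT (toTen d x.1) x.2 : Ten n d (𝓞 K))) ?_ ?_
  · rintro ⟨f, b⟩ hx
    rw [Finset.mem_coe, Finset.mem_product, Set.Finite.mem_toFinset] at hx
    obtain ⟨hf, hb⟩ := hx
    have hpT : poly (mkT (toTen d f) b) = f := by
      rw [poly_mkT (toTen_supp f), poly_toTen (hS f hf).1]
    refine hT _ (mkT_mem hA hB (toTen_mem hA (hS f hf)) hb) ?_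
    show poly (mkT (toTen d f) b) ∈ S
    rw [hpT]
    exact hf
  · rintro ⟨f, b⟩ hx ⟨f', b'⟩ hx' he
    rw [Finset.mem_coe, Finset.mem_product, Set.Finite.mem_toFinset] at hx hx'
    obtain ⟨hf, hb⟩ := hx
    obtain ⟨hf', hb'⟩ := hx'
    have h1 : toTen d f = toTen d f' ∧ b = b' :=
      mkT_inj (toTen_supp f) (toTen_supp f') (fun s => (mem_BB.1 hb s).1)
        (fun s => (mem_BB.1 hb' s).1) he
    have h2 : f = f' := by
      rw [← poly_toTen (hS f hf).1, ← poly_toTen (hS f' hf').1, h1.1]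
    rw [h2, h1.2]

variable {K} in
theorem fib1 {n d : ℕ} {A : ℝ} (S : Set (MvPolynomial (Fin (n + 1)) (𝓞 K))) (hS : S.Finite)
    (T : Finset (Ten n d (𝓞 K))) (hT : ∀ F ∈ T, F ∈ Box K n d A ∧ poly F ∈ S) :
    T.card ≤ (OBox K A).card ^ Lo n d * S.ncard := by
  rw [Set.ncard_eq_toFinset_card S hS]
  have himg : T.image (fun F : Ten n d (𝓞 K) => poly F) ⊆ hS.toFinset := by
    intro f hf
    rw [Finset.mem_image] at hf
    obtain ⟨F, hF, rfl⟩ := hf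
    rw [Set.Finite.mem_toFinset]
    exact (hT F hF).2
  refine (Finset.card_le_mul_card_image (f := fun F : Ten n d (𝓞 K) => poly F)
    T ((OBox K A).card ^ Lo n d) ?_).trans (Nat.mul_le_mul_left _ (Finset.card_le_card himg))
  intro f _
  have hsub : (T.filter fun F => poly F = f) ⊆ (Box K n d A).filter fun a => poly a = f := by
    intro F hF
    rw [Finset.mem_filter] at hF
    rw [Finset.mem_filter]
    exact ⟨(hT F hF.1).1, hF.2⟩
  exact (Finset.card_le_card hsub).trans (fib A f)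

theorem smGood (n d : ℕ) (hN : NonSmP K n (fun _ : Fin 1 => d)) (ε : ℝ) (hε : 0 < ε) :
    ∃ A0 : ℕ, ∀ A : ℕ, A0 ≤ A →
    (((Box K n d A).filter fun F => ¬ ∀ x : Vc n (AlgebraicClosure K), x ≠ 0 →
      (∀ k, ev (fmap (algebraMap (𝓞 K) (AlgebraicClosure K)) (sg F) k) x = 0) →
      LinearIndependent (AlgebraicClosure K)
        (fun k => dev (fmap (algebraMap (𝓞 K) (AlgebraicClosure K)) (sg F) k) x)).card : ℝ) ≤
      ε * (A : ℝ) ^ (eK K * (n + 1) ^ d) := by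
  obtain ⟨A0, h⟩ := hN ε hε
  refine ⟨A0, fun A hA => ?_⟩
  have h1 := h A hA
  have h2 : VV n (fun _ : Fin 1 => d) = (n + 1) ^ d := by
    unfold VV
    rw [Fin.sum_univ_one]
  rw [h2] at h1
  have h3 := boxSg K n d A (fun F => ¬ ∀ x : Vc n (AlgebraicClosure K), x ≠ 0 →
      (∀ k, ev (fmap (algebraMap (𝓞 K) (AlgebraicClosure K)) F k) x = 0) →
      LinearIndependent (AlgebraicClosure K)
        (fun k => dev (fmap (algebraMap (𝓞 K) (AlgebraicClosure K)) F k) x))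
  refine le_trans (le_of_eq (congrArg (Nat.cast (R := ℝ)) ?_)) h1
  convert h3

theorem formsBadT (n t m : ℕ) (ht : 1 ≤ t) (hM : MainT K n t m) (ε : ℝ) (hε : 0 < ε) :
    ∃ M A0 : ℕ, ∀ A : ℕ, A0 ≤ A →
    (({g | g ∈ Forms K n (t * m) A ∧ LocSolT t g ∧
        ¬ SmallSolT t (t * (n + 1 - (t - 1) * m)) ((M : ℝ) * (A : ℝ) ^ (t - 1)) g} :
      Set (MvPolynomial (Fin (n + 1)) (𝓞 K))).ncard : ℝ)
      ≤ ε * (A : ℝ) ^ (eK K * Up n (t * m)) := by
  obtain ⟨C, hC⟩ : ∃ C : ℕ, C = (n + 1) ^ (t * m) + 1 := ⟨_, rfl⟩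
  have hC1 : 1 ≤ C := by omega
  have hCR : (1 : ℝ) ≤ C := by exact_mod_cast hC1
  have hcK := CK_pos K n
  have hK : (0 : ℝ) < (C : ℝ) ^ (eK K * (n + 1) ^ (t * m)) * CK K n ^ Lo n (t * m) := by
    positivity
  obtain ⟨M, A1, h⟩ := hM (ε / ((C : ℝ) ^ (eK K * (n + 1) ^ (t * m)) * CK K n ^ Lo n (t * m)))
    (div_pos hε hK)
  refine ⟨M * C ^ (t - 1), A1 + 1, fun A hA => ?_⟩
  have hA1 : (1 : ℝ) ≤ A := by exact_mod_cast (by omega : 1 ≤ A)
  have hA0 : (0 : ℝ) ≤ A := by linarith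
  have hCA : A1 ≤ C * A := by nlinarith
  have h1 := h (C * A) hCA
  set S : Set (MvPolynomial (Fin (n + 1)) (𝓞 K)) :=
    {g | g ∈ Forms K n (t * m) A ∧ LocSolT t g ∧
        ¬ SmallSolT t (t * (n + 1 - (t - 1) * m))
          (((M * C ^ (t - 1) : ℕ) : ℝ) * (A : ℝ) ^ (t - 1)) g} with hS
  set T := (Box K n (t * m) ((C * A : ℕ) : ℝ)).filter fun F => (∀ v, RSolT t v F) ∧ PSolT t F ∧
        ¬ ∃ (x : Vc n (𝓞 K)) (u : 𝓞 K), x ≠ 0 ∧
          (∀ i, ∀ v : InfinitePlace K,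
            (v (x i : K)) ^ (t * (n + 1 - (t - 1) * m)) ≤
              (M : ℝ) * ((C * A : ℕ) : ℝ) ^ (t - 1)) ∧
          ev F x = u ^ t with hT
  have hMM : ((M * C ^ (t - 1) : ℕ) : ℝ) * (A : ℝ) ^ (t - 1) =
      (M : ℝ) * ((C * A : ℕ) : ℝ) ^ (t - 1) := by
    push_cast
    ring
  have h2 : S.ncard * (OBox K (A : ℝ)).card ^ Lo n (t * m) ≤ T.card := by
    refine xfer1 hA0 (B := ((C * A : ℕ) : ℝ)) ?_ S (fun f hf => hf.1) T ?_
    · have h3 : ((n : ℝ) + 1) ^ (t * m) + 1 ≤ C := by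
        rw [hC]
        push_cast
        exact le_refl _
      push_cast
      nlinarith
    · intro F hF hpF
      rw [hT, Finset.mem_filter]
      obtain ⟨hr, hp⟩ := solT_of_locSolT (m := m) rfl ht hpF.2.1
      refine ⟨hF, hr, hp, fun hx => hpF.2.2 ?_⟩
      rw [smallSolT_iff, hMM]
      exact hx
  have h3 : (S.ncard : ℝ) * ((OBox K (A : ℝ)).card : ℝ) ^ Lo n (t * m) ≤ (T.card : ℝ) := by
    exact_mod_cast h2
  have h4 : ((A : ℝ) ^ eK K) ^ Lo n (t * m) ≤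
      CK K n ^ Lo n (t * m) * ((OBox K (A : ℝ)).card : ℝ) ^ Lo n (t * m) := by
    rw [← mul_pow]
    exact pow_le_pow_left₀ (by positivity) (OBox_low K n hA1) _
  have h5 : (S.ncard : ℝ) * ((A : ℝ) ^ eK K) ^ Lo n (t * m) ≤
      ε * (A : ℝ) ^ (eK K * Up n (t * m)) * ((A : ℝ) ^ eK K) ^ Lo n (t * m) := by
    calc (S.ncard : ℝ) * ((A : ℝ) ^ eK K) ^ Lo n (t * m)
        ≤ (S.ncard : ℝ) * (CK K n ^ Lo n (t * m) *
            ((OBox K (A : ℝ)).card : ℝ) ^ Lo n (t * m)) :=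
          mul_le_mul_of_nonneg_left h4 (Nat.cast_nonneg _)
      _ = CK K n ^ Lo n (t * m) * ((S.ncard : ℝ) *
            ((OBox K (A : ℝ)).card : ℝ) ^ Lo n (t * m)) := by ring
      _ ≤ CK K n ^ Lo n (t * m) * (T.card : ℝ) := mul_le_mul_of_nonneg_left h3 (by positivity)
      _ ≤ CK K n ^ Lo n (t * m) *
            (ε / ((C : ℝ) ^ (eK K * (n + 1) ^ (t * m)) * CK K n ^ Lo n (t * m)) *
            ((C * A : ℕ) : ℝ) ^ (eK K * (n + 1) ^ (t * m))) :=
          mul_le_mul_of_nonneg_left h1 (by positivity)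
      _ = ε * (A : ℝ) ^ (eK K * (n + 1) ^ (t * m)) := by
          push_cast
          rw [mul_pow]
          field_simp
      _ = ε * (A : ℝ) ^ (eK K * Up n (t * m)) * ((A : ℝ) ^ eK K) ^ Lo n (t * m) := by
          rw [← pow_mul, ← Lo_add_Up, Nat.mul_add, pow_add]
          ring
  have h6 : (0 : ℝ) < ((A : ℝ) ^ eK K) ^ Lo n (t * m) := by positivity
  exact le_of_mul_le_mul_right h5 h6

theorem formsGoodT (n t m : ℕ) (ht : 2 ≤ t) (hN : NonSmP K n (fun _ : Fin 1 => t * m))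
    (hP : PosT K n t m) : ∃ δ : ℝ, 0 < δ ∧ ∃ A0 : ℕ, ∀ A : ℕ, A0 ≤ A →
    δ * (A : ℝ) ^ (eK K * Up n (t * m)) ≤
    (({g | g ∈ Forms K n (t * m) A ∧ SmoothT t g ∧ ∃ (x : Fin (n + 1) → 𝓞 K) (u : 𝓞 K), x ≠ 0 ∧
        MvPolynomial.aeval x g = u ^ t} :
      Set (MvPolynomial (Fin (n + 1)) (𝓞 K))).ncard : ℝ) := by
  obtain ⟨δ, hδ, A1, h1⟩ := hP
  obtain ⟨A2, h2⟩ := smGood K n (t * m) hN (δ / 2) (by positivity)
  obtain ⟨N, hN'⟩ : ∃ N : ℕ, N = (n + 1) ^ (t * m) := ⟨_, rfl⟩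
  have hN1 : 0 < N := by
    rw [hN']
    positivity
  have hNR : (0 : ℝ) < (N : ℝ) := by exact_mod_cast hN1
  have hcK := CK_pos K n
  refine ⟨δ / 2 / CK K n ^ Lo n (t * m) / (2 * (N : ℝ)) ^ (eK K * Up n (t * m)), by positivity,
    N * (A1 + A2) + N, fun A hA => ?_⟩
  have hAB : A1 + A2 + 1 ≤ A / N := by
    rw [Nat.le_div_iff_mul_le hN1]
    calc (A1 + A2 + 1) * N = N * (A1 + A2) + N := by ring
      _ ≤ A := hA
  have g1 := h1 (A / N) (by omega)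
  have g2 := h2 (A / N) (by omega)
  have hNB : N * (A / N) ≤ A := Nat.mul_div_le A N
  have hlt : A < N * (A / N + 1) := Nat.lt_mul_div_succ A hN1
  generalize A / N = B at hAB g1 g2 hNB hlt
  have hB1 : (1 : ℝ) ≤ B := by exact_mod_cast (by omega : 1 ≤ B)
  have hA0 : (0 : ℝ) ≤ A := Nat.cast_nonneg A
  set S : Set (MvPolynomial (Fin (n + 1)) (𝓞 K)) :=
    {g | g ∈ Forms K n (t * m) A ∧ SmoothT t g ∧ ∃ (x : Fin (n + 1) → 𝓞 K) (u : 𝓞 K), x ≠ 0 ∧
        MvPolynomial.aeval x g = u ^ t} with hS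
  have hSf : S.Finite := (Forms_finite n (t * m) hA0).subset fun f hf => hf.1
  set T1 := (Box K n (t * m) B).filter fun F => ∃ (x : Vc n (𝓞 K)) (u : 𝓞 K), x ≠ 0 ∧
      ev F x = u ^ t with hT1
  set T2 := (Box K n (t * m) B).filter fun F =>
        ¬ ∀ x : Vc n (AlgebraicClosure K), x ≠ 0 →
          (∀ k, ev (fmap (algebraMap (𝓞 K) (AlgebraicClosure K)) (sg F) k) x = 0) →
          LinearIndependent (AlgebraicClosure K)
            (fun k => dev (fmap (algebraMap (𝓞 K) (AlgebraicClosure K)) (sg F) k) x) with hT2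
  have h3 : T1.card ≤ (T1 \ T2).card + T2.card := Finset.card_le_card_sdiff_add_card
  have h4 : (T1 \ T2).card ≤ (OBox K (B : ℝ)).card ^ Lo n (t * m) * S.ncard := by
    refine fib1 S hSf (T1 \ T2) ?_
    intro F hF
    rw [Finset.mem_sdiff, hT1, hT2, Finset.mem_filter, Finset.mem_filter] at hF
    obtain ⟨⟨hFB, x, u, hx, hx1⟩, hns⟩ := hF
    refine ⟨hFB, ?_, ?_, x, u, hx, ?_⟩
    · have hm := poly_mem (by positivity) hFB
      refine ⟨hm.1, fun m' φ => (hm.2 m' φ).trans ?_⟩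
      have h5 : (n + 1) ^ (t * m) * B ≤ A := by
        rw [← hN']
        exact hNB
      exact_mod_cast h5
    · refine smoothT_of ht F ?_
      by_contra hcon
      exact hns ⟨hFB, hcon⟩
    · show MvPolynomial.aeval x (poly F) = u ^ t
      rw [aeval_poly]
      exact hx1
  have h5 : (T1.card : ℝ) ≤ ((OBox K (B : ℝ)).card : ℝ) ^ Lo n (t * m) * (S.ncard : ℝ) +
      (T2.card : ℝ) := by
    exact_mod_cast h3.trans (Nat.add_le_add_right h4 _)
  have h5' : ((OBox K (B : ℝ)).card : ℝ) ^ Lo n (t * m) ≤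
      (CK K n * (B : ℝ) ^ eK K) ^ Lo n (t * m) :=
    pow_le_pow_left₀ (Nat.cast_nonneg _) (OBox_up K n hB1) _
  have h6 : δ / 2 * (B : ℝ) ^ (eK K * (n + 1) ^ (t * m)) ≤
      (CK K n * (B : ℝ) ^ eK K) ^ Lo n (t * m) * (S.ncard : ℝ) := by
    have h7 := mul_le_mul_of_nonneg_right h5' (Nat.cast_nonneg (α := ℝ) S.ncard)
    linarith
  have h7 : (A : ℝ) ≤ 2 * (N : ℝ) * (B : ℝ) := by
    have h8 : A ≤ 2 * N * B := by
      have h9 : N * (B + 1) ≤ N * (2 * B) := Nat.mul_le_mul_left N (by omega)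
      have h10 : 2 * N * B = N * (2 * B) := by ring
      omega
    exact_mod_cast h8
  have h8 : (A : ℝ) ^ (eK K * Up n (t * m)) ≤
      (2 * (N : ℝ) * (B : ℝ)) ^ (eK K * Up n (t * m)) :=
    pow_le_pow_left₀ hA0 h7 _
  have h9 : (0 : ℝ) < (CK K n * (B : ℝ) ^ eK K) ^ Lo n (t * m) := by positivity
  refine le_of_mul_le_mul_left ?_ h9
  refine le_trans ?_ h6
  calc (CK K n * (B : ℝ) ^ eK K) ^ Lo n (t * m) *
        (δ / 2 / CK K n ^ Lo n (t * m) / (2 * (N : ℝ)) ^ (eK K * Up n (t * m)) *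
          (A : ℝ) ^ (eK K * Up n (t * m)))
      ≤ (CK K n * (B : ℝ) ^ eK K) ^ Lo n (t * m) *
        (δ / 2 / CK K n ^ Lo n (t * m) / (2 * (N : ℝ)) ^ (eK K * Up n (t * m)) *
          (2 * (N : ℝ) * (B : ℝ)) ^ (eK K * Up n (t * m))) := by
        refine mul_le_mul_of_nonneg_left (mul_le_mul_of_nonneg_left h8 (by positivity)) h9.le
    _ = δ / 2 * (B : ℝ) ^ (eK K * (n + 1) ^ (t * m)) := by
        rw [← Lo_add_Up, Nat.mul_add, pow_add, mul_pow (2 * (N : ℝ)), mul_pow (CK K n),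
          ← pow_mul]
        field_simp

theorem final1T (n t m : ℕ) (ht : 2 ≤ t) (hN : NonSmP K n (fun _ : Fin 1 => t * m))
    (hM : MainT K n t m) (hP : PosT K n t m) (ε : ℝ) (hε : 0 < ε) :
    ∃ M A0 : ℕ, ∀ A : ℕ, A0 ≤ A →
    (({g | g ∈ Forms K n (t * m) A ∧ LocSolT t g ∧
        ¬ SmallSolT t (t * (n + 1 - (t - 1) * m)) ((M : ℝ) * (A : ℝ) ^ (t - 1)) g} :
      Set (MvPolynomial (Fin (n + 1)) (𝓞 K))).ncard : ℝ) ≤
      ε * (({g | g ∈ Forms K n (t * m) A ∧ SmoothT t g ∧ LocSolT t g} :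
        Set (MvPolynomial (Fin (n + 1)) (𝓞 K))).ncard : ℝ) := by
  obtain ⟨δ, hδ, A1, h1⟩ := formsGoodT K n t m ht hN hP
  obtain ⟨M, A0, h2⟩ := formsBadT K n t m (by omega) hM (ε * δ) (mul_pos hε hδ)
  refine ⟨M, max A0 A1, fun A hA => ?_⟩
  have hA0 : A0 ≤ A := le_trans (le_max_left _ _) hA
  have hA1 : A1 ≤ A := le_trans (le_max_right _ _) hA
  have h3 := h2 A hA0
  have h4 := h1 A hA1
  refine h3.trans ?_
  rw [mul_assoc]
  refine mul_le_mul_of_nonneg_left (h4.trans ?_) hε.le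
  rw [Nat.cast_le]
  refine Set.ncard_le_ncard ?_ ?_
  · rintro g ⟨g1, g3, x, u, hx, e1⟩
    refine ⟨g1, g3, ?_⟩
    have e2 : ev (toTen (t * m) g) x = u ^ t := by
      rw [← e1]
      conv_rhs => rw [← poly_toTen g1.1]
      rw [aeval_poly]
      rfl
    have e3 := locSolT_of_zero hx e2
    rwa [poly_toTen g1.1] at e3
  · refine Set.Finite.subset (Forms_finite n (t * m) (Nat.cast_nonneg (α := ℝ) A)) ?_
    rintro g ⟨g1, -⟩
    exact g1

theorem final2T (n t m : ℕ) (ht : 2 ≤ t) (hN : NonSmP K n (fun _ : Fin 1 => t * m))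
    (hP : PosT K n t m) : ∃ δ : ℝ, 0 < δ ∧ ∃ A0 : ℕ, ∀ A : ℕ, A0 ≤ A →
    δ * ((Forms K n (t * m) A).ncard : ℝ) ≤
    (({g | g ∈ Forms K n (t * m) A ∧ SmoothT t g ∧ ∃ (x : Fin (n + 1) → 𝓞 K) (u : 𝓞 K), x ≠ 0 ∧
        MvPolynomial.aeval x g = u ^ t} :
      Set (MvPolynomial (Fin (n + 1)) (𝓞 K))).ncard : ℝ) := by
  obtain ⟨δ, hδ, A1, h1⟩ := formsGoodT K n t m ht hN hP
  have hcK := CK_pos K n
  refine ⟨δ / CK K n ^ Up n (t * m), by positivity, A1 + 1, fun A hA => ?_⟩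
  have hA1 : (1 : ℝ) ≤ A := by exact_mod_cast (by omega : 1 ≤ A)
  refine le_trans ?_ (h1 A (by omega))
  have h2 : ((Forms K n (t * m) A).ncard : ℝ) ≤
      ((OBox K (A : ℝ)).card : ℝ) ^ Up n (t * m) := by
    exact_mod_cast card_Forms n (t * m) (Nat.cast_nonneg (α := ℝ) A)
  have h3 : ((OBox K (A : ℝ)).card : ℝ) ^ Up n (t * m) ≤
      (CK K n * (A : ℝ) ^ eK K) ^ Up n (t * m) :=
    pow_le_pow_left₀ (Nat.cast_nonneg _) (OBox_up K n hA1) _
  calc δ / CK K n ^ Up n (t * m) * ((Forms K n (t * m) A).ncard : ℝ)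
      ≤ δ / CK K n ^ Up n (t * m) * (CK K n * (A : ℝ) ^ eK K) ^ Up n (t * m) :=
        mul_le_mul_of_nonneg_left (h2.trans h3) (by positivity)
    _ = δ * (A : ℝ) ^ (eK K * Up n (t * m)) := by
        rw [mul_pow, ← pow_mul]
        field_simp

end Pool.Agent.Lib.MP_1ad228_ntW
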