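import Pool.Agent.Lib.MP_1ad228_ntN.FormsDef

/-! Cyclic covers of projective space over a number field: the definitions of the final statement. -/

namespace Pool.Agent.Lib.MP_1ad228_ntW

open NumberField

variable {K : Type} [Field K] [NumberField K]

/-- The cyclic cover `u ^ t = g(x)` has a point over every completion of `K` (a solution with `x ≠ 0`):
over the reals for every real embedding, over the complex numbers for every complex embedding, and
over the completion at every prime ideal. -/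
def LocSolT {n : ℕ} (t : ℕ) (g : MvPolynomial (Fin (n + 1)) (𝓞 K)) : Prop :=
  (∀ σ : K →+* ℝ, ∃ (x : Fin (n + 1) → ℝ) (u : ℝ), x ≠ 0 ∧
    g.eval₂ (σ.comp (algebraMap (𝓞 K) K)) x = u ^ t) ∧
  (∀ σ : K →+* ℂ, ∃ (x : Fin (n + 1) → ℂ) (u : ℂ), x ≠ 0 ∧
    g.eval₂ (σ.comp (algebraMap (𝓞 K) K)) x = u ^ t) ∧
  ∀ v : IsDedekindDomain.HeightOneSpectrum (𝓞 K), ∃ (x : Fin (n + 1) → v.adicCompletion K)
    (u : v.adicCompletion K), x ≠ 0 ∧ MvPolynomial.aeval x g = u ^ t

/-- The cyclic cover `u ^ t = g(x)` is smooth over the algebraic closure: at every solution with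
`x ≠ 0` one of the partial derivatives of `u ^ t - g(x)` does not vanish. -/
def SmoothT {n : ℕ} (t : ℕ) (g : MvPolynomial (Fin (n + 1)) (𝓞 K)) : Prop :=
  ∀ (x : Fin (n + 1) → AlgebraicClosure K) (u : AlgebraicClosure K), x ≠ 0 →
    MvPolynomial.aeval x g = u ^ t →
    (t : AlgebraicClosure K) * u ^ (t - 1) ≠ 0 ∨
      ∃ i, MvPolynomial.aeval x (MvPolynomial.pderiv i g) ≠ 0

/-- The equation `u ^ t = g(x)` has a solution in the ring of integers with `x ≠ 0`, all conjugates `y` of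
all coordinates of `x` satisfying `|y| ^ e ≤ X`. -/
def SmallSolT {n : ℕ} (t e : ℕ) (X : ℝ) (g : MvPolynomial (Fin (n + 1)) (𝓞 K)) : Prop :=
  ∃ (x : Fin (n + 1) → 𝓞 K) (u : 𝓞 K), x ≠ 0 ∧ (∀ i, ∀ φ : K →+* ℂ, ‖φ (x i : K)‖ ^ e ≤ X) ∧
    MvPolynomial.aeval x g = u ^ t

end Pool.Agent.Lib.MP_1ad228_ntW
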