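import Pool.Agent.Lib.MP_1ad228_ntW.Defs
import Pool.Agent.Lib.MP_1ad228_ntW.FormsDefT
import Pool.Agent.Lib.MP_1ad228_ntN.FM_Loc

/-!
JOB FM_LocT.  Local solubility and smoothness of the cover and of the tensor.  (Model with proof: Lib/MP_1ad228_ntN/FM_Loc.lean.)

`psolT_of_adic`: as `psol_of_adic`.  At the prime `w`: `x ≠ 0`, `ev (tmap f F) x = u^t` in `w.adicCompletion K` (`aeval_poly`).  `i0` with `Valued.v (x i0)` maximal; `z i = (x i0)⁻¹ x i`, `ω = ((x i0)⁻¹)^m u`: `ev (tmap f F) z = (x i0)⁻¹^d u^t = ω^t` (`ev_scale`, `d = t m`).  `v (z i) ≤ 1`, so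
`v (ω)^t = v (ev ..) ≤ 1` (integral entries: as in `FM_Loc_sum`/`FM_Loc_ev`), `v ω ≤ 1`.  `FM_Loc_close` (private in the model: copy the private lemmas `FM_Loc_prod`, `FM_Loc_sum`, `FM_Loc_ev`, `FM_Loc_close`, `FM_Loc_alg`) for the `z i` and `ω` with exponent `k` (the exponent of the statement): `y i`, `b` in `𝓞 K`.
`v (ev (f y) - ev z) ≤ exp (-k)` (`FM_Loc_ev`), `v (f b ^ t - ω^t) ≤ exp (-k)` (`FM_Loc_prod` for the constant family, or `sub_dvd_pow_sub_pow`), so `v (f (ev F y - b^t)) ≤ exp (-k)`, i.e. `ev F y - b^t ∈ P^k` (`intValuation_le_pow_iff_mem`).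
`y i0 ∉ P` as in the model (also for `k = 0`: then use exponent `k + 1`, or the model's strict inequality).
`solT_of_locSolT`: as `sol_of_locSol` (also transport `u`: `(u : ℂ)`, imaginary part `0`).
`locSolT_of_zero`: as `locSol_of_zero`, with `u ↦ f u`.
`smallSolT_iff`: as `smallZero_iff`.
`smoothT_of`: if `F` has no nonzero `x` over the algebraic closure with `ev F x = 0` and linearly dependent gradient (one vector: `LinearIndependent` of a family indexed by `Fin 1`/`Unique` iff the vector is `≠ 0`: `linearIndependent_unique_iff`), then `SmoothT t (poly F)` for `t ≥ 2`: given `x ≠ 0`, `ev F x = u^t`, if `t u^(t-1) = 0`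
then `u = 0` (characteristic `0`, `t - 1 ≥ 1`), `ev F x = 0` (`t ≥ 1`), so the gradient is `≠ 0`: some `dev F x i ≠ 0` (`Function.ne_iff`), `pderiv_poly`.
-/

namespace Pool.Agent.Lib.MP_1ad228_ntW

open NumberField Classical IsDedekindDomain Pool.Agent.Lib.MP_1ad228_ntN

section val

private theorem FM_Loc_prod {S Γ : Type*} [CommRing S] [LinearOrderedCommGroupWithZero Γ]
    (v : Valuation S Γ) {ι : Type*} (U : Finset ι) (x y : ι → S) (hx : ∀ i, v (x i) ≤ 1)
    (hy : ∀ i, v (y i) ≤ 1) (γ : Γ) (h : ∀ i, v (y i - x i) ≤ γ) :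
    v (∏ i ∈ U, y i - ∏ i ∈ U, x i) ≤ γ := by
  induction U using Finset.induction_on with
  | empty =>
    rw [Finset.prod_empty, Finset.prod_empty, sub_self, map_zero]
    exact zero_le
  | insert b U hb ih =>
    rw [Finset.prod_insert hb, Finset.prod_insert hb]
    have h1 : y b * ∏ i ∈ U, y i - x b * ∏ i ∈ U, x i =
        (y b - x b) * ∏ i ∈ U, y i + x b * (∏ i ∈ U, y i - ∏ i ∈ U, x i) := by ring
    rw [h1]
    refine (v.map_add _ _).trans (max_le ?_ ?_)
    · rw [map_mul, map_prod]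
      calc v (y b - x b) * ∏ i ∈ U, v (y i) ≤ γ * 1 :=
            mul_le_mul' (h b) (Finset.prod_le_one' fun i _ => hy i)
        _ = γ := mul_one _
    · rw [map_mul]
      calc v (x b) * v (∏ i ∈ U, y i - ∏ i ∈ U, x i) ≤ 1 * γ := mul_le_mul' (hx b) ih
        _ = γ := one_mul _

private theorem FM_Loc_sum {S Γ : Type*} [CommRing S] [LinearOrderedCommGroupWithZero Γ]
    (v : Valuation S Γ) {ι : Type*} (U : Finset ι) (f : ι → S) (γ : Γ) (h : ∀ i, v (f i) ≤ γ) :
    v (∑ i ∈ U, f i) ≤ γ := by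
  induction U using Finset.induction_on with
  | empty =>
    rw [Finset.sum_empty, map_zero]
    exact zero_le
  | insert b U hb ih =>
    rw [Finset.sum_insert hb]
    exact (v.map_add _ _).trans (max_le (h b) ih)

private theorem FM_Loc_ev {S Γ : Type*} [CommRing S] [LinearOrderedCommGroupWithZero Γ]
    (v : Valuation S Γ) {n d : ℕ} (a : Ten n d S) (x y : Vc n S) (ha : ∀ s, v (a s) ≤ 1)
    (hx : ∀ i, v (x i) ≤ 1) (hy : ∀ i, v (y i) ≤ 1) (γ : Γ) (h : ∀ i, v (y i - x i) ≤ γ) :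
    v (ev a y - ev a x) ≤ γ := by
  unfold Pool.Agent.Lib.MP_1ad228_ntF.ev
  rw [← Finset.sum_sub_distrib]
  refine FM_Loc_sum v _ _ γ fun s => ?_
  rw [← mul_sub, map_mul]
  calc v (a s) * v (∏ k, y (s k) - ∏ k, x (s k)) ≤ 1 * γ :=
        mul_le_mul' (ha s) (FM_Loc_prod v _ (fun k => x (s k)) (fun k => y (s k)) (fun k => hx _)
          (fun k => hy _) γ fun k => h _)
    _ = γ := one_mul _

end val

section
variable {K : Type} [Field K] [NumberField K]

/-- The integers of the completion are close to elements of the ring of integers. -/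
private theorem FM_Loc_close (w : HeightOneSpectrum (𝓞 K)) (x : w.adicCompletion K)
    (hx : Valued.v x ≤ 1) (m : ℕ) :
    ∃ a : 𝓞 K, Valued.v (algebraMap (𝓞 K) (w.adicCompletion K) a - x) < WithZero.exp (-(m : ℤ)) := by
  obtain ⟨c, hc⟩ := HeightOneSpectrum.valuedAdicCompletion_surjective K w (WithZero.exp (-(m : ℤ)))
  have hc0 : Valued.v c ≠ 0 := by
    rw [hc]
    exact WithZero.exp_ne_zero
  have hc1 : Valued.v c ≤ 1 := by
    rw [hc, ← WithZero.exp_zero, WithZero.exp_le_exp]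
    omega
  have hU : {y : w.adicCompletion K | Valued.v (y - x) < Valued.v c} ∈ nhds x := by
    rw [Valued.mem_nhds]
    have h' : (Valued.v : Valuation (w.adicCompletion K) _).restrict c ≠ 0 := by
      rw [Ne, Valuation.restrict_eq_zero_iff]
      exact hc0
    refine ⟨Units.mk0 _ h', ?_⟩
    intro y hy
    exact (Valuation.restrict_lt_iff _).mp hy
  obtain ⟨y, hy, k, rfl⟩ := (mem_closure_iff_nhds.mp (w.denseRange_algebraMap K x)) _ hU
  have hy' : Valued.v (algebraMap K (w.adicCompletion K) k - x) < Valued.v c := hy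
  have hk1 : w.valuation K k ≤ 1 := by
    rw [← HeightOneSpectrum.valuedAdicCompletion_eq_valuation' w k]
    have h1 : (algebraMap K (w.adicCompletion K) k) =
        (algebraMap K (w.adicCompletion K) k - x) + x := by ring
    have h2 : Valued.v (algebraMap K (w.adicCompletion K) k) ≤ 1 := by
      rw [h1]
      exact (Valuation.map_add _ _ _).trans (max_le (hy'.le.trans hc1) hx)
    exact h2
  have hγ : (WithZero.exp (-(m : ℤ)) : WithZero (Multiplicative ℤ)) ≠ 0 := WithZero.exp_ne_zero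
  obtain ⟨a, ha⟩ := w.exists_valuation_sub_lt_of_integer (K := K) hk1 (Units.mk0 _ hγ)
  rw [Units.val_mk0] at ha
  refine ⟨a, ?_⟩
  have h1 : algebraMap (𝓞 K) (w.adicCompletion K) a - x =
      algebraMap K (w.adicCompletion K) (algebraMap (𝓞 K) K a - k) +
        (algebraMap K (w.adicCompletion K) k - x) := by
    rw [map_sub, ← IsScalarTower.algebraMap_apply (𝓞 K) K (w.adicCompletion K)]
    ring
  rw [h1]
  refine lt_of_le_of_lt (Valuation.map_add _ _ _) (max_lt ?_ ?_)
  · have h2 := HeightOneSpectrum.valuedAdicCompletion_eq_valuation' w (algebraMap (𝓞 K) K a - k)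
    refine lt_of_eq_of_lt ?_ ha
    exact h2
  · rw [← hc]
    exact hy'

private theorem FM_Loc_alg (w : HeightOneSpectrum (𝓞 K)) (a : 𝓞 K) :
    Valued.v (algebraMap (𝓞 K) (w.adicCompletion K) a) = w.intValuation a := by
  have h2 := HeightOneSpectrum.valuedAdicCompletion_eq_valuation' w (algebraMap (𝓞 K) K a)
  rw [HeightOneSpectrum.valuation_of_algebraMap] at h2
  exact h2

variable {n d : ℕ}

theorem psolT_of_adic {t m : ℕ} (hd : d = t * m) (ht : 1 ≤ t) {F : Ten n d (𝓞 K)}
    (h : ∀ v : HeightOneSpectrum (𝓞 K), ∃ (x : Fin (n + 1) → v.adicCompletion K)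
      (u : v.adicCompletion K), x ≠ 0 ∧ MvPolynomial.aeval x (poly F) = u ^ t) : PSolT t F := by
  intro P hP hP0 k
  obtain ⟨w, rfl⟩ : ∃ w : HeightOneSpectrum (𝓞 K), w.asIdeal = P := ⟨⟨P, hP, hP0⟩, rfl⟩
  obtain ⟨x, u, hx, hx0⟩ := h w
  set f : 𝓞 K →+* w.adicCompletion K := algebraMap (𝓞 K) (w.adicCompletion K) with hf
  have hx1 : ev (tmap f F) x = u ^ t := by
    rw [hf, ← aeval_poly]
    exact hx0
  obtain ⟨i0, -, hi0⟩ := Finset.exists_max_image (Finset.univ : Finset (Fin (n + 1)))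
    (fun i => Valued.v (x i)) ⟨0, Finset.mem_univ _⟩
  have hne : x i0 ≠ 0 := by
    intro h0
    apply hx
    funext i
    have h1 := hi0 i (Finset.mem_univ i)
    rw [h0, map_zero] at h1
    exact (Valuation.zero_iff _).1 (le_antisymm h1 zero_le)
  have hv0 : Valued.v (x i0) ≠ 0 := (Valuation.ne_zero_iff _).2 hne
  set z : Fin (n + 1) → w.adicCompletion K := fun i => (x i0)⁻¹ * x i with hz
  have hz1 : ∀ i, Valued.v (z i) ≤ 1 := by
    intro i
    rw [hz]
    simp only
    rw [map_mul, map_inv₀]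
    have h1 := hi0 i (Finset.mem_univ i)
    calc (Valued.v (x i0))⁻¹ * Valued.v (x i) ≤ (Valued.v (x i0))⁻¹ * Valued.v (x i0) :=
          mul_le_mul' le_rfl h1
      _ = 1 := inv_mul_cancel₀ hv0
  have hz0 : z i0 = 1 := by
    rw [hz]
    exact inv_mul_cancel₀ hne
  have hfa : ∀ a : 𝓞 K, Valued.v (f a) ≤ 1 := by
    intro a
    rw [hf, FM_Loc_alg]
    exact w.intValuation_le_one a
  set ω : w.adicCompletion K := ((x i0)⁻¹) ^ m * u with hω
  have hz2 : ev (tmap f F) z = ω ^ t := by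
    rw [hz, Pool.Agent.Lib.MP_1ad228_ntF.ev_scale, hx1, hω, mul_pow, ← pow_mul, hd, mul_comm t m]
  have hω1 : Valued.v ω ≤ 1 := by
    have h1 : Valued.v (ev (tmap f F) z) ≤ 1 := by
      unfold Pool.Agent.Lib.MP_1ad228_ntF.ev
      refine FM_Loc_sum Valued.v _ _ 1 fun s => ?_
      rw [map_mul, map_prod]
      calc Valued.v (tmap f F s) * ∏ k, Valued.v (z (s k)) ≤ 1 * 1 :=
            mul_le_mul' (hfa _) (Finset.prod_le_one' fun i _ => hz1 _)
        _ = 1 := one_mul _
    rw [hz2, map_pow] at h1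
    exact (pow_le_one_iff (by omega)).1 h1
  choose y hy using fun i => FM_Loc_close w (z i) (hz1 i) k
  obtain ⟨b, hb⟩ := FM_Loc_close w ω hω1 k
  have hm1 : (WithZero.exp (-(k : ℤ)) : WithZero (Multiplicative ℤ)) ≤ 1 := by
    rw [← WithZero.exp_zero, WithZero.exp_le_exp]
    omega
  refine ⟨y, b, ⟨i0, fun hmem => ?_⟩, ?_⟩
  · have h1 : Valued.v (f (y i0)) < 1 := by
      rw [hf, FM_Loc_alg]
      exact (w.intValuation_lt_one_iff_mem _).2 hmem
    have h2 : Valued.v (f (y i0) - 1) < 1 := by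
      have h3 := hy i0
      rw [hz0] at h3
      exact lt_of_lt_of_le h3 hm1
    have h3 : (1 : w.adicCompletion K) = f (y i0) - (f (y i0) - 1) := by ring
    have h4 : Valued.v (1 : w.adicCompletion K) < 1 := by
      rw [h3]
      exact lt_of_le_of_lt (Valuation.map_sub _ _ _) (max_lt h1 h2)
    rw [map_one] at h4
    exact lt_irrefl _ h4
  · have h1 : Valued.v (ev (tmap f F) (fun i => f (y i)) - ev (tmap f F) z) ≤
        WithZero.exp (-(k : ℤ)) :=
      FM_Loc_ev Valued.v (tmap f F) z (fun i => f (y i)) (fun s => hfa _) hz1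
        (fun i => hfa _) _ fun i => (hy i).le
    have h2 : ev (tmap f F) (fun i => f (y i)) = f (ev F y) :=
      Pool.Agent.Lib.MP_1ad228_ntF.ev_map f F y
    have h3 : Valued.v (f b ^ t - ω ^ t) ≤ WithZero.exp (-(k : ℤ)) := by
      have h4 := FM_Loc_prod Valued.v (Finset.univ : Finset (Fin t)) (fun _ => ω) (fun _ => f b)
        (fun _ => hω1) (fun _ => hfa b) (WithZero.exp (-(k : ℤ))) (fun _ => hb.le)
      simpa using h4
    have h4 : f (ev F y - b ^ t) = (f (ev F y) - ω ^ t) - (f b ^ t - ω ^ t) := by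
      rw [map_sub, map_pow]
      ring
    have h5 : Valued.v (f (ev F y - b ^ t)) ≤ WithZero.exp (-(k : ℤ)) := by
      rw [h4]
      rw [hz2, h2] at h1
      exact (Valuation.map_sub _ _ _).trans (max_le h1 h3)
    rw [hf, FM_Loc_alg] at h5
    exact (w.intValuation_le_pow_iff_mem _ k).1 h5

theorem solT_of_locSolT {t m : ℕ} (hd : d = t * m) (ht : 1 ≤ t) {F : Ten n d (𝓞 K)}
    (h : LocSolT t (poly F)) : (∀ v, RSolT t v F) ∧ PSolT t F := by
  obtain ⟨hr, hc, hp⟩ := h
  refine ⟨fun v => ?_, psolT_of_adic hd ht hp⟩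
  by_cases hv : v.IsReal
  · obtain ⟨x, u, hx, hx0⟩ := hr (InfinitePlace.embedding_of_isReal hv)
    refine ⟨fun i => (x i : ℂ), (u : ℂ), fun l _ => Complex.ofReal_im _,
      fun _ => Complex.ofReal_im _, fun h0 => hx ?_, ?_⟩
    · funext i
      exact Complex.ofReal_eq_zero.1 (congrFun h0 i)
    · rw [eval2_poly] at hx0
      have h2 := Pool.Agent.Lib.MP_1ad228_ntF.ev_map Complex.ofRealHom
        (tmap ((InfinitePlace.embedding_of_isReal hv).comp (algebraMap (𝓞 K) K)) F) x
      rw [hx0, map_pow] at h2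
      have h3 : (fun s => Complex.ofRealHom
          (tmap ((InfinitePlace.embedding_of_isReal hv).comp (algebraMap (𝓞 K) K)) F s)) =
          tmap (em v) F := by
        funext s
        exact InfinitePlace.embedding_of_isReal_apply hv _
      rw [h3] at h2
      exact h2
  · obtain ⟨x, u, hx, hx0⟩ := hc v.embedding
    refine ⟨x, u, fun l h0 => absurd h0 hv, fun h0 => absurd h0 hv, hx, ?_⟩
    rw [eval2_poly] at hx0
    exact hx0

theorem locSolT_of_zero {t : ℕ} {F : Ten n d (𝓞 K)} {x : Vc n (𝓞 K)} {u : 𝓞 K} (hx : x ≠ 0)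
    (h : ev F x = u ^ t) : LocSolT t (poly F) := by
  have key : ∀ (R : Type) [CommRing R] (f : 𝓞 K →+* R), Function.Injective f →
      ∃ (y : Fin (n + 1) → R) (b : R), y ≠ 0 ∧ (poly F).eval₂ f y = b ^ t := by
    intro R _ f hf
    refine ⟨fun i => f (x i), f u, fun h0 => hx ?_, ?_⟩
    · funext i
      exact hf ((congrFun h0 i).trans (map_zero f).symm)
    · rw [eval2_poly]
      have h2 := Pool.Agent.Lib.MP_1ad228_ntF.ev_map f F x
      rw [h, map_pow] at h2
      exact h2
  have hinj : Function.Injective (algebraMap (𝓞 K) K) := RingOfIntegers.coe_injective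
  refine ⟨fun σ => key ℝ _ (σ.injective.comp hinj), fun σ => key ℂ _ (σ.injective.comp hinj),
    fun v => ?_⟩
  have h1 : Function.Injective (algebraMap (𝓞 K) (v.adicCompletion K)) := by
    rw [IsScalarTower.algebraMap_eq (𝓞 K) K (v.adicCompletion K)]
    exact (algebraMap K (v.adicCompletion K)).injective.comp hinj
  obtain ⟨y, b, hy, hy0⟩ := key (v.adicCompletion K) _ h1
  refine ⟨y, b, hy, ?_⟩
  rw [MvPolynomial.aeval_def]
  exact hy0

theorem smallSolT_iff (t e : ℕ) (X : ℝ) (F : Ten n d (𝓞 K)) :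
    SmallSolT t e X (poly F) ↔ ∃ (x : Vc n (𝓞 K)) (u : 𝓞 K), x ≠ 0 ∧
      (∀ i, ∀ v : InfinitePlace K, v (x i : K) ^ e ≤ X) ∧ ev F x = u ^ t := by
  have e' : ∀ x : Vc n (𝓞 K), MvPolynomial.aeval x (poly F) = ev F x := fun x => aeval_poly F x
  have e2 : ∀ z : 𝓞 K, (∀ φ : K →+* ℂ, ‖φ (z : K)‖ ^ e ≤ X) ↔
      ∀ v : InfinitePlace K, v (z : K) ^ e ≤ X := by
    intro z
    constructor
    · intro h v
      rw [← InfinitePlace.norm_embedding_eq v]
      exact h _
    · intro h φ
      have h1 := h (InfinitePlace.mk φ)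
      rwa [InfinitePlace.apply] at h1
  unfold SmallSolT
  simp only [e', e2]

theorem smoothT_of {t : ℕ} (ht : 2 ≤ t) (F : Ten n d (𝓞 K))
    (h : ∀ x : Vc n (AlgebraicClosure K), x ≠ 0 →
      (∀ k, ev (fmap (algebraMap (𝓞 K) (AlgebraicClosure K)) (sg F) k) x = 0) →
      LinearIndependent (AlgebraicClosure K)
        (fun k => dev (fmap (algebraMap (𝓞 K) (AlgebraicClosure K)) (sg F) k) x)) :
    SmoothT t (poly F) := by
  intro x u hx hu
  by_cases hu0 : (t : AlgebraicClosure K) * u ^ (t - 1) ≠ 0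
  · exact Or.inl hu0
  · right
    rw [not_not, mul_eq_zero] at hu0
    have hu1 : u = 0 := by
      rcases hu0 with h0 | h0
      · exact absurd (Nat.cast_eq_zero.1 h0) (by omega)
      · exact eq_zero_of_pow_eq_zero h0
    have h1 : ev (tmap (algebraMap (𝓞 K) (AlgebraicClosure K)) F) x = 0 := by
      rw [← aeval_poly, hu, hu1, zero_pow (by omega)]
    have h2 := (h x hx fun _ => h1).ne_zero 0
    obtain ⟨i, hi⟩ := Function.ne_iff.1 h2
    refine ⟨i, ?_⟩
    rw [pderiv_poly]
    exact hi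

end

end Pool.Agent.Lib.MP_1ad228_ntW
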