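import Pool.Agent.Lib.MP_1ad228_ntW.Defs
import Pool.Agent.Lib.MP_1ad228_ntN.Psi

/-!
JOB G_Cheb.  Chebyshev.  (Model with proof: Lib/MP_1ad228_ntN/MN_Cheb.lean.)

PROOF.  For `F ∈ T`: `psi A F ≥ 1/2` (`psi_half`, `1 ≤ A`), `(Nt - Lt)^2 = Lt^2 ≥ l^2`.  `T ⊆ Box K n d A ⊆ Box K n d (2 * A)`, all terms of `Qt` are `≥ 0`.  So `Qt ≥ T.card * (l^2/2)`.
-/

namespace Pool.Agent.Lib.MP_1ad228_ntW

open NumberField Classical Pool.Agent.Lib.MP_1ad228_ntN

variable {K : Type} [Field K] [NumberField K]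

theorem chebT (n d t R W κ A B H q : ℕ) (hA : 1 ≤ A) (o : Fin (n + 1)) (l : ℝ) (hl : 0 ≤ l)
    (T : Finset (Ten n d (𝓞 K))) (hT : ∀ F ∈ T, F ∈ Box K n d A ∧ Nt t R B H q o F = 0 ∧
      l ≤ Lt t R W κ A B H q o F) :
    (T.card : ℝ) * l ^ 2 ≤ 2 * Qt K n d t R W κ A B H q o := by
  have hA0 : (0 : ℝ) ≤ A := Nat.cast_nonneg A
  have hsub : T ⊆ Box K n d (2 * A) := fun F hF => by
    have h1 := (hT F hF).1
    rw [mem_Box] at h1 ⊢
    exact fun s v => (h1 s v).trans (by linarith)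
  have h1 : ∑ F ∈ T, psi A F * ((Nt t R B H q o F : ℝ) - Lt t R W κ A B H q o F) ^ 2 ≤
      Qt K n d t R W κ A B H q o :=
    Finset.sum_le_sum_of_subset_of_nonneg hsub fun F _ _ =>
      mul_nonneg (psi_nonneg A F) (sq_nonneg _)
  have h2 : (T.card : ℝ) * (1 / 2 * l ^ 2) ≤
      ∑ F ∈ T, psi A F * ((Nt t R B H q o F : ℝ) - Lt t R W κ A B H q o F) ^ 2 := by
    calc (T.card : ℝ) * (1 / 2 * l ^ 2) = ∑ _F ∈ T, (1 / 2 * l ^ 2) := by
          rw [Finset.sum_const, nsmul_eq_mul]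
      _ ≤ _ := by
          apply Finset.sum_le_sum
          intro F hF
          obtain ⟨hb, hN, hL⟩ := hT F hF
          rw [hN]
          have h3 : (((0 : ℕ) : ℝ) - Lt t R W κ A B H q o F) ^ 2 =
              (Lt t R W κ A B H q o F) ^ 2 := by
            rw [Nat.cast_zero]
            ring
          rw [h3]
          have h4 : l ^ 2 ≤ (Lt t R W κ A B H q o F) ^ 2 := pow_le_pow_left₀ hl hL 2
          exact mul_le_mul (psi_half hA hb) h4 (by positivity) (psi_nonneg A F)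
  have h3 := h2.trans h1
  linarith

end Pool.Agent.Lib.MP_1ad228_ntW
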