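import Pool.Agent.Lib.MP_1ad228_ntW.Defs

/-!
JOB LD_CrtT.  Chinese remainders.  (Model with proof: Lib/MP_1ad228_ntN/LD_Crt.lean, `LD_mul`, `LD_prod`.)

PROOF.  As in the model; now the solutions are pairs `(x, u)`: `((x, u), (x', u')) ↦ (i ↦ e.symm (x i, x' i), e.symm (u, u'))`.
-/

namespace Pool.Agent.Lib.MP_1ad228_ntW

open NumberField Classical Pool.Agent.Lib.MP_1ad228_ntN

variable {K : Type} [Field K] [NumberField K]

private theorem LD_CrtT_lin {n : ℕ} {R S : Type*} [CommRing R] [CommRing S] (f : R →+* S)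
    (u x : Vc n R) : lin (fun i => f (u i)) (fun i => f (x i)) = f (lin u x) := by
  simp [lin, map_sum, map_mul]

theorem mulT {n d : ℕ} (t : ℕ) (I J : Ideal (𝓞 K)) (hI : I ≠ ⊥) (hJ : J ≠ ⊥)
    (h : IsCoprime I J) (F : Ten n d (𝓞 K)) : smT t I F * smT t J F ≤ smT t (I * J) F := by
  have hfin1 : Finite (𝓞 K ⧸ I) := finite_quot hI
  have hfin2 : Finite (𝓞 K ⧸ J) := finite_quot hJ
  have hfin3 : Finite (𝓞 K ⧸ I * J) := finite_quot (mul_ne_zero hI hJ)
  let e : 𝓞 K ⧸ I * J ≃+* (𝓞 K ⧸ I) × (𝓞 K ⧸ J) := Ideal.quotientMulEquivQuotientProd I J h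
  have hinj : Function.Injective e := e.injective
  let f1 : 𝓞 K ⧸ I * J →+* 𝓞 K ⧸ I := (RingHom.fst (𝓞 K ⧸ I) (𝓞 K ⧸ J)).comp e.toRingHom
  let f2 : 𝓞 K ⧸ I * J →+* 𝓞 K ⧸ J := (RingHom.snd (𝓞 K ⧸ I) (𝓞 K ⧸ J)).comp e.toRingHom
  have hf1 : ∀ z : 𝓞 K, f1 (Ideal.Quotient.mk (I * J) z) = Ideal.Quotient.mk I z := by
    intro z
    change (Ideal.quotientMulEquivQuotientProd I J h (Ideal.Quotient.mk (I * J) z)).fst = _
    rw [Ideal.quotientMulEquivQuotientProd_fst, Ideal.Quotient.factor_mk]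
  have hf2 : ∀ z : 𝓞 K, f2 (Ideal.Quotient.mk (I * J) z) = Ideal.Quotient.mk J z := by
    intro z
    change (Ideal.quotientMulEquivQuotientProd I J h (Ideal.Quotient.mk (I * J) z)).snd = _
    rw [Ideal.quotientMulEquivQuotientProd_snd, Ideal.Quotient.factor_mk]
  have hr1 : (fun s => f1 (tmap (Ideal.Quotient.mk (I * J)) F s)) = tmap (Ideal.Quotient.mk I) F :=
    funext fun s => hf1 (F s)
  have hr2 : (fun s => f2 (tmap (Ideal.Quotient.mk (I * J)) F s)) = tmap (Ideal.Quotient.mk J) F :=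
    funext fun s => hf2 (F s)
  have key : ∀ (z : Vc n (𝓞 K ⧸ I * J)) (x : Vc n (𝓞 K ⧸ I)) (y : Vc n (𝓞 K ⧸ J)),
      (∀ i, e (z i) = (x i, y i)) →
      e (ev (tmap (Ideal.Quotient.mk (I * J)) F) z) =
        (ev (tmap (Ideal.Quotient.mk I) F) x, ev (tmap (Ideal.Quotient.mk J) F) y) := by
    intro z x y hz
    have h1 := ev_map f1 (tmap (Ideal.Quotient.mk (I * J)) F) z
    have h2 := ev_map f2 (tmap (Ideal.Quotient.mk (I * J)) F) z
    have e1 : (fun i => f1 (z i)) = x := by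
      funext i
      exact congrArg Prod.fst (hz i)
    have e2 : (fun i => f2 (z i)) = y := by
      funext i
      exact congrArg Prod.snd (hz i)
    rw [e1, hr1] at h1
    rw [e2, hr2] at h2
    exact Prod.ext h1.symm h2.symm
  have keyl : ∀ (v z : Vc n (𝓞 K ⧸ I * J)) (u x : Vc n (𝓞 K ⧸ I)) (w y : Vc n (𝓞 K ⧸ J)),
      (∀ i, e (v i) = (u i, w i)) → (∀ i, e (z i) = (x i, y i)) →
      e (lin v z) = (lin u x, lin w y) := by
    intro v z u x w y hv hz
    have h1 := LD_CrtT_lin f1 v z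
    have h2 := LD_CrtT_lin f2 v z
    have e1 : (fun i => f1 (z i)) = x := by
      funext i
      exact congrArg Prod.fst (hz i)
    have e2 : (fun i => f2 (z i)) = y := by
      funext i
      exact congrArg Prod.snd (hz i)
    have e3 : (fun i => f1 (v i)) = u := by
      funext i
      exact congrArg Prod.fst (hv i)
    have e4 : (fun i => f2 (v i)) = w := by
      funext i
      exact congrArg Prod.snd (hv i)
    rw [e1, e3] at h1
    rw [e2, e4] at h2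
    exact Prod.ext h1.symm h2.symm
  unfold smT smRT
  rw [← Nat.card_prod]
  let Φ : {p : Vc n (𝓞 K ⧸ I) × (𝓞 K ⧸ I) // Uni p.1 ∧ ev (tmap (Ideal.Quotient.mk I) F) p.1 = p.2 ^ t} ×
      {p : Vc n (𝓞 K ⧸ J) × (𝓞 K ⧸ J) // Uni p.1 ∧ ev (tmap (Ideal.Quotient.mk J) F) p.1 = p.2 ^ t} →
      {p : Vc n (𝓞 K ⧸ I * J) × (𝓞 K ⧸ I * J) //
        Uni p.1 ∧ ev (tmap (Ideal.Quotient.mk (I * J)) F) p.1 = p.2 ^ t} := fun p =>
    ⟨(fun i => e.symm (p.1.1.1 i, p.2.1.1 i), e.symm (p.1.1.2, p.2.1.2)), by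
      obtain ⟨⟨⟨x, a⟩, ⟨u, hu⟩, hx⟩, ⟨⟨y, b⟩, ⟨w, hw⟩, hy⟩⟩ := p
      refine ⟨?_, ?_⟩
      · refine ⟨fun i => e.symm (u i, w i), hinj ?_⟩
        rw [keyl _ _ u x w y (fun i => e.apply_symm_apply _) (fun i => e.apply_symm_apply _),
          hu, hw, map_one]
        rfl
      · apply hinj
        have h1 : ev (tmap (Ideal.Quotient.mk I) F) x = a ^ t := hx
        have h2 : ev (tmap (Ideal.Quotient.mk J) F) y = b ^ t := hy
        have h3 := key (fun i => e.symm (x i, y i)) x y (fun i => e.apply_symm_apply _)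
        rw [h1, h2] at h3
        have h4 : e (e.symm (a, b) ^ t) = (a ^ t, b ^ t) := by
          rw [map_pow, e.apply_symm_apply]
          rfl
        rw [h4]
        exact h3⟩
  have hΦ : Function.Injective Φ := by
    intro p p' hpp
    have h0 := congrArg Subtype.val hpp
    have h1 : ∀ i, (p.1.1.1 i, p.2.1.1 i) = (p'.1.1.1 i, p'.2.1.1 i) := by
      intro i
      have h2 := congrFun (congrArg Prod.fst h0) i
      exact e.symm.injective h2
    have h3 : (p.1.1.2, p.2.1.2) = (p'.1.1.2, p'.2.1.2) := e.symm.injective (congrArg Prod.snd h0)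
    have h5 : p.1.1.2 = p'.1.1.2 := (Prod.mk.inj h3).1
    have h6 : p.2.1.2 = p'.2.1.2 := (Prod.mk.inj h3).2
    have h7 : p.1.1.1 = p'.1.1.1 := funext fun i => congrArg Prod.fst (h1 i)
    have h8 : p.2.1.1 = p'.2.1.1 := funext fun i => congrArg Prod.snd (h1 i)
    exact Prod.ext (Subtype.ext (Prod.ext h7 h5)) (Subtype.ext (Prod.ext h8 h6))
  exact Nat.card_le_card_of_injective Φ hΦ

theorem prodT {n d : ℕ} (t : ℕ) {ι : Type*} (s : Finset ι) (f : ι → Ideal (𝓞 K))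
    (hf : ∀ i ∈ s, f i ≠ ⊥) (hc : ∀ i ∈ s, ∀ j ∈ s, i ≠ j → IsCoprime (f i) (f j))
    (F : Ten n d (𝓞 K)) : ∏ i ∈ s, smT t (f i) F ≤ smT t (∏ i ∈ s, f i) F := by
  induction s using Finset.induction_on with
  | empty =>
    rw [Finset.prod_empty, Finset.prod_empty]
    have hss : Subsingleton (𝓞 K ⧸ (1 : Ideal (𝓞 K))) :=
      Ideal.Quotient.subsingleton_iff.2 Ideal.one_eq_top
    have hne : Nonempty {p : Vc n (𝓞 K ⧸ (1 : Ideal (𝓞 K))) × (𝓞 K ⧸ (1 : Ideal (𝓞 K))) //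
        Uni p.1 ∧ ev (tmap (Ideal.Quotient.mk (1 : Ideal (𝓞 K))) F) p.1 = p.2 ^ t} :=
      ⟨⟨(0, 0), ⟨0, Subsingleton.elim _ _⟩, Subsingleton.elim _ _⟩⟩
    have hfin : Finite (𝓞 K ⧸ (1 : Ideal (𝓞 K))) := inferInstance
    have hfin2 : Finite {p : Vc n (𝓞 K ⧸ (1 : Ideal (𝓞 K))) × (𝓞 K ⧸ (1 : Ideal (𝓞 K))) //
        Uni p.1 ∧ ev (tmap (Ideal.Quotient.mk (1 : Ideal (𝓞 K))) F) p.1 = p.2 ^ t} := inferInstance
    unfold smT smRT
    exact Nat.card_pos
  | insert i s hi ih =>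
    have h1 := ih (fun j hj => hf j (Finset.mem_insert_of_mem hj))
      (fun j hj k hk => hc j (Finset.mem_insert_of_mem hj) k (Finset.mem_insert_of_mem hk))
    have h2 : IsCoprime (f i) (∏ j ∈ s, f j) := by
      apply IsCoprime.prod_right
      intro j hj
      refine hc i (Finset.mem_insert_self _ _) j (Finset.mem_insert_of_mem hj) ?_
      rintro rfl
      exact hi hj
    have h3 : ∏ j ∈ s, f j ≠ ⊥ :=
      Finset.prod_ne_zero_iff.2 fun j hj => hf j (Finset.mem_insert_of_mem hj)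
    have h4 := mulT t (f i) (∏ j ∈ s, f j) (hf i (Finset.mem_insert_self _ _)) h3 h2 F
    rw [Finset.prod_insert hi, Finset.prod_insert hi]
    exact (Nat.mul_le_mul_left _ h1).trans h4

end Pool.Agent.Lib.MP_1ad228_ntW
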