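import Pool.Agent.Lib.MP_1ad228_ntW.B_Sum
import Pool.Agent.Lib.MP_1ad228_ntN.LD_Del

/-!
JOB LD_DelT.  The sum over the ideals of a quotient of the ring of integers without small prime factors.  (Model with proof: Lib/MP_1ad228_ntN/LD_Del.lean; there the exponent is `-2` and `idTail` is used.)

PROOF.  As in the model: `J ↦ J' = J.comap (Ideal.Quotient.mk I)` is injective, `Nat.card ((𝓞 K ⧸ I) ⧸ J) = absNorm J'` (`LD_Del_card` of the model, private there: copy it), `J' ≠ ⊤, ⊥`, `J'` is contained in a prime ideal `P ≥ I`, so `absNorm J' ≥ absNorm P > p0`.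
`idTailA K (2 - a)` with `w = p0`: `∑ (absNorm J')^(-(2-a)) ≤ C (p0 + 1)^(1 - (2 - a)) = C (p0+1)^(a-1)`.
-/

namespace Pool.Agent.Lib.MP_1ad228_ntW

open NumberField Classical Pool.Agent.Lib.MP_1ad228_ntN

variable (K : Type) [Field K] [NumberField K]

private theorem LD_DelT_card {K : Type} [Field K] [NumberField K] (I : Ideal (𝓞 K)) (J : Ideal (𝓞 K ⧸ I)) :
    Nat.card ((𝓞 K ⧸ I) ⧸ J) = Ideal.absNorm (J.comap (Ideal.Quotient.mk I)) := by
  rw [← card_quotO]
  have hsurj : Function.Surjective ((Ideal.Quotient.mk J).comp (Ideal.Quotient.mk I)) := by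
    rw [RingHom.coe_comp]
    exact Ideal.Quotient.mk_surjective.comp Ideal.Quotient.mk_surjective
  have hker : RingHom.ker ((Ideal.Quotient.mk J).comp (Ideal.Quotient.mk I)) = J.comap (Ideal.Quotient.mk I) := by
    rw [← RingHom.comap_ker, Ideal.mk_ker]
  have e := RingHom.quotientKerEquivOfSurjective hsurj
  rw [← hker]
  exact (Nat.card_congr e.toEquiv).symm

theorem delT (a : ℝ) (ha1 : a < 1) : ∃ C : ℝ, 1 ≤ C ∧ ∀ (p0 : ℕ) (I : Ideal (𝓞 K)), I ≠ ⊥ →
    (∀ P : Ideal (𝓞 K), P.IsPrime → I ≤ P → p0 < Ideal.absNorm P) →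
    IdA (𝓞 K ⧸ I) a (C * ((p0 : ℝ) + 1) ^ (a - 1)) := by
  obtain ⟨C, hC, hsum⟩ := idTailA K (2 - a) (by linarith)
  refine ⟨C, hC, fun p0 I hI h => ?_⟩
  intro T hT
  have hinj : Function.Injective (fun J : Ideal (𝓞 K ⧸ I) => J.comap (Ideal.Quotient.mk I)) :=
    Ideal.comap_injective_of_surjective _ Ideal.Quotient.mk_surjective
  have hIle : ∀ J : Ideal (𝓞 K ⧸ I), I ≤ J.comap (Ideal.Quotient.mk I) := by
    intro J x hx
    rw [Ideal.mem_comap, Ideal.Quotient.eq_zero_iff_mem.2 hx]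
    exact J.zero_mem
  have hsum' : ∑ J ∈ T, (Nat.card ((𝓞 K ⧸ I) ⧸ J) : ℝ) ^ (a - 2)
      = ∑ J' ∈ T.image (fun J : Ideal (𝓞 K ⧸ I) => J.comap (Ideal.Quotient.mk I)),
        (Ideal.absNorm J' : ℝ) ^ (-(2 - a)) := by
    rw [Finset.sum_image fun a _ b _ hab => hinj hab]
    refine Finset.sum_congr rfl fun J _ => ?_
    rw [LD_DelT_card, neg_sub]
  rw [hsum']
  have h0 : (1 : ℝ) - (2 - a) = a - 1 := by ring
  rw [← h0]
  refine hsum p0 _ fun J' hJ' => ?_
  obtain ⟨J, hJ, rfl⟩ := Finset.mem_image.1 hJ'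
  have hne_top : J.comap (Ideal.Quotient.mk I) ≠ ⊤ := by
    intro h0
    have h1 : J = ⊤ := by
      rw [Ideal.eq_top_iff_one]
      have h2 : (1 : 𝓞 K) ∈ J.comap (Ideal.Quotient.mk I) := by
        rw [h0]
        exact Submodule.mem_top
      rw [Ideal.mem_comap, map_one] at h2
      exact h2
    rw [h1] at hJ
    exact hT hJ
  have hne_bot : J.comap (Ideal.Quotient.mk I) ≠ ⊥ := by
    intro h0
    have h1 := hIle J
    rw [h0, le_bot_iff] at h1
    exact hI h1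
  obtain ⟨P, hP, hle⟩ := Ideal.exists_le_maximal _ hne_top
  have hIP : I ≤ P := (hIle J).trans hle
  have h1 : p0 < Ideal.absNorm P := h P hP.isPrime hIP
  have h2 : Ideal.absNorm P ∣ Ideal.absNorm (J.comap (Ideal.Quotient.mk I)) :=
    Ideal.absNorm_dvd_absNorm_of_le hle
  have h3 : Ideal.absNorm (J.comap (Ideal.Quotient.mk I)) ≠ 0 := by
    intro h0
    exact hne_bot (Ideal.absNorm_eq_zero_iff.1 h0)
  have h4 := Nat.le_of_dvd (Nat.pos_of_ne_zero h3) h2
  exact_mod_cast lt_of_lt_of_le h1 h4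

end Pool.Agent.Lib.MP_1ad228_ntW
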