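import Pool.Agent.Lib.MP_1ad228_ntW.LD_Lift
import Pool.Agent.Lib.MP_1ad228_ntN.LD_Loc

/-!
JOB LD_HenT.  Many solutions modulo `P^w`.  (Model with proof: Lib/MP_1ad228_ntN/LD_Hensel.lean.)

PROOF.  `A, π, j, ρ` from `LD_loc` (call the exponent of the statement `e` instead of `j`).  Every `ρ_m` is surjective.  `Dt` with `(t : 𝓞 K) ∉ P^(Dt+1)` (`(t : 𝓞 K) ≠ 0`; e.g. `absNorm (P^k) ∣ absNorm (span {t})` for `t ∈ P^k`, and `absNorm P ≥ 2`), so `¬ π^(Dt+1) ∣ (t : A)`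
(`ρ m a = 0 ↔ π^m ∣ a`, `ρ m (j t) = mk t`).  `D0 = Dt + (t-1)(e-1)`, `g = 2 (D0 + e) + 1`.  `D = g`.  Let `w ≥ g`, `q = absNorm P`.  Hypothesis with `k = g`: `z ∈ (𝓞 K)^(n+1)`, `v ∈ 𝓞 K`, `z p ∉ P`, `ev F z - v^t ∈ P^g`.
`G = tmap j F`, `x = j z`, `u = j v`: `x p` is a unit, `π^g ∣ ev G x - u^t`.

Case U: `¬ π^e ∣ u`.  Then `u = π^E ε`, `E ≤ e - 1`, and `¬ π^(D0+1) ∣ t u^(t-1)` (valuation of `t` `≤ Dt`).  For `b : Fin (n+1) → 𝓞 K ⧸ P^(w-g)` let `x_b l = x l + π^g * (lift of b l)` (`ρ (w-g) (lift c) = c`).  `π^g ∣ ev G x_b - ev G x` (`ev_congr_dvd`), so `π^(2 D0 + 1) ∣ ev G x_b - u^t`;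
 `rootLift` gives `u_b` with `π^w ∣ ev G x_b - u_b^t`.  The pair `(ρ w x_b, ρ w u_b)` is a solution of `smT t (P^w) F` (`ev_map`; unimodular as `x_b p` is a unit: `π ∣ x_b p - x p`), and `b ↦` pair is injective (as in the model).  So `(q^(w-g))^(n+1) ≤ smT t (P^w) F`.

Case X: `π^e ∣ u`.  Then `π^e ∣ ev G x` (`t ≥ 1`, `g ≥ e`), i.e. `ev (tmap mk F) (mk z) = 0` modulo `P^e`; scaling by the inverse `λ` of `x p` (in `𝓞 K ⧸ P^e`: `z p` is a unit modulo `P^e`) gives a zero with coordinate `p` equal to `1`; `¬ ExcR (red (P^e) (sg F))` gives `i ≠ p` with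
 `dev .. (λ z) i ≠ 0` modulo `P^e`, so `¬ π^e ∣ dev G x i` (`dev` is homogeneous: `dev_scale`; or use `ρ e`, `dev_map`).  With `D1 = e - 1`, `¬ π^(D1+1) ∣ dev G x i`, `2 D1 + 1 ≤ g`.  For `b : 𝓞 K ⧸ P^(w-g)` and `b' : {l // l ≠ i} → 𝓞 K ⧸ P^(w-g)`: `u_b = u + π^g lift b`, `x_b l = x l + π^g lift (b' l)` for `l ≠ i`, `x_b i = x i`.
 `π^g ∣ ev G x_b - u_b^t`, `¬ π^(D1+1) ∣ dev G x_b i` (`dev_congr_dvd`), `x_b p` a unit; `coordLift` gives `x_b'` with `x_b' l = x_b l` for `l ≠ i` and `π^w ∣ ev G x_b' - u_b^t`.  The map `(b, b') ↦ (ρ w x_b', ρ w u_b)` is injective, so `(q^(w-g))^(1+n) ≤ smT`.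
-/

namespace Pool.Agent.Lib.MP_1ad228_ntW

open NumberField Classical Pool.Agent.Lib.MP_1ad228_ntN

private theorem LD_HenT_unit {A : Type*} [CommRing A] [IsLocalRing A] {π : A} (hπ : ¬ IsUnit π) (g : ℕ)
    (hg : 1 ≤ g) (a c : A) (ha : IsUnit a) : IsUnit (a + π ^ g * c) := by
  have h1 : IsUnit ((a + π ^ g * c) + -(π ^ g * c)) := by
    rw [add_neg_cancel_right]
    exact ha
  rcases IsLocalRing.isUnit_or_isUnit_of_isUnit_add h1 with h | h
  · exact h
  · exfalso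
    apply hπ
    rw [IsUnit.neg_iff] at h
    have h2 : IsUnit (π ^ g) := isUnit_of_mul_isUnit_left h
    exact (isUnit_pow_iff (by omega)).1 h2

private theorem LD_HenT_dvd {A : Type*} [CommRing A] [IsDomain A] {π : A} (hπ : Irreducible π)
    {a b : ℕ} {ε : A} (hε : IsUnit ε) (h : π ^ a ∣ ε * π ^ b) : a ≤ b := by
  rw [hε.dvd_mul_left] at h
  exact (pow_dvd_pow_iff hπ.ne_zero hπ.not_isUnit).1 h

private theorem LD_HenT_val {A : Type*} [CommRing A] [IsDomain A] [IsDiscreteValuationRing A] {π : A}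
    (hπ : Irreducible π) (t e Dt : ℕ) (ε : A) (hε : IsUnit ε) (hτ : (t : A) = ε * π ^ Dt) (u : A)
    (hu : ¬ π ^ e ∣ u) : ¬ π ^ (Dt + (t - 1) * (e - 1) + 1) ∣ (t : A) * u ^ (t - 1) := by
  have hu0 : u ≠ 0 := by
    rintro rfl
    exact hu (dvd_zero _)
  obtain ⟨E, ε', hE⟩ := IsDiscreteValuationRing.eq_unit_mul_pow_irreducible hu0 hπ
  have hEe : E ≤ e - 1 := by
    by_contra h
    apply hu
    rw [hE]
    exact Dvd.dvd.mul_left (pow_dvd_pow _ (by omega)) _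
  intro hcon
  have h1 : (t : A) * u ^ (t - 1) = (ε * (ε' : A) ^ (t - 1)) * π ^ (Dt + (t - 1) * E) := by
    rw [hτ, hE, mul_pow, pow_add, mul_comm (t - 1) E, pow_mul]
    ring
  rw [h1] at hcon
  have h2 := LD_HenT_dvd hπ (hε.mul (ε'.isUnit.pow _)) hcon
  have h3 : (t - 1) * E ≤ (t - 1) * (e - 1) := Nat.mul_le_mul_left _ hEe
  omega

theorem henselT {K : Type} [Field K] [NumberField K] (n d t : ℕ) (ht : 1 ≤ t) (hd : 1 ≤ d)
    (P : Ideal (𝓞 K)) (hP : P.IsPrime) (hP0 : P ≠ ⊥) (e : ℕ) (he : 1 ≤ e) :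
    ∃ D : ℕ, ∀ w : ℕ, D ≤ w → ∀ F : Ten n d (𝓞 K),
    (∀ k : ℕ, ∃ (x : Vc n (𝓞 K)) (u : 𝓞 K), (∃ i, x i ∉ P) ∧ ev F x - u ^ t ∈ P ^ k) →
    ¬ ExcR (red (P ^ e) (sg F)) →
    Ideal.absNorm P ^ ((n + 1) * (w - D)) ≤ smT t (P ^ w) F := by
  obtain ⟨A, _, _, _, π, j, ρ, hπ, hj, hρj, hρ0⟩ := LD_loc P hP hP0
  have hPtop : P ≠ ⊤ := hP.ne_top
  have ht0 : (t : A) ≠ 0 := by
    intro h0
    have h1 : ∀ m : ℕ, (t : 𝓞 K) ∈ P ^ m := by
      intro m
      rw [← Ideal.Quotient.eq_zero_iff_mem, ← hρj m, map_natCast, h0, map_zero]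
    have h2 : (t : 𝓞 K) ∈ ⨅ m : ℕ, P ^ m := by
      rw [Submodule.mem_iInf]
      exact h1
    rw [Ideal.iInf_pow_eq_bot_of_isDomain P hPtop, Ideal.mem_bot] at h2
    have h3 : t = 0 := by exact_mod_cast h2
    omega
  obtain ⟨Dt, ε, hτ⟩ := IsDiscreteValuationRing.eq_unit_mul_pow_irreducible ht0 hπ
  obtain ⟨D0, hD0⟩ : ∃ D0 : ℕ, D0 = Dt + (t - 1) * (e - 1) := ⟨_, rfl⟩
  obtain ⟨g, hg⟩ : ∃ g : ℕ, g = 2 * (D0 + e) + 1 := ⟨_, rfl⟩
  refine ⟨g, fun w hw F h hex => ?_⟩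
  obtain ⟨G, hG⟩ : ∃ G : Ten n d A, G = fun s => j (F s) := ⟨_, rfl⟩
  have hGred : ∀ m, (fun s => ρ m (G s)) = tmap (Ideal.Quotient.mk (P ^ m)) F := by
    intro m
    funext s
    show ρ m (G s) = Ideal.Quotient.mk (P ^ m) (F s)
    rw [hG]
    exact hρj m (F s)
  have hevG : ∀ (m : ℕ) (y : Vc n A), ev (tmap (Ideal.Quotient.mk (P ^ m)) F) (fun l => ρ m (y l)) =
      ρ m (ev G y) := by
    intro m y
    rw [← hGred]
    exact ev_map (ρ m) G y
  have hdevG : ∀ (m : ℕ) (y : Vc n A) (i : Fin (n + 1)),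
      dev (tmap (Ideal.Quotient.mk (P ^ m)) F) (fun l => ρ m (y l)) i = ρ m (dev G y i) := by
    intro m y i
    rw [← hGred]
    exact dev_map (ρ m) G y i
  obtain ⟨z, v, ⟨p, hzp⟩, hz0⟩ := h g
  obtain ⟨x, hx⟩ : ∃ x : Vc n A, x = fun l => j (z l) := ⟨_, rfl⟩
  obtain ⟨u, hu⟩ : ∃ u : A, u = j v := ⟨_, rfl⟩
  have hxp : IsUnit (x p) := by
    rw [hx]
    exact hj _ hzp
  have hx0 : π ^ g ∣ ev G x - u ^ t := by
    have h1 : ev G x = j (ev F z) := by
      rw [hG, hx]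
      exact ev_map j F z
    rw [← hρ0, h1, hu, ← map_pow, ← map_sub, hρj]
    exact Ideal.Quotient.eq_zero_iff_mem.2 hz0
  have hsur : ∀ m (c : 𝓞 K ⧸ P ^ m), ∃ a : A, ρ m a = c := by
    intro m c
    obtain ⟨y, rfl⟩ := Ideal.Quotient.mk_surjective c
    exact ⟨j y, hρj m y⟩
  choose b hb using hsur (w - g)
  have hinj : ∀ (a : A) (c c' : 𝓞 K ⧸ P ^ (w - g)), ρ w (a + π ^ g * b c) = ρ w (a + π ^ g * b c') →
      c = c' := by
    intro a c c' hcc
    have h17 : ρ w (π ^ g * (b c - b c')) = 0 := by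
      have h18 : π ^ g * (b c - b c') = (a + π ^ g * b c) - (a + π ^ g * b c') := by ring
      rw [h18, map_sub, hcc, sub_self]
    have h19 := (hρ0 w _).1 h17
    have h20 : π ^ w = π ^ g * π ^ (w - g) := by
      rw [← pow_add]
      congr 1
      omega
    rw [h20, mul_dvd_mul_iff_left (pow_ne_zero g hπ.ne_zero)] at h19
    have h21 := (hρ0 (w - g) _).2 h19
    rw [map_sub, hb, hb, sub_eq_zero] at h21
    exact h21
  have hfinw : Finite (𝓞 K ⧸ P ^ w) := finite_quot (pow_ne_zero w hP0)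
  have hsol : ∀ (y : Vc n A) (v' : A), IsUnit (y p) → π ^ w ∣ ev G y - v' ^ t →
      Uni (fun l => ρ w (y l)) ∧
        ev (tmap (Ideal.Quotient.mk (P ^ w)) F) (fun l => ρ w (y l)) = (ρ w v') ^ t := by
    intro y v' hyp hyv
    refine ⟨?_, ?_⟩
    · obtain ⟨c, hc⟩ := (hyp.map (ρ w)).exists_left_inv
      refine ⟨Pi.single p c, ?_⟩
      have h14 : lin (Pi.single p c) (fun l => ρ w (y l)) = c * ρ w (y p) := by
        simp [Pool.Agent.Lib.MP_219881_nt.lin, Pi.single_apply]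
      rw [h14]
      exact hc
    · rw [hevG, ← map_pow, ← sub_eq_zero, ← map_sub]
      exact (hρ0 w _).2 hyv
  have hQ : Nat.card (𝓞 K ⧸ P ^ (w - g)) = Ideal.absNorm P ^ (w - g) := by
    rw [card_quotO, map_pow]
  have hπu : ¬ IsUnit π := hπ.not_isUnit
  by_cases hue : π ^ e ∣ u
  · -- the variable `x i`
    obtain ⟨c0, hc0⟩ := hxp.exists_left_inv
    have hev0 : π ^ e ∣ ev G x := by
      have h1 : π ^ e ∣ u ^ t := hue.trans (dvd_pow_self u (by omega))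
      have h2 : π ^ e ∣ ev G x - u ^ t := (pow_dvd_pow π (by omega)).trans hx0
      have h3 : ev G x = (ev G x - u ^ t) + u ^ t := by ring
      rw [h3]
      exact dvd_add h2 h1
    obtain ⟨i, hip, hi⟩ : ∃ i, i ≠ p ∧ ¬ π ^ e ∣ dev G x i := by
      by_contra hcon
      have hcon' : ∀ i, i ≠ p → π ^ e ∣ dev G x i := by
        intro i hi
        by_contra h1
        exact hcon ⟨i, hi, h1⟩
      apply hex
      refine ⟨fun l => ρ e (c0 * x l), p, fun _ => 1, 0, ?_, rfl, ?_, ?_⟩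
      · show ρ e (c0 * x p) = 1
        rw [hc0, map_one]
      · intro k
        show ev (tmap (Ideal.Quotient.mk (P ^ e)) F) (fun l => ρ e (c0 * x l)) = 0
        rw [hevG e (fun l => c0 * x l), ev_scale c0 G x]
        exact (hρ0 e _).2 (Dvd.dvd.mul_left hev0 _)
      · intro l hl
        rw [Fin.sum_univ_one, one_mul]
        show dev (tmap (Ideal.Quotient.mk (P ^ e)) F) (fun l => ρ e (c0 * x l)) l = 0
        rw [hdevG e (fun l => c0 * x l), dev_scale c0 G x]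
        exact (hρ0 e _).2 (Dvd.dvd.mul_left (hcon' l hl) _)
    have hJ1 : ¬ π ^ ((e - 1) + 1) ∣ dev G x i := by
      have h1 : e - 1 + 1 = e := by omega
      rw [h1]
      exact hi
    have hlift : ∀ (s : {l : Fin (n + 1) // l ≠ i} → 𝓞 K ⧸ P ^ (w - g)) (c : 𝓞 K ⧸ P ^ (w - g)),
        ∃ y : Vc n A, (∀ l (hl : l ≠ i), y l = x l + π ^ g * b (s ⟨l, hl⟩)) ∧
          π ^ w ∣ ev G y - (u + π ^ g * b c) ^ t := by
      intro s c
      obtain ⟨hh, hhd⟩ : ∃ hh : Vc n A, ∀ l, hh l =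
        if hl : l ≠ i then π ^ g * b (s ⟨l, hl⟩) else 0 := ⟨fun l =>
          if hl : l ≠ i then π ^ g * b (s ⟨l, hl⟩) else 0, fun _ => rfl⟩
      have hhl : ∀ l (hl : l ≠ i), hh l = π ^ g * b (s ⟨l, hl⟩) := by
        intro l hl
        rw [hhd, dif_pos hl]
      have hdv : ∀ l, π ^ g ∣ hh l := by
        intro l
        by_cases hl : l ≠ i
        · rw [hhl l hl]
          exact dvd_mul_right _ _
        · rw [hhd, dif_neg hl]
          exact dvd_zero _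
      have hxx : ∀ l, π ^ g ∣ (x + hh) l - x l := fun l => by
        rw [Pi.add_apply, add_sub_cancel_left]
        exact hdv l
      have hup : IsUnit ((x + hh) p) := by
        rw [Pi.add_apply, hhl p hip.symm]
        exact LD_HenT_unit hπu g (by omega) _ _ hxp
      have h0 : π ^ g ∣ ev G (x + hh) - (u + π ^ g * b c) ^ t := by
        have h1 := ev_congr_dvd G x hh (π ^ g) hdv
        have h2 : (u + π ^ g * b c) - u ∣ (u + π ^ g * b c) ^ t - u ^ t :=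
          sub_dvd_pow_sub_pow _ _ t
        rw [add_sub_cancel_left] at h2
        have h3 : π ^ g ∣ (u + π ^ g * b c) ^ t - u ^ t := (dvd_mul_right _ _).trans h2
        have h4 : ev G (x + hh) - (u + π ^ g * b c) ^ t =
            (ev G (x + hh) - ev G x) + (ev G x - u ^ t) - ((u + π ^ g * b c) ^ t - u ^ t) := by ring
        rw [h4]
        exact dvd_sub (dvd_add h1 hx0) h3
      have hJ2 : ¬ π ^ ((e - 1) + 1) ∣ dev G (x + hh) i := by
        intro h1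
        apply hJ1
        have h2 : π ^ ((e - 1) + 1) ∣ dev G (x + hh) i - dev G x i :=
          dev_congr_dvd G x (x + hh) (π ^ ((e - 1) + 1))
            (fun l => (pow_dvd_pow π (by omega)).trans (hxx l)) i
        have h3 : dev G x i = dev G (x + hh) i - (dev G (x + hh) i - dev G x i) := by ring
        rw [h3]
        exact dvd_sub h1 h2
      obtain ⟨y, hy1, -, hy3⟩ := coordLift hπ (e - 1) w (by omega) G (x + hh) p i hip hup
        ((u + π ^ g * b c) ^ t) ((pow_dvd_pow π (by omega)).trans h0) hJ2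
      refine ⟨y, fun l hl => ?_, hy3⟩
      rw [hy1 l hl, Pi.add_apply, hhl l hl]
    choose y hy1 hy2 using hlift
    have hyu : ∀ s c, IsUnit (y s c p) := by
      intro s c
      rw [hy1 s c p hip.symm]
      exact LD_HenT_unit hπu g (by omega) _ _ hxp
    let f : ({l : Fin (n + 1) // l ≠ i} → 𝓞 K ⧸ P ^ (w - g)) × (𝓞 K ⧸ P ^ (w - g)) →
        {q : Vc n (𝓞 K ⧸ P ^ w) × (𝓞 K ⧸ P ^ w) //
          Uni q.1 ∧ ev (tmap (Ideal.Quotient.mk (P ^ w)) F) q.1 = q.2 ^ t} := fun sc =>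
      ⟨(fun l => ρ w (y sc.1 sc.2 l), ρ w (u + π ^ g * b sc.2)),
        hsol (y sc.1 sc.2) (u + π ^ g * b sc.2) (hyu sc.1 sc.2) (hy2 sc.1 sc.2)⟩
    have hf : Function.Injective f := by
      rintro ⟨s, c⟩ ⟨s', c'⟩ hss
      have h1 := congrArg Subtype.val hss
      have h2 : ρ w (u + π ^ g * b c) = ρ w (u + π ^ g * b c') := congrArg Prod.snd h1
      have h3 : (fun l => ρ w (y s c l)) = fun l => ρ w (y s' c' l) := congrArg Prod.fst h1
      have h4 : c = c' := hinj u c c' h2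
      have h5 : s = s' := by
        funext ⟨l, hl⟩
        have h6 : ρ w (y s c l) = ρ w (y s' c' l) := congrFun h3 l
        rw [hy1 s c l hl, hy1 s' c' l hl] at h6
        exact hinj (x l) _ _ h6
      rw [h4, h5]
    have hcard := Nat.card_le_card_of_injective f hf
    have hcl : Nat.card {l : Fin (n + 1) // l ≠ i} = n := by
      rw [Nat.card_eq_fintype_card, Fintype.card_subtype_compl, Fintype.card_fin]
      simp
    have h21 : Nat.card (({l : Fin (n + 1) // l ≠ i} → 𝓞 K ⧸ P ^ (w - g)) × (𝓞 K ⧸ P ^ (w - g)))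
        = Ideal.absNorm P ^ ((n + 1) * (w - g)) := by
      rw [Nat.card_prod, Nat.card_fun, hQ, hcl, ← pow_succ, ← pow_mul, mul_comm]
    rw [← h21]
    exact hcard
  · -- the variable `u`
    have hJ := LD_HenT_val hπ t e Dt ε ε.isUnit hτ u hue
    rw [← hD0] at hJ
    have hlift : ∀ s : Fin (n + 1) → 𝓞 K ⧸ P ^ (w - g), ∃ v' : A,
        π ^ w ∣ ev G (fun l => x l + π ^ g * b (s l)) - v' ^ t := by
      intro s
      have h1 : π ^ g ∣ ev G (x + fun l => π ^ g * b (s l)) - ev G x :=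
        ev_congr_dvd G x (fun l => π ^ g * b (s l)) (π ^ g) fun l => dvd_mul_right _ _
      have h2 : (x + fun l => π ^ g * b (s l)) = fun l => x l + π ^ g * b (s l) := rfl
      rw [h2] at h1
      have h3 : π ^ g ∣ ev G (fun l => x l + π ^ g * b (s l)) - u ^ t := by
        have h4 : ev G (fun l => x l + π ^ g * b (s l)) - u ^ t =
          (ev G (fun l => x l + π ^ g * b (s l)) - ev G x) + (ev G x - u ^ t) := by ring
        rw [h4]
        exact dvd_add h1 hx0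
      obtain ⟨v', -, hv'⟩ := rootLift hπ t D0 w (ev G fun l => x l + π ^ g * b (s l)) u
        ((pow_dvd_pow π (by omega)).trans h3) hJ
      exact ⟨v', hv'⟩
    choose v' hv' using hlift
    let f : (Fin (n + 1) → 𝓞 K ⧸ P ^ (w - g)) →
        {q : Vc n (𝓞 K ⧸ P ^ w) × (𝓞 K ⧸ P ^ w) //
          Uni q.1 ∧ ev (tmap (Ideal.Quotient.mk (P ^ w)) F) q.1 = q.2 ^ t} := fun s =>
      ⟨(fun l => ρ w (x l + π ^ g * b (s l)), ρ w (v' s)),
        hsol (fun l => x l + π ^ g * b (s l)) (v' s)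
          (LD_HenT_unit hπu g (by omega) _ _ hxp) (hv' s)⟩
    have hf : Function.Injective f := by
      intro s s' hss
      have h1 := congrArg Subtype.val hss
      have h3 : (fun l => ρ w (x l + π ^ g * b (s l))) = fun l => ρ w (x l + π ^ g * b (s' l)) :=
        congrArg Prod.fst h1
      funext l
      exact hinj (x l) _ _ (congrFun h3 l)
    have hcard := Nat.card_le_card_of_injective f hf
    have h21 : Nat.card (Fin (n + 1) → 𝓞 K ⧸ P ^ (w - g)) = Ideal.absNorm P ^ ((n + 1) * (w - g)) := by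
      rw [Nat.card_fun, hQ, Nat.card_eq_fintype_card, Fintype.card_fin, ← pow_mul, mul_comm]
    rw [← h21]
    exact hcard

end Pool.Agent.Lib.MP_1ad228_ntW
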