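import Pool.Agent.Lib.MP_1ad228_ntW.Defs
import Pool.Agent.Lib.MP_1ad228_ntN.LD_Ker
import Pool.Agent.Lib.MP_1ad228_ntN.Alg

/-!
JOB LD_KerT.  Numbers of tensors with given values over a finite ring; congruence of the values; pairs of elements with congruent powers.

`kerV1`: `a ↦ a + a0` is a bijection from `{ev a x = 0}` to `{ev a x = c}` where `ev a0 x = c` (`lin u x = 1`, `a0 = c • tp (fun _ => u)`, `ev_tp`, as in LD_Ker); `LD_ker1`.
`kerV2`: if `{ev a x = c, ev a y = c'}` is empty the left side is `0`; otherwise it is a translate of `{ev a x = 0 ∧ ev a y = 0}`; `LD_ker2`.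
`congR`: as `congV` (file C_Cong): `lin v x = 1` for some `v`; `l = lin v y` satisfies `y j - l x j = ∑ v i (mn x y i j) ∈ II x y` (`mn_mem_II`; `lamLem hx (II x y)` gives such an `l` directly); so in `R ⧸ II x y` `mk (ev a y) = (mk l)^d mk (ev a x)` (`ev_tmap`, `ev_scale`),
`d = t * m`; `mk l` is a unit because `lin u y = 1` for some `u` and `mk 1 = mk l * mk (lin u x)`.  `ν` = the unit `(mk l)^m`.
`pairsR`: `(u, u') ↦ (ν mk u, mk u')` maps the set onto `{(α, β) ∈ (R ⧸ J)^2 | α^t = β^t}` and all fibres have `(card J)^2` elements (cosets of `J × J`).  (Only `≤` is needed: statement with `≤`.)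
-/

namespace Pool.Agent.Lib.MP_1ad228_ntW

open Classical Pool.Agent.Lib.MP_1ad228_ntN

theorem kerV1 {n d : ℕ} {R : Type*} [CommRing R] [Finite R] (x : Vc n R) (hx : Uni x) (c : R) :
    Nat.card {a : Ten n d R // ev a x = c} * Nat.card R = Nat.card R ^ (n + 1) ^ d := by
  obtain ⟨u, hu⟩ := hx
  have h0 : ev (c • tp (fun _ => u) : Ten n d R) x = c := by
    rw [ev_smul', ev_tp]
    simp only [hu, Finset.prod_const_one, mul_one]
  rw [← LD_ker1 (d := d) x ⟨u, hu⟩]
  congr 1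
  refine Nat.card_congr (Equiv.subtypeEquiv (Equiv.subRight (c • tp fun _ => u)) fun a => ?_)
  show ev a x = c ↔ ev (a - c • tp fun _ => u) x = 0
  rw [ev_sub, h0, sub_eq_zero]

theorem kerV2 {n d : ℕ} (hd : 1 ≤ d) {R : Type*} [CommRing R] [Finite R] (x y : Vc n R)
    (hx : Uni x) (hy : Uni y) (c c' : R) :
    Nat.card {a : Ten n d R // ev a x = c ∧ ev a y = c'} * (Nat.card R * Nat.card (II x y))
      ≤ Nat.card R ^ (n + 1) ^ d := by
  rcases isEmpty_or_nonempty {a : Ten n d R // ev a x = c ∧ ev a y = c'} with h | ⟨⟨a0, ha0, ha0'⟩⟩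
  · rw [Nat.card_of_isEmpty, zero_mul]
    exact Nat.zero_le _
  · refine le_trans (le_of_eq ?_) (LD_ker2 hd x y hx hy)
    congr 1
    refine Nat.card_congr (Equiv.subtypeEquiv (Equiv.subRight a0) fun a => ?_)
    show ev a x = c ∧ ev a y = c' ↔ ev (a - a0) x = 0 ∧ ev (a - a0) y = 0
    rw [ev_sub, ev_sub, ha0, ha0', sub_eq_zero, sub_eq_zero]

theorem congR {n d t m : ℕ} (hd : d = t * m) {R : Type*} [CommRing R] (x y : Vc n R)
    (hx : Uni x) (hy : Uni y) : ∃ ν : R ⧸ II x y, IsUnit ν ∧ ∀ a : Ten n d R,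
    Ideal.Quotient.mk (II x y) (ev a y) = ν ^ t * Ideal.Quotient.mk (II x y) (ev a x) := by
  obtain ⟨l, hl⟩ := lamLem hx (II x y) (mn_mem_II x y)
  have h1 : vmap (Ideal.Quotient.mk (II x y)) y =
      fun j => Ideal.Quotient.mk (II x y) l * vmap (Ideal.Quotient.mk (II x y)) x j := by
    funext j
    show Ideal.Quotient.mk (II x y) (y j) = Ideal.Quotient.mk (II x y) l * Ideal.Quotient.mk (II x y) (x j)
    rw [← map_mul, Ideal.Quotient.eq]
    exact hl j
  obtain ⟨u, hu⟩ := hy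
  have h2 : IsUnit (Ideal.Quotient.mk (II x y) l) := by
    have h3 : lin (vmap (Ideal.Quotient.mk (II x y)) u) (vmap (Ideal.Quotient.mk (II x y)) y) = 1 := by
      rw [lin_vmap, hu, map_one]
    have h4 : lin (vmap (Ideal.Quotient.mk (II x y)) u) (vmap (Ideal.Quotient.mk (II x y)) y) =
        Ideal.Quotient.mk (II x y) l *
          lin (vmap (Ideal.Quotient.mk (II x y)) u) (vmap (Ideal.Quotient.mk (II x y)) x) := by
      rw [h1]
      unfold Pool.Agent.Lib.MP_219881_nt.lin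
      rw [Finset.mul_sum]
      refine Finset.sum_congr rfl fun i _ => ?_
      ring
    rw [h4] at h3
    exact IsUnit.of_mul_eq_one _ h3
  refine ⟨Ideal.Quotient.mk (II x y) l ^ m, h2.pow m, fun a => ?_⟩
  have hpow : Ideal.Quotient.mk (II x y) l ^ d = (Ideal.Quotient.mk (II x y) l ^ m) ^ t := by
    rw [← pow_mul, mul_comm m t, ← hd]
  rw [← ev_tmap, h1, ev_scale, ev_tmap, hpow]

theorem pairsR (t : ℕ) {R : Type*} [CommRing R] [Finite R] (J : Ideal R) (ν : R ⧸ J)
    (hν : IsUnit ν) :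
    Nat.card {p : R × R // Ideal.Quotient.mk J (p.2 ^ t) = ν ^ t * Ideal.Quotient.mk J (p.1 ^ t)} ≤
      Nat.card J ^ 2 * T2 t (R ⧸ J) := by
  have hinv : ∀ c : R ⧸ J, Ideal.Quotient.mk J (Function.surjInv Ideal.Quotient.mk_surjective c) = c :=
    fun c => Function.surjInv_eq Ideal.Quotient.mk_surjective c
  have hfin : Finite (R ⧸ J) := Finite.of_surjective _ Ideal.Quotient.mk_surjective
  unfold T2
  rw [pow_two, ← Nat.card_prod, ← Nat.card_prod]
  have hmem : ∀ r : R, r - Function.surjInv Ideal.Quotient.mk_surjective (Ideal.Quotient.mk J r) ∈ J := by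
    intro r
    rw [← Ideal.Quotient.eq, hinv]
  refine Nat.card_le_card_of_injective
    (fun p : {p : R × R // Ideal.Quotient.mk J (p.2 ^ t) = ν ^ t * Ideal.Quotient.mk J (p.1 ^ t)} =>
      (((⟨p.1.1 - Function.surjInv Ideal.Quotient.mk_surjective (Ideal.Quotient.mk J p.1.1), hmem _⟩ : J),
        (⟨p.1.2 - Function.surjInv Ideal.Quotient.mk_surjective (Ideal.Quotient.mk J p.1.2), hmem _⟩ : J)),
        (⟨(ν * Ideal.Quotient.mk J p.1.1, Ideal.Quotient.mk J p.1.2), by
          show (ν * Ideal.Quotient.mk J p.1.1) ^ t = Ideal.Quotient.mk J p.1.2 ^ t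
          rw [mul_pow, ← map_pow, ← map_pow]
          exact p.2.symm⟩ : {p : (R ⧸ J) × (R ⧸ J) // p.1 ^ t = p.2 ^ t}))) ?_
  rintro ⟨⟨a, b⟩, hab⟩ ⟨⟨a', b'⟩, hab'⟩ h
  simp only [Prod.mk.injEq, Subtype.mk.injEq] at h
  obtain ⟨⟨h1, h2⟩, h3, h4⟩ := h
  have h5 : Ideal.Quotient.mk J a = Ideal.Quotient.mk J a' := hν.mul_left_cancel h3
  rw [h5] at h1
  rw [h4] at h2
  have h6 : a = a' := sub_left_injective h1
  have h7 : b = b' := sub_left_injective h2
  subst h6 h7
  rfl

end Pool.Agent.Lib.MP_1ad228_ntW
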