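import Pool.Agent.Lib.MP_1ad228_ntW.Defs
import Pool.Agent.Lib.MP_1ad228_ntN.LD_Newt

/-!
JOB LD_Lift.  Hensel lifting over a discrete valuation ring: in the variable `u`, and in one coordinate of `x`.

`rootLift` PROOF.  It is enough to lift from `m ≥ 2D+1` to `m + 1` (induction on `w`, for `w ≤ 2 D + 1` take `u' = u`), keeping `π^(D+1) ∣ u' - u` (hence `¬ π^(D+1) ∣ t u'^(t-1)`, because `u'^(t-1) ≡ u^(t-1)` modulo `π^(D+1)`: `sub_dvd_pow_sub_pow`).
In the discrete valuation ring `t u^(t-1) = π^E ε` with `E ≤ D`, `ε` a unit (`IsDiscreteValuationRing.eq_unit_mul_pow_irreducible`; `≠ 0` as it is not divisible by `π^(D+1)`).  `c - u^t = π^m b`, `h = π^(m-E) b ε⁻¹`, so `t u^(t-1) h = c - u^t`, `π^(m-D) ∣ h`, and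
`(u + h)^t = u^t + t u^(t-1) h + k h^2` (`Polynomial.binomExpansion` for `X^t`, or induction on `t`), so `c - (u+h)^t = - k h^2` is divisible by `π^(2(m-D))`, `2 (m - D) ≥ m + 1`.  `m - D ≥ D + 1`.

`coordLift` PROOF.  `x p` is a unit; let `c' ∈ A` with `c' * (x p)^d = c`, and `F : Tup n (fun _ : Fin 1 => d) A`, `F 0 = G - c' • tp (fun _ => Pi.single p 1)`.  `ev (F 0) y = ev G y - c' (y p)^d` (`ev_sub`, `ev_smul'`, `ev_tp`, `lin_single`), and `dev (F 0) y i = dev G y i` for `i ≠ p`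
(`dev_sub`, `dev_smul'`; `dev (tp (fun _ => Pi.single p 1)) y i = 0`: unfold `dev`, `tp`: every term has the factor `Pi.single p 1 i = 0`).  `LD_lift` with `r = 1`, `S = fun _ => i` (injective), the determinant of a `1 × 1` matrix (`Matrix.det_fin_one`/`det_unique`).  The coordinate `p` does not change.
-/

namespace Pool.Agent.Lib.MP_1ad228_ntW

open Classical Pool.Agent.Lib.MP_1ad228_ntN

private theorem LD_Lift_step {A : Type*} [CommRing A] [IsDomain A] [IsDiscreteValuationRing A] {π : A}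
    (hπ : Irreducible π) (t D m : ℕ) (hm : 2 * D + 1 ≤ m) (c u : A) (h0 : π ^ m ∣ c - u ^ t)
    (hJ : ¬ π ^ (D + 1) ∣ (t : A) * u ^ (t - 1)) :
    ∃ u' : A, π ^ (D + 1) ∣ u' - u ∧ π ^ (m + 1) ∣ c - u' ^ t := by
  have hδ0 : (t : A) * u ^ (t - 1) ≠ 0 := by
    intro h1
    rw [h1] at hJ
    exact hJ (dvd_zero _)
  obtain ⟨E, ε, hE⟩ : ∃ (E : ℕ) (ε : Aˣ), (t : A) * u ^ (t - 1) = (ε : A) * π ^ E := by
    obtain ⟨E, ε, h⟩ := IsDiscreteValuationRing.eq_unit_mul_pow_irreducible hδ0 hπ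
    exact ⟨E, ε, h⟩
  have hED : E ≤ D := by
    by_contra h
    apply hJ
    rw [hE]
    exact Dvd.dvd.mul_left (pow_dvd_pow _ (by omega)) _
  obtain ⟨b, hb⟩ := h0
  have hEm : E ≤ m := by omega
  have hpow : π ^ m = π ^ E * π ^ (m - E) := by
    rw [← pow_add]
    congr 1
    omega
  have hunit : (ε : A) * ((ε⁻¹ : Aˣ) : A) = 1 := by
    rw [← Units.val_mul, mul_inv_cancel, Units.val_one]
  obtain ⟨k, hk⟩ := Polynomial.powAddExpansion u (π ^ (m - E) * b * ((ε⁻¹ : Aˣ) : A)) t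
  have hdvd : π ^ (m - E) ∣ π ^ (m - E) * b * ((ε⁻¹ : Aˣ) : A) := by
    rw [mul_assoc]
    exact dvd_mul_right _ _
  refine ⟨u + π ^ (m - E) * b * ((ε⁻¹ : Aˣ) : A), ?_, ?_⟩
  · rw [add_sub_cancel_left]
    exact (pow_dvd_pow _ (by omega)).trans hdvd
  · have h1 : c - (u + π ^ (m - E) * b * ((ε⁻¹ : Aˣ) : A)) ^ t =
        -(k * (π ^ (m - E) * b * ((ε⁻¹ : Aˣ) : A)) ^ 2) := by
      rw [hk]
      have h2 : (t : A) * u ^ (t - 1) * (π ^ (m - E) * b * ((ε⁻¹ : Aˣ) : A)) = c - u ^ t := by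
        rw [hE, hb, hpow]
        calc (ε : A) * π ^ E * (π ^ (m - E) * b * ((ε⁻¹ : Aˣ) : A))
            = π ^ E * π ^ (m - E) * b * ((ε : A) * ((ε⁻¹ : Aˣ) : A)) := by ring
          _ = π ^ E * π ^ (m - E) * b := by rw [hunit, mul_one]
      linear_combination -h2
    rw [h1, dvd_neg]
    refine Dvd.dvd.mul_left ?_ _
    have h3 : (π ^ (m - E)) ^ 2 ∣ (π ^ (m - E) * b * ((ε⁻¹ : Aˣ) : A)) ^ 2 := pow_dvd_pow_of_dvd hdvd 2
    rw [← pow_mul] at h3
    exact (pow_dvd_pow _ (by omega)).trans h3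

private theorem LD_Lift_stay {A : Type*} [CommRing A] {π : A} (t D : ℕ) (u u' : A)
    (h : π ^ (D + 1) ∣ u' - u) (hJ : ¬ π ^ (D + 1) ∣ (t : A) * u ^ (t - 1)) :
    ¬ π ^ (D + 1) ∣ (t : A) * u' ^ (t - 1) := by
  intro hcon
  apply hJ
  have h1 : u' - u ∣ u' ^ (t - 1) - u ^ (t - 1) := sub_dvd_pow_sub_pow u' u (t - 1)
  have h2 : π ^ (D + 1) ∣ (t : A) * (u' ^ (t - 1) - u ^ (t - 1)) := Dvd.dvd.mul_left (h.trans h1) _
  have h3 : (t : A) * u ^ (t - 1) = (t : A) * u' ^ (t - 1) - (t : A) * (u' ^ (t - 1) - u ^ (t - 1)) := by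
    ring
  rw [h3]
  exact dvd_sub hcon h2

theorem rootLift {A : Type*} [CommRing A] [IsDomain A] [IsDiscreteValuationRing A] {π : A}
    (hπ : Irreducible π) (t D w : ℕ) (c u : A) (h0 : π ^ (2 * D + 1) ∣ c - u ^ t)
    (hJ : ¬ π ^ (D + 1) ∣ (t : A) * u ^ (t - 1)) :
    ∃ u' : A, π ^ (D + 1) ∣ u' - u ∧ π ^ w ∣ c - u' ^ t := by
  have key : ∀ k : ℕ, ∃ u' : A, π ^ (D + 1) ∣ u' - u ∧ π ^ (2 * D + 1 + k) ∣ c - u' ^ t := by
    intro k
    induction k with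
    | zero => exact ⟨u, by rw [sub_self]; exact dvd_zero _, h0⟩
    | succ k ih =>
      obtain ⟨u', h1, h2⟩ := ih
      obtain ⟨u'', h3, h4⟩ := LD_Lift_step hπ t D (2 * D + 1 + k) (by omega) c u' h2
        (LD_Lift_stay t D u u' h1 hJ)
      refine ⟨u'', ?_, h4⟩
      have h5 : u'' - u = (u'' - u') + (u' - u) := by ring
      rw [h5]
      exact dvd_add h3 h1
  obtain ⟨u', h1, h2⟩ := key w
  exact ⟨u', h1, (pow_dvd_pow _ (by omega)).trans h2⟩

theorem coordLift {A : Type*} [CommRing A] [IsDomain A] [IsDiscreteValuationRing A] {π : A}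
    (hπ : Irreducible π) {n d : ℕ} (D w : ℕ) (hw : 2 * D + 1 ≤ w) (G : Ten n d A) (x : Vc n A)
    (p i : Fin (n + 1)) (hpi : i ≠ p) (hp : IsUnit (x p)) (c : A)
    (h0 : π ^ (2 * D + 1) ∣ ev G x - c) (hJ : ¬ π ^ (D + 1) ∣ dev G x i) :
    ∃ x' : Vc n A, (∀ l, l ≠ i → x' l = x l) ∧ π ^ (D + 1) ∣ x' i - x i ∧
      π ^ w ∣ ev G x' - c := by
  obtain ⟨v, hv⟩ := hp.exists_right_inv
  set T : Ten n d A := tp (fun _ => Pi.single p 1) with hT
  have hevT : ∀ y : Vc n A, ev T y = y p ^ d := by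
    intro y
    rw [hT, ev_tp, lin_single, Finset.prod_const, Finset.card_univ, Fintype.card_fin]
  have hdevT : ∀ y : Vc n A, dev T y i = 0 := by
    intro y
    unfold Pool.Agent.Lib.MP_1ad228_ntF.dev
    refine Finset.sum_eq_zero fun k _ => Finset.sum_eq_zero fun s _ => ?_
    split_ifs with hs
    · have h1 : T s = 0 := by
        rw [hT]
        unfold Pool.Agent.Lib.MP_1ad228_ntF.tp
        refine Finset.prod_eq_zero (Finset.mem_univ k) ?_
        rw [hs]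
        exact Pi.single_eq_of_ne hpi 1
      rw [h1, zero_mul]
    · rfl
  have hcx : ∀ y : Vc n A, y p = x p → ev (G - (c * v ^ d) • T) y = ev G y - c := by
    intro y hy
    rw [ev_sub, ev_smul', hevT, hy]
    have h1 : c * v ^ d * x p ^ d = c := by
      rw [mul_assoc, ← mul_pow, mul_comm v, hv, one_pow, mul_one]
    rw [h1]
  obtain ⟨x', h1, h2, h3⟩ := LD_lift hπ (n := n) (r := 1) (d := fun _ : Fin 1 => d) D (2 * D + 1) w le_rfl hw
    (fun _ => G - (c * v ^ d) • T) x (fun _ => i) (Function.injective_of_subsingleton _)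
    (by
      intro _
      rw [hcx x rfl]
      exact h0)
    (by
      rw [Matrix.det_unique]
      rw [dev_sub, dev_smul', hdevT, mul_zero, sub_zero]
      exact hJ)
  have hp' : x' p = x p := h1 p fun _ => hpi.symm
  refine ⟨x', fun l hl => h1 l fun _ => hl, h2 i, ?_⟩
  have h4 := h3 0
  rw [hcx x' hp'] at h4
  exact h4

end Pool.Agent.Lib.MP_1ad228_ntW
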