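import Pool.Agent.Lib.MP_1ad228_ntW.LD_KerT
import Pool.Agent.Lib.MP_1ad228_ntW.A_Mul
import Pool.Agent.Lib.MP_1ad228_ntN.LD_Cnt

/-!
JOB LD_MomT.  First and second moment of the number of solutions over a finite ring, and Chebyshev.  (Models with proof: Lib/MP_1ad228_ntN/LD_Mom.lean, LD_MomC.lean.)

`V = (n+1)^d ≥ 1`, `q = Nat.card R`, `U = Nat.card {x : Vc n R // Uni x}`, `s(F) = smRT t F`.

`mom1T`: `∑_F s(F) = ∑_{x Uni} ∑_{u ∈ R} #{F | ev F x = u^t}`, each `#{..} * q = q^V` (`kerV1`), and there are `q` values of `u`: `∑_F s(F) = U q^V`.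

`mom2T`: `∑_F s(F)^2 = ∑_{x, y Uni} ∑_{u, u'} #{F | ev F x = u^t ∧ ev F y = u'^t}`.  Fix `x, y`, `J = II x y`; a nonzero term has `mk (u'^t) = ν^t mk (u^t)` (`congR`) and is `≤ q^V/(q card J)` (`kerV2`), the number of such `(u, u')` is
`≤ (card J)^2 T2 t (R ⧸ J)` (`pairsR`).  So the inner sum is `≤ q^V card J * T2 t (R ⧸ J)/q = q^V T2 t (R ⧸ J)/card (R ⧸ J)` (`card_quot`).  If `J = ⊤` this is `q^V` (`T2_top`, `card (R ⧸ ⊤) = 1`); for all `J` it is `≤ q^V C0 card(R ⧸ J)^a` (`hT`).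
For fixed `x` group the `y` by `J`: the `y` with `J = ⊤` contribute at most `q^(n+1) q^V`; for `J ≠ ⊤` there are at most `q (card J)^n = q^(n+1)/card(R ⧸ J)^n ≤ q^(n+1) card(R ⧸ J)^(-2)` of them (`LD_cnty`, `n ≥ 2`), contributing
`q^V C0 q^(n+1) card(R ⧸ J)^(a-2)`; sum over `J ≠ ⊤` (finite set of ideals: the image of the finset of the `y`) `≤ q^V q^(n+1) C0 δ` (`hδ`).  Total `≤ U q^V q^(n+1) (1 + C0 δ)`.

`M1T`: `IdA` gives `IdS R δ` (`(1/c)^2 = c^(-2) ≤ c^(a-2)` for `c ≥ 1`, `a ≥ 0`), so `U ≥ q^(n+1) (1 - δ)` (`LD_uni`), `U ≤ q^(n+1) =: N`.  `∑_F (s - U)^2 = ∑ s^2 - 2 U ∑ s + U^2 q^V ≤ U q^V (N (1 + C0 δ) - U) ≤ N^2 q^V (1 + C0) δ`.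
If `s ≤ N/2` then `U - s ≥ N (1 - δ) - N/2 ≥ (3/8) N` (`δ ≤ 1/8`), so `# (9/64) N^2 ≤ N^2 q^V (1 + C0) δ`, `# ≤ 16 (1 + C0) δ q^V`.
-/

namespace Pool.Agent.Lib.MP_1ad228_ntW

open Classical Pool.Agent.Lib.MP_1ad228_ntN

/-- The indicator of `ev a x = u ^ t`. -/
private noncomputable def LD_MomT_f {n d : ℕ} {R : Type*} [CommRing R] (t : ℕ) (a : Ten n d R)
    (x : Vc n R) (u : R) : ℝ :=
  if ev a x = u ^ t then 1 else 0

private theorem LD_MomT_sm {n d : ℕ} (t : ℕ) {R : Type*} [CommRing R] [Fintype R] (F : Ten n d R) :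
    (smRT t F : ℝ) = ∑ x ∈ Finset.univ.filter (fun x : Vc n R => Uni x), ∑ u : R, LD_MomT_f t F x u := by
  unfold smRT
  rw [Nat.card_eq_fintype_card, Fintype.card_subtype, ← Finset.sum_boole, Fintype.sum_prod_type,
    Finset.sum_filter]
  refine Finset.sum_congr rfl fun x _ => ?_
  by_cases hx : Uni x
  · rw [if_pos hx]
    refine Finset.sum_congr rfl fun u _ => ?_
    unfold LD_MomT_f
    simp [hx]
  · rw [if_neg hx]
    refine Finset.sum_eq_zero fun u _ => ?_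
    simp [hx]

private theorem LD_MomT_pos (R : Type*) [CommRing R] [Fintype R] : (0 : ℝ) < (Nat.card R : ℝ) := by
  have : 0 < Nat.card R := card_R_pos R
  exact_mod_cast this

private theorem LD_MomT_one {n d : ℕ} (t : ℕ) {R : Type*} [CommRing R] [Fintype R] (x : Vc n R)
    (hx : Uni x) (u : R) :
    (∑ a : Ten n d R, LD_MomT_f t a x u) * (Nat.card R : ℝ) = (Nat.card R : ℝ) ^ (n + 1) ^ d := by
  have hk := kerV1 (d := d) x hx (u ^ t)
  have h1 : Nat.card {a : Ten n d R // ev a x = u ^ t} =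
      (Finset.univ.filter fun a : Ten n d R => ev a x = u ^ t).card := by
    rw [Nat.card_eq_fintype_card, Fintype.card_subtype]
  rw [h1] at hk
  unfold LD_MomT_f
  rw [Finset.sum_boole]
  exact_mod_cast hk

private theorem LD_MomT_two {n d t m : ℕ} (hd : d = t * m) (hd1 : 1 ≤ d) {R : Type*} [CommRing R]
    [Fintype R] (x y : Vc n R) (hx : Uni x) (hy : Uni y) :
    ∑ u : R, ∑ v : R, ∑ a : Ten n d R, LD_MomT_f t a x u * LD_MomT_f t a y v ≤
      (Nat.card R : ℝ) ^ (n + 1) ^ d * ((T2 t (R ⧸ II x y) : ℝ) / (Nat.card (R ⧸ II x y) : ℝ)) := by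
  have hq := LD_MomT_pos R
  have hfin : Finite (R ⧸ II x y) := Finite.of_surjective _ Ideal.Quotient.mk_surjective
  have hJ : (0 : ℝ) < (Nat.card (II x y) : ℝ) := by
    have h : 0 < Nat.card (II x y) := Nat.card_pos
    exact_mod_cast h
  have hRJ : (0 : ℝ) < (Nat.card (R ⧸ II x y) : ℝ) := by
    have h : 0 < Nat.card (R ⧸ II x y) := Nat.card_pos
    exact_mod_cast h
  have hprod : (Nat.card (II x y) : ℝ) * (Nat.card (R ⧸ II x y) : ℝ) = (Nat.card R : ℝ) := by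
    exact_mod_cast card_quot (II x y)
  obtain ⟨ν, hν, hc⟩ := congR hd x y hx hy
  have hterm : ∀ u v : R, ∑ a : Ten n d R, LD_MomT_f t a x u * LD_MomT_f t a y v ≤
      if Ideal.Quotient.mk (II x y) (v ^ t) = ν ^ t * Ideal.Quotient.mk (II x y) (u ^ t) then
        (Nat.card R : ℝ) ^ (n + 1) ^ d / ((Nat.card R : ℝ) * (Nat.card (II x y) : ℝ)) else 0 := by
    intro u v
    have h1 : ∑ a : Ten n d R, LD_MomT_f t a x u * LD_MomT_f t a y v =
        ((Finset.univ.filter fun a : Ten n d R => ev a x = u ^ t ∧ ev a y = v ^ t).card : ℝ) := by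
      rw [← Finset.sum_boole]
      refine Finset.sum_congr rfl fun a _ => ?_
      unfold LD_MomT_f
      by_cases h : ev a x = u ^ t
      · by_cases h' : ev a y = v ^ t
        · simp [h, h']
        · simp [h, h']
      · simp [h]
    rw [h1]
    split_ifs with hcond
    · have hk := kerV2 hd1 x y hx hy (u ^ t) (v ^ t)
      have h2 : Nat.card {a : Ten n d R // ev a x = u ^ t ∧ ev a y = v ^ t} =
          (Finset.univ.filter fun a : Ten n d R => ev a x = u ^ t ∧ ev a y = v ^ t).card := by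
        rw [Nat.card_eq_fintype_card, Fintype.card_subtype]
      rw [h2] at hk
      rw [le_div_iff₀ (by positivity)]
      exact_mod_cast hk
    · have h2 : (Finset.univ.filter fun a : Ten n d R => ev a x = u ^ t ∧ ev a y = v ^ t) = ∅ := by
        rw [Finset.filter_eq_empty_iff]
        rintro a _ ⟨h3, h4⟩
        apply hcond
        have h5 := hc a
        rw [h3, h4] at h5
        exact h5
      rw [h2, Finset.card_empty, Nat.cast_zero]
  have hsum : ∑ u : R, ∑ v : R, (if Ideal.Quotient.mk (II x y) (v ^ t) =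
        ν ^ t * Ideal.Quotient.mk (II x y) (u ^ t) then
        (Nat.card R : ℝ) ^ (n + 1) ^ d / ((Nat.card R : ℝ) * (Nat.card (II x y) : ℝ)) else 0) =
      (Nat.card {p : R × R // Ideal.Quotient.mk (II x y) (p.2 ^ t) =
        ν ^ t * Ideal.Quotient.mk (II x y) (p.1 ^ t)} : ℝ) *
        ((Nat.card R : ℝ) ^ (n + 1) ^ d / ((Nat.card R : ℝ) * (Nat.card (II x y) : ℝ))) := by
    have hcp : Nat.card {p : R × R // Ideal.Quotient.mk (II x y) (p.2 ^ t) =
        ν ^ t * Ideal.Quotient.mk (II x y) (p.1 ^ t)} = (Finset.univ.filter fun p : R × R =>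
          Ideal.Quotient.mk (II x y) (p.2 ^ t) = ν ^ t * Ideal.Quotient.mk (II x y) (p.1 ^ t)).card := by
      rw [Nat.card_eq_fintype_card, Fintype.card_subtype]
    rw [hcp]
    generalize (Nat.card R : ℝ) ^ (n + 1) ^ d / ((Nat.card R : ℝ) * (Nat.card (II x y) : ℝ)) = c0
    rw [← nsmul_eq_mul, ← Finset.sum_const, Finset.sum_filter, Fintype.sum_prod_type]
  have hp := pairsR t (II x y) ν hν
  have hp' : (Nat.card {p : R × R // Ideal.Quotient.mk (II x y) (p.2 ^ t) =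
        ν ^ t * Ideal.Quotient.mk (II x y) (p.1 ^ t)} : ℝ) ≤
      (Nat.card (II x y) : ℝ) ^ 2 * (T2 t (R ⧸ II x y) : ℝ) := by exact_mod_cast hp
  calc ∑ u : R, ∑ v : R, ∑ a : Ten n d R, LD_MomT_f t a x u * LD_MomT_f t a y v
      ≤ _ := Finset.sum_le_sum fun u _ => Finset.sum_le_sum fun v _ => hterm u v
    _ = _ := hsum
    _ ≤ ((Nat.card (II x y) : ℝ) ^ 2 * (T2 t (R ⧸ II x y) : ℝ)) *
        ((Nat.card R : ℝ) ^ (n + 1) ^ d / ((Nat.card R : ℝ) * (Nat.card (II x y) : ℝ))) :=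
        mul_le_mul_of_nonneg_right hp' (by positivity)
    _ = _ := by
        rw [← hprod]
        field_simp

private theorem LD_MomT_row {n t : ℕ} (hn : 2 ≤ n) {R : Type*} [CommRing R] [Fintype R]
    {a δ C0 : ℝ} (hC0 : 1 ≤ C0) (hδ : IdA R a δ) (hT : TRb t R a C0) (x : Vc n R) (hx : Uni x) :
    ∑ y ∈ Finset.univ.filter (fun y : Vc n R => Uni y),
      ((T2 t (R ⧸ II x y) : ℝ) / (Nat.card (R ⧸ II x y) : ℝ)) ≤
        (Nat.card R : ℝ) ^ (n + 1) * (1 + C0 * δ) := by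
  have hq := LD_MomT_pos R
  have hfin : ∀ J : Ideal R, Finite (R ⧸ J) := fun J => Finite.of_surjective _ Ideal.Quotient.mk_surjective
  have hc1 : ∀ J : Ideal R, (1 : ℝ) ≤ (Nat.card (R ⧸ J) : ℝ) := by
    intro J
    have h : 1 ≤ Nat.card (R ⧸ J) := Nat.card_pos
    exact_mod_cast h
  have hprod : ∀ J : Ideal R, (Nat.card J : ℝ) * (Nat.card (R ⧸ J) : ℝ) = (Nat.card R : ℝ) := by
    intro J
    exact_mod_cast card_quot J
  set g : Ideal R → ℝ := fun J => (T2 t (R ⧸ J) : ℝ) / (Nat.card (R ⧸ J) : ℝ) with hg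
  have hg0 : ∀ J, 0 ≤ g J := fun J => by simp only [hg]; positivity
  have h1 : ∑ y ∈ Finset.univ.filter (fun y : Vc n R => Uni y), g (II x y) ≤
      ∑ y : Vc n R, g (II x y) :=
    Finset.sum_le_sum_of_subset_of_nonneg (Finset.filter_subset _ _) (fun y _ _ => hg0 _)
  set T : Finset (Ideal R) := (Finset.univ : Finset (Vc n R)).image fun y => II x y with hT'
  have hmap : ∀ y ∈ (Finset.univ : Finset (Vc n R)), II x y ∈ T := by
    intro y hy
    exact Finset.mem_image_of_mem _ hy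
  rw [← Finset.sum_fiberwise_of_maps_to hmap] at h1
  refine h1.trans ?_
  have h2 : ∀ J ∈ T, ∑ y ∈ Finset.univ.filter (fun y : Vc n R => II x y = J), g (II x y) ≤
      (Nat.card R : ℝ) * (Nat.card J : ℝ) ^ n * g J := by
    intro J _
    have h3 : ∑ y ∈ Finset.univ.filter (fun y : Vc n R => II x y = J), g (II x y) =
        ∑ y ∈ Finset.univ.filter (fun y : Vc n R => II x y = J), g J := by
      refine Finset.sum_congr rfl fun y hy => ?_
      rw [(Finset.mem_filter.mp hy).2]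
    rw [h3, Finset.sum_const, nsmul_eq_mul]
    refine mul_le_mul_of_nonneg_right ?_ (hg0 J)
    have h5 := LD_cnty x hx J
    rw [Nat.card_eq_fintype_card, Fintype.card_subtype] at h5
    exact_mod_cast h5
  refine (Finset.sum_le_sum h2).trans ?_
  have hnn : ∀ J : Ideal R, 0 ≤ (Nat.card R : ℝ) * (Nat.card J : ℝ) ^ n * g J :=
    fun J => mul_nonneg (by positivity) (hg0 J)
  have h6 : ∑ J ∈ T, (Nat.card R : ℝ) * (Nat.card J : ℝ) ^ n * g J ≤
      ∑ J ∈ insert ⊤ (T.erase ⊤), (Nat.card R : ℝ) * (Nat.card J : ℝ) ^ n * g J :=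
    Finset.sum_le_sum_of_subset_of_nonneg (Finset.insert_erase_subset _ _) fun J _ _ => hnn J
  refine h6.trans ?_
  rw [Finset.sum_insert (Finset.notMem_erase _ _)]
  have htop : (Nat.card R : ℝ) * (Nat.card (⊤ : Ideal R) : ℝ) ^ n * g ⊤ = (Nat.card R : ℝ) ^ (n + 1) := by
    have h7 : Nat.card (R ⧸ (⊤ : Ideal R)) = 1 := by
      have hss : Subsingleton (R ⧸ (⊤ : Ideal R)) := Ideal.Quotient.subsingleton_iff.2 rfl
      exact Nat.card_unique
    have h8 : (Nat.card (⊤ : Ideal R) : ℝ) = (Nat.card R : ℝ) := by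
      have h9 := hprod ⊤
      rw [h7, Nat.cast_one, mul_one] at h9
      exact h9
    simp only [hg]
    rw [T2_top, h7, h8, pow_succ]
    simp only [Nat.cast_one, div_one, mul_one]
    ring
  rw [htop]
  have h10 : ∀ J ∈ T.erase ⊤, (Nat.card R : ℝ) * (Nat.card J : ℝ) ^ n * g J ≤
      (Nat.card R : ℝ) ^ (n + 1) * C0 * (Nat.card (R ⧸ J) : ℝ) ^ (a - 2) := by
    intro J _
    have hc := hc1 J
    have hcp : (0 : ℝ) < (Nat.card (R ⧸ J) : ℝ) := by linarith
    have hgJ : g J ≤ C0 * (Nat.card (R ⧸ J) : ℝ) ^ a := by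
      simp only [hg]
      rw [div_le_iff₀ hcp]
      have h11 := hT J
      rw [Real.rpow_add hcp, Real.rpow_one] at h11
      calc (T2 t (R ⧸ J) : ℝ) ≤ _ := h11
        _ = _ := by ring
    have hJc : (Nat.card J : ℝ) = (Nat.card R : ℝ) / (Nat.card (R ⧸ J) : ℝ) := by
      rw [eq_div_iff hcp.ne']
      exact hprod J
    have hpw : (1 / (Nat.card (R ⧸ J) : ℝ)) ^ n ≤ (Nat.card (R ⧸ J) : ℝ) ^ (-2 : ℝ) := by
      have h12 : (1 / (Nat.card (R ⧸ J) : ℝ)) ^ n ≤ (1 / (Nat.card (R ⧸ J) : ℝ)) ^ 2 := by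
        refine pow_le_pow_of_le_one (by positivity) ?_ hn
        rw [div_le_one hcp]
        exact hc
      refine h12.trans (le_of_eq ?_)
      rw [Real.rpow_neg hcp.le, one_div, inv_pow]
      congr 1
      exact_mod_cast (Real.rpow_natCast (Nat.card (R ⧸ J) : ℝ) 2).symm
    calc (Nat.card R : ℝ) * (Nat.card J : ℝ) ^ n * g J
        ≤ (Nat.card R : ℝ) * (Nat.card J : ℝ) ^ n * (C0 * (Nat.card (R ⧸ J) : ℝ) ^ a) :=
          mul_le_mul_of_nonneg_left hgJ (by positivity)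
      _ = (Nat.card R : ℝ) ^ (n + 1) * C0 * ((Nat.card (R ⧸ J) : ℝ) ^ a *
            (1 / (Nat.card (R ⧸ J) : ℝ)) ^ n) := by
          rw [hJc, div_pow, one_div, inv_pow, pow_succ]
          field_simp
      _ ≤ (Nat.card R : ℝ) ^ (n + 1) * C0 * ((Nat.card (R ⧸ J) : ℝ) ^ a *
            (Nat.card (R ⧸ J) : ℝ) ^ (-2 : ℝ)) := by
          refine mul_le_mul_of_nonneg_left (mul_le_mul_of_nonneg_left hpw (by positivity)) ?_
          have : (0 : ℝ) ≤ C0 := by linarith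
          positivity
      _ = _ := by
          rw [← Real.rpow_add hcp, sub_eq_add_neg]
  have h13 : ∑ J ∈ T.erase ⊤, (Nat.card R : ℝ) * (Nat.card J : ℝ) ^ n * g J ≤
      (Nat.card R : ℝ) ^ (n + 1) * C0 * δ := by
    refine (Finset.sum_le_sum h10).trans ?_
    rw [← Finset.mul_sum]
    refine mul_le_mul_of_nonneg_left (hδ _ (Finset.notMem_erase _ _)) ?_
    have : (0 : ℝ) ≤ C0 := by linarith
    positivity
  calc (Nat.card R : ℝ) ^ (n + 1) + ∑ J ∈ T.erase ⊤, (Nat.card R : ℝ) * (Nat.card J : ℝ) ^ n * g J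
      ≤ (Nat.card R : ℝ) ^ (n + 1) + (Nat.card R : ℝ) ^ (n + 1) * C0 * δ := by linarith
    _ = _ := by ring

private theorem LD_MomT_card {n : ℕ} {R : Type*} [CommRing R] [Fintype R] :
    (Nat.card {x : Vc n R // Uni x} : ℝ) =
      ((Finset.univ.filter fun x : Vc n R => Uni x).card : ℝ) := by
  rw [Nat.card_eq_fintype_card, Fintype.card_subtype]

theorem mom1T (n d t : ℕ) (R : Type*) [CommRing R] [Fintype R] :
    (∑ F : Ten n d R, (smRT t F : ℝ)) =
      (Nat.card {x : Vc n R // Uni x} : ℝ) * (Nat.card R : ℝ) ^ (n + 1) ^ d := by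
  have hq := LD_MomT_pos R
  calc ∑ F : Ten n d R, (smRT t F : ℝ)
      = ∑ F : Ten n d R, ∑ x ∈ Finset.univ.filter (fun x : Vc n R => Uni x), ∑ u : R,
          LD_MomT_f t F x u := Finset.sum_congr rfl fun F _ => LD_MomT_sm t F
    _ = ∑ x ∈ Finset.univ.filter (fun x : Vc n R => Uni x), ∑ u : R, ∑ F : Ten n d R,
          LD_MomT_f t F x u := by
        rw [Finset.sum_comm]
        refine Finset.sum_congr rfl fun x _ => ?_
        rw [Finset.sum_comm]
    _ = ∑ x ∈ Finset.univ.filter (fun x : Vc n R => Uni x), (Nat.card R : ℝ) ^ (n + 1) ^ d := by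
        refine Finset.sum_congr rfl fun x hx => ?_
        have h1 : ∀ u : R, ∑ F : Ten n d R, LD_MomT_f t F x u =
            (Nat.card R : ℝ) ^ (n + 1) ^ d / (Nat.card R : ℝ) := by
          intro u
          rw [eq_div_iff hq.ne']
          exact LD_MomT_one t x (Finset.mem_filter.mp hx).2 u
        rw [Finset.sum_congr rfl (fun u _ => h1 u), Finset.sum_const, nsmul_eq_mul, Finset.card_univ,
          ← Nat.card_eq_fintype_card]
        field_simp
    _ = _ := by rw [Finset.sum_const, nsmul_eq_mul, LD_MomT_card]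

theorem mom2T (n d t m : ℕ) (hn : 2 ≤ n) (hd : d = t * m) (hd1 : 1 ≤ d) (R : Type*) [CommRing R]
    [Fintype R] {a δ C0 : ℝ} (ha : 0 ≤ a) (hC0 : 1 ≤ C0) (hδ : IdA R a δ) (hT : TRb t R a C0) :
    (∑ F : Ten n d R, (smRT t F : ℝ) ^ 2) ≤
      (Nat.card {x : Vc n R // Uni x} : ℝ) * (Nat.card R : ℝ) ^ (n + 1) ^ d *
        ((Nat.card R : ℝ) ^ (n + 1) * (1 + C0 * δ)) := by
  set S := Finset.univ.filter (fun x : Vc n R => Uni x) with hS
  have h0 : ∑ F : Ten n d R, (smRT t F : ℝ) ^ 2 =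
      ∑ x ∈ S, ∑ y ∈ S, ∑ u : R, ∑ v : R, ∑ F : Ten n d R, LD_MomT_f t F x u * LD_MomT_f t F y v := by
    calc ∑ F : Ten n d R, (smRT t F : ℝ) ^ 2
        = ∑ F : Ten n d R, ∑ x ∈ S, ∑ y ∈ S, ∑ u : R, ∑ v : R,
            (LD_MomT_f t F x u * LD_MomT_f t F y v) := by
          refine Finset.sum_congr rfl fun F _ => ?_
          rw [LD_MomT_sm, pow_two, Finset.sum_mul_sum]
          refine Finset.sum_congr rfl fun x _ => Finset.sum_congr rfl fun y _ => ?_
          rw [Finset.sum_mul_sum]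
      _ = ∑ x ∈ S, ∑ y ∈ S, ∑ F : Ten n d R, ∑ u : R, ∑ v : R,
            (LD_MomT_f t F x u * LD_MomT_f t F y v) := by
          rw [Finset.sum_comm]
          refine Finset.sum_congr rfl fun x _ => ?_
          rw [Finset.sum_comm]
      _ = _ := by
          refine Finset.sum_congr rfl fun x _ => Finset.sum_congr rfl fun y _ => ?_
          rw [Finset.sum_comm]
          refine Finset.sum_congr rfl fun u _ => ?_
          rw [Finset.sum_comm]
  rw [h0]
  have hq := LD_MomT_pos R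
  calc ∑ x ∈ S, ∑ y ∈ S, ∑ u : R, ∑ v : R, ∑ F : Ten n d R, LD_MomT_f t F x u * LD_MomT_f t F y v
      ≤ ∑ x ∈ S, ∑ y ∈ S, (Nat.card R : ℝ) ^ (n + 1) ^ d *
          ((T2 t (R ⧸ II x y) : ℝ) / (Nat.card (R ⧸ II x y) : ℝ)) :=
        Finset.sum_le_sum fun x hx => Finset.sum_le_sum fun y hy =>
          LD_MomT_two hd hd1 x y (Finset.mem_filter.mp hx).2 (Finset.mem_filter.mp hy).2
    _ ≤ ∑ x ∈ S, (Nat.card R : ℝ) ^ (n + 1) ^ d * ((Nat.card R : ℝ) ^ (n + 1) * (1 + C0 * δ)) := by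
        refine Finset.sum_le_sum fun x hx => ?_
        rw [← Finset.mul_sum]
        exact mul_le_mul_of_nonneg_left
          (LD_MomT_row hn hC0 hδ hT x (Finset.mem_filter.mp hx).2) (by positivity)
    _ = _ := by
        rw [Finset.sum_const, nsmul_eq_mul, LD_MomT_card]
        ring

theorem M1T (n d t m : ℕ) (hn : 2 ≤ n) (hd : d = t * m) (hd1 : 1 ≤ d) (R : Type*) [CommRing R]
    [Finite R] {a δ C0 : ℝ} (ha : 0 ≤ a) (hC0 : 1 ≤ C0) (hδ : IdA R a δ) (hT : TRb t R a C0)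
    (hδ8 : δ ≤ 1 / 8) :
    (Nat.card {F : Ten n d R // (smRT t F : ℝ) ≤ (Nat.card R : ℝ) ^ (n + 1) / 2} : ℝ) ≤
      16 * (1 + C0) * δ * (Nat.card R : ℝ) ^ (n + 1) ^ d := by
  have hfR : Fintype R := Fintype.ofFinite R
  have hm0 : (0 : ℝ) < (Nat.card R : ℝ) := by exact_mod_cast card_R_pos R
  have hIdS : IdS R δ := by
    intro T hT'
    refine le_trans (Finset.sum_le_sum fun J _ => ?_) (hδ T hT')
    have hfinJ : Finite (R ⧸ J) := Finite.of_surjective _ Ideal.Quotient.mk_surjective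
    have hc : (1 : ℝ) ≤ (Nat.card (R ⧸ J) : ℝ) := by
      have h : 1 ≤ Nat.card (R ⧸ J) := Nat.card_pos
      exact_mod_cast h
    have h1 : (1 / (Nat.card (R ⧸ J) : ℝ)) ^ 2 = (Nat.card (R ⧸ J) : ℝ) ^ (-2 : ℝ) := by
      rw [Real.rpow_neg (by linarith), one_div, inv_pow]
      congr 1
      exact_mod_cast (Real.rpow_natCast (Nat.card (R ⧸ J) : ℝ) 2).symm
    rw [h1]
    exact Real.rpow_le_rpow_of_exponent_le hc (by linarith)
  have hδ0 : 0 ≤ δ := hIdS.nonneg
  set U : ℝ := (Nat.card {x : Vc n R // Uni x} : ℝ) with hU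
  have hU1 : (Nat.card R : ℝ) ^ (n + 1) * (1 - δ) ≤ U := LD_uni n (by omega) hIdS
  have hU0 : 0 ≤ U := by positivity
  have hU2 : U ≤ (Nat.card R : ℝ) ^ (n + 1) := by
    have h : Nat.card {x : Vc n R // Uni x} ≤ Nat.card (Vc n R) :=
      Nat.card_le_card_of_injective _ Subtype.val_injective
    rw [card_VcR] at h
    rw [hU]
    exact_mod_cast h
  have hm1 := mom1T n d t R
  have hm2 := mom2T n d t m hn hd hd1 R ha hC0 hδ hT
  rw [← hU] at hm1 hm2
  have hcard : ((Finset.univ : Finset (Ten n d R)).card : ℝ) = (Nat.card R : ℝ) ^ (n + 1) ^ d := by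
    have h := card_TenR n d R
    rw [Nat.card_eq_fintype_card] at h
    rw [Finset.card_univ]
    exact_mod_cast h
  set q : ℝ := (Nat.card R : ℝ) with hq
  set P : ℝ := q ^ (n + 1) ^ d with hP
  have hP0 : 0 < P := by positivity
  set N : ℝ := q ^ (n + 1) with hN
  have hN0 : 0 < N := by positivity
  have hC00 : 0 ≤ 1 + C0 := by linarith
  have hD : ∑ F : Ten n d R, ((smRT t F : ℝ) - U) ^ 2 ≤ N ^ 2 * P * ((1 + C0) * δ) := by
    have e1 : ∑ F : Ten n d R, ((smRT t F : ℝ) - U) ^ 2 =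
        (∑ F : Ten n d R, (smRT t F : ℝ) ^ 2) - U ^ 2 * P := by
      have e2 : ∀ F : Ten n d R, ((smRT t F : ℝ) - U) ^ 2 =
          (smRT t F : ℝ) ^ 2 - (2 * U) * (smRT t F : ℝ) + U ^ 2 := fun F => by ring
      simp only [e2]
      rw [Finset.sum_add_distrib, Finset.sum_sub_distrib, ← Finset.mul_sum,
        Finset.sum_const, nsmul_eq_mul, hcard, hm1]
      ring
    rw [e1]
    have e6 : N * (1 + C0 * δ) - U ≤ N * ((1 + C0) * δ) := by
      have : N * (1 + C0 * δ) - N * (1 - δ) = N * ((1 + C0) * δ) := by ring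
      linarith
    have e7 : 0 ≤ N * ((1 + C0) * δ) := by positivity
    calc (∑ F : Ten n d R, (smRT t F : ℝ) ^ 2) - U ^ 2 * P
        ≤ U * P * (N * (1 + C0 * δ)) - U ^ 2 * P := by linarith
      _ = U * (P * (N * (1 + C0 * δ) - U)) := by ring
      _ ≤ U * (P * (N * ((1 + C0) * δ))) :=
          mul_le_mul_of_nonneg_left (mul_le_mul_of_nonneg_left e6 hP0.le) hU0
      _ ≤ N * (P * (N * ((1 + C0) * δ))) := mul_le_mul_of_nonneg_right hU2 (by positivity)
      _ = N ^ 2 * P * ((1 + C0) * δ) := by ring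
  set T := Finset.univ.filter (fun F : Ten n d R => (smRT t F : ℝ) ≤ N / 2) with hT'
  have hlow : (T.card : ℝ) * ((3 / 8 * N) ^ 2) ≤
      ∑ F : Ten n d R, ((smRT t F : ℝ) - U) ^ 2 := by
    calc (T.card : ℝ) * ((3 / 8 * N) ^ 2)
        = ∑ F ∈ T, ((3 / 8 * N) ^ 2) := by rw [Finset.sum_const, nsmul_eq_mul]
      _ ≤ ∑ F ∈ T, ((smRT t F : ℝ) - U) ^ 2 := by
          refine Finset.sum_le_sum fun F hF => ?_
          have h1 : (smRT t F : ℝ) ≤ N / 2 := (Finset.mem_filter.mp hF).2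
          have h4 : N * (7 / 8) ≤ N * (1 - δ) :=
            mul_le_mul_of_nonneg_left (by linarith) hN0.le
          have h5 : 3 / 8 * N ≤ U - (smRT t F : ℝ) := by linarith
          have h6 : (0 : ℝ) ≤ 3 / 8 * N := by positivity
          have h7 : (3 / 8 * N) ^ 2 ≤ (U - (smRT t F : ℝ)) ^ 2 :=
            pow_le_pow_left₀ h6 h5 2
          calc (3 / 8 * N) ^ 2 ≤ (U - (smRT t F : ℝ)) ^ 2 := h7
            _ = ((smRT t F : ℝ) - U) ^ 2 := by ring
      _ ≤ _ := Finset.sum_le_sum_of_subset_of_nonneg (Finset.filter_subset _ _)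
          (fun F _ _ => by positivity)
  have hfin : (T.card : ℝ) * ((3 / 8 * N) ^ 2) ≤ N ^ 2 * P * ((1 + C0) * δ) := hlow.trans hD
  have hN6 : (0 : ℝ) < 9 / 64 * N ^ 2 := by positivity
  have hTc : Nat.card {F : Ten n d R // (smRT t F : ℝ) ≤ N / 2} = T.card := by
    rw [Nat.card_eq_fintype_card, Fintype.card_subtype]
  rw [hTc]
  refine le_of_mul_le_mul_right ?_ hN6
  calc (T.card : ℝ) * (9 / 64 * N ^ 2) = (T.card : ℝ) * ((3 / 8 * N) ^ 2) := by ring
    _ ≤ N ^ 2 * P * ((1 + C0) * δ) := hfin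
    _ ≤ 16 * (1 + C0) * δ * P * (9 / 64 * N ^ 2) := by
        have e7 : 16 * (1 + C0) * δ * P * (9 / 64 * N ^ 2) = (9 / 4) * (N ^ 2 * P * ((1 + C0) * δ)) := by
          ring
        rw [e7]
        have h0 : (0 : ℝ) ≤ N ^ 2 * P * ((1 + C0) * δ) := by positivity
        linarith

end Pool.Agent.Lib.MP_1ad228_ntW
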