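import Pool.Agent.Lib.MP_1ad228_ntW.LD_MomT
import Pool.Agent.Lib.MP_1ad228_ntW.LD_DelT
import Pool.Agent.Lib.MP_1ad228_ntW.LD_HenT
import Pool.Agent.Lib.MP_1ad228_ntW.LD_CrtT
import Pool.Agent.Lib.MP_1ad228_ntW.LD_EquiS
import Pool.Agent.Lib.MP_1ad228_ntW.A_All
import Pool.Agent.Lib.MP_1ad228_ntN.LD_Split

/-!
JOB LocDensT.  Assembly of the local densities.  (Model with proof: Lib/MP_1ad228_ntN/LocDens.lean.)

PROOF.  `a = ax t ∈ (0,1)`, `C1` from `equiS K n d`, `C2` from `delT K a`, `C3` from `TRb_quot K t ht`.  `δ(p0) = C2 (p0+1)^(a-1) → 0`: choose `p0` with `δ ≤ 1/8` and `16 (1 + C3) C1 δ ≤ ε/2`.  `T` = the finite set of nonzero prime ideals `P` with `absNorm P ≤ p0`.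
Choose `e ≥ 1` with `C1 (n+1) (#T + 1)/2^e ≤ ε/2`.  For `P ∈ T` `D_P` from `henselT n d t .. P .. e`; `D = ∑_{P ∈ T} D_P`.  `τ = 1/2 * ∏_{P ∈ T} 1/(absNorm P)^(D (n+1))`, `w0 = D + p0`.  Let `w ≥ w0`.
`LD_split` for `I = WI K w` and `T`: `WI K w = (∏ P ∈ T, P ^ m P) * J`, `m P ≥ w ≥ D ≥ D_P` (`LD_WI`).  Every prime `Q ≥ J` has `absNorm Q > p0`, so `IdA (𝓞 K ⧸ J) a δ` (`delT`).
Exceptional tensors: (1) `smT t J F ≤ (absNorm J)^(n+1)/2`: `equiS` for `J`, `M1T` for `R = 𝓞 K ⧸ J` (`card_quotO`), `TRb_quot`: at most `C1 16 (1 + C3) δ A^(eV) ≤ (ε/2) A^(eV)`.  (2) for `P ∈ T`: `ExcR (red (P^e) (sg F))`: `red (P^e) (sg F) = sg (tmap (mk) F)` (`rfl`), `equiS` for `P^e`, `excS`: at most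
`C1 (n+1)/(absNorm P)^e A^(eV)`.
Outside, for `F` with `PSolT t F`: `smT t (P ^ m P) F ≥ (absNorm P)^((n+1)(m P - D_P)) ≥ (absNorm P)^((n+1)(m P - D))`; `prodT`, `mulT` (`LD_cop`, `LD_cop2`): `smT t (WI K w) F ≥ ∏_P (absNorm P)^((n+1)(m P - D)) * (absNorm J)^(n+1)/2 = τ * (absNorm (WI K w))^(n+1) = τ (WW w)^(e_K (n+1))` (`absNorm_WI`).
-/

namespace Pool.Agent.Lib.MP_1ad228_ntW

open NumberField Classical Pool.Agent.Lib.MP_1ad228_ntN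

/-- Counting for the singular classes. -/
private theorem locdensT_excBox (K : Type) [Field K] [NumberField K] (n d : ℕ) (hd : 1 ≤ d) (C1 : ℝ)
    (hC1 : 0 < C1)
    (hE : ∀ I : Ideal (𝓞 K), I ≠ ⊥ → ∃ A0 : ℕ, ∀ A : ℕ, A0 ≤ A →
      ∀ p : Ten n d (𝓞 K ⧸ I) → Prop,
        (((Box K n d A).filter fun F => p (tmap (Ideal.Quotient.mk I) F)).card : ℝ) ≤
          C1 * ((Nat.card {G : Ten n d (𝓞 K ⧸ I) // p G} : ℝ) /
            (Ideal.absNorm I : ℝ) ^ (n + 1) ^ d) * (A : ℝ) ^ (eK K * (n + 1) ^ d))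
    (P : Ideal (𝓞 K)) (hP0 : P ≠ ⊥) (e : ℕ) : ∃ A0 : ℕ, ∀ A : ℕ, A0 ≤ A →
    (((Box K n d A).filter fun F => ExcR (red (P ^ e) (sg F))).card : ℝ) ≤
      C1 * (n + 1) / (Ideal.absNorm P : ℝ) ^ e * (A : ℝ) ^ (eK K * (n + 1) ^ d) := by
  have hPe : P ^ e ≠ ⊥ := pow_ne_zero e hP0
  obtain ⟨A0, hA0⟩ := hE (P ^ e) hPe
  refine ⟨A0, fun A hA => ?_⟩
  have h1 := hA0 A hA (fun G => ExcR (sg G))
  have hset : ((Box K n d (A : ℝ)).filter fun F => ExcR (red (P ^ e) (sg F))) =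
      ((Box K n d (A : ℝ)).filter fun F => ExcR (sg (tmap (Ideal.Quotient.mk (P ^ e)) F))) := rfl
  rw [hset]
  refine h1.trans ?_
  have hfin : Finite (𝓞 K ⧸ P ^ e) := finite_quot hPe
  have h3 := excS n d hd (𝓞 K ⧸ P ^ e)
  rw [card_quotO] at h3
  have hN : (0 : ℝ) < (Ideal.absNorm (P ^ e) : ℝ) := by
    have : Ideal.absNorm (P ^ e) ≠ 0 := by
      intro h
      exact hPe (Ideal.absNorm_eq_zero_iff.1 h)
    exact_mod_cast Nat.pos_of_ne_zero this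
  have hNe : (Ideal.absNorm (P ^ e) : ℝ) = (Ideal.absNorm P : ℝ) ^ e := by
    rw [map_pow]
    push_cast
    rfl
  have h4 : (Nat.card {G : Ten n d (𝓞 K ⧸ P ^ e) // ExcR (sg G)} : ℝ) *
      (Ideal.absNorm (P ^ e) : ℝ) ≤ (n + 1) * (Ideal.absNorm (P ^ e) : ℝ) ^ (n + 1) ^ d := by
    exact_mod_cast h3
  rw [← hNe]
  generalize (Nat.card {G : Ten n d (𝓞 K ⧸ P ^ e) // ExcR (sg G)} : ℝ) = c at h4 ⊢
  generalize (Ideal.absNorm (P ^ e) : ℝ) = N at h4 hN ⊢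
  have h6 : c / (N ^ (n + 1) ^ d) ≤ (n + 1) / N := by
    rw [div_le_div_iff₀ (by positivity) hN]
    exact h4
  have h5 : C1 * (c / (N ^ (n + 1) ^ d)) ≤ C1 * (n + 1) / N := by
    calc C1 * (c / (N ^ (n + 1) ^ d)) ≤ C1 * ((n + 1) / N) :=
          mul_le_mul_of_nonneg_left h6 hC1.le
      _ = C1 * (n + 1) / N := by ring
  exact mul_le_mul_of_nonneg_right h5 (by positivity)

/-- Counting for the classes with few solutions. -/
private theorem locdensT_fewBox (K : Type) [Field K] [NumberField K] (n d t m : ℕ) (hn : 2 ≤ n)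
    (hd : d = t * m) (hd1 : 1 ≤ d) (C1 : ℝ) (hC1 : 0 < C1)
    (hE : ∀ I : Ideal (𝓞 K), I ≠ ⊥ → ∃ A0 : ℕ, ∀ A : ℕ, A0 ≤ A →
      ∀ p : Ten n d (𝓞 K ⧸ I) → Prop,
        (((Box K n d A).filter fun F => p (tmap (Ideal.Quotient.mk I) F)).card : ℝ) ≤
          C1 * ((Nat.card {G : Ten n d (𝓞 K ⧸ I) // p G} : ℝ) /
            (Ideal.absNorm I : ℝ) ^ (n + 1) ^ d) * (A : ℝ) ^ (eK K * (n + 1) ^ d))
    (J : Ideal (𝓞 K)) (hJ : J ≠ ⊥) {a δ C3 : ℝ} (ha : 0 ≤ a) (hC3 : 1 ≤ C3)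
    (hδ : IdA (𝓞 K ⧸ J) a δ) (hT : TRb t (𝓞 K ⧸ J) a C3) (h8 : δ ≤ 1 / 8) :
    ∃ A0 : ℕ, ∀ A : ℕ, A0 ≤ A →
    (((Box K n d A).filter fun F => (smT t J F : ℝ) ≤ (Ideal.absNorm J : ℝ) ^ (n + 1) / 2).card : ℝ) ≤
      C1 * (16 * (1 + C3) * δ) * (A : ℝ) ^ (eK K * (n + 1) ^ d) := by
  obtain ⟨A0, hA0⟩ := hE J hJ
  refine ⟨A0, fun A hA => ?_⟩
  have h1 := hA0 A hA (fun G => (smRT t G : ℝ) ≤ (Ideal.absNorm J : ℝ) ^ (n + 1) / 2)
  refine h1.trans ?_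
  have hfin : Finite (𝓞 K ⧸ J) := finite_quot hJ
  have h3 := M1T n d t m hn hd hd1 (𝓞 K ⧸ J) ha hC3 hδ hT h8
  rw [card_quotO] at h3
  have hN : (0 : ℝ) < (Ideal.absNorm J : ℝ) := by
    have : Ideal.absNorm J ≠ 0 := by
      intro h
      exact hJ (Ideal.absNorm_eq_zero_iff.1 h)
    exact_mod_cast Nat.pos_of_ne_zero this
  generalize (Nat.card {G : Ten n d (𝓞 K ⧸ J) // (smRT t G : ℝ) ≤
        (Ideal.absNorm J : ℝ) ^ (n + 1) / 2} : ℝ) = c at h3 ⊢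
  generalize (Ideal.absNorm J : ℝ) = N at h3 hN ⊢
  have h6 : c / (N ^ (n + 1) ^ d) ≤ 16 * (1 + C3) * δ := by
    rw [div_le_iff₀ (by positivity)]
    exact h3
  exact mul_le_mul_of_nonneg_right (mul_le_mul_of_nonneg_left h6 hC1.le) (by positivity)

/-- Lower bound for the number of solutions outside the exceptional sets. -/
private theorem locdensT_lower {K : Type} [Field K] [NumberField K] {n d t : ℕ}
    (T : Finset (Ideal (𝓞 K)))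
    (hT : ∀ P ∈ T, P.IsPrime ∧ P ≠ ⊥) (m D : Ideal (𝓞 K) → ℕ) (J : Ideal (𝓞 K)) (hJ : J ≠ ⊥)
    (hJT : ∀ P ∈ T, ¬ J ≤ P) (w : ℕ) (hI : WI K w = (∏ P ∈ T, P ^ m P) * J)
    (hm : ∀ P ∈ T, D P ≤ m P) (F : Ten n d (𝓞 K))
    (h1 : ∀ P ∈ T, Ideal.absNorm P ^ ((n + 1) * (m P - D P)) ≤ smT t (P ^ m P) F)
    (h2 : (Ideal.absNorm J : ℝ) ^ (n + 1) / 2 < (smT t J F : ℝ)) :
    (1 / 2 * ∏ P ∈ T, (1 / ((Ideal.absNorm P : ℝ) ^ (D P * (n + 1))))) *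
        (WW w : ℝ) ^ (eK K * (n + 1)) ≤
      (smT t (WI K w) F : ℝ) := by
  have hNP : ∀ P ∈ T, (0 : ℝ) < (Ideal.absNorm P : ℝ) := by
    intro P hP
    have : Ideal.absNorm P ≠ 0 := by
      intro h
      exact (hT P hP).2 (Ideal.absNorm_eq_zero_iff.1 h)
    exact_mod_cast Nat.pos_of_ne_zero this
  have hprod0 : (∏ P ∈ T, P ^ m P) ≠ ⊥ := by
    have : (∏ P ∈ T, P ^ m P) ≠ 0 :=
      Finset.prod_ne_zero_iff.2 fun P hP => pow_ne_zero _ (hT P hP).2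
    exact this
  have hmul := mulT t (∏ P ∈ T, P ^ m P) J hprod0 hJ (LD_cop2 T hT m J hJT) F
  have hprod := prodT t T (fun P => P ^ m P) (fun P hP => pow_ne_zero _ (hT P hP).2)
    (fun P hP Q hQ hPQ => LD_cop (hT P hP).1 (hT P hP).2 (hT Q hQ).1 (hT Q hQ).2 hPQ _ _) F
  have hloc : ∏ P ∈ T, Ideal.absNorm P ^ ((n + 1) * (m P - D P)) ≤
      ∏ P ∈ T, smT t (P ^ m P) F := Finset.prod_le_prod' fun P hP => h1 P hP
  have hnat : (∏ P ∈ T, Ideal.absNorm P ^ ((n + 1) * (m P - D P))) *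
      smT t J F ≤ smT t (WI K w) F := by
    rw [hI]
    exact (Nat.mul_le_mul_right _ (hloc.trans hprod)).trans hmul
  have hall : (∏ P ∈ T, (Ideal.absNorm P : ℝ) ^ ((n + 1) * (m P - D P))) *
      (smT t J F : ℝ) ≤ (smT t (WI K w) F : ℝ) := by
    exact_mod_cast hnat
  have hcast : (WW w : ℝ) ^ eK K = (∏ P ∈ T, (Ideal.absNorm P : ℝ) ^ m P) *
      (Ideal.absNorm J : ℝ) := by
    have h3 : Ideal.absNorm (WI K w) = (∏ P ∈ T, Ideal.absNorm P ^ m P) * Ideal.absNorm J := by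
      rw [hI, map_mul, map_prod]
      simp only [map_pow]
    rw [absNorm_WI] at h3
    exact_mod_cast h3
  have hrr : ∀ P ∈ T,
      (1 / ((Ideal.absNorm P : ℝ) ^ (D P * (n + 1)))) *
          ((Ideal.absNorm P : ℝ) ^ m P) ^ (n + 1) =
        (Ideal.absNorm P : ℝ) ^ ((n + 1) * (m P - D P)) := by
    intro P hP
    have hp0 := hNP P hP
    rw [one_div, inv_mul_eq_div, div_eq_iff (pow_pos hp0 _).ne', ← pow_mul, ← pow_add]
    obtain ⟨v, hv⟩ : ∃ v, m P = D P + v := ⟨m P - D P, by have := hm P hP; omega⟩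
    rw [hv, Nat.add_sub_cancel_left]
    congr 1
    ring
  have hstep : (1 / 2 * ∏ P ∈ T, (1 / ((Ideal.absNorm P : ℝ) ^ (D P * (n + 1))))) *
        (WW w : ℝ) ^ (eK K * (n + 1)) =
      (∏ P ∈ T, (Ideal.absNorm P : ℝ) ^ ((n + 1) * (m P - D P))) *
        ((Ideal.absNorm J : ℝ) ^ (n + 1) / 2) := by
    rw [pow_mul, hcast, mul_pow, ← Finset.prod_pow,
      ← Finset.prod_congr rfl hrr, Finset.prod_mul_distrib]
    ring
  rw [hstep]
  have hpos : 0 ≤ ∏ P ∈ T, (Ideal.absNorm P : ℝ) ^ ((n + 1) * (m P - D P)) := by positivity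
  exact (mul_le_mul_of_nonneg_left h2.le hpos).trans hall

/-- The choice of the bound for the small prime ideals. -/
private theorem locdensT_small (a η : ℝ) (ha : a < 1) (hη : 0 < η) :
    ∃ p0 : ℕ, ((p0 : ℝ) + 1) ^ (a - 1) ≤ η := by
  have htend : Filter.Tendsto (fun x : ℝ => x ^ (-(1 - a))) Filter.atTop (nhds 0) :=
    tendsto_rpow_neg_atTop (by linarith)
  have h1 : ∀ᶠ x : ℝ in Filter.atTop, x ^ (-(1 - a)) < η := htend.eventually (gt_mem_nhds hη)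
  obtain ⟨X, hX⟩ := Filter.eventually_atTop.1 h1
  obtain ⟨p0, hp0⟩ := exists_nat_ge X
  refine ⟨p0, ?_⟩
  have h2 := hX ((p0 : ℝ) + 1) (by linarith)
  rw [neg_sub] at h2
  exact h2.le

theorem locDensT (K : Type) [Field K] [NumberField K] (n d t m : ℕ) (hn : 2 ≤ n)
    (hd : d = t * m) (ht : 2 ≤ t) (hm : 1 ≤ m) (ε : ℝ) (hε : 0 < ε) :
    ∃ τ : ℝ, 0 < τ ∧ ∃ w0 : ℕ, ∀ w : ℕ, w0 ≤ w → ∃ A0 : ℕ, ∀ A : ℕ, A0 ≤ A →
      (((Box K n d A).filter fun F => PSolT t F ∧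
          (smT t (WI K w) F : ℝ) < τ * (WW w : ℝ) ^ (eK K * (n + 1))).card : ℝ) ≤
        ε * (A : ℝ) ^ (eK K * (n + 1) ^ d) := by
  have hd1 : 1 ≤ d := by
    rw [hd]
    exact Nat.mul_pos (by omega) hm
  have ht1 : 1 ≤ t := by omega
  obtain ⟨a, hadef⟩ : ∃ a : ℝ, a = ax t := ⟨_, rfl⟩
  have ha0 : 0 ≤ a := by
    rw [hadef]
    linarith [ax_pos ht]
  have ha1 : a < 1 := by
    rw [hadef]
    exact ax_lt_one ht1
  obtain ⟨C1, hC1, hE⟩ := equiS K n d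
  obtain ⟨C2, hC2, hdel⟩ := delT K a ha1
  obtain ⟨C3, hC3, hTRb⟩ := TRb_quot K t ht
  rw [← hadef] at hTRb
  have hC2p : 0 < C2 := by linarith
  have hC3p : 0 < 1 + C3 := by linarith
  obtain ⟨p0, hp0⟩ := locdensT_small a (min (1 / 8) (ε / (32 * (1 + C3) * C1)) / C2) ha1
    (div_pos (lt_min (by norm_num) (by positivity)) hC2p)
  obtain ⟨δ, hδdef⟩ : ∃ δ : ℝ, δ = C2 * ((p0 : ℝ) + 1) ^ (a - 1) := ⟨_, rfl⟩
  have hδmin : δ ≤ min (1 / 8) (ε / (32 * (1 + C3) * C1)) := by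
    rw [le_div_iff₀ hC2p] at hp0
    rw [hδdef, mul_comm]
    exact hp0
  have h8 : δ ≤ 1 / 8 := hδmin.trans (min_le_left _ _)
  have h16 : C1 * (16 * (1 + C3) * δ) ≤ ε / 2 := by
    have h1 : δ ≤ ε / (32 * (1 + C3) * C1) := hδmin.trans (min_le_right _ _)
    rw [le_div_iff₀ (by positivity)] at h1
    linarith
  have hTfin := Ideal.finite_setOfPred_absNorm_le (S := 𝓞 K) p0
  obtain ⟨T, hTdef⟩ : ∃ T : Finset (Ideal (𝓞 K)),
      T = hTfin.toFinset.filter (fun P => P.IsPrime ∧ P ≠ ⊥) := ⟨_, rfl⟩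
  have hTmem : ∀ P : Ideal (𝓞 K), P ∈ T ↔ Ideal.absNorm P ≤ p0 ∧ P.IsPrime ∧ P ≠ ⊥ := by
    intro P
    rw [hTdef, Finset.mem_filter, Set.Finite.mem_toFinset]
    rfl
  have hT : ∀ P ∈ T, P.IsPrime ∧ P ≠ ⊥ := fun P hP => ((hTmem P).1 hP).2
  have hN2 : ∀ P ∈ T, 2 ≤ Ideal.absNorm P := by
    intro P hP
    have h0 : Ideal.absNorm P ≠ 0 := by
      intro h
      exact (hT P hP).2 (Ideal.absNorm_eq_zero_iff.1 h)
    have h1 : Ideal.absNorm P ≠ 1 := by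
      intro h
      exact (hT P hP).1.ne_top (Ideal.absNorm_eq_one_iff.1 h)
    omega
  obtain ⟨e1, he1⟩ := pow_unbounded_of_one_lt
    (2 * C1 * ((n : ℝ) + 1) * ((T.card : ℝ) + 1) / ε) (by norm_num : (1 : ℝ) < 2)
  obtain ⟨e, hedef⟩ : ∃ e : ℕ, e = e1 + 1 := ⟨_, rfl⟩
  have he : 1 ≤ e := by omega
  have he2 : 2 * C1 * ((n : ℝ) + 1) * ((T.card : ℝ) + 1) / ε ≤ 2 ^ e := by
    refine he1.le.trans ?_
    exact pow_le_pow_right₀ (by norm_num) (by omega)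
  choose! D hD using fun (P : Ideal (𝓞 K)) (hP : P.IsPrime ∧ P ≠ ⊥) =>
    henselT n d t ht1 hd1 P hP.1 hP.2 e he
  refine ⟨1 / 2 * ∏ P ∈ T, (1 / ((Ideal.absNorm P : ℝ) ^ (D P * (n + 1)))), ?_,
    (∑ P ∈ T, D P) + p0, fun w hw => ?_⟩
  · refine mul_pos (by norm_num) (Finset.prod_pos fun P hP => ?_)
    have hp0 : (0 : ℝ) < (Ideal.absNorm P : ℝ) := by
      have := hN2 P hP
      exact_mod_cast (by omega : 0 < Ideal.absNorm P)
    positivity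
  have hw0 : p0 ≤ w := by omega
  obtain ⟨m', J, hI, hJ, hJT, hmax⟩ := LD_split (WI K w) (WI_ne_bot K w) T hT
  have hm' : ∀ P ∈ T, D P ≤ m' P := fun P hP => by
    have h1 := hmax P hP w (LD_WI w P (hT P hP).1 (hT P hP).2 (((hTmem P).1 hP).1.trans hw0))
    have h2 : D P ≤ ∑ P ∈ T, D P := Finset.single_le_sum (f := D) (fun _ _ => Nat.zero_le _) hP
    omega
  have hJp : ∀ Q : Ideal (𝓞 K), Q.IsPrime → J ≤ Q → p0 < Ideal.absNorm Q := by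
    intro Q hQ hJQ
    by_contra hcon
    have hQ0 : Q ≠ ⊥ := by
      intro h
      rw [h] at hJQ
      exact hJ (le_bot_iff.1 hJQ)
    exact hJT Q ((hTmem Q).2 ⟨not_lt.1 hcon, hQ, hQ0⟩) hJQ
  have hIdA : IdA (𝓞 K ⧸ J) a δ := by
    rw [hδdef]
    exact hdel p0 J hJ hJp
  obtain ⟨A1, hA1⟩ := locdensT_fewBox K n d t m hn hd hd1 C1 hC1 hE J hJ ha0 hC3 hIdA (hTRb J hJ) h8
  choose! A2 hA2 using fun (P : Ideal (𝓞 K)) (hP : P ≠ ⊥) =>
    locdensT_excBox K n d hd1 C1 hC1 hE P hP e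
  refine ⟨A1 + ∑ P ∈ T, A2 P, fun A hA => ?_⟩
  have hsub : ((Box K n d A).filter fun F => PSolT t F ∧
        (smT t (WI K w) F : ℝ) <
          (1 / 2 * ∏ P ∈ T, (1 / ((Ideal.absNorm P : ℝ) ^ (D P * (n + 1))))) *
            (WW w : ℝ) ^ (eK K * (n + 1))) ⊆
      ((Box K n d A).filter fun F => (smT t J F : ℝ) ≤ (Ideal.absNorm J : ℝ) ^ (n + 1) / 2) ∪
        T.biUnion (fun P => (Box K n d A).filter fun F => ExcR (red (P ^ e) (sg F))) := by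
    intro F hF
    rw [Finset.mem_filter] at hF
    obtain ⟨hbox, hsol, hlt⟩ := hF
    rw [Finset.mem_union, Finset.mem_biUnion, Finset.mem_filter]
    by_contra hcon
    rw [not_or] at hcon
    have h2 : (Ideal.absNorm J : ℝ) ^ (n + 1) / 2 < (smT t J F : ℝ) := by
      by_contra h
      exact hcon.1 ⟨hbox, not_lt.1 h⟩
    have h1 : ∀ P ∈ T, ¬ ExcR (red (P ^ e) (sg F)) := by
      intro P hP h
      exact hcon.2 ⟨P, hP, Finset.mem_filter.2 ⟨hbox, h⟩⟩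
    have := locdensT_lower (t := t) T hT m' D J hJ hJT w hI hm' F
      (fun P hP => hD P (hT P hP) (m' P) (hm' P hP) F (hsol P (hT P hP).1 (hT P hP).2) (h1 P hP)) h2
    exact absurd this (not_le.2 hlt)
  have hc1 : (((Box K n d A).filter fun F => PSolT t F ∧
        (smT t (WI K w) F : ℝ) <
          (1 / 2 * ∏ P ∈ T, (1 / ((Ideal.absNorm P : ℝ) ^ (D P * (n + 1))))) *
            (WW w : ℝ) ^ (eK K * (n + 1))).card : ℝ) ≤
      (((Box K n d A).filter fun F => (smT t J F : ℝ) ≤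
        (Ideal.absNorm J : ℝ) ^ (n + 1) / 2).card : ℝ) +
        ∑ P ∈ T, (((Box K n d A).filter fun F => ExcR (red (P ^ e) (sg F))).card : ℝ) := by
    have h1 := (Finset.card_le_card hsub).trans (Finset.card_union_le _ _)
    have h2 := h1.trans (Nat.add_le_add_left Finset.card_biUnion_le _)
    exact_mod_cast h2
  refine hc1.trans ?_
  have hA1' : A1 ≤ A := le_trans (Nat.le_add_right _ _) hA
  have hV : (0 : ℝ) ≤ (A : ℝ) ^ (eK K * (n + 1) ^ d) := by positivity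
  have h3 : ∀ P ∈ T, (((Box K n d A).filter fun F => ExcR (red (P ^ e) (sg F))).card : ℝ) ≤
      (ε / (2 * ((T.card : ℝ) + 1))) * (A : ℝ) ^ (eK K * (n + 1) ^ d) := by
    intro P hP
    have hAp : A2 P ≤ A := by
      have : A2 P ≤ ∑ P ∈ T, A2 P := Finset.single_le_sum (f := A2) (fun _ _ => Nat.zero_le _) hP
      omega
    refine (hA2 P (hT P hP).2 A hAp).trans ?_
    have hpe : (2 : ℝ) ^ e ≤ (Ideal.absNorm P : ℝ) ^ e := by
      gcongr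
      exact_mod_cast hN2 P hP
    have hlow : 2 * C1 * ((n : ℝ) + 1) * ((T.card : ℝ) + 1) / ε ≤
        (Ideal.absNorm P : ℝ) ^ e := he2.trans hpe
    have h8 : C1 * ((n : ℝ) + 1) / (Ideal.absNorm P : ℝ) ^ e ≤
        ε / (2 * ((T.card : ℝ) + 1)) := by
      have hpp' : (0 : ℝ) < (Ideal.absNorm P : ℝ) ^ e := lt_of_lt_of_le (by positivity) hpe
      rw [div_le_div_iff₀ hpp' (by positivity)]
      rw [div_le_iff₀ hε] at hlow
      linarith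
    exact mul_le_mul_of_nonneg_right h8 hV
  have h4 : ∑ P ∈ T, (((Box K n d A).filter fun F => ExcR (red (P ^ e) (sg F))).card : ℝ) ≤
      (ε / 2) * (A : ℝ) ^ (eK K * (n + 1) ^ d) := by
    refine (Finset.sum_le_sum h3).trans ?_
    rw [Finset.sum_const, nsmul_eq_mul]
    generalize (A : ℝ) ^ (eK K * (n + 1) ^ d) = U at hV
    have hcard : (T.card : ℝ) ≤ (T.card : ℝ) + 1 := by linarith
    calc (T.card : ℝ) * (ε / (2 * ((T.card : ℝ) + 1)) * U)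
        ≤ ((T.card : ℝ) + 1) * (ε / (2 * ((T.card : ℝ) + 1)) * U) :=
          mul_le_mul_of_nonneg_right hcard (by positivity)
      _ = (ε / 2) * U := by
          field_simp
  have h5 := hA1 A hA1'
  have h6 : C1 * (16 * (1 + C3) * δ) * (A : ℝ) ^ (eK K * (n + 1) ^ d) ≤
      (ε / 2) * (A : ℝ) ^ (eK K * (n + 1) ^ d) := mul_le_mul_of_nonneg_right h16 hV
  calc _ ≤ (ε / 2) * (A : ℝ) ^ (eK K * (n + 1) ^ d) + (ε / 2) * (A : ℝ) ^ (eK K * (n + 1) ^ d) :=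
        add_le_add (h5.trans h6) h4
    _ = ε * (A : ℝ) ^ (eK K * (n + 1) ^ d) := by ring

end Pool.Agent.Lib.MP_1ad228_ntW
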