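import Pool.Agent.Lib.MP_1ad228_ntW.RP_Shift
import Pool.Agent.Lib.MP_1ad228_ntN.Trans

/-!
JOB RP_FinT.  Almost all tensors soluble at the infinite places are robustly soluble.

PROOF.  `e = eK K`, `V = (n+1)^d`, `C` from `boxTwo K n d`: `#Box K n d (2A) ≤ C A^(eV)`.  For odd `t` (and at the complex places) `robTriv` (with `ρ ≤ 1/4`, `robMono`).  Let `t` be even, `c` from `robShift`.
`ρ = min (1/4) (ε c/(2 e C))`, `A0` with `2 e C/A0 ≤ ε`.  For a real place `v` let `Bad_v = {F ∈ Box K n d A | RSolT t v F ∧ ¬ RobT t v 0 ρ (scT v A F)}`.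
Claim: if `F, F' ∈ Bad_v` and `F' = F + b • dg` with `b ≥ 1` then `b < ρ A/c`.  (`b ≤ 2A`: the entries of `F, F'` at a diagonal position (`d ≥ 1`) have absolute value `≤ A` and differ by `b`.)  By `robShift` `RobT t v 0 (c b/A) (scT v A F')`; if `ρ ≤ c b/A` then `robMono` contradicts `F' ∈ Bad_v`.
Double counting: the map `(F, j) ↦ F + j • dg` from `Bad_v × {0, .., A}` goes to `Box K n d (2A)`; the fibre over `G` consists of pairs `(G - j • dg, j)`, any two `j < j'` of it satisfy `j' - j < ρ A/c` (claim with `F' = G - j • dg = (G - j' • dg) + (j' - j) • dg`), so it has at most `ρ A/c + 1` elements.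
`#Bad_v (A + 1) ≤ (ρ A/c + 1) C A^(eV)`, so `#Bad_v ≤ (ρ/c + 1/A) C A^(eV) ≤ (ε/e) A^(eV)`.  The exceptional set is contained in the union of the `Bad_v`, at most `e` places (`card_places_le`; `Finset.card_biUnion_le`).
-/

namespace Pool.Agent.Lib.MP_1ad228_ntW

open NumberField Classical Pool.Agent.Lib.MP_1ad228_ntN

/-- A set of pairs with distinct second entries in an interval. -/
theorem RP_FinT_fib {α : Type*} (S : Finset (α × ℕ)) (M : ℕ)
    (h1 : ∀ p ∈ S, ∀ p' ∈ S, p.2 = p'.2 → p = p')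
    (h2 : ∀ p ∈ S, ∀ p' ∈ S, p.2 < p'.2 → p'.2 - p.2 ≤ M) : S.card ≤ M + 1 := by
  rcases S.eq_empty_or_nonempty with h | h
  · rw [h]
    simp
  · have hJ : (S.image Prod.snd).card = S.card :=
      Finset.card_image_of_injOn (fun p hp p' hp' he =>
        h1 p (Finset.mem_coe.1 hp) p' (Finset.mem_coe.1 hp') he)
    obtain ⟨p0, hp0, hmin⟩ := Finset.exists_min_image S Prod.snd h
    have hsub : S.image Prod.snd ⊆ Finset.Icc p0.2 (p0.2 + M) := by
      intro j hj
      obtain ⟨p, hp, rfl⟩ := Finset.mem_image.1 hj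
      rw [Finset.mem_Icc]
      have h3 := hmin p hp
      rcases h3.eq_or_lt with he | hlt
      · omega
      · have := h2 p0 hp0 p hp hlt
        omega
    have h4 := Finset.card_le_card hsub
    rw [hJ, Nat.card_Icc] at h4
    omega

/-- The tensors which are soluble but not robustly soluble at a real place, `t` even. -/
theorem RP_FinT_real {n d t : ℕ} {c : ℝ} (hc0 : 0 < c)
    {K : Type} [Field K] [NumberField K] (v : InfinitePlace K)
    (hc : ∀ (A : ℕ), 1 ≤ A → ∀ F ∈ Box K n d A, RSolT t v F →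
      ∀ b : ℕ, 1 ≤ b → b ≤ 2 * A → RobT t v 0 (c * b / A) (scT v A (F + b • dg n d (𝓞 K))))
    {ρ : ℝ} (hρ : 0 ≤ ρ) {A : ℕ} (hA : 1 ≤ A) :
    (((Box K n d A).filter fun F => RSolT t v F ∧ ¬ RobT t v 0 ρ (scT v A F)).card : ℝ) *
        (A + 1) ≤ (ρ * A / c + 1) * ((Box K n d (2 * A)).card : ℝ) := by
  set Bad := (Box K n d A).filter fun F => RSolT t v F ∧ ¬ RobT t v 0 ρ (scT v A F) with hBad
  have hA0 : (0 : ℝ) < A := by exact_mod_cast hA
  have hclaim : ∀ F ∈ Bad, ∀ F' ∈ Bad, ∀ b : ℕ, 1 ≤ b → b ≤ A → F' = F + b • dg n d (𝓞 K) →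
      b ≤ ⌊ρ * A / c⌋₊ := by
    intro F hF F' hF' b hb hbA he
    rw [hBad, Finset.mem_filter] at hF hF'
    apply Nat.le_floor
    by_contra hcon
    push Not at hcon
    have h1 := hc A hA F hF.1 hF.2.1 b hb (by omega)
    rw [← he] at h1
    refine hF'.2.2 (robMono ?_ h1)
    rw [div_lt_iff₀ hc0] at hcon
    rw [le_div_iff₀ hA0]
    linarith
  have hmap : ∀ p ∈ Bad ×ˢ Finset.range (A + 1), p.1 + p.2 • dg n d (𝓞 K) ∈ Box K n d (2 * A) := by
    rintro ⟨F, j⟩ hp
    rw [Finset.mem_product, hBad, Finset.mem_filter, Finset.mem_range] at hp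
    have hF := hp.1.1
    have hj : (j : ℝ) ≤ A := by exact_mod_cast (Nat.lt_succ_iff.1 hp.2)
    rw [mem_Box] at hF ⊢
    intro s w
    have h1 : (((F + j • dg n d (𝓞 K)) s : 𝓞 K) : K) = (F s : K) + (j : K) * (dg n d (𝓞 K) s : 𝓞 K) := by
      show algebraMap (𝓞 K) K (F s + j • dg n d (𝓞 K) s) = _
      rw [map_add, map_nsmul, nsmul_eq_mul]
    rw [h1]
    have h2 : w ((j : K) * ((dg n d (𝓞 K) s : 𝓞 K) : K)) ≤ A := by
      rw [map_mul, v_natCast]
      have h3 : w ((dg n d (𝓞 K) s : 𝓞 K) : K) ≤ 1 := by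
        unfold dg
        split_ifs
        · simp
        · simp
      calc (j : ℝ) * w ((dg n d (𝓞 K) s : 𝓞 K) : K) ≤ j * 1 :=
            mul_le_mul_of_nonneg_left h3 (Nat.cast_nonneg j)
        _ ≤ A := by rw [mul_one]; exact hj
    have h4 := hF s w
    exact (v_add_le w _ _).trans (by linarith)
  have hcard : (Bad ×ˢ Finset.range (A + 1)).card ≤
      (⌊ρ * A / c⌋₊ + 1) * (Box K n d (2 * A)).card := by
    apply Finset.card_le_mul_card_image_of_maps_to (f := fun p => p.1 + p.2 • dg n d (𝓞 K)) hmap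
    intro G _
    apply RP_FinT_fib
    · rintro ⟨F, j⟩ hp ⟨F', j'⟩ hp' he
      rw [Finset.mem_filter] at hp hp'
      have h1 : F + j • dg n d (𝓞 K) = G := hp.2
      have h2 : F' + j' • dg n d (𝓞 K) = G := hp'.2
      have h3 : j = j' := he
      subst h3
      have h4 : F = F' := add_right_cancel (h1.trans h2.symm)
      rw [h4]
    · rintro ⟨F, j⟩ hp ⟨F', j'⟩ hp' hlt
      rw [Finset.mem_filter, Finset.mem_product, Finset.mem_range] at hp hp'
      have h1 : F + j • dg n d (𝓞 K) = G := hp.2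
      have h2 : F' + j' • dg n d (𝓞 K) = G := hp'.2
      have h3 : j < j' := hlt
      obtain ⟨b, rfl⟩ : ∃ b, j' = j + b := ⟨j' - j, by omega⟩
      have h5 : F = F' + b • dg n d (𝓞 K) := by
        rw [add_nsmul, add_comm (j • _), ← add_assoc] at h2
        exact (add_right_cancel (h2.trans h1.symm)).symm
      have h6 : j + b < A + 1 := hp'.1.2
      have h7 := hclaim F' hp'.1.1 F hp.1.1 b (by omega) (by omega) h5
      show j + b - j ≤ _
      omega
  rw [Finset.card_product, Finset.card_range] at hcard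
  have h8 : ((Bad.card * (A + 1) : ℕ) : ℝ) ≤
      (((⌊ρ * A / c⌋₊ + 1) * (Box K n d (2 * A)).card : ℕ) : ℝ) := by exact_mod_cast hcard
  push_cast at h8
  refine h8.trans ?_
  apply mul_le_mul_of_nonneg_right _ (Nat.cast_nonneg _)
  have h9 : (⌊ρ * A / c⌋₊ : ℝ) ≤ ρ * A / c := Nat.floor_le (by positivity)
  linarith

theorem realRobT (K : Type) [Field K] [NumberField K] (n d t m : ℕ) (hd : d = t * m)
    (ht : 1 ≤ t) (hm : 1 ≤ m) (ε : ℝ) (hε : 0 < ε) :
    ∃ ρ : ℝ, 0 < ρ ∧ ρ ≤ 1 ∧ ∃ A0 : ℕ, ∀ A : ℕ, A0 ≤ A →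
      (((Box K n d A).filter fun F => (∀ v, RSolT t v F) ∧
          ¬ ∀ v : InfinitePlace K, RobT t v 0 ρ (scT v A F)).card : ℝ) ≤
        ε * (A : ℝ) ^ (eK K * (n + 1) ^ d) := by
  obtain ⟨C, hC1, hC⟩ := boxTwo K n d
  have he1 : 1 ≤ eK K := by
    unfold eK
    exact Module.finrank_pos
  have he : (1 : ℝ) ≤ eK K := by exact_mod_cast he1
  have hC0 : 0 < C := by linarith
  -- it suffices to bound the bad set at every place
  have hsuff : ∀ (ρ : ℝ) (A : ℕ), (∀ v : InfinitePlace K,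
      (((Box K n d A).filter fun F => RSolT t v F ∧ ¬ RobT t v 0 ρ (scT v A F)).card : ℝ) ≤
        ε / eK K * (A : ℝ) ^ (eK K * (n + 1) ^ d)) →
      (((Box K n d A).filter fun F => (∀ v, RSolT t v F) ∧
          ¬ ∀ v : InfinitePlace K, RobT t v 0 ρ (scT v A F)).card : ℝ) ≤
        ε * (A : ℝ) ^ (eK K * (n + 1) ^ d) := by
    intro ρ A h
    have h1 : ((Box K n d A).filter fun F => (∀ v, RSolT t v F) ∧
          ¬ ∀ v : InfinitePlace K, RobT t v 0 ρ (scT v A F)) ⊆
        (Finset.univ : Finset (InfinitePlace K)).biUnion fun v =>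
          (Box K n d A).filter fun F => RSolT t v F ∧ ¬ RobT t v 0 ρ (scT v A F) := by
      intro F hF
      rw [Finset.mem_filter] at hF
      obtain ⟨h2, h3, h4⟩ := hF
      push Not at h4
      obtain ⟨v, hv⟩ := h4
      rw [Finset.mem_biUnion]
      exact ⟨v, Finset.mem_univ v, Finset.mem_filter.2 ⟨h2, h3 v, hv⟩⟩
    have h2 := (Finset.card_le_card h1).trans Finset.card_biUnion_le
    have h3 : (((Box K n d A).filter fun F => (∀ v, RSolT t v F) ∧
          ¬ ∀ v : InfinitePlace K, RobT t v 0 ρ (scT v A F)).card : ℝ) ≤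
        ∑ v : InfinitePlace K, (((Box K n d A).filter fun F =>
          RSolT t v F ∧ ¬ RobT t v 0 ρ (scT v A F)).card : ℝ) := by exact_mod_cast h2
    refine h3.trans ?_
    calc ∑ v : InfinitePlace K, (((Box K n d A).filter fun F =>
          RSolT t v F ∧ ¬ RobT t v 0 ρ (scT v A F)).card : ℝ)
        ≤ ∑ _v : InfinitePlace K, ε / eK K * (A : ℝ) ^ (eK K * (n + 1) ^ d) :=
          Finset.sum_le_sum fun v _ => h v
      _ = (Fintype.card (InfinitePlace K) : ℝ) * (ε / eK K * (A : ℝ) ^ (eK K * (n + 1) ^ d)) := by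
          rw [Finset.sum_const, Finset.card_univ, nsmul_eq_mul]
      _ ≤ (eK K : ℝ) * (ε / eK K * (A : ℝ) ^ (eK K * (n + 1) ^ d)) := by
          apply mul_le_mul_of_nonneg_right _ (by positivity)
          exact_mod_cast card_places_le (K := K)
      _ = ε * (A : ℝ) ^ (eK K * (n + 1) ^ d) := by
          rw [← mul_assoc, mul_div_cancel₀ _ (by linarith)]
  -- the easy places
  have htriv : ∀ (ρ : ℝ), ρ ≤ 1 / 4 → ∀ (A : ℕ) (v : InfinitePlace K), (¬ v.IsReal ∨ Odd t) →
      (((Box K n d A).filter fun F => RSolT t v F ∧ ¬ RobT t v 0 ρ (scT v A F)).card : ℝ) ≤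
        ε / eK K * (A : ℝ) ^ (eK K * (n + 1) ^ d) := by
    intro ρ hρ A v hv
    rw [Finset.filter_false_of_mem]
    · rw [Finset.card_empty, Nat.cast_zero]
      positivity
    · intro F _ h
      exact h.2 (robMono hρ (robTriv t ht v 0 hv A F))
  rcases Nat.even_or_odd t with hte | hto
  · obtain ⟨c, hc0, hc1, hc⟩ := robShift n d t m hd ht hm hte
    have hρ0 : 0 < min (1 / 4 : ℝ) (ε * c / (2 * eK K * C)) := lt_min (by norm_num) (by positivity)
    have hρ1 : min (1 / 4 : ℝ) (ε * c / (2 * eK K * C)) ≤ 1 / 4 := min_le_left _ _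
    refine ⟨min (1 / 4) (ε * c / (2 * eK K * C)), hρ0, hρ1.trans (by norm_num),
      max 1 ⌈2 * eK K * C / ε⌉₊, fun A hA => hsuff _ A fun v => ?_⟩
    by_cases hv : v.IsReal
    · have hA1 : 1 ≤ A := (le_max_left _ _).trans hA
      have hA2 : 2 * eK K * C / ε ≤ A := (Nat.le_ceil _).trans (by exact_mod_cast (le_max_right _ _).trans hA)
      have hA0 : (0 : ℝ) < A := by exact_mod_cast hA1
      have h1 := RP_FinT_real (n := n) (d := d) (t := t) hc0 v
        (fun A hA F hF hs b hb hb2 => hc K v hv 0 A hA F hF hs b hb hb2) hρ0.le hA1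
      set ρ := min (1 / 4 : ℝ) (ε * c / (2 * eK K * C)) with hρ
      have h2 := hC A hA1
      set P := (A : ℝ) ^ (eK K * (n + 1) ^ d) with hP
      have hP0 : 0 < P := by positivity
      set B := (((Box K n d A).filter fun F => RSolT t v F ∧ ¬ RobT t v 0 ρ (scT v A F)).card : ℝ)
        with hB
      have h3 : B * (A + 1) ≤ (ρ * A / c + 1) * (C * P) :=
        h1.trans (mul_le_mul_of_nonneg_left h2 (by positivity))
      have h4 : ρ * (2 * eK K * C) ≤ ε * c := by
        rw [← le_div_iff₀ (by positivity)]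
        exact min_le_right _ _
      have h5 : 2 * eK K * C ≤ ε * A := by
        rw [div_le_iff₀ hε] at hA2
        linarith
      have h6 : (ρ * A / c + 1) * (2 * eK K * C) ≤ 2 * ε * A := by
        have h7 : ρ * A / c * (2 * eK K * C) = (ρ * (2 * eK K * C)) * A / c := by ring
        have h8 : ρ * A / c * (2 * eK K * C) ≤ ε * A := by
          rw [h7, div_le_iff₀ hc0]
          calc ρ * (2 * eK K * C) * A ≤ ε * c * A := mul_le_mul_of_nonneg_right h4 hA0.le
            _ = ε * A * c := by ring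
        calc (ρ * A / c + 1) * (2 * eK K * C) = ρ * A / c * (2 * eK K * C) + 2 * eK K * C := by ring
          _ ≤ ε * A + ε * A := add_le_add h8 h5
          _ = 2 * ε * A := by ring
      have h9 : B * A * eK K ≤ ε * P * A := by
        have hB0 : 0 ≤ B := Nat.cast_nonneg _
        have h10 : B * A ≤ B * (A + 1) := mul_le_mul_of_nonneg_left (by linarith) hB0
        have h11 : (B * A) * (2 * eK K) ≤ ((ρ * A / c + 1) * (C * P)) * (2 * eK K) :=
          mul_le_mul_of_nonneg_right (h10.trans h3) (by positivity)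
        have h12 : ((ρ * A / c + 1) * (C * P)) * (2 * eK K) =
            ((ρ * A / c + 1) * (2 * eK K * C)) * P := by ring
        have h13 := mul_le_mul_of_nonneg_right h6 hP0.le
        rw [h12] at h11
        linarith
      rw [div_mul_eq_mul_div, le_div_iff₀ (by linarith)]
      have h14 : B * eK K * A ≤ ε * P * A := by linarith
      exact le_of_mul_le_mul_right h14 hA0
    · exact htriv _ hρ1 A v (Or.inl hv)
  · exact ⟨1 / 4, by norm_num, by norm_num, 0, fun A _ => hsuff _ A fun v =>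
      htriv _ le_rfl A v (Or.inr hto)⟩

end Pool.Agent.Lib.MP_1ad228_ntW
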