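import Pool.Agent.Lib.MP_1ad228_ntW.MN_ParT
import Pool.Agent.Lib.MP_1ad228_ntW.G_Cheb
import Pool.Agent.Lib.MP_1ad228_ntW.E_Var
import Pool.Agent.Lib.MP_1ad228_ntW.LocDensT
import Pool.Agent.Lib.MP_1ad228_ntW.CN_LowT
import Pool.Agent.Lib.MP_1ad228_ntW.RP_FinT

/-!
JOB MN_Main.  Almost all everywhere locally soluble tensors have a small solution.  (Model with proof: Lib/MP_1ad228_ntN/MN_Bad.lean.)

PROOF.  `e = eK K ≥ 1`, `d = t m ≥ 2`, `ι = n + 1 - (t-1) m ≥ 1`, `l = 4(n+t)+16`, `V = (n+1)^d`, `D0 = (n l+1)(t ι)`, `a = ax t`.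
1. `realRobT K n d t m .. (ε/4)`: `ρ, A1`.  `q ≥ 1` with `1 ≤ ρ q`.  `locDensT .. (ε/4)`: `τ, w1`.  `lowT .. l .. ρ .. q`: `c`.  `varTotT .. q`: `C`.  `θ = ε (c τ)^2/(64 * 2 * C)` (then `1/E ≤ θ` and the bracket `S ≤ 3 θ` give what is needed, see `MN_Bad_ar` of the model (private there, copy it) with `P = 2`).
2. `k ≥ 1/θ`, `κ = k^2`; `w ≥ max w0(κ) w1` and `(w+1)^(a-1) ≤ θ` (`a < 1`: tends to `0`); `W = WW w`; `η = c τ/2`; `g0` from `lowT`; `A2` from `locDensT`.  `M = 2^D0 * k^t` (so `≥ 1`).  `Ca` from `alESmall` with `M`, `Λ = 1`; `g1` from `lgSmall (n*l+1) e _ Ca θ`.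
 `gpar n (t-1) l (t*ι) .. M g2 (⌈C⌉₊ * k)` of `Pool.Agent.Lib.MP_1ad228_ntF` (hypothesis: `lparT`) with `g2 = g0 + g1 + (k^2 W)^t (4 (n+1)^m)^t + ..` gives `A3`.  `A0 = A1 + A2 + A3 + ⌈C⌉₊ k^2 W + 1`.
3. `A ≥ A0`: `g` from `gpar`, `B = g^(n l+1)`, `H = g^(l+2)`, `R` from `exRC`.  `B^(tι) ≤ M A^(t-1) ≤ 2^D0 B^(tι)`.  Hypotheses of `varTotT`: `B ≤ R`: `R^t ≥ A B^d ≥ B^t` (`d ≥ t`); `C H^2 k ≤ A` (gpar); `C k^2 W ≤ A` (`A ≥ A0`);
 `k^2 W R ≤ A B^d`: `(k^2 W R)^t ≤ (k^2 W)^t (4 (n+1)^m)^t A B^d ≤ (A B^d)^t` because `(A B^d)^(t-1) ≥ B ≥ g ≥ (k^2 W)^t (4(n+1)^m)^t`.  `∀ m ≤ w, m ∣ WW w`: `Pool.Agent.Lib.MP_219881_nt.WWdvd`.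
 `E0 = B^(n+1) R/(A B^d)`, `E = EB K n d B R A = E0^e`; `EBt` and `RC` (`R^t ≥ A B^d`): `E0^t ≥ B^(tι)/A^(t-1) ≥ M/2^D0 = k^t`, so `E0 ≥ k ≥ 1`, `E ≥ k ≥ 1/θ`.  `alE ≤ θ` (`alESmall`, `A B^d ≤ R^t`, `lgSmall`).
 `T = {F ∈ Box K n d A | Nt t R B H q 0 F = 0, all v: RobT t v 0 ρ (scT v A F), τ W^(e(n+1)) ≤ smT t (WI K w) F}`; by `lowT` `Lt ≥ E c τ/2` on `T`; `chebT`: `#T (E c τ/2)^2 ≤ 2 Qt ≤ 2 C A^(eV) (E + E^2 S)`, `S ≤ 3 θ`; so `#T ≤ (ε/4) A^(eV)`.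
4. A tensor `F` of the filter of `MainT` is in the exceptional set of `realRobT`, or of `locDensT`, or in `T`: otherwise `Nt ≠ 0`, there are `x ∈ GG K B H q 0` and `u` with `ev F x = u^t` (`Finset.sum_eq_zero_iff`/`exists_ne_zero_of_sum_ne_zero`), `x ≠ 0` (`GG_ne`), `v (x i) ≤ B` (`GG_le`),
 `v (x i)^(t ι) ≤ B^(tι) ≤ M A^(t-1)`, contradiction.
-/

namespace Pool.Agent.Lib.MP_1ad228_ntW

open NumberField Classical Pool.Agent.Lib.MP_1ad228_ntN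

private theorem MN_Main_ar (T Q C A2 E S c τ ε δ P : ℝ) (hC : 0 < C) (hA : 0 ≤ A2) (hE : 0 < E) (hc : 0 < c)
    (hτ : 0 < τ) (hP : 0 < P) (h1 : T * (E * (c * τ / 2)) ^ 2 ≤ P * Q)
    (h2 : Q ≤ C * A2 * (E + E ^ 2 * S))
    (hS : S ≤ 3 * δ) (hd : 1 ≤ δ * E) (hd2 : δ ≤ ε * (c * τ) ^ 2 / (64 * P * C)) : T ≤ ε / 4 * A2 := by
  have h3 : E ≤ E ^ 2 * δ := by
    calc E = E * 1 := by ring
      _ ≤ E * (δ * E) := mul_le_mul_of_nonneg_left hd hE.le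
      _ = E ^ 2 * δ := by ring
  have h4 : E + E ^ 2 * S ≤ E ^ 2 * (4 * δ) := by
    have : E ^ 2 * S ≤ E ^ 2 * (3 * δ) := mul_le_mul_of_nonneg_left hS (by positivity)
    calc E + E ^ 2 * S ≤ E ^ 2 * δ + E ^ 2 * (3 * δ) := add_le_add h3 this
      _ = E ^ 2 * (4 * δ) := by ring
  have h5 : C * δ ≤ ε * (c * τ) ^ 2 / (64 * P) := by
    calc C * δ ≤ C * (ε * (c * τ) ^ 2 / (64 * P * C)) := mul_le_mul_of_nonneg_left hd2 hC.le
      _ = ε * (c * τ) ^ 2 / (64 * P) := by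
        field_simp
  have h6 : T * (E * (c * τ / 2)) ^ 2 ≤ (ε / 4 * A2) * (E * (c * τ / 2)) ^ 2 := by
    calc T * (E * (c * τ / 2)) ^ 2 ≤ P * Q := h1
      _ ≤ P * (C * A2 * (E + E ^ 2 * S)) := mul_le_mul_of_nonneg_left h2 hP.le
      _ ≤ P * (C * A2 * (E ^ 2 * (4 * δ))) :=
        mul_le_mul_of_nonneg_left (mul_le_mul_of_nonneg_left h4 (show 0 ≤ C * A2 by positivity)) hP.le
      _ = (A2 * E ^ 2 * (4 * P)) * (C * δ) := by ring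
      _ ≤ (A2 * E ^ 2 * (4 * P)) * (ε * (c * τ) ^ 2 / (64 * P)) :=
        mul_le_mul_of_nonneg_left h5 (by positivity)
      _ = (ε / 4 * A2) * (E * (c * τ / 2)) ^ 2 := by
        field_simp
        ring
  exact le_of_mul_le_mul_right h6 (by positivity)

private theorem MN_Main_inv (δ : ℝ) (hd : 0 < δ) (n : ℕ) (hn : ⌈1 / δ⌉₊ + 1 ≤ n) : 1 / (n : ℝ) ≤ δ := by
  have h1 : 1 / δ ≤ (n : ℝ) := by
    have h2 := Nat.le_ceil (1 / δ)
    have h3 : ((⌈1 / δ⌉₊ : ℕ) : ℝ) ≤ (n : ℝ) := by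
      have : ⌈1 / δ⌉₊ ≤ n := by omega
      exact_mod_cast this
    linarith
  have h2 : (0 : ℝ) < n := by
    have : 0 < n := by omega
    exact_mod_cast this
  rw [div_le_iff₀ hd] at h1
  rw [div_le_iff₀ h2]
  linarith

private theorem MN_Main_pw (a θ : ℝ) (ha : a < 1) (hθ : 0 < θ) : ∃ w2 : ℕ, ∀ w : ℕ, w2 ≤ w →
    ((w : ℝ) + 1) ^ (a - 1) ≤ θ := by
  have h1 : Filter.Tendsto (fun x : ℝ => x ^ (-(1 - a))) Filter.atTop (nhds 0) :=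
    tendsto_rpow_neg_atTop (by linarith)
  have h2 : Filter.Tendsto (fun w : ℕ => ((w : ℝ) + 1)) Filter.atTop Filter.atTop :=
    Filter.tendsto_atTop_add_const_right _ _ tendsto_natCast_atTop_atTop
  obtain ⟨w2, hw2⟩ := Filter.eventually_atTop.1 ((h1.comp h2).eventually (gt_mem_nhds hθ))
  refine ⟨w2, fun w hw => ?_⟩
  have := (hw2 w hw).le
  rw [show a - 1 = -(1 - a) by ring]
  exact this

/-- The size of `R`. -/
private theorem MN_Main_R (n m t A B R W g : ℕ) (ht : 2 ≤ t) (hm : 1 ≤ m) (hA : 1 ≤ A) (hB : 1 ≤ B)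
    (hg : W ^ t * (4 * (n + 1) ^ m) ^ t ≤ g) (hgB : g ≤ B) (hRC : RC n m t (t * m) A B R) :
    A * B ^ (t * m) ≤ R ^ t ∧ B ≤ R ∧ W * R ≤ A * B ^ (t * m) := by
  obtain ⟨h1, h2⟩ := hRC
  have hX : 1 ≤ A * B ^ (t * m) := Nat.mul_pos hA (Nat.one_le_pow _ _ hB)
  have hc : 1 ≤ (2 * (n + 1) ^ m) ^ t := Nat.one_le_pow _ _ (by positivity)
  have h3 : A * B ^ (t * m) ≤ R ^ t := by
    refine le_trans ?_ h1
    calc A * B ^ (t * m) = 1 * (A * B ^ (t * m)) := (one_mul _).symm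
      _ ≤ _ := Nat.mul_le_mul_right _ hc
  have ht0 : t ≠ 0 := by omega
  have h4 : B ^ t ≤ R ^ t := by
    refine le_trans ?_ h3
    calc B ^ t ≤ B ^ (t * m) := Nat.pow_le_pow_right hB (Nat.le_mul_of_pos_right t hm)
      _ = 1 * B ^ (t * m) := (one_mul _).symm
      _ ≤ _ := Nat.mul_le_mul_right _ hA
  have h5 : B ≤ R := (Nat.pow_le_pow_iff_left ht0).1 h4
  refine ⟨h3, h5, ?_⟩
  refine (Nat.pow_le_pow_iff_left ht0).1 ?_
  have hBX : B ≤ A * B ^ (t * m) := by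
    calc B = B ^ 1 := (pow_one B).symm
      _ ≤ B ^ (t * m) := Nat.pow_le_pow_right hB (Nat.mul_pos (by omega) hm)
      _ = 1 * B ^ (t * m) := (one_mul _).symm
      _ ≤ _ := Nat.mul_le_mul_right _ hA
  have h6 : A * B ^ (t * m) ≤ (A * B ^ (t * m)) ^ (t - 1) := by
    calc A * B ^ (t * m) = (A * B ^ (t * m)) ^ 1 := (pow_one _).symm
      _ ≤ (A * B ^ (t * m)) ^ (t - 1) := Nat.pow_le_pow_right hX (by omega)
  calc (W * R) ^ t = W ^ t * R ^ t := mul_pow _ _ _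
    _ ≤ W ^ t * ((4 * (n + 1) ^ m) ^ t * (A * B ^ (t * m))) := Nat.mul_le_mul_left _ h2
    _ = (W ^ t * (4 * (n + 1) ^ m) ^ t) * (A * B ^ (t * m)) := by ring
    _ ≤ (A * B ^ (t * m)) ^ (t - 1) * (A * B ^ (t * m)) :=
      Nat.mul_le_mul_right _ (hg.trans (hgB.trans (hBX.trans h6)))
    _ = (A * B ^ (t * m)) ^ t := by
      rw [← pow_succ]
      congr 1
      omega

private noncomputable def MN_Main_T (K : Type) [Field K] [NumberField K] (n t d R B H q w A : ℕ)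
    (ρ τ : ℝ) : Finset (Ten n d (𝓞 K)) :=
  (Box K n d A).filter fun F => Nt t R B H q 0 F = 0 ∧
    (∀ v : InfinitePlace K, RobT t v 0 ρ (scT v A F)) ∧
    τ * (WW w : ℝ) ^ (eK K * (n + 1)) ≤ (smT t (WI K w) F : ℝ)

theorem mainT (K : Type) [Field K] [NumberField K] (n t m : ℕ) (hn : 2 ≤ n) (ht : 2 ≤ t)
    (hm : 1 ≤ m) (hF : (t - 1) * m ≤ n) : MainT K n t m := by
  intro ε hε
  have he : 1 ≤ eK K := eK_pos
  have ht1 : 1 ≤ t := by omega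
  obtain ⟨ι, hι0⟩ : ∃ ι : ℕ, ι = n + 1 - (t - 1) * m := ⟨_, rfl⟩
  obtain ⟨l, hl⟩ : ∃ l : ℕ, l = 4 * (n + t) + 16 := ⟨_, rfl⟩
  obtain ⟨D0, hD0⟩ : ∃ D0 : ℕ, D0 = (n * l + 1) * (t * ι) := ⟨_, rfl⟩
  have hι : 1 ≤ ι := by omega
  have hl1 : 1 ≤ l := by omega
  have hlp := lparT n t ι l hn ht hι hl
  obtain ⟨ρ, hρ, hρ1, A1, hreal⟩ := realRobT K n (t * m) t m rfl ht1 hm (ε / 4) (by positivity)
  obtain ⟨q, hq1, hqρ⟩ : ∃ q : ℕ, 1 ≤ q ∧ 1 ≤ ρ * q := by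
    refine ⟨⌈1 / ρ⌉₊ + 1, by omega, ?_⟩
    have h1 := Nat.le_ceil (1 / ρ)
    rw [div_le_iff₀ hρ] at h1
    push_cast
    nlinarith
  obtain ⟨τ, hτ, w1, hloc⟩ := locDensT K n (t * m) t m hn rfl ht hm (ε / 4) (by positivity)
  obtain ⟨c, hc, hlow⟩ := lowT K n (t * m) t m hn rfl ht1 hm l hl1 ρ hρ hρ1 q hqρ
  obtain ⟨C, hC1, hvar⟩ := varTotT K n (t * m) t m q hn rfl ht hm hq1
  have hC : 0 < C := lt_of_lt_of_le one_pos hC1
  obtain ⟨θ, hθpos, hθ2⟩ : ∃ θ : ℝ, 0 < θ ∧ θ ≤ ε * (c * τ) ^ 2 / (64 * 2 * C) :=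
    ⟨_, by positivity, le_rfl⟩
  obtain ⟨k, hk⟩ : ∃ k : ℕ, k = ⌈1 / θ⌉₊ + 1 := ⟨_, rfl⟩
  have hinv : ∀ m : ℕ, k ≤ m → 1 / (m : ℝ) ≤ θ := fun m hm => MN_Main_inv θ hθpos m (hk ▸ hm)
  have hk1 : 1 ≤ k := by omega
  obtain ⟨w2, hw2⟩ := MN_Main_pw (ax t) θ (ax_lt_one ht1) hθpos
  obtain ⟨w0, hw0⟩ := hlow (k ^ 2) (Nat.one_le_pow _ _ hk1)
  obtain ⟨w, hw⟩ : ∃ w : ℕ, w = w0 + w1 + w2 + k := ⟨_, rfl⟩
  obtain ⟨g0, hg0⟩ := hw0 w (by omega) (c * τ / 2) (by positivity)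
  obtain ⟨A2, hA2⟩ := hloc w (by omega)
  obtain ⟨M, hM⟩ : ∃ M : ℕ, M = 2 ^ D0 * k ^ t := ⟨_, rfl⟩
  have hMpos : 1 ≤ M := by
    rw [hM]
    exact Nat.mul_pos (by positivity) (Nat.one_le_pow _ _ hk1)
  obtain ⟨Ca, hCa1, hal⟩ := alESmall K n t m (t * m) l hn ht hm rfl hF hl M 1 hMpos le_rfl
  obtain ⟨g1, hg11, hg1⟩ := lgSmall (n * l + 1) (eK K) he Ca θ hθpos
  have hWpos := Pool.Agent.Lib.MP_219881_nt.WWpos w
  have hWr : (0 : ℝ) < (WW w : ℝ) := by exact_mod_cast hWpos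
  obtain ⟨G, hG⟩ : ∃ G : ℕ, G = (k ^ 2 * WW w) ^ t * (4 * (n + 1) ^ m) ^ t := ⟨_, rfl⟩
  obtain ⟨A3, hA3⟩ := Pool.Agent.Lib.MP_1ad228_ntF.gpar n (t - 1) l (t * ι) (by omega)
    (Nat.mul_pos (by omega) hι) hlp M hMpos (g0 + g1 + G) (⌈C⌉₊ * k)
  refine ⟨M, A1 + A2 + A3 + ⌈C⌉₊ * k ^ 2 * WW w + 1, fun A hA => ?_⟩
  obtain ⟨g, hgp, hgg, hA0, hgM, hMg, hcA⟩ := hA3 A (by omega)
  have hreal' := hreal A (by omega)
  have hloc' := hA2 A (by omega)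
  have hA0r : (0 : ℝ) < A := by exact_mod_cast hA0
  rw [← hD0] at hMg
  obtain ⟨B, hB⟩ : ∃ B : ℕ, B = g ^ (n * l + 1) := ⟨_, rfl⟩
  obtain ⟨H, hH⟩ : ∃ H : ℕ, H = g ^ (l + 2) := ⟨_, rfl⟩
  rw [← hB] at hgM hMg
  rw [← hH] at hcA
  have hB1 : 1 ≤ B := by rw [hB]; exact Nat.one_le_pow _ _ hgp
  have hH1 : 1 ≤ H := by rw [hH]; exact Nat.one_le_pow _ _ hgp
  have hB0r : (0 : ℝ) < B := by exact_mod_cast hB1
  have hgB : g ≤ B := by
    rw [hB]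
    calc g = g ^ 1 := (pow_one g).symm
      _ ≤ g ^ (n * l + 1) := Nat.pow_le_pow_right hgp (by omega)
  obtain ⟨R, hR1, hRC⟩ := exRC n m t (t * m) A B ht1 hA0 hB1
  obtain ⟨hRX, hBR, hWR⟩ := MN_Main_R n m t A B R (k ^ 2 * WW w) g ht hm hA0 hB1
    (by rw [← hG]; omega) hgB hRC
  -- E
  obtain ⟨E, hE⟩ : ∃ E : ℝ, E = EB K n (t * m) B R A := ⟨_, rfl⟩
  have hk1r : (1 : ℝ) ≤ k := by exact_mod_cast hk1
  have hE0 : (k : ℝ) ≤ (B : ℝ) ^ (n + 1) * R / ((A : ℝ) * (B : ℝ) ^ (t * m)) := by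
    have h1 := EBt n t m (t * m) A B R ht1 rfl hF hA0 hB1
    rw [← hι0] at h1
    have h2 : (k : ℝ) ^ t ≤ (B : ℝ) ^ (t * ι) / (A : ℝ) ^ (t - 1) := by
      rw [le_div_iff₀ (by positivity)]
      have h3 : 2 ^ D0 * (k ^ t * A ^ (t - 1)) ≤ 2 ^ D0 * B ^ (t * ι) := by
        calc 2 ^ D0 * (k ^ t * A ^ (t - 1)) = M * A ^ (t - 1) := by rw [hM]; ring
          _ ≤ _ := hMg
      have h4 : k ^ t * A ^ (t - 1) ≤ B ^ (t * ι) := Nat.le_of_mul_le_mul_left h3 (by positivity)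
      exact_mod_cast h4
    have h3 : (1 : ℝ) ≤ (R : ℝ) ^ t / ((A : ℝ) * (B : ℝ) ^ (t * m)) := by
      rw [le_div_iff₀ (by positivity), one_mul]
      exact_mod_cast hRX
    have h4 : (k : ℝ) ^ t ≤ ((B : ℝ) ^ (n + 1) * R / ((A : ℝ) * (B : ℝ) ^ (t * m))) ^ t := by
      rw [h1]
      calc (k : ℝ) ^ t = (k : ℝ) ^ t * 1 := (mul_one _).symm
        _ ≤ _ := mul_le_mul h2 h3 zero_le_one (by positivity)
    exact le_of_pow_le_pow_left₀ (by omega) (by positivity) h4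
  have hEr : (k : ℝ) ≤ E := by
    rw [hE]
    unfold EB
    calc (k : ℝ) ≤ (B : ℝ) ^ (n + 1) * R / ((A : ℝ) * (B : ℝ) ^ (t * m)) := hE0
      _ = ((B : ℝ) ^ (n + 1) * R / ((A : ℝ) * (B : ℝ) ^ (t * m))) ^ 1 := (pow_one _).symm
      _ ≤ _ := pow_le_pow_right₀ (hk1r.trans hE0) he
  have hEpos : 0 < E := lt_of_lt_of_le (by linarith) hEr
  -- the set T
  have hTo : ((MN_Main_T K n t (t * m) R B H q w A ρ τ).card : ℝ) ≤
      ε / 4 * (A : ℝ) ^ (eK K * (n + 1) ^ (t * m)) := by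
    have hCk : C * (H : ℝ) ^ 2 * k ≤ A := by
      have h1 : ((⌈C⌉₊ * k * H ^ 2 : ℕ) : ℝ) ≤ (A : ℝ) := by exact_mod_cast hcA
      refine le_trans ?_ h1
      push_cast
      have h3 : C ≤ (⌈C⌉₊ : ℝ) := Nat.le_ceil C
      calc C * (H : ℝ) ^ 2 * k = C * (k * (H : ℝ) ^ 2) := by ring
        _ ≤ (⌈C⌉₊ : ℝ) * (k * (H : ℝ) ^ 2) := mul_le_mul_of_nonneg_right h3 (by positivity)
        _ = _ := by ring
    have hCW : C * (k : ℝ) ^ 2 * WW w ≤ A := by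
      have h0 : ⌈C⌉₊ * k ^ 2 * WW w ≤ A := by omega
      have h1 : ((⌈C⌉₊ * k ^ 2 * WW w : ℕ) : ℝ) ≤ (A : ℝ) := by exact_mod_cast h0
      refine le_trans ?_ h1
      push_cast
      have h3 : C ≤ (⌈C⌉₊ : ℝ) := Nat.le_ceil C
      calc C * (k : ℝ) ^ 2 * WW w = C * ((k : ℝ) ^ 2 * WW w) := by ring
        _ ≤ (⌈C⌉₊ : ℝ) * ((k : ℝ) ^ 2 * WW w) := mul_le_mul_of_nonneg_right h3 (by positivity)
        _ = _ := by ring
    have hWR' : (k : ℝ) ^ 2 * WW w * R ≤ (A : ℝ) * (B : ℝ) ^ (t * m) := by exact_mod_cast hWR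
    have hQ := hvar 0 k w B H A (WW w) R hk1 hB1 hH1 hWpos hBR
      (fun m h1 h2 => Pool.Agent.Lib.MP_219881_nt.WWdvd _ m h1 h2) hCk hCW hWR'
    rw [← hE] at hQ
    have hch := chebT (K := K) n (t * m) t R (WW w) (k ^ 2) A B H q hA0 0
      (E * (c * τ / 2)) (by positivity) (MN_Main_T K n t (t * m) R B H q w A ρ τ) (by
        intro F hF
        unfold MN_Main_T at hF
        rw [Finset.mem_filter] at hF
        obtain ⟨hFB, hN, hRob, hsm⟩ := hF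
        refine ⟨hFB, hN, ?_⟩
        have h3 := hg0 g (by omega) B H hB hH A R hA0 hRC F hFB 0 hRob
        rw [← hE] at h3
        refine le_trans ?_ h3
        apply mul_le_mul_of_nonneg_left _ hEpos.le
        have h4 : τ ≤ (smT t (WI K w) F : ℝ) / (WW w : ℝ) ^ (eK K * (n + 1)) := by
          rw [le_div_iff₀ (by positivity)]
          exact hsm
        have h5 := mul_le_mul_of_nonneg_left h4 hc.le
        linarith)
    refine MN_Main_ar _ _ C ((A : ℝ) ^ (eK K * (n + 1) ^ (t * m))) E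
      (1 / (k : ℝ) + ((w : ℝ) + 1) ^ (ax t - 1) + alE K n (ax t) B H R)
      c τ ε θ 2 hC (by positivity) hEpos hc hτ two_pos hch hQ ?_ ?_ hθ2
    · have e1 := hinv k le_rfl
      have e2 := hw2 w (by omega)
      have e3 : alE K n (ax t) B H R ≤ θ := by
        have h3 := (hal g A B H R hgp hR1 hB hH (by rw [← hι0]; exact hgM)
          (by rw [one_mul]; exact hRX)).2
        have h4 := hg1 g (by omega)
        rw [← hB] at h4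
        exact h3.trans h4
      linarith
    · have e1 := hinv k le_rfl
      have hk0 : (0 : ℝ) < k := by linarith
      calc (1 : ℝ) = 1 / (k : ℝ) * k := by field_simp
        _ ≤ θ * k := mul_le_mul_of_nonneg_right e1 hk0.le
        _ ≤ θ * E := mul_le_mul_of_nonneg_left hEr hθpos.le
  -- covering
  have hsub : ((Box K n (t * m) A).filter fun F => (∀ v, RSolT t v F) ∧ PSolT t F ∧
        ¬ ∃ (x : Vc n (𝓞 K)) (u : 𝓞 K), x ≠ 0 ∧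
          (∀ i, ∀ v : InfinitePlace K,
            (v (x i : K)) ^ (t * (n + 1 - (t - 1) * m)) ≤ (M : ℝ) * (A : ℝ) ^ (t - 1)) ∧
          ev F x = u ^ t) ⊆
      ((Box K n (t * m) A).filter fun F => (∀ v, RSolT t v F) ∧
          ¬ ∀ v : InfinitePlace K, RobT t v 0 ρ (scT v A F)) ∪
      (((Box K n (t * m) A).filter fun F => PSolT t F ∧
          (smT t (WI K w) F : ℝ) < τ * (WW w : ℝ) ^ (eK K * (n + 1))) ∪
      MN_Main_T K n t (t * m) R B H q w A ρ τ) := by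
    intro F hF
    rw [Finset.mem_filter] at hF
    obtain ⟨hbox, hR, hPS, hno⟩ := hF
    rw [Finset.mem_union, Finset.mem_union]
    by_cases h1 : ∀ v : InfinitePlace K, RobT t v 0 ρ (scT v A F)
    · right
      by_cases h3 : (smT t (WI K w) F : ℝ) < τ * (WW w : ℝ) ^ (eK K * (n + 1))
      · left
        rw [Finset.mem_filter]
        exact ⟨hbox, hPS, h3⟩
      · right
        unfold MN_Main_T
        rw [Finset.mem_filter]
        refine ⟨hbox, ?_, h1, not_lt.1 h3⟩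
        unfold Nt
        rw [Finset.sum_eq_zero_iff]
        intro x hx
        unfold Nx
        rw [Finset.card_eq_zero, Finset.filter_eq_empty_iff]
        intro u _ hex
        apply hno
        refine ⟨x, u, ?_, ?_, hex⟩
        · intro h0
          have := GG_ne hB1 hx
          rw [h0] at this
          exact this rfl
        · intro i v
          have h4 := GG_le hx i v
          rw [← hι0]
          calc (v (x i : K)) ^ (t * ι) ≤ (B : ℝ) ^ (t * ι) := pow_le_pow_left₀ (v_nonneg _ _) h4 _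
            _ ≤ (M : ℝ) * (A : ℝ) ^ (t - 1) := by exact_mod_cast hgM
    · left
      rw [Finset.mem_filter]
      exact ⟨hbox, hR, h1⟩
  have hcard := (Finset.card_le_card hsub).trans ((Finset.card_union_le _ _).trans
    (Nat.add_le_add_left (Finset.card_union_le _ _) _))
  have hcard' : ((((Box K n (t * m) A).filter fun F => (∀ v, RSolT t v F) ∧ PSolT t F ∧
        ¬ ∃ (x : Vc n (𝓞 K)) (u : 𝓞 K), x ≠ 0 ∧
          (∀ i, ∀ v : InfinitePlace K,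
            (v (x i : K)) ^ (t * (n + 1 - (t - 1) * m)) ≤ (M : ℝ) * (A : ℝ) ^ (t - 1)) ∧
          ev F x = u ^ t).card : ℕ) : ℝ) ≤
      ((((Box K n (t * m) A).filter fun F => (∀ v, RSolT t v F) ∧
          ¬ ∀ v : InfinitePlace K, RobT t v 0 ρ (scT v A F)).card : ℕ) : ℝ) +
      (((((Box K n (t * m) A).filter fun F => PSolT t F ∧
          (smT t (WI K w) F : ℝ) < τ * (WW w : ℝ) ^ (eK K * (n + 1))).card : ℕ) : ℝ) +
      ((MN_Main_T K n t (t * m) R B H q w A ρ τ).card : ℝ)) := by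
    exact_mod_cast hcard
  have hpos : 0 ≤ ε / 4 * (A : ℝ) ^ (eK K * (n + 1) ^ (t * m)) := by positivity
  refine (hcard'.trans (add_le_add hreal' (add_le_add hloc' hTo))).trans ?_
  linarith

end Pool.Agent.Lib.MP_1ad228_ntW
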