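import Pool.Agent.Lib.MP_1ad228_ntW.Defs
import Pool.Agent.Lib.MP_1ad228_ntN.Pre
import Pool.Agent.Lib.MP_1ad228_ntN.Vals
import Pool.Agent.Lib.MP_1ad228_ntN.CN_N1

/-!
JOB MN_N1c.  Lower bound for the number of tensors in a box with `F(x) = u ^ t`, and the Cauchy-Schwarz inequality.

`n1c` PROOF.  `e = eK K`, `V = (n+1)^d`.  `x` is unimodular: `val1 d x _ (u^t)` gives `a` with `ev a x = u^t`; `pre1` gives `a'` with `ev a' x = u^t` and entries of size `≤ v(u)^t q^d/B^d + d n (n+1)^d CK K n H ≤ R^t q^d/B^d + C' H ≤ A/4 + A/4` for every place if `4 q^d R^t ≤ A B^d` and `4 C' H ≤ A`.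
Let `A' = A/2` (natural division), `A' ≥ 1`, `4 A' ≥ A` (`A ≥ 2`), `A' ≤ A/2`.  `b ↦ b + a'` maps `{b ∈ Box K n d A' | ev b x = 0}` injectively to `{F ∈ Box K n d A | ev F x = u^t}`.  `n1low K n d` for `A'`, `B`: `A'^(eV) ≤ C1 (A' B^d)^e n1 d x A'`, and `A'^(eV) ≥ (A/4)^(eV)`.  `C = max (4 q^d) (4 C') (C1 4^(eV)) 2`.

`csT` PROOF.  (Model with proof: `csPos` in Lib/MP_1ad228_ntN/MN_Pos.lean.)  `N(F) = Nt t R B H q o F = ∑_x Nx`; `∑_F N = ∑_x ∑_F Nx F x`, `∑_F N^2 = ∑_x ∑_y ∑_F Nx F x Nx F y`; Cauchy-Schwarz over `S0 = {F | N F ≠ 0}`; if `N F ≠ 0` there are `x ∈ GG`, `u` with `ev F x = u^t`, `x ≠ 0` because `x` is unimodular.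
-/

namespace Pool.Agent.Lib.MP_1ad228_ntW

open NumberField Classical Pool.Agent.Lib.MP_1ad228_ntN

theorem n1c (K : Type) [Field K] [NumberField K] (n d t q : ℕ) (hq : 1 ≤ q) : ∃ C : ℕ, 1 ≤ C ∧
    ∀ (B H A R : ℕ) (o : Fin (n + 1)), 1 ≤ B → C ≤ A → C * H ≤ A → C * R ^ t ≤ A * B ^ d →
    ∀ x ∈ GG K B H q o, ∀ u ∈ OBox K (R : ℝ),
    (A : ℝ) ^ (eK K * (n + 1) ^ d) ≤ C * ((A : ℝ) * (B : ℝ) ^ d) ^ eK K *
      (((Box K n d A).filter fun F => ev F x = u ^ t).card : ℝ) := by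
  obtain ⟨C1, hC1, hlow⟩ := n1low K n d
  obtain ⟨c, hc⟩ : ∃ c : ℝ, c = (d * n * (n + 1) ^ d : ℝ) * CK K n := ⟨_, rfl⟩
  have hc0 : 0 ≤ c := by
    rw [hc]
    have := CK_pos K n
    positivity
  obtain ⟨m, hm⟩ : ∃ m : ℕ, m = eK K * (n + 1) ^ d := ⟨_, rfl⟩
  obtain ⟨C, hC⟩ : ∃ C : ℕ, C = 4 * q ^ d + ⌈4 * c⌉₊ + ⌈C1 * 4 ^ m⌉₊ + 2 := ⟨_, rfl⟩
  have hC2 : 2 ≤ C := by omega
  have hCq : (4 * (q : ℝ) ^ d) ≤ C := by
    have h : 4 * q ^ d ≤ C := by omega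
    exact_mod_cast h
  have hCc : 4 * c ≤ C := by
    have h : ⌈4 * c⌉₊ ≤ C := by omega
    exact (Nat.le_ceil _).trans (by exact_mod_cast h)
  have hC4 : C1 * 4 ^ m ≤ C := by
    have h : ⌈C1 * 4 ^ m⌉₊ ≤ C := by omega
    exact (Nat.le_ceil _).trans (by exact_mod_cast h)
  refine ⟨C, by omega, ?_⟩
  intro B H A R o hB hA hH hR x hx u hu
  have hB0 : (0 : ℝ) < B := by exact_mod_cast hB
  have hBd : (0 : ℝ) < (B : ℝ) ^ d := pow_pos hB0 d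
  have hHr : (C : ℝ) * H ≤ A := by exact_mod_cast hH
  have hRr : (C : ℝ) * (R : ℝ) ^ t ≤ A * (B : ℝ) ^ d := by exact_mod_cast hR
  have hA2 : 2 ≤ A := hC2.trans hA
  obtain ⟨a, ha⟩ := val1 d x (GG_uni hx) (u ^ t)
  obtain ⟨a', ha', hb⟩ := pre1 B H q o hB x hx a
  rw [ha] at ha' hb
  have hent : ∀ s, ∀ v : InfinitePlace K, v (a' s : K) ≤ (A : ℝ) / 2 := by
    intro s v
    have h1 := hb s v
    have h2 : v ((u ^ t : 𝓞 K) : K) ≤ (R : ℝ) ^ t := by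
      have h3 : ((u ^ t : 𝓞 K) : K) = (u : K) ^ t := by push_cast; rfl
      rw [h3, map_pow]
      exact pow_le_pow_left₀ (v_nonneg v _) (mem_OBox.1 hu v) t
    have h4 : (R : ℝ) ^ t * ((q : ℝ) ^ d / (B : ℝ) ^ d) ≤ (A : ℝ) / 4 := by
      rw [← mul_div_assoc, div_le_iff₀ hBd]
      have h5 : 4 * (q : ℝ) ^ d * (R : ℝ) ^ t ≤ C * (R : ℝ) ^ t :=
        mul_le_mul_of_nonneg_right hCq (by positivity)
      linarith
    have h6 : v ((u ^ t : 𝓞 K) : K) * ((q : ℝ) ^ d / (B : ℝ) ^ d) ≤ (A : ℝ) / 4 :=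
      (mul_le_mul_of_nonneg_right h2 (by positivity)).trans h4
    have h7 : (d * n * (n + 1) ^ d : ℝ) * (CK K n * H) ≤ (A : ℝ) / 4 := by
      have h8 : (d * n * (n + 1) ^ d : ℝ) * (CK K n * H) = c * H := by rw [hc]; ring
      rw [h8]
      have h9 : 4 * c * H ≤ C * H := mul_le_mul_of_nonneg_right hCc (Nat.cast_nonneg H)
      linarith
    linarith
  obtain ⟨A', hA'⟩ : ∃ A' : ℕ, A' = A / 2 := ⟨_, rfl⟩
  have hA'1 : 1 ≤ A' := by omega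
  have hA'4 : (A : ℝ) ≤ 4 * A' := by
    have h : A ≤ 4 * A' := by omega
    exact_mod_cast h
  have hA'2 : (A' : ℝ) ≤ (A : ℝ) / 2 := by
    have h : 2 * A' ≤ A := by omega
    have h2 : 2 * (A' : ℝ) ≤ A := by exact_mod_cast h
    linarith
  have hcard : (n1 d x (A' : ℝ)) ≤ ((Box K n d A).filter fun F => ev F x = u ^ t).card := by
    unfold n1
    refine Finset.card_le_card_of_injOn (fun b => b + a') ?_ ?_
    · intro b hb'
      rw [Finset.mem_coe, Finset.mem_filter] at hb'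
      rw [Finset.mem_coe, Finset.mem_filter]
      refine ⟨?_, ?_⟩
      · rw [mem_Box]
        intro s v
        have h1 := mem_Box.1 hb'.1 s v
        have h2 := hent s v
        have h3 : (((b + a') s : 𝓞 K) : K) = (b s : K) + (a' s : K) := by
          rw [Pi.add_apply]
          push_cast
          rfl
        rw [h3]
        exact (v_add_le v _ _).trans (by linarith)
      · rw [ev_add, hb'.2, ha', zero_add]
    · intro b _ b' _ h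
      exact add_right_cancel h
  have hl := hlow A' B hA'1 hB x (Finset.mem_filter.1 hx).1
  have h1 : (A : ℝ) ^ m ≤ 4 ^ m * (A' : ℝ) ^ m := by
    rw [← mul_pow]
    exact pow_le_pow_left₀ (Nat.cast_nonneg A) hA'4 m
  have h2 : ((A' : ℝ) * (B : ℝ) ^ d) ^ eK K ≤ ((A : ℝ) * (B : ℝ) ^ d) ^ eK K := by
    refine pow_le_pow_left₀ (by positivity) ?_ _
    refine mul_le_mul_of_nonneg_right ?_ hBd.le
    have : (0 : ℝ) ≤ A := Nat.cast_nonneg A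
    linarith
  have h3 : (n1 d x (A' : ℝ) : ℝ) ≤
      (((Box K n d A).filter fun F => ev F x = u ^ t).card : ℝ) := by exact_mod_cast hcard
  rw [← hm] at hl ⊢
  have hC1p : 0 ≤ C1 := by linarith
  calc (A : ℝ) ^ m ≤ 4 ^ m * (A' : ℝ) ^ m := h1
    _ ≤ 4 ^ m * (C1 * ((A' : ℝ) * (B : ℝ) ^ d) ^ eK K * (n1 d x (A' : ℝ) : ℝ)) :=
        mul_le_mul_of_nonneg_left hl (by positivity)
    _ = (C1 * 4 ^ m) * (((A' : ℝ) * (B : ℝ) ^ d) ^ eK K * (n1 d x (A' : ℝ) : ℝ)) := by ring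
    _ ≤ (C : ℝ) * (((A : ℝ) * (B : ℝ) ^ d) ^ eK K *
        (((Box K n d A).filter fun F => ev F x = u ^ t).card : ℝ)) := by
        refine mul_le_mul hC4 (mul_le_mul h2 h3 (Nat.cast_nonneg _) (by positivity)) (by positivity)
          (Nat.cast_nonneg _)
    _ = _ := by ring

theorem csT (K : Type) [Field K] [NumberField K] (n d t B H q R A : ℕ) (o : Fin (n + 1)) :
    (∑ x ∈ GG K B H q o, ∑ F ∈ Box K n d A, (Nx t R F x : ℝ)) ^ 2 ≤
      (((Box K n d A).filter fun F => ∃ (x : Vc n (𝓞 K)) (u : 𝓞 K), x ≠ 0 ∧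
        ev F x = u ^ t).card : ℝ) *
        ∑ x ∈ GG K B H q o, ∑ y ∈ GG K B H q o,
          ∑ F ∈ Box K n d A, (Nx t R F x : ℝ) * (Nx t R F y : ℝ) := by
  obtain ⟨N, hN⟩ : ∃ N : Ten n d (𝓞 K) → ℝ, N = fun F => ∑ x ∈ GG K B H q o, (Nx t R F x : ℝ) :=
    ⟨_, rfl⟩
  have hs1 : ∑ F ∈ Box K n d A, N F =
      ∑ x ∈ GG K B H q o, ∑ F ∈ Box K n d A, (Nx t R F x : ℝ) := by
    rw [hN, Finset.sum_comm]
  have hs2 : ∑ F ∈ Box K n d A, (N F) ^ 2 =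
      ∑ x ∈ GG K B H q o, ∑ y ∈ GG K B H q o,
        ∑ F ∈ Box K n d A, (Nx t R F x : ℝ) * (Nx t R F y : ℝ) := by
    have h1 : ∀ F : Ten n d (𝓞 K), (N F) ^ 2 = ∑ x ∈ GG K B H q o, ∑ y ∈ GG K B H q o,
        (Nx t R F x : ℝ) * (Nx t R F y : ℝ) := by
      intro F
      rw [hN, sq, Finset.sum_mul_sum]
    rw [Finset.sum_congr rfl (fun F _ => h1 F), Finset.sum_comm]
    refine Finset.sum_congr rfl fun x _ => ?_
    rw [Finset.sum_comm]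
  obtain ⟨S0, hS0⟩ : ∃ S0 : Finset (Ten n d (𝓞 K)), S0 = (Box K n d A).filter fun F => N F ≠ 0 :=
    ⟨_, rfl⟩
  have hS0sub : S0 ⊆ ((Box K n d A).filter fun F => ∃ (x : Vc n (𝓞 K)) (u : 𝓞 K), x ≠ 0 ∧
      ev F x = u ^ t) := by
    intro F hF
    rw [hS0, Finset.mem_filter] at hF
    rw [Finset.mem_filter]
    refine ⟨hF.1, ?_⟩
    have h1 : ∃ x ∈ GG K B H q o, (Nx t R F x : ℝ) ≠ 0 := by
      apply Finset.exists_ne_zero_of_sum_ne_zero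
      have := hF.2
      rw [hN] at this
      exact this
    obtain ⟨x, hx, hne⟩ := h1
    have hne' : Nx t R F x ≠ 0 := by exact_mod_cast hne
    unfold Nx at hne'
    obtain ⟨u, hu⟩ := Finset.card_ne_zero.1 hne'
    refine ⟨x, u, ?_, (Finset.mem_filter.1 hu).2⟩
    intro h0
    obtain ⟨w, hw⟩ := GG_uni hx
    rw [h0] at hw
    simp [Pool.Agent.Lib.MP_219881_nt.lin] at hw
  have hsum : ∑ F ∈ Box K n d A, N F = ∑ F ∈ S0, N F := by
    rw [hS0, Finset.sum_filter_ne_zero]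
  have hsumsq : ∑ F ∈ S0, (N F) ^ 2 ≤ ∑ F ∈ Box K n d A, (N F) ^ 2 := by
    apply Finset.sum_le_sum_of_subset_of_nonneg
    · rw [hS0]
      exact Finset.filter_subset _ _
    · intro F _ _
      exact sq_nonneg _
  rw [← hs1, ← hs2, hsum]
  calc (∑ F ∈ S0, N F) ^ 2 ≤ (S0.card : ℝ) * ∑ F ∈ S0, (N F) ^ 2 := sq_sum_le_card_mul_sum_sq
    _ ≤ (S0.card : ℝ) * ∑ F ∈ Box K n d A, (N F) ^ 2 :=
        mul_le_mul_of_nonneg_left hsumsq (Nat.cast_nonneg _)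
    _ ≤ _ := by
        apply mul_le_mul_of_nonneg_right
        · exact_mod_cast Finset.card_le_card hS0sub
        · exact Finset.sum_nonneg fun F _ => sq_nonneg _

end Pool.Agent.Lib.MP_1ad228_ntW
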