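import Pool.Agent.Lib.MP_1ad228_ntW.Defs
import Pool.Agent.Lib.MP_1ad228_ntN.MN_Par

/-!
JOB MN_ParT.  Parameters.

`exRoot`: `R = Nat.find` of the least `R` with `X ≤ R^t` (exists: `X ≤ X^t`), `R ≥ 1`; `(R-1)^t < X`, so `R^t ≤ 2^t X`: if `R = 1` clear (`1 ≤ X`), otherwise `R ≤ 2 (R-1)`, `R^t ≤ 2^t (R-1)^t`.
`exRC`: `exRoot` with `X = (2 (n+1)^m)^t (A B^d) ≥ 1`; `2^t (2 (n+1)^m)^t = (4 (n+1)^m)^t`.
`exRdown`: for `c ≥ 1`, `c 2^t ≤ Y` (say) the largest `R` with `c R^t ≤ Y` (`Nat.findGreatest`), `R ≥ 1`, satisfies `Y < c (R+1)^t ≤ c 2^t R^t`.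
`lparT`: with `l = 4(n+t)+16`, `n ≥ 2`, `ι ≥ 1`, `t ≥ 2`: `(n l + 1)(t ι) ≥ (2 l + 1) t` and `(2l+4)(t-1)+1 = 2lt + 4t - 2l - 3 ≤ 2 l t + t` because `3 t ≤ 2 l + 3`.  (write `t = s + 1`.)
`iotaEq`: `ι = n + 1 - (t-1) m` with `(t-1) m ≤ n`: `t ι + d (t-1) = t (n+1)` for `d = t m`.
`EBt`: `E0 = B^(n+1) R/(A B^d)`: `E0^t = B^(t(n+1)) R^t/(A B^d)^t = (B^(tι)/A^(t-1)) (R^t/(A B^d))`, using `(A B^d)^t = (A B^d) A^(t-1) B^(d(t-1))` and `iotaEq`.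
`RBig`: from `B^(tι) ≤ M A^(t-1)` and `A B^d ≤ Λ R^t` (`Λ, M ≥ 1`): `(A B^d)^(t-1) ≤ Λ^(t-1) R^(t(t-1))`, and `B^(t(n+1)) = B^(tι) B^(d(t-1)) ≤ M A^(t-1) B^(d(t-1)) = M (A B^d)^(t-1) ≤ M Λ^(t-1) (R^(t-1))^t ≤ (M Λ R^(t-1))^t`, so `B^(n+1) ≤ M Λ R^(t-1) ≤ (M Λ R)^n`
 (`t - 1 ≤ n` as `(t-1) m ≤ n`, `m ≥ 1`; `R ≥ 1`; `n ≥ 1`).  With `B = g^(n l+1)`: `(nl+1)(n+1) ≥ n ((n+1) l + 1)`, so `(g^((n+1) l+1))^n ≤ (M Λ R)^n`, `g^((n+1)l+1) ≤ M Λ R`.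
`alESmall` PROOF.  `e = eK K`, `a = ax t`.  `H B = g^((n+1) l + 3)`, so `H B/R ≤ M Λ g^2` (`RBig`), `(1 + (HB/R)^e)^2 ≤ (2 (MΛ g^2)^e)^2 = 4 (MΛ)^(2e) (g^4)^e`.  `H^n (HB)^a/B^n = g^(n(l+2) + a((n+1)l+3) - n(nl+1)) ≤ g^(-5)` (real exponents, `g ≥ 1`), because
 `n(nl+1) - n(l+2) - a((n+1)l+3) = l (n^2 - n - a(n+1)) - n - 3a ≥ 5`: for `n ≥ 3`, `a < 1`: `n^2 - 2n - 1 ≥ 2`, `≥ n - 1` .. so `l (n^2-n-a(n+1)) ≥ 2 l ≥ 8 n + 32 ≥ n + 8`; for `n = 2`: `(t-1) m ≤ 2` gives `t ≤ 3`, `a ≤ 1/2`, `2 - 3a ≥ 1/2`, `l/2 ≥ 16 ≥ 2 + 3/2 + 5`.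
 So `alE ≤ (log+2)^e (g^(-5))^e 4 (MΛ)^(2e) (g^4)^e = 4 (MΛ)^(2e) ((log+2)/g)^e`.
-/

namespace Pool.Agent.Lib.MP_1ad228_ntW

open NumberField Classical Pool.Agent.Lib.MP_1ad228_ntN

theorem exRoot (t X : ℕ) (ht : 1 ≤ t) (hX : 1 ≤ X) : ∃ R : ℕ, 1 ≤ R ∧ X ≤ R ^ t ∧
    R ^ t ≤ 2 ^ t * X := by
  have hex : ∃ R : ℕ, X ≤ R ^ t := ⟨X, Nat.le_self_pow (by omega) X⟩
  have h1 := Nat.find_spec hex
  set R := Nat.find hex with hR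
  have hR1 : 1 ≤ R := by
    by_contra h
    have h0 : R = 0 := by omega
    rw [h0, zero_pow (by omega)] at h1
    omega
  refine ⟨R, hR1, h1, ?_⟩
  by_cases h2 : R = 1
  · rw [h2, one_pow]
    exact Nat.one_le_iff_ne_zero.mpr (Nat.mul_ne_zero (pow_ne_zero _ (by norm_num)) (by omega))
  · have h3 : ¬ X ≤ (R - 1) ^ t := Nat.find_min hex (by omega)
    have h4 : R ≤ 2 * (R - 1) := by omega
    calc R ^ t ≤ (2 * (R - 1)) ^ t := Nat.pow_le_pow_left h4 t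
      _ = 2 ^ t * (R - 1) ^ t := mul_pow _ _ _
      _ ≤ 2 ^ t * X := Nat.mul_le_mul_left _ (by omega)

theorem exRC (n m t d A B : ℕ) (ht : 1 ≤ t) (hA : 1 ≤ A) (hB : 1 ≤ B) :
    ∃ R : ℕ, 1 ≤ R ∧ RC n m t d A B R := by
  have hX : 1 ≤ (2 * (n + 1) ^ m) ^ t * (A * B ^ d) := by
    have h1 : 0 < (2 * (n + 1) ^ m) ^ t * (A * B ^ d) := by positivity
    exact h1
  obtain ⟨R, h1, h2, h3⟩ := exRoot t _ ht hX
  refine ⟨R, h1, h2, h3.trans (le_of_eq ?_)⟩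
  rw [← mul_assoc, ← mul_pow]
  congr 2
  ring

theorem exRdown (t c Y : ℕ) (ht : 1 ≤ t) (hc : 1 ≤ c) (hY : c ≤ Y) : ∃ R : ℕ, 1 ≤ R ∧
    c * R ^ t ≤ Y ∧ Y ≤ c * 2 ^ t * R ^ t := by
  have hP1 : c * 1 ^ t ≤ Y := by rw [one_pow, mul_one]; exact hY
  have hY1 : 1 ≤ Y := hc.trans hY
  set R := Nat.findGreatest (fun R => c * R ^ t ≤ Y) Y with hR
  have h1 : 1 ≤ R := Nat.le_findGreatest (P := fun R => c * R ^ t ≤ Y) hY1 hP1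
  have h2 : c * R ^ t ≤ Y := Nat.findGreatest_spec (P := fun R => c * R ^ t ≤ Y) hY1 hP1
  refine ⟨R, h1, h2, ?_⟩
  have hRY : R ≤ Y := Nat.findGreatest_le Y
  have h2R : (R + 1) ^ t ≤ 2 ^ t * R ^ t := by
    rw [← mul_pow]
    exact Nat.pow_le_pow_left (by omega) t
  by_cases h3 : R + 1 ≤ Y
  · have h4 : ¬ c * (R + 1) ^ t ≤ Y :=
      Nat.findGreatest_is_greatest (P := fun R => c * R ^ t ≤ Y) (by omega) h3
    calc Y ≤ c * (R + 1) ^ t := by omega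
      _ ≤ c * (2 ^ t * R ^ t) := Nat.mul_le_mul_left _ h2R
      _ = c * 2 ^ t * R ^ t := (mul_assoc _ _ _).symm
  · have h4 : R = Y := by omega
    have h5 : Y ≤ Y ^ t := Nat.le_self_pow (by omega) Y
    rw [h4]
    calc Y ≤ 1 * Y ^ t := by rw [one_mul]; exact h5
      _ ≤ c * 2 ^ t * Y ^ t := by
        refine Nat.mul_le_mul_right _ ?_
        have : 0 < c * 2 ^ t := by positivity
        exact this

theorem lparT (n t ι l : ℕ) (hn : 2 ≤ n) (ht : 2 ≤ t) (hι : 1 ≤ ι) (hl : l = 4 * (n + t) + 16) :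
    (2 * l + 4) * (t - 1) + 1 ≤ (n * l + 1) * (t * ι) := by
  obtain ⟨s, rfl⟩ : ∃ s, t = s + 1 := ⟨t - 1, by omega⟩
  have h1 : (2 * l + 1) * ((s + 1) * 1) ≤ (n * l + 1) * ((s + 1) * ι) :=
    Nat.mul_le_mul (Nat.succ_le_succ (Nat.mul_le_mul_right l hn)) (Nat.mul_le_mul_left _ hι)
  refine le_trans ?_ h1
  have h2 : s + 1 - 1 = s := by omega
  rw [h2, mul_one]
  have h3 : (2 * l + 4) * s + 1 = 2 * l * s + 4 * s + 1 := by ring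
  have h4 : (2 * l + 1) * (s + 1) = 2 * l * s + s + 2 * l + 1 := by ring
  rw [h3, h4]
  omega

theorem iotaEq (n t m d : ℕ) (ht : 1 ≤ t) (hd : d = t * m) (hF : (t - 1) * m ≤ n) :
    t * (n + 1 - (t - 1) * m) + d * (t - 1) = t * (n + 1) := by
  obtain ⟨s, rfl⟩ : ∃ s, t = s + 1 := ⟨t - 1, by omega⟩
  have h2 : s + 1 - 1 = s := by omega
  rw [h2] at hF ⊢
  obtain ⟨k, rfl⟩ : ∃ k, n = s * m + k := ⟨n - s * m, by omega⟩
  have h3 : s * m + k + 1 - s * m = k + 1 := by omega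
  rw [h3, hd]
  ring

theorem EBt (n t m d A B R : ℕ) (ht : 1 ≤ t) (hd : d = t * m) (hF : (t - 1) * m ≤ n)
    (hA : 1 ≤ A) (hB : 1 ≤ B) :
    ((B : ℝ) ^ (n + 1) * R / ((A : ℝ) * (B : ℝ) ^ d)) ^ t =
      (B : ℝ) ^ (t * (n + 1 - (t - 1) * m)) / (A : ℝ) ^ (t - 1) *
        ((R : ℝ) ^ t / ((A : ℝ) * (B : ℝ) ^ d)) := by
  have hA0 : (A : ℝ) ≠ 0 := by
    have : 0 < A := hA
    positivity
  have hB0 : (B : ℝ) ≠ 0 := by
    have : 0 < B := hB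
    positivity
  have h := iotaEq n t m d ht hd hF
  have h1 : ((B : ℝ) ^ (n + 1)) ^ t =
      (B : ℝ) ^ (t * (n + 1 - (t - 1) * m)) * (B : ℝ) ^ (d * (t - 1)) := by
    rw [← pow_add, h, ← pow_mul, mul_comm (n + 1) t]
  have h2 : ((A : ℝ) * (B : ℝ) ^ d) ^ t =
      ((A : ℝ) * (B : ℝ) ^ d) * ((A : ℝ) ^ (t - 1) * (B : ℝ) ^ (d * (t - 1))) := by
    obtain ⟨s, rfl⟩ : ∃ s, t = s + 1 := ⟨t - 1, by omega⟩
    have h3 : s + 1 - 1 = s := by omega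
    rw [h3, pow_succ, mul_pow, ← pow_mul]
    ring
  rw [div_pow, mul_pow, h1, h2]
  have hA1 : (A : ℝ) ^ (t - 1) ≠ 0 := pow_ne_zero _ hA0
  have hB1 : (B : ℝ) ^ (d * (t - 1)) ≠ 0 := pow_ne_zero _ hB0
  have hB2 : (B : ℝ) ^ d ≠ 0 := pow_ne_zero _ hB0
  rw [div_mul_div_comm, div_eq_div_iff (by positivity) (by positivity)]
  ring

theorem RBig (n t m d l g A B R M Λ : ℕ) (hn : 1 ≤ n) (ht : 2 ≤ t) (hm : 1 ≤ m)
    (hd : d = t * m) (hF : (t - 1) * m ≤ n) (hg : 1 ≤ g) (hR : 1 ≤ R) (hM : 1 ≤ M) (hΛ : 1 ≤ Λ)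
    (hB : B = g ^ (n * l + 1))
    (h1 : B ^ (t * (n + 1 - (t - 1) * m)) ≤ M * A ^ (t - 1)) (h2 : A * B ^ d ≤ Λ * R ^ t) :
    g ^ ((n + 1) * l + 1) ≤ M * Λ * R := by
  have hi := iotaEq n t m d (by omega) hd hF
  have htn : t - 1 ≤ n := le_trans (Nat.le_mul_of_pos_right _ hm) hF
  have e1 : B ^ (t * (n + 1)) ≤ M * (A * B ^ d) ^ (t - 1) := by
    rw [← hi, pow_add, mul_pow, ← pow_mul, ← mul_assoc]
    exact Nat.mul_le_mul_right _ h1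
  have e2 : (A * B ^ d) ^ (t - 1) ≤ (Λ * R ^ t) ^ (t - 1) := Nat.pow_le_pow_left h2 _
  have e3 : M * (Λ * R ^ t) ^ (t - 1) ≤ (M * Λ * R ^ (t - 1)) ^ t := by
    rw [mul_pow, mul_pow, mul_pow, ← pow_mul, ← pow_mul, mul_comm t (t - 1), ← mul_assoc]
    refine Nat.mul_le_mul_right _ (Nat.mul_le_mul ?_ ?_)
    · exact Nat.le_self_pow (by omega) M
    · exact Nat.pow_le_pow_right hΛ (by omega)
  have e4 : (B ^ (n + 1)) ^ t ≤ (M * Λ * R ^ (t - 1)) ^ t := by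
    rw [← pow_mul, mul_comm (n + 1) t]
    exact (e1.trans (Nat.mul_le_mul_left _ e2)).trans e3
  have e5 : B ^ (n + 1) ≤ M * Λ * R ^ (t - 1) :=
    (Nat.pow_le_pow_iff_left (by omega)).mp e4
  have e6 : M * Λ * R ^ (t - 1) ≤ (M * Λ * R) ^ n := by
    rw [mul_pow (M * Λ) R n]
    refine Nat.mul_le_mul (Nat.le_self_pow (by omega) _) (Nat.pow_le_pow_right hR htn)
  have e7 : (g ^ ((n + 1) * l + 1)) ^ n ≤ B ^ (n + 1) := by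
    rw [hB, ← pow_mul, ← pow_mul]
    refine Nat.pow_le_pow_right hg ?_
    nlinarith
  exact (Nat.pow_le_pow_iff_left (by omega)).mp ((e7.trans e5).trans e6)

private theorem MN_ParT_exp (n t m l : ℕ) (hn : 2 ≤ n) (ht : 2 ≤ t) (hm : 1 ≤ m)
    (hF : (t - 1) * m ≤ n) (hl : l = 4 * (n + t) + 16) :
    (n : ℝ) * (l + 2) + ax t * (((n : ℝ) + 1) * l + 3) - (n : ℝ) * (n * l + 1) ≤ -5 := by
  have hlr : (l : ℝ) = 4 * ((n : ℝ) + t) + 16 := by rw [hl]; push_cast; ring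
  have htr : (2 : ℝ) ≤ t := by exact_mod_cast ht
  have hnr : (2 : ℝ) ≤ n := by exact_mod_cast hn
  have ha1 : ax t < 1 := ax_lt_one (by omega)
  have ha0 : 1 / 4 ≤ ax t := ax_pos ht
  have hlpos : (0 : ℝ) ≤ l := Nat.cast_nonneg l
  by_cases h3 : 3 ≤ n
  · have h3r : (3 : ℝ) ≤ n := by exact_mod_cast h3
    have k1 : ax t * (((n : ℝ) + 1) * l + 3) ≤ 1 * (((n : ℝ) + 1) * l + 3) :=
      mul_le_mul_of_nonneg_right ha1.le (by positivity)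
    have k2 : (2 : ℝ) ≤ (n : ℝ) ^ 2 - 2 * n - 1 := by nlinarith
    have k3 : (l : ℝ) * 2 ≤ l * ((n : ℝ) ^ 2 - 2 * n - 1) := mul_le_mul_of_nonneg_left k2 hlpos
    nlinarith
  · have hn2 : n = 2 := by omega
    have ht3 : t ≤ 3 := by
      have : t - 1 ≤ 2 := by
        rw [hn2] at hF
        exact le_trans (Nat.le_mul_of_pos_right _ hm) hF
      omega
    have ha2 : ax t ≤ 1 / 2 := by
      have h3r : (t : ℝ) ≤ 3 := by exact_mod_cast ht3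
      unfold ax
      have : 1 / 2 ≤ 3 / (2 * (t : ℝ)) := by
        rw [div_le_div_iff₀ (by norm_num) (by linarith)]
        linarith
      linarith
    have hn2r : (n : ℝ) = 2 := by rw [hn2]; norm_num
    have k1 : ax t * (((n : ℝ) + 1) * l + 3) ≤ (1 / 2) * (((n : ℝ) + 1) * l + 3) :=
      mul_le_mul_of_nonneg_right ha2 (by positivity)
    rw [hn2r] at k1 hlr ⊢
    nlinarith

theorem alESmall (K : Type) [Field K] [NumberField K] (n t m d l : ℕ) (hn : 2 ≤ n) (ht : 2 ≤ t)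
    (hm : 1 ≤ m) (hd : d = t * m) (hF : (t - 1) * m ≤ n) (hl : l = 4 * (n + t) + 16) (M Λ : ℕ)
    (hM : 1 ≤ M) (hΛ : 1 ≤ Λ) : ∃ C : ℝ, 1 ≤ C ∧ ∀ g A B H R : ℕ, 1 ≤ g → 1 ≤ R →
    B = g ^ (n * l + 1) → H = g ^ (l + 2) →
    B ^ (t * (n + 1 - (t - 1) * m)) ≤ M * A ^ (t - 1) → A * B ^ d ≤ Λ * R ^ t →
    0 ≤ alE K n (ax t) B H R ∧
      alE K n (ax t) B H R ≤ C * (((Nat.log 2 B : ℝ) + 2) / g) ^ eK K := by
  have hML : (1 : ℝ) ≤ (M : ℝ) * Λ := by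
    have h1 : (1 : ℝ) ≤ M := by exact_mod_cast hM
    have h2 : (1 : ℝ) ≤ Λ := by exact_mod_cast hΛ
    nlinarith
  refine ⟨4 * ((M : ℝ) * Λ) ^ (2 * eK K), ?_, ?_⟩
  · have := one_le_pow₀ (n := 2 * eK K) hML
    linarith
  intro g A B H R hg hR hB hH h1 h2
  have hgr : (1 : ℝ) ≤ g := by exact_mod_cast hg
  have hg0 : (0 : ℝ) < g := by linarith
  have hRr : (1 : ℝ) ≤ R := by exact_mod_cast hR
  have hR0 : (0 : ℝ) < R := by linarith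
  have hRB := RBig n t m d l g A B R M Λ (by omega) ht hm hd hF hg hR hM hΛ hB h1 h2
  have hRBr : (g : ℝ) ^ ((n + 1) * l + 1) ≤ (M : ℝ) * Λ * R := by exact_mod_cast hRB
  have hBr : (B : ℝ) = (g : ℝ) ^ (n * l + 1) := by rw [hB]; push_cast; rfl
  have hHr : (H : ℝ) = (g : ℝ) ^ (l + 2) := by rw [hH]; push_cast; rfl
  have hHB : (H : ℝ) * B = (g : ℝ) ^ ((n + 1) * l + 3) := by
    rw [hHr, hBr, ← pow_add]
    congr 1
    ring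
  have hlog : (0 : ℝ) ≤ (Nat.log 2 B : ℝ) + 2 := by positivity
  -- the second factor
  have hmid0 : 0 ≤ (H : ℝ) ^ n * ((H : ℝ) * B) ^ (ax t) / (B : ℝ) ^ n := by positivity
  have hmid : (H : ℝ) ^ n * ((H : ℝ) * B) ^ (ax t) / (B : ℝ) ^ n ≤ ((g : ℝ) ^ 5)⁻¹ := by
    have e1 : (H : ℝ) ^ n = (g : ℝ) ^ ((n : ℝ) * (l + 2)) := by
      rw [hHr, ← pow_mul, ← Real.rpow_natCast]
      congr 1
      push_cast
      ring
    have e2 : ((H : ℝ) * B) ^ (ax t) = (g : ℝ) ^ (ax t * (((n : ℝ) + 1) * l + 3)) := by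
      rw [hHB, ← Real.rpow_natCast, ← Real.rpow_mul hg0.le]
      congr 1
      push_cast
      ring
    have e3 : (B : ℝ) ^ n = (g : ℝ) ^ ((n : ℝ) * (n * l + 1)) := by
      rw [hBr, ← pow_mul, ← Real.rpow_natCast]
      congr 1
      push_cast
      ring
    have e4 : ((g : ℝ) ^ 5)⁻¹ = (g : ℝ) ^ (-5 : ℝ) := by
      rw [Real.rpow_neg hg0.le]
      congr 1
      rw [← Real.rpow_natCast]
      norm_num
    rw [e1, e2, e3, e4, ← Real.rpow_add hg0, ← Real.rpow_sub hg0]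
    exact Real.rpow_le_rpow_of_exponent_le hgr (MN_ParT_exp n t m l hn ht hm hF hl)
  -- the third factor
  have hq0 : 0 ≤ (H : ℝ) * B / R := by positivity
  have hq : (H : ℝ) * B / R ≤ (M : ℝ) * Λ * (g : ℝ) ^ 2 := by
    rw [div_le_iff₀ hR0, hHB]
    have e1 : (g : ℝ) ^ ((n + 1) * l + 3) = (g : ℝ) ^ ((n + 1) * l + 1) * (g : ℝ) ^ 2 := by
      rw [← pow_add]
    rw [e1]
    calc (g : ℝ) ^ ((n + 1) * l + 1) * (g : ℝ) ^ 2 ≤ (M : ℝ) * Λ * R * (g : ℝ) ^ 2 :=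
          mul_le_mul_of_nonneg_right hRBr (by positivity)
      _ = (M : ℝ) * Λ * (g : ℝ) ^ 2 * R := by ring
  have hbig : (1 : ℝ) ≤ ((M : ℝ) * Λ * (g : ℝ) ^ 2) ^ eK K := by
    refine one_le_pow₀ ?_
    have : (1 : ℝ) ≤ (g : ℝ) ^ 2 := one_le_pow₀ hgr
    nlinarith
  have hthird : (1 + ((H : ℝ) * B / R) ^ eK K) ^ 2 ≤
      (2 * ((M : ℝ) * Λ * (g : ℝ) ^ 2) ^ eK K) ^ 2 := by
    refine pow_le_pow_left₀ (by positivity) ?_ 2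
    have := pow_le_pow_left₀ hq0 hq (eK K)
    linarith
  constructor
  · unfold alE
    positivity
  · unfold alE
    calc ((Nat.log 2 B : ℝ) + 2) ^ eK K *
          ((H : ℝ) ^ n * ((H : ℝ) * B) ^ (ax t) / (B : ℝ) ^ n) ^ eK K *
          (1 + ((H : ℝ) * B / R) ^ eK K) ^ 2
        ≤ ((Nat.log 2 B : ℝ) + 2) ^ eK K * (((g : ℝ) ^ 5)⁻¹) ^ eK K *
          (2 * ((M : ℝ) * Λ * (g : ℝ) ^ 2) ^ eK K) ^ 2 := by
          refine mul_le_mul (mul_le_mul_of_nonneg_left (pow_le_pow_left₀ hmid0 hmid _)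
            (by positivity)) hthird (by positivity) (by positivity)
      _ = 4 * ((M : ℝ) * Λ) ^ (2 * eK K) * (((Nat.log 2 B : ℝ) + 2) / g) ^ eK K := by
          have e1 : (2 * ((M : ℝ) * Λ * (g : ℝ) ^ 2) ^ eK K) ^ 2 =
              4 * ((M : ℝ) * Λ) ^ (2 * eK K) * ((g : ℝ) ^ 4) ^ eK K := by
            rw [mul_pow (2 : ℝ), mul_pow ((M : ℝ) * Λ), mul_pow (((M : ℝ) * Λ) ^ eK K), ← pow_mul,
              ← pow_mul, ← pow_mul, ← pow_mul]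
            have : eK K * 2 = 2 * eK K := mul_comm _ _
            rw [this]
            have h4 : 2 * (2 * eK K) = 4 * eK K := by ring
            rw [h4]
            ring
          rw [e1]
          have e2 : (((g : ℝ) ^ 5)⁻¹) ^ eK K * ((g : ℝ) ^ 4) ^ eK K = ((g : ℝ)⁻¹) ^ eK K := by
            rw [← mul_pow]
            congr 1
            field_simp
          rw [div_eq_mul_inv, mul_pow ((Nat.log 2 B : ℝ) + 2), ← e2]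
          ring

end Pool.Agent.Lib.MP_1ad228_ntW
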