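import Pool.Agent.Lib.MP_1ad228_ntW.MN_ParT
import Pool.Agent.Lib.MP_1ad228_ntW.MN_N1c
import Pool.Agent.Lib.MP_1ad228_ntW.E_Var
import Pool.Agent.Lib.MP_1ad228_ntN.MN_GG

/-!
JOB MN_PosT.  A positive proportion of the tensors has a solution.  (Model with proof: `posN` in Lib/MP_1ad228_ntN/MN_Pos.lean.)

PROOF.  `e = eK K`, `d = t m`, `ι = n + 1 - (t-1) m`, `l = 4(n+t)+16`, `D0 = (n l+1)(tι)`, `V = (n+1)^d`, `q = 4`, `o = 0`, `M = 1`.  `c1, g1` from `manyGG K n l`, `C` from `pairTotT` with `q = 4`, `C2` (natural) from `n1c .. 4`, `Λ = C2 2^t`, `Ca` from `alESmall` with `M = 1`, `Λ`, `g2` from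
`lgSmall (n*l+1) e _ Ca 1`.  `gpar n (t-1) l (t*ι) .. 1 (g1 + g2) (⌈C⌉₊ + C2)` (`lparT`) gives `A1`.  `A ≥ A1 + C2 2^t + C2`.  `g`, `B = g^(nl+1)`, `H = g^(l+2)`, `B^(tι) ≤ A^(t-1) ≤ 2^D0 B^(tι)`, `(⌈C⌉₊ + C2) H^2 ≤ A`.
`R` from `exRdown t C2 (A B^d)`: `C2 R^t ≤ A B^d ≤ Λ R^t`.  `B ≤ R`: `R^t ≥ A B^d/Λ ≥ B^d ≥ B^t` as `A ≥ Λ` (`pow_le_pow_iff_left`).  `E0 = B^(n+1) R/(A B^d)`, `E = E0^e = EB K n d B R A`; `EBt`: `E0^t = (B^(tι)/A^(t-1)) (R^t/(A B^d))`, between `1/(2^D0 Λ)` and `1`; so `E0 ≤ 1` and `E0 ≥ E0^t ≥ 1/(2^D0 Λ)`.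
First moment: `∑_x ∑_F Nx F x = ∑_x ∑_{u ∈ OBox K R} #{F | ev F x = u^t} ≥ c1 B^(e(n+1)) (R^e/CK K n) A^(eV)/(C2 (A B^d)^e) = c3 E A^(eV)`, `c3 = c1/(CK K n C2)` (`n1c`, `OBox_low`).  Second moment (`pairTotT`): `≤ C A^(eV) (E + E^2 (1 + alE)) ≤ 3 C A^(eV) E` (`alE ≤ 1`, `E ≤ 1`).
`csT`: `#S ≥ (c3 E A^(eV))^2/(3 C A^(eV) E) = c3^2 E A^(eV)/(3C)`; `δ = c3^2 (1/(2^D0 Λ))^e/(3 C)`.
-/

namespace Pool.Agent.Lib.MP_1ad228_ntW

open NumberField Classical Pool.Agent.Lib.MP_1ad228_ntN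

private theorem MN_PosT_ar (S N1 N2 A2 E C c : ℝ) (hE : 0 < E) (hC : 1 ≤ C)
    (hc : 0 < c) (hA2 : 0 < A2) (h1 : c * E * A2 ≤ N1) (h2 : N2 ≤ 3 * C * A2 * E)
    (hcs : N1 ^ 2 ≤ S * N2) (hS : 0 ≤ S) :
    c ^ 2 * E * A2 / (3 * C) ≤ S := by
  have hC0 : 0 < C := by linarith
  have h3 : (c * E * A2) ^ 2 ≤ S * (3 * C * A2 * E) :=
    (pow_le_pow_left₀ (by positivity) h1 2).trans (hcs.trans (mul_le_mul_of_nonneg_left h2 hS))
  have h4 : (c ^ 2 * E * A2 / (3 * C)) * (3 * C * A2 * E) = (c * E * A2) ^ 2 := by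
    field_simp
  rw [← h4] at h3
  exact le_of_mul_le_mul_right h3 (by positivity)

private theorem MN_PosT_x (K : Type) [Field K] [NumberField K] (n d t R A : ℕ)
    (x : Vc n (𝓞 K)) (L : ℝ) (h : ∀ u ∈ OBox K (R : ℝ),
      L ≤ (((Box K n d A).filter fun F => ev F x = u ^ t).card : ℝ)) :
    ((OBox K (R : ℝ)).card : ℝ) * L ≤ ∑ F ∈ Box K n d A, (Nx t R F x : ℝ) := by
  have h1 : ∑ F ∈ Box K n d A, (Nx t R F x : ℝ) =
      ∑ u ∈ OBox K (R : ℝ), (((Box K n d A).filter fun F => ev F x = u ^ t).card : ℝ) := by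
    have h2 : ∀ F ∈ Box K n d A, (Nx t R F x : ℝ) =
        ∑ u ∈ OBox K (R : ℝ), if ev F x = u ^ t then (1 : ℝ) else 0 := by
      intro F _
      unfold Nx
      rw [Finset.sum_boole]
    rw [Finset.sum_congr rfl h2, Finset.sum_comm]
    refine Finset.sum_congr rfl fun u _ => ?_
    rw [Finset.sum_boole]
  rw [h1]
  calc ((OBox K (R : ℝ)).card : ℝ) * L = ∑ _u ∈ OBox K (R : ℝ), L := by
        rw [Finset.sum_const, nsmul_eq_mul]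
    _ ≤ _ := Finset.sum_le_sum h

theorem posT (K : Type) [Field K] [NumberField K] (n t m : ℕ) (hn : 2 ≤ n) (ht : 2 ≤ t)
    (hm : 1 ≤ m) (hF : (t - 1) * m ≤ n) : PosT K n t m := by
  have ht1 : 1 ≤ t := by omega
  obtain ⟨ι, hι0⟩ : ∃ ι : ℕ, ι = n + 1 - (t - 1) * m := ⟨_, rfl⟩
  obtain ⟨l, hl⟩ : ∃ l : ℕ, l = 4 * (n + t) + 16 := ⟨_, rfl⟩
  have hι : 1 ≤ ι := by omega
  have he1 : 1 ≤ eK K := eK_pos
  obtain ⟨D0, hD0⟩ : ∃ D0 : ℕ, D0 = (n * l + 1) * (t * ι) := ⟨_, rfl⟩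
  have hlp := lparT n t ι l hn ht hι hl
  obtain ⟨c1, hc1, g1, hg1, hmany⟩ := manyGG K n l (by omega) (by omega)
  obtain ⟨C, hC, hpt⟩ := pairTotT K n (t * m) t m 4 hn rfl ht hm (by norm_num)
  obtain ⟨C2, hC2, hn1⟩ := n1c K n (t * m) t 4 (by norm_num)
  obtain ⟨Λ, hΛ⟩ : ∃ Λ : ℕ, Λ = C2 * 2 ^ t := ⟨_, rfl⟩
  have hΛ1 : 1 ≤ Λ := by rw [hΛ]; exact Nat.mul_pos hC2 (by positivity)
  obtain ⟨Ca, hCa1, hal⟩ := alESmall K n t m (t * m) l hn ht hm rfl hF hl 1 Λ le_rfl hΛ1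
  obtain ⟨g2, hg2, hlg⟩ := lgSmall (n * l + 1) (eK K) he1 Ca 1 one_pos
  obtain ⟨A1, hA1⟩ := Pool.Agent.Lib.MP_1ad228_ntF.gpar n (t - 1) l (t * ι) (by omega)
    (Nat.mul_pos (by omega) hι) hlp 1 le_rfl (g1 + g2) (⌈C⌉₊ + C2)
  obtain ⟨κ, hκ⟩ : ∃ κ : ℝ, κ = CK K n := ⟨_, rfl⟩
  have hκ0 : 0 < κ := by rw [hκ]; exact CK_pos K n
  have hC20 : (0 : ℝ) < C2 := by exact_mod_cast hC2
  have hΛ0 : (0 : ℝ) < Λ := by exact_mod_cast hΛ1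
  have hC0 : 0 < C := by linarith
  refine ⟨(c1 / (κ * C2)) ^ 2 * (1 / (2 ^ D0 * Λ)) ^ eK K / (3 * C), by positivity,
    A1 + Λ + C2, fun A hA => ?_⟩
  obtain ⟨g, hgg, hgg1, hA0, hgM, hMg, hcA⟩ := hA1 A (by omega)
  rw [← hD0] at hMg
  have hA0r : (0 : ℝ) < A := by exact_mod_cast hA0
  obtain ⟨B, hB⟩ : ∃ B : ℕ, B = g ^ (n * l + 1) := ⟨_, rfl⟩
  obtain ⟨H, hH⟩ : ∃ H : ℕ, H = g ^ (l + 2) := ⟨_, rfl⟩
  rw [← hB] at hgM hMg
  rw [← hH] at hcA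
  have hB1 : 1 ≤ B := by rw [hB]; exact Nat.one_le_pow _ _ hgg
  have hH1 : 1 ≤ H := by rw [hH]; exact Nat.one_le_pow _ _ hgg
  have hB0r : (0 : ℝ) < B := by exact_mod_cast hB1
  have hg0r : (0 : ℝ) < g := by exact_mod_cast hgg
  have hG := hmany g (by omega) B H hB hH (0 : Fin (n + 1))
  have hBd : 1 ≤ B ^ (t * m) := Nat.one_le_pow _ _ hB1
  obtain ⟨R, hR1, hR2, hR3⟩ := exRdown t C2 (A * B ^ (t * m)) ht1 hC2
    (by
      calc C2 = C2 * 1 := (mul_one _).symm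
        _ ≤ A * B ^ (t * m) := Nat.mul_le_mul (by omega) hBd)
  rw [← hΛ] at hR3
  have hR0r : (0 : ℝ) < R := by exact_mod_cast hR1
  have hBR : B ≤ R := by
    have h1 : Λ * B ^ t ≤ Λ * R ^ t := by
      refine le_trans ?_ hR3
      exact Nat.mul_le_mul (by omega) (Nat.pow_le_pow_right hB1 (Nat.le_mul_of_pos_right t hm))
    have h2 : B ^ t ≤ R ^ t := Nat.le_of_mul_le_mul_left h1 hΛ1
    exact (Nat.pow_le_pow_iff_left (by omega)).1 h2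
  have hcAr : C * (H : ℝ) ^ 2 ≤ A := by
    have h3 : C ≤ ((⌈C⌉₊ : ℕ) : ℝ) := Nat.le_ceil C
    have h5 : ⌈C⌉₊ * H ^ 2 ≤ A := le_trans (Nat.mul_le_mul_right _ (by omega)) hcA
    have h4 : ((⌈C⌉₊ : ℕ) : ℝ) * (H : ℝ) ^ 2 ≤ A := by exact_mod_cast h5
    exact (mul_le_mul_of_nonneg_right h3 (by positivity)).trans h4
  have hcH : C2 * H ≤ A := by
    refine le_trans ?_ hcA
    calc C2 * H ≤ C2 * H ^ 2 := Nat.mul_le_mul_left _ (by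
          calc H = H ^ 1 := (pow_one H).symm
            _ ≤ H ^ 2 := Nat.pow_le_pow_right hH1 (by norm_num))
      _ ≤ _ := Nat.mul_le_mul_right _ (by omega)
  have hp := hpt (0 : Fin (n + 1)) B H A R hB1 hH1 hBR hcAr
  have hcs := csT K n (t * m) t B H 4 R A (0 : Fin (n + 1))
  -- E
  obtain ⟨E0, hE0⟩ : ∃ E0 : ℝ, E0 = (B : ℝ) ^ (n + 1) * R / ((A : ℝ) * (B : ℝ) ^ (t * m)) :=
    ⟨_, rfl⟩
  have hE0pos : 0 < E0 := by rw [hE0]; positivity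
  have hE0t := EBt n t m (t * m) A B R ht1 rfl hF hA0 hB1
  rw [← hι0, ← hE0] at hE0t
  have hq1 : (B : ℝ) ^ (t * ι) / (A : ℝ) ^ (t - 1) ≤ 1 := by
    rw [div_le_one (by positivity)]
    rw [one_mul] at hgM
    exact_mod_cast hgM
  have hq2 : (R : ℝ) ^ t / ((A : ℝ) * (B : ℝ) ^ (t * m)) ≤ 1 := by
    rw [div_le_one (by positivity)]
    have h1 : R ^ t ≤ A * B ^ (t * m) := le_trans (Nat.le_mul_of_pos_left _ hC2) hR2
    exact_mod_cast h1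
  have hq3 : 1 / 2 ^ D0 ≤ (B : ℝ) ^ (t * ι) / (A : ℝ) ^ (t - 1) := by
    rw [div_le_div_iff₀ (by positivity) (by positivity), one_mul]
    rw [one_mul] at hMg
    have : (A : ℝ) ^ (t - 1) ≤ 2 ^ D0 * (B : ℝ) ^ (t * ι) := by exact_mod_cast hMg
    linarith
  have hq4 : 1 / (Λ : ℝ) ≤ (R : ℝ) ^ t / ((A : ℝ) * (B : ℝ) ^ (t * m)) := by
    rw [div_le_div_iff₀ (by positivity) (by positivity), one_mul]
    have : (A : ℝ) * (B : ℝ) ^ (t * m) ≤ Λ * (R : ℝ) ^ t := by exact_mod_cast hR3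
    linarith
  have hE0t1 : E0 ^ t ≤ 1 := by
    rw [hE0t]
    exact mul_le_one₀ hq1 (by positivity) hq2
  have hE01 : E0 ≤ 1 := by
    by_contra h
    have h1 := one_lt_pow₀ (lt_of_not_ge h) (show t ≠ 0 by omega)
    linarith
  have hE0low : 1 / (2 ^ D0 * (Λ : ℝ)) ≤ E0 := by
    have h1 : 1 / (2 ^ D0 * (Λ : ℝ)) ≤ E0 ^ t := by
      rw [hE0t]
      calc 1 / (2 ^ D0 * (Λ : ℝ)) = 1 / 2 ^ D0 * (1 / (Λ : ℝ)) := by
            rw [div_mul_div_comm, one_mul]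
        _ ≤ _ := mul_le_mul hq3 hq4 (by positivity) (by positivity)
    have h2 : E0 ^ t ≤ E0 ^ 1 := pow_le_pow_of_le_one hE0pos.le hE01 ht1
    rw [pow_one] at h2
    exact h1.trans h2
  obtain ⟨E, hE⟩ : ∃ E : ℝ, E = EB K n (t * m) B R A := ⟨_, rfl⟩
  have hEE : E = E0 ^ eK K := by rw [hE, hE0]; rfl
  rw [← hE] at hp
  have hEpos : 0 < E := by rw [hEE]; positivity
  have hE1 : E ≤ 1 := by rw [hEE]; exact pow_le_one₀ hE0pos.le hE01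
  have hElow : (1 / (2 ^ D0 * (Λ : ℝ))) ^ eK K ≤ E := by
    rw [hEE]
    exact pow_le_pow_left₀ (by positivity) hE0low _
  have hHp : alE K n (ax t) B H R ≤ 1 := by
    have h3 := (hal g A B H R hgg hR1 hB hH (by rw [← hι0]; exact hgM) hR3).2
    have h4 := hlg g (by omega)
    rw [← hB] at h4
    exact h3.trans h4
  -- lower bound of the first moment
  have hN1 : c1 / (κ * C2) * E * (A : ℝ) ^ (eK K * (n + 1) ^ (t * m)) ≤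
      ∑ x ∈ GG K B H 4 (0 : Fin (n + 1)), ∑ F ∈ Box K n (t * m) A, (Nx t R F x : ℝ) := by
    have h1 : ∀ x ∈ GG K B H 4 (0 : Fin (n + 1)),
        (R : ℝ) ^ eK K / κ * ((A : ℝ) ^ (eK K * (n + 1) ^ (t * m)) /
          (C2 * ((A : ℝ) * (B : ℝ) ^ (t * m)) ^ eK K)) ≤
          ∑ F ∈ Box K n (t * m) A, (Nx t R F x : ℝ) := by
      intro x hx
      refine le_trans ?_ (MN_PosT_x K n (t * m) t R A x
        ((A : ℝ) ^ (eK K * (n + 1) ^ (t * m)) / (C2 * ((A : ℝ) * (B : ℝ) ^ (t * m)) ^ eK K)) ?_)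
      · refine mul_le_mul_of_nonneg_right ?_ (by positivity)
        rw [div_le_iff₀ hκ0, mul_comm, hκ]
        exact OBox_low K n (by exact_mod_cast hR1)
      · intro u hu
        rw [div_le_iff₀ (by positivity)]
        exact (hn1 B H A R 0 hB1 (by omega) hcH hR2 x hx u hu).trans (le_of_eq (by ring))
    have h2 := Finset.sum_le_sum h1
    rw [Finset.sum_const, nsmul_eq_mul] at h2
    refine le_trans ?_ h2
    calc c1 / (κ * C2) * E * (A : ℝ) ^ (eK K * (n + 1) ^ (t * m))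
        = c1 * (B : ℝ) ^ (eK K * (n + 1)) * ((R : ℝ) ^ eK K / κ *
          ((A : ℝ) ^ (eK K * (n + 1) ^ (t * m)) /
            (C2 * ((A : ℝ) * (B : ℝ) ^ (t * m)) ^ eK K))) := by
          rw [hEE, hE0, div_pow, mul_pow ((B : ℝ) ^ (n + 1)), ← pow_mul (B : ℝ) (n + 1) (eK K),
            mul_comm (n + 1) (eK K)]
          field_simp
      _ ≤ _ := mul_le_mul_of_nonneg_right hG (by positivity)
  have hN2 : ∑ x ∈ GG K B H 4 (0 : Fin (n + 1)), ∑ y ∈ GG K B H 4 (0 : Fin (n + 1)),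
      ∑ F ∈ Box K n (t * m) A, (Nx t R F x : ℝ) * (Nx t R F y : ℝ) ≤
        3 * C * (A : ℝ) ^ (eK K * (n + 1) ^ (t * m)) * E := by
    refine hp.trans ?_
    have h3 : E + E ^ 2 * (1 + alE K n (ax t) B H R) ≤ 3 * E := by
      have h5 : E ^ 2 * (1 + alE K n (ax t) B H R) ≤ E ^ 2 * 2 :=
        mul_le_mul_of_nonneg_left (by linarith) (by positivity)
      have h6 : E ^ 2 ≤ E := by
        rw [sq]
        exact mul_le_of_le_one_left hEpos.le hE1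
      linarith
    calc C * (A : ℝ) ^ (eK K * (n + 1) ^ (t * m)) * (E + E ^ 2 * (1 + alE K n (ax t) B H R))
        ≤ C * (A : ℝ) ^ (eK K * (n + 1) ^ (t * m)) * (3 * E) :=
          mul_le_mul_of_nonneg_left h3 (by positivity)
      _ = 3 * C * (A : ℝ) ^ (eK K * (n + 1) ^ (t * m)) * E := by ring
  have hfin := MN_PosT_ar _ _ _ ((A : ℝ) ^ (eK K * (n + 1) ^ (t * m))) E C (c1 / (κ * C2)) hEpos hC
    (by positivity) (by positivity) hN1 hN2 hcs (Nat.cast_nonneg _)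
  refine le_trans ?_ hfin
  calc (c1 / (κ * C2)) ^ 2 * (1 / (2 ^ D0 * (Λ : ℝ))) ^ eK K / (3 * C) *
        (A : ℝ) ^ (eK K * (n + 1) ^ (t * m))
      = (1 / (2 ^ D0 * (Λ : ℝ))) ^ eK K *
        ((c1 / (κ * C2)) ^ 2 * (A : ℝ) ^ (eK K * (n + 1) ^ (t * m)) / (3 * C)) := by ring
    _ ≤ E * ((c1 / (κ * C2)) ^ 2 * (A : ℝ) ^ (eK K * (n + 1) ^ (t * m)) / (3 * C)) :=
        mul_le_mul_of_nonneg_right hElow (by positivity)
    _ = _ := by ring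

end Pool.Agent.Lib.MP_1ad228_ntW
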