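import Pool.Agent.Lib.MP_1ad228_ntW.RP_Triv

/-!
JOB RP_Shift.  At a real place, `t` even: adding a positive multiple of the diagonal tensor makes a soluble tensor robustly soluble.

`ev_dg`: `ev (dg n d R) x = ∑ i, x i ^ d` for `d ≥ 1` (the tensors `s = fun _ => i` are different for different `i` as `d ≥ 1`; `Finset.sum_image`/`Finset.sum_filter`).
`evLip`: for `‖α s‖ ≤ M` and `‖x l‖, ‖y l‖ ≤ 1`, `‖x l - y l‖ ≤ δ`: `‖ev α x - ev α y‖ ≤ M d (n+1)^d δ` (`‖∏ x - ∏ y‖ ≤ d δ` by induction, `(n+1)^d` terms).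

`robShift` PROOF.  `d = t m` is even and positive.  `c = 2^(-d)/(24 d (n+1)^d)` (`≤ 1/16`).  From `RSolT t v F`: `x ≠ 0` real vector (entries in `KK v`, `v` real: imaginary part `0`), `u` real, `ev (tmap (em v) F) x = u^t ≥ 0` (`t` even).  Scaling `x` by a positive real and
dividing by `A ≥ 1`: there is a real vector `x` with `max ‖x l‖ = 1/2` and `ev (scT v A F) x` real `≥ 0` (`ev_scale`).  `G = F + b • dg` (as `F + (b : ℕ) • dg n d (𝓞 K)`), `α = scT v A G = scT v A F + (b/A) dg`, entries of absolute value `≤ (A + b)/A ≤ 3`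
(`F ∈ Box K n d A`, `b ≤ 2A`), and `ev α x ≥ (b/A) (1/2)^d` (`d` even: all `x i ^ d ≥ 0` and one of them is `(1/2)^d`).  Put `δ = (b/A) 2^(-d)/(3 d (n+1)^d) ≤ 1/4` (as `b/A ≤ 2`, `d ≥ 2`).  For real `y` with `‖y l - x l‖ ≤ δ`: `‖y l‖ ≤ 1`, and by `evLip` with `M = 3`
`ev α y ≥ (b/A) 2^(-d) - 3 d (n+1)^d δ ≥ 0`, so it is a `t`-th power of a real number (`root`).  Let `ξ l = x l` for `l ≠ o` and `ξ o = x o + δ/2` if `x o ≥ 0`, `ξ o = x o - δ/2` otherwise; so `‖ξ o‖ ≥ δ/2`.  With `ρ = δ/4`: `‖y l - ξ l‖ ≤ ρ` gives `‖y l - x l‖ ≤ 3δ/4 ≤ δ` and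
`‖y o‖ ≥ δ/2 - δ/4 = ρ`.  `c b/A ≤ δ/4`; use `robMono`.
-/

namespace Pool.Agent.Lib.MP_1ad228_ntW

open NumberField Classical Pool.Agent.Lib.MP_1ad228_ntN

theorem ev_dg {n d : ℕ} (hd : 1 ≤ d) {R : Type*} [CommRing R] (x : Vc n R) :
    ev (dg n d R) x = ∑ i, x i ^ d := by
  have hinj : Function.Injective (fun i : Fin (n + 1) => (fun _ : Fin d => i)) := by
    intro i j hij
    exact congrFun hij ⟨0, hd⟩
  unfold ev dg
  calc ∑ s : Fin d → Fin (n + 1), (if ∃ i, s = fun _ => i then (1 : R) else 0) * ∏ k, x (s k)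
      = ∑ s ∈ Finset.univ.filter (fun s : Fin d → Fin (n + 1) => ∃ i, s = fun _ => i),
          ∏ k, x (s k) := by
        rw [Finset.sum_filter]
        refine Finset.sum_congr rfl fun s _ => ?_
        split_ifs
        · rw [one_mul]
        · rw [zero_mul]
    _ = ∑ s ∈ Finset.univ.image (fun i : Fin (n + 1) => (fun _ : Fin d => i)),
          ∏ k, x (s k) := by
        refine Finset.sum_congr ?_ fun _ _ => rfl
        ext s
        simp only [Finset.mem_filter, Finset.mem_univ, true_and, Finset.mem_image]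
        exact ⟨fun ⟨i, hi⟩ => ⟨i, hi.symm⟩, fun ⟨i, hi⟩ => ⟨i, hi.symm⟩⟩
    _ = ∑ i, ∏ _k : Fin d, x i := Finset.sum_image (fun _ _ _ _ h => hinj h)
    _ = ∑ i, x i ^ d := by
        refine Finset.sum_congr rfl fun i _ => ?_
        rw [Finset.prod_const, Finset.card_univ, Fintype.card_fin]

private theorem RP_Shift_prod {𝕜 : Type*} [NormedField 𝕜] {ι : Type*} (T : Finset ι)
    (u w : ι → 𝕜) (δ : ℝ) (hu : ∀ k, ‖u k‖ ≤ 1) (hw : ∀ k, ‖w k‖ ≤ 1)
    (h : ∀ k, ‖w k - u k‖ ≤ δ) :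
    ‖∏ k ∈ T, w k - ∏ k ∈ T, u k‖ ≤ T.card * δ := by
  induction T using Finset.induction_on with
  | empty => simp
  | insert a T ha ih =>
    rw [Finset.prod_insert ha, Finset.prod_insert ha, Finset.card_insert_of_notMem ha]
    have hδ : 0 ≤ δ := (norm_nonneg _).trans (h a)
    have h1 : w a * ∏ k ∈ T, w k - u a * ∏ k ∈ T, u k =
        (w a - u a) * ∏ k ∈ T, w k + u a * (∏ k ∈ T, w k - ∏ k ∈ T, u k) := by ring
    have h2 : ‖∏ k ∈ T, w k‖ ≤ 1 := by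
      rw [norm_prod]
      exact Finset.prod_le_one (fun k _ => norm_nonneg _) fun k _ => hw k
    have h3 : ‖(w a - u a) * ∏ k ∈ T, w k‖ ≤ δ := by
      rw [norm_mul]
      calc ‖w a - u a‖ * ‖∏ k ∈ T, w k‖ ≤ δ * 1 := mul_le_mul (h a) h2 (norm_nonneg _) hδ
        _ = δ := mul_one _
    have h4 : ‖u a * (∏ k ∈ T, w k - ∏ k ∈ T, u k)‖ ≤ T.card * δ := by
      rw [norm_mul]
      calc ‖u a‖ * ‖∏ k ∈ T, w k - ∏ k ∈ T, u k‖ ≤ 1 * (T.card * δ) :=
            mul_le_mul (hu a) ih (norm_nonneg _) (by norm_num)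
        _ = T.card * δ := one_mul _
    rw [h1]
    refine (norm_add_le _ _).trans ?_
    push_cast
    linarith

private theorem RP_Shift_lip {𝕜 : Type*} [NormedField 𝕜] {n d : ℕ} (α : Ten n d 𝕜) (M δ : ℝ)
    (hM : ∀ s, ‖α s‖ ≤ M) (x y : Vc n 𝕜) (hx : ∀ l, ‖x l‖ ≤ 1) (hy : ∀ l, ‖y l‖ ≤ 1)
    (h : ∀ l, ‖y l - x l‖ ≤ δ) :
    ‖ev α y - ev α x‖ ≤ M * (d * (n + 1) ^ d) * δ := by
  have hδ : 0 ≤ δ := (norm_nonneg _).trans (h 0)
  have hM0 : 0 ≤ M := (norm_nonneg _).trans (hM fun _ => 0)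
  have h1 : ev α y - ev α x = ∑ s : Fin d → Fin (n + 1),
      α s * (∏ k, y (s k) - ∏ k, x (s k)) := by
    unfold ev
    rw [← Finset.sum_sub_distrib]
    refine Finset.sum_congr rfl fun s _ => ?_
    ring
  rw [h1]
  refine (norm_sum_le _ _).trans ?_
  have h2 : ∀ s ∈ (Finset.univ : Finset (Fin d → Fin (n + 1))),
      ‖α s * (∏ k, y (s k) - ∏ k, x (s k))‖ ≤ M * (d * δ) := by
    intro s _
    rw [norm_mul]
    have h3 := RP_Shift_prod Finset.univ (fun k => x (s k)) (fun k => y (s k)) δ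
      (fun k => hx _) (fun k => hy _) (fun k => h _)
    rw [Finset.card_univ, Fintype.card_fin] at h3
    exact mul_le_mul (hM s) h3 (norm_nonneg _) hM0
  refine (Finset.sum_le_card_nsmul _ _ _ h2).trans (le_of_eq ?_)
  rw [nsmul_eq_mul, Finset.card_univ, Fintype.card_fun, Fintype.card_fin, Fintype.card_fin]
  push_cast
  ring

theorem evLip {n d : ℕ} (α : Ten n d ℂ) (M δ : ℝ) (hM : ∀ s, ‖α s‖ ≤ M) (x y : Vc n ℂ)
    (hx : ∀ l, ‖x l‖ ≤ 1) (hy : ∀ l, ‖y l‖ ≤ 1) (h : ∀ l, ‖y l - x l‖ ≤ δ) :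
    ‖ev α y - ev α x‖ ≤ M * (d * (n + 1) ^ d) * δ :=
  RP_Shift_lip α M δ hM x y hx hy h

/-- The statement over the real field. -/
private theorem RP_Shift_real (n d : ℕ) (hd1 : 1 ≤ d) (hde : Even d) (β : Ten n d ℝ)
    (hβ : ∀ s, |β s| ≤ 1) (x : Vc n ℝ) (hx : x ≠ 0) (hev : 0 ≤ ev β x) (o : Fin (n + 1))
    (e : ℝ) (he : 0 < e) (he2 : e ≤ 2) (ρ : ℝ)
    (hρ : ρ = e / (2 ^ d * (12 * (d * (n + 1) ^ d)))) :
    ∃ ξ : Vc n ℝ, ∀ y : Vc n ℝ, (∀ l, |y l - ξ l| ≤ ρ) →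
      ρ ≤ |y o| ∧ (∀ l, |y l| ≤ 1) ∧ 0 ≤ ev (β + e • dg n d ℝ) y := by
  obtain ⟨D, hD⟩ : ∃ D : ℝ, D = (d : ℝ) * (n + 1) ^ d := ⟨_, rfl⟩
  have hd1' : (1 : ℝ) ≤ d := by exact_mod_cast hd1
  have hn1 : (1 : ℝ) ≤ ((n : ℝ) + 1) ^ d := one_le_pow₀ (by linarith [Nat.cast_nonneg (α := ℝ) n])
  have hD1 : 1 ≤ D := by
    rw [hD]
    exact one_le_mul_of_one_le_of_one_le hd1' hn1
  have hp2 : (1 : ℝ) ≤ 2 ^ d := one_le_pow₀ (by norm_num)
  rw [← hD] at hρ
  have hρ0 : 0 < ρ := by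
    rw [hρ]
    positivity
  have hρe : ρ * (2 ^ d * (12 * D)) = e := by
    rw [hρ]
    field_simp
  have hρ1 : 4 * ρ ≤ 1 / 2 := by
    have h1 : ρ * (2 ^ d * (12 * D)) ≤ 2 := by
      rw [hρe]
      exact he2
    have hp3 : (2 : ℝ) ≤ 2 ^ d := by
      calc (2 : ℝ) = 2 ^ 1 := by norm_num
        _ ≤ 2 ^ d := pow_le_pow_right₀ (by norm_num) hd1
    have h2 : ρ * (2 * (12 * 1)) ≤ ρ * (2 ^ d * (12 * D)) := by
      refine mul_le_mul_of_nonneg_left ?_ hρ0.le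
      exact mul_le_mul hp3 (by linarith) (by norm_num) (by positivity)
    linarith
  -- the normalised vector
  obtain ⟨l0, hl0⟩ : ∃ l0, ∀ l, |x l| ≤ |x l0| := by
    obtain ⟨l0, -, h⟩ := Finset.exists_max_image Finset.univ (fun l => |x l|) Finset.univ_nonempty
    exact ⟨l0, fun l => h l (Finset.mem_univ l)⟩
  have hM0 : 0 < |x l0| := by
    by_contra hcon
    apply hx
    funext l
    have h1 := hl0 l
    have h2 : |x l| ≤ 0 := h1.trans (not_lt.1 hcon)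
    exact abs_eq_zero.1 (le_antisymm h2 (abs_nonneg _))
  obtain ⟨c, hc⟩ : ∃ c : ℝ, c = (2 * |x l0|)⁻¹ := ⟨_, rfl⟩
  have hc0 : 0 < c := by
    rw [hc]
    positivity
  have hcM : c * |x l0| = 1 / 2 := by
    rw [hc]
    field_simp
  obtain ⟨z, hz⟩ : ∃ z : Vc n ℝ, z = fun l => c * x l := ⟨_, rfl⟩
  have hz1 : ∀ l, |z l| ≤ 1 / 2 := by
    intro l
    rw [hz]
    show |c * x l| ≤ 1 / 2
    rw [abs_mul, abs_of_pos hc0, ← hcM]
    exact mul_le_mul_of_nonneg_left (hl0 l) hc0.le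
  have hz2 : |z l0| = 1 / 2 := by
    rw [hz]
    show |c * x l0| = 1 / 2
    rw [abs_mul, abs_of_pos hc0, hcM]
  have hz3 : 0 ≤ ev β z := by
    rw [hz, ev_scale]
    exact mul_nonneg (by positivity) hev
  have hz4 : e / 2 ^ d ≤ ev (β + e • dg n d ℝ) z := by
    rw [ev_add, ev_smul', ev_dg hd1]
    have h1 : z l0 ^ d ≤ ∑ i, z i ^ d :=
      Finset.single_le_sum (f := fun i => z i ^ d) (fun i _ => hde.pow_nonneg (z i))
        (Finset.mem_univ l0)
    have h2 : z l0 ^ d = 1 / 2 ^ d := by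
      rw [← hde.pow_abs, hz2, one_div, inv_pow, one_div]
    have h3 : e * (1 / 2 ^ d) ≤ e * ∑ i, z i ^ d := by
      rw [← h2]
      exact mul_le_mul_of_nonneg_left h1 he.le
    have h4 : e * (1 / 2 ^ d) = e / 2 ^ d := by ring
    linarith
  -- the bound for the entries
  have hα : ∀ s, |(β + e • dg n d ℝ) s| ≤ 3 := by
    intro s
    have h1 : |dg n d ℝ s| ≤ 1 := by
      unfold dg
      split_ifs
      · norm_num
      · norm_num
    rw [Pi.add_apply, Pi.smul_apply, smul_eq_mul]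
    refine (abs_add_le _ _).trans ?_
    rw [abs_mul, abs_of_pos he]
    have h2 : e * |dg n d ℝ s| ≤ 2 * 1 :=
      mul_le_mul he2 h1 (abs_nonneg _) (by norm_num)
    linarith [hβ s]
  obtain ⟨η, hη, hη1, hη2⟩ : ∃ η : ℝ, |η| = 2 * ρ ∧ 2 * ρ ≤ |z o + η| ∧ |η| ≤ 2 * ρ := by
    rcases le_or_gt 0 (z o) with h | h
    · refine ⟨2 * ρ, abs_of_pos (by linarith), ?_, (abs_of_pos (by linarith)).le⟩
      rw [abs_of_nonneg (by linarith)]
      linarith
    · refine ⟨-(2 * ρ), ?_, ?_, ?_⟩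
      · rw [abs_neg, abs_of_pos (by linarith)]
      · rw [abs_of_neg (by linarith)]
        linarith
      · rw [abs_neg, abs_of_pos (by linarith)]
  refine ⟨fun l => if l = o then z o + η else z l, fun y hy => ?_⟩
  have hyo : |y o - (z o + η)| ≤ ρ := by
    have h1 := hy o
    beta_reduce at h1
    rwa [if_pos rfl] at h1
  have hyz : ∀ l, |y l - z l| ≤ 4 * ρ := by
    intro l
    by_cases hl : l = o
    · rw [hl]
      have h1 : y o - z o = (y o - (z o + η)) + η := by ring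
      rw [h1]
      refine (abs_add_le _ _).trans ?_
      linarith
    · have h1 := hy l
      beta_reduce at h1
      rw [if_neg hl] at h1
      linarith
  have hy1 : ∀ l, |y l| ≤ 1 := by
    intro l
    have h1 : y l = (y l - z l) + z l := by ring
    rw [h1]
    refine (abs_add_le _ _).trans ?_
    linarith [hyz l, hz1 l]
  refine ⟨?_, hy1, ?_⟩
  · have h1 : z o + η = y o - (y o - (z o + η)) := by ring
    have h2 : |z o + η| ≤ |y o| + |y o - (z o + η)| := by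
      calc |z o + η| = |y o - (y o - (z o + η))| := by rw [← h1]
        _ ≤ |y o| + |y o - (z o + η)| := abs_sub _ _
    linarith
  · have h1 := RP_Shift_lip (β + e • dg n d ℝ) 3 (4 * ρ) hα z y
      (fun l => (hz1 l).trans (by norm_num)) hy1 hyz
    rw [← hD, Real.norm_eq_abs] at h1
    have h2 : 3 * D * (4 * ρ) = e / 2 ^ d := by
      rw [← hρe]
      field_simp
      ring
    have h3 := (abs_le.1 h1).1
    linarith

theorem robShift (n d t m : ℕ) (hd : d = t * m) (ht : 1 ≤ t) (hm : 1 ≤ m) (hte : Even t) :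
    ∃ c : ℝ, 0 < c ∧ c ≤ 1 ∧ ∀ (K : Type) [Field K] [NumberField K] (v : InfinitePlace K),
    v.IsReal → ∀ (o : Fin (n + 1)) (A : ℕ), 1 ≤ A → ∀ F ∈ Box K n d A, RSolT t v F →
    ∀ b : ℕ, 1 ≤ b → b ≤ 2 * A →
    RobT t v o (c * b / A) (scT v A (F + b • dg n d (𝓞 K))) := by
  have hd1 : 1 ≤ d := by
    rw [hd]
    exact Nat.mul_pos ht hm
  have hde : Even d := by
    rw [hd]
    exact hte.mul_right m
  have hd1' : (1 : ℝ) ≤ d := by exact_mod_cast hd1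
  have hn1 : (1 : ℝ) ≤ ((n : ℝ) + 1) ^ d := one_le_pow₀ (by linarith [Nat.cast_nonneg (α := ℝ) n])
  have hD1 : 1 ≤ (d : ℝ) * (n + 1) ^ d := one_le_mul_of_one_le_of_one_le hd1' hn1
  have hp2 : (1 : ℝ) ≤ 2 ^ d := one_le_pow₀ (by norm_num)
  have hden : (1 : ℝ) ≤ 2 ^ d * (12 * (d * (n + 1) ^ d)) :=
    one_le_mul_of_one_le_of_one_le hp2 (by linarith)
  refine ⟨1 / (2 ^ d * (12 * (d * (n + 1) ^ d))), by positivity,
    (div_le_one (by linarith)).2 hden, ?_⟩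
  intro K _ _ v hv o A hA F hF hsol b hb hbA
  have hA0 : (0 : ℝ) < A := by exact_mod_cast hA
  have hb0 : (0 : ℝ) < b := by exact_mod_cast hb
  have hbA' : (b : ℝ) ≤ 2 * A := by exact_mod_cast hbA
  obtain ⟨x, u, hx, hu, hx0, hxu⟩ := hsol
  -- real vectors
  have hreal : ∀ z : ℂ, z ∈ KK v → z = ((z.re : ℝ) : ℂ) := by
    intro z hz
    have h := hz hv
    apply Complex.ext
    · simp
    · simp [h]
  obtain ⟨β, hβdef⟩ : ∃ β : Ten n d ℝ, β = fun s => (em v (F s)).re / A := ⟨_, rfl⟩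
  have hβc : ∀ s, ((β s : ℝ) : ℂ) = em v (F s) / (A : ℂ) := by
    intro s
    rw [hβdef]
    show (((em v (F s)).re / (A : ℝ) : ℝ) : ℂ) = em v (F s) / (A : ℂ)
    rw [Complex.ofReal_div, ← hreal _ (em_mem_KK v (F s)), Complex.ofReal_natCast]
  have hβ1 : ∀ s, |β s| ≤ 1 := by
    intro s
    have h1 : ‖((β s : ℝ) : ℂ)‖ = |β s| := by
      rw [Complex.norm_real, Real.norm_eq_abs]
    rw [← h1, hβc s, norm_div, norm_em, Complex.norm_natCast, div_le_one hA0]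
    exact mem_Box.1 hF s v
  obtain ⟨x', hx'⟩ : ∃ x' : Vc n ℝ, x' = fun l => (x l).re := ⟨_, rfl⟩
  have hxc : ∀ l, ((x' l : ℝ) : ℂ) = x l := by
    intro l
    rw [hx']
    exact (hreal _ (hx l)).symm
  have hx'0 : x' ≠ 0 := by
    intro h
    apply hx0
    funext l
    rw [← hxc l, h]
    simp
  have hevx : 0 ≤ ev β x' := by
    have h1 : ((ev β x' : ℝ) : ℂ) = (A : ℂ)⁻¹ * u ^ t := by
      have h2 : ((ev β x' : ℝ) : ℂ) = ev (fun s => ((β s : ℝ) : ℂ)) (fun l => ((x' l : ℝ) : ℂ)) :=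
        (ev_map Complex.ofRealHom β x').symm
      have h3 : (fun s => ((β s : ℝ) : ℂ)) = fun s => (A : ℂ)⁻¹ * tmap (em v) F s := by
        funext s
        rw [hβc s, div_eq_inv_mul]
        rfl
      have h4 : (fun l => ((x' l : ℝ) : ℂ)) = x := funext hxc
      rw [h2, h3, h4, ev_smul, hxu]
    have h2 : u ^ t = ((u.re ^ t : ℝ) : ℂ) := by
      rw [Complex.ofReal_pow, ← hreal u hu]
    rw [h2] at h1
    have h3 : ev β x' = (A : ℝ)⁻¹ * u.re ^ t := by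
      have h4 : ((ev β x' : ℝ) : ℂ) = (((A : ℝ)⁻¹ * u.re ^ t : ℝ) : ℂ) := by
        rw [h1]
        push_cast
        rfl
      exact_mod_cast h4
    rw [h3]
    exact mul_nonneg (by positivity) (hte.pow_nonneg _)
  obtain ⟨ξ, hξ⟩ := RP_Shift_real n d hd1 hde β hβ1 x' hx'0 hevx o ((b : ℝ) / A)
    (by positivity) (by rw [div_le_iff₀ hA0]; linarith)
    (1 / (2 ^ d * (12 * (d * (n + 1) ^ d))) * b / A) (by ring)
  refine ⟨fun l => ((ξ l : ℝ) : ℂ), fun l => KK_real v _, fun y hy hyξ => ?_⟩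
  obtain ⟨y', hy'⟩ : ∃ y' : Vc n ℝ, y' = fun l => (y l).re := ⟨_, rfl⟩
  have hyc : ∀ l, ((y' l : ℝ) : ℂ) = y l := by
    intro l
    rw [hy']
    exact (hreal _ (hy l)).symm
  have hyn : ∀ l, ‖y l‖ = |y' l| := by
    intro l
    rw [← hyc l, Complex.norm_real, Real.norm_eq_abs]
  have hyξ' : ∀ l, |y' l - ξ l| ≤ 1 / (2 ^ d * (12 * (d * (n + 1) ^ d))) * b / A := by
    intro l
    have h1 := hyξ l
    rw [← hyc l, ← Complex.ofReal_sub, Complex.norm_real, Real.norm_eq_abs] at h1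
    exact h1
  obtain ⟨h1, h2, h3⟩ := hξ y' hyξ'
  refine ⟨by rw [hyn]; exact h1, fun l => by rw [hyn]; exact h2 l, ?_⟩
  have h4 : ev (scT v A (F + b • dg n d (𝓞 K))) y =
      ((ev (β + ((b : ℝ) / A) • dg n d ℝ) y' : ℝ) : ℂ) := by
    have h5 : ((ev (β + ((b : ℝ) / A) • dg n d ℝ) y' : ℝ) : ℂ) =
        ev (fun s => (((β + ((b : ℝ) / A) • dg n d ℝ) s : ℝ) : ℂ)) (fun l => ((y' l : ℝ) : ℂ)) :=
      (ev_map Complex.ofRealHom _ y').symm
    have h6 : (fun l => ((y' l : ℝ) : ℂ)) = y := funext hyc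
    have h7 : (fun s => (((β + ((b : ℝ) / A) • dg n d ℝ) s : ℝ) : ℂ)) =
        scT v A (F + b • dg n d (𝓞 K)) := by
      funext s
      rw [Pi.add_apply, Pi.smul_apply, smul_eq_mul, Complex.ofReal_add, hβc s]
      unfold scT
      rw [Pi.add_apply, Pi.smul_apply, map_add, add_div, nsmul_eq_mul, map_mul, map_natCast]
      congr 1
      unfold dg
      split_ifs
      · rw [map_one]
        push_cast
        ring
      · rw [map_zero]
        push_cast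
        ring
    rw [h5, h6, h7]
  have h8 : ev (scT v A (F + b • dg n d (𝓞 K))) y ∈ KK v := by
    rw [h4]
    exact KK_real v _
  refine root t ht v h8 (Or.inr (Or.inr ?_))
  rw [h4, Complex.ofReal_re]
  exact h3

end Pool.Agent.Lib.MP_1ad228_ntW
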