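import Pool.Agent.Lib.MP_1ad228_ntW.Defs
import Pool.Agent.Lib.MP_1ad228_ntN.NB_Em

/-!
JOB RP_Triv.  Robust solubility at complex places, and for odd `t`; monotonicity.

`robMono`: same `ξ`; `‖y l - ξ l‖ ≤ ρ' ≤ ρ`, `ρ' ≤ ρ ≤ ‖y o‖`.
`evReal`: sums and products of elements of `KK v` (`KK_sum`, `KK_mul`, a product lemma by induction).
`root`: for `c ∈ KK v` there is `s ∈ KK v` with `c = s ^ t` if `v` is not real (`KK v` is everything; `IsAlgClosed.exists_pow_nat_eq`), or `t` is odd (`c` is real, real `t`-th root: `Odd.pow_bijective`/`Odd.strictMono_pow`, or `sign * |c|^(1/t)`), or `0 ≤ c.re`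
 (real, `s = (c.re)^(1/t)`, `Real.rpow_natCast`, `Real.rpow_inv_natCast_pow`).
`robTriv`: `ξ l = 1/2` for all `l` (`KK_real`), `ρ = 1/4`: `‖y l - 1/2‖ ≤ 1/4` gives `1/4 ≤ ‖y l‖ ≤ 3/4`; the value `ev (scT v A F) y ∈ KK v` (`evReal`, the entries of `scT` are in `KK v`: `em_mem_KK`, `KK_div`), `root`.
-/

namespace Pool.Agent.Lib.MP_1ad228_ntW

open NumberField Classical Pool.Agent.Lib.MP_1ad228_ntN

variable {K : Type} [Field K] [NumberField K] {n d : ℕ}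

private theorem rpTriv_prod {ι : Type*} {v : InfinitePlace K} (s : Finset ι) (f : ι → ℂ)
    (h : ∀ i ∈ s, f i ∈ KK v) : ∏ i ∈ s, f i ∈ KK v := by
  induction s using Finset.induction_on with
  | empty =>
    rw [Finset.prod_empty]
    exact_mod_cast KK_real v (1 : ℝ)
  | insert a s ha ih =>
    rw [Finset.prod_insert ha]
    exact KK_mul (h a (Finset.mem_insert_self a s))
      (ih fun i hi => h i (Finset.mem_insert_of_mem hi))

private theorem rpTriv_re {v : InfinitePlace K} (hv : v.IsReal) {c : ℂ} (hc : c ∈ KK v) :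
    c = ((c.re : ℝ) : ℂ) := by
  apply Complex.ext
  · rw [Complex.ofReal_re]
  · rw [Complex.ofReal_im]
    exact hc hv

theorem robMono {t : ℕ} {v : InfinitePlace K} {o : Fin (n + 1)} {ρ ρ' : ℝ} {α : Ten n d ℂ}
    (h : ρ' ≤ ρ) (hR : RobT t v o ρ α) : RobT t v o ρ' α := by
  obtain ⟨ξ, hξ, H⟩ := hR
  refine ⟨ξ, hξ, fun y hy hyρ => ?_⟩
  obtain ⟨h1, h2, h3⟩ := H y hy fun l => (hyρ l).trans h
  exact ⟨h.trans h1, h2, h3⟩

theorem evReal {v : InfinitePlace K} {α : Ten n d ℂ} (ha : ∀ s, α s ∈ KK v) {y : Vc n ℂ}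
    (hy : ∀ l, y l ∈ KK v) : ev α y ∈ KK v := by
  unfold ev
  exact KK_sum _ _ fun s _ => KK_mul (ha s) (rpTriv_prod _ _ fun k _ => hy _)

theorem root (t : ℕ) (ht : 1 ≤ t) (v : InfinitePlace K) {c : ℂ} (hc : c ∈ KK v)
    (h : ¬ v.IsReal ∨ Odd t ∨ 0 ≤ c.re) : ∃ s ∈ KK v, c = s ^ t := by
  by_cases hv : v.IsReal
  · have hcr := rpTriv_re hv hc
    have key : ∃ r : ℝ, r ^ t = c.re := by
      rcases h with h | h | h
      · exact absurd hv h
      · have h0 : t ≠ 0 := by omega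
        rcases le_total 0 c.re with hp | hp
        · exact ⟨c.re ^ ((t : ℝ)⁻¹), Real.rpow_inv_natCast_pow hp h0⟩
        · refine ⟨-((-c.re) ^ ((t : ℝ)⁻¹)), ?_⟩
          rw [h.neg_pow, Real.rpow_inv_natCast_pow (by linarith) h0, neg_neg]
      · have h0 : t ≠ 0 := by omega
        exact ⟨c.re ^ ((t : ℝ)⁻¹), Real.rpow_inv_natCast_pow h h0⟩
    obtain ⟨r, hr⟩ := key
    refine ⟨(r : ℂ), KK_real v r, ?_⟩
    rw [hcr, ← hr, Complex.ofReal_pow]
  · obtain ⟨z, hz⟩ := IsAlgClosed.exists_pow_nat_eq c (show 0 < t by omega)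
    exact ⟨z, fun hr => absurd hr hv, hz.symm⟩

theorem robTriv (t : ℕ) (ht : 1 ≤ t) (v : InfinitePlace K) (o : Fin (n + 1))
    (h : ¬ v.IsReal ∨ Odd t) (A : ℕ) (F : Ten n d (𝓞 K)) : RobT t v o (1 / 4) (scT v A F) := by
  refine ⟨fun _ => ((1 / 2 : ℝ) : ℂ), fun _ => KK_real v _, fun y hy hyρ => ?_⟩
  have hhalf : ‖((1 / 2 : ℝ) : ℂ)‖ = 1 / 2 := by
    rw [Complex.norm_real]
    norm_num
  have hlow : ∀ l, 1 / 4 ≤ ‖y l‖ := by
    intro l
    have h1 := norm_sub_norm_le ((1 / 2 : ℝ) : ℂ) (y l)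
    have h2 := hyρ l
    rw [norm_sub_rev] at h2
    rw [hhalf] at h1
    linarith
  have hup : ∀ l, ‖y l‖ ≤ 1 := by
    intro l
    have h1 := norm_sub_norm_le (y l) ((1 / 2 : ℝ) : ℂ)
    have h2 := hyρ l
    rw [hhalf] at h1
    linarith
  refine ⟨hlow o, hup, ?_⟩
  have hev : ev (scT v A F) y ∈ KK v := by
    refine evReal (fun s => ?_) hy
    unfold scT
    refine KK_div (em_mem_KK v _) ?_
    exact_mod_cast KK_real v (A : ℝ)
  refine root t ht v hev ?_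
  rcases h with h | h
  · exact Or.inl h
  · exact Or.inr (Or.inl h)

end Pool.Agent.Lib.MP_1ad228_ntW
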